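import Pool.Agent.W_MP_93ab53_an.KDefs

/-!
Equidistribution and uniform integrability of the node angles from the log lemma.
-/

namespace ErdosLag

open Real MeasureTheory intervalIntegral Finset Polynomial

/-- Fourier expansion of `log ‖1 - 2 cos θ ζ + ζ ^ 2‖`, `ζ = ρ e^{iφ}`. -/
lemma hasSum_log (ρ θ φ : ℝ) (h0 : 0 ≤ ρ) (h1 : ρ < 1) :
    HasSum (fun m : ℕ => -(2 * (ρ ^ m / m) * (Real.cos (m * θ) * Real.cos (m * φ))))
      (Real.log ‖1 - 2 * ((Real.cos θ : ℝ) : ℂ) * (ρ * Complex.exp (φ * Complex.I))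
        + (ρ * Complex.exp (φ * Complex.I)) ^ 2‖) := by
  have key : ∀ a : ℝ, HasSum (fun m : ℕ => ρ ^ m / m * Real.cos (m * a))
      (-Real.log ‖1 - ρ * Complex.exp (a * Complex.I)‖) := by
    intro a
    have hz : ‖(ρ : ℂ) * Complex.exp (a * Complex.I)‖ < 1 := by
      rw [norm_mul, Complex.norm_exp_ofReal_mul_I, mul_one, Complex.norm_real, Real.norm_eq_abs,
        abs_of_nonneg h0]
      exact h1
    have h := Complex.hasSum_taylorSeries_neg_log hz
    have h' := Complex.hasSum_re h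
    rw [Complex.neg_re, Complex.log_re] at h'
    convert h' using 2 with m
    have : ((ρ : ℂ) * Complex.exp (a * Complex.I)) ^ m / m
        = ((ρ ^ m / m : ℝ) : ℂ) * Complex.exp (((m * a : ℝ) : ℂ) * Complex.I) := by
      rw [mul_pow, ← Complex.exp_nat_mul]
      push_cast
      ring_nf
    rw [this, Complex.re_ofReal_mul, Complex.exp_ofReal_mul_I_re]
  have hne : ∀ a : ℝ, 1 - (ρ : ℂ) * Complex.exp (a * Complex.I) ≠ 0 := by
    intro a h
    have h2 : ‖(ρ : ℂ) * Complex.exp (a * Complex.I)‖ = 1 := by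
      rw [← sub_eq_zero.mp h]; simp
    rw [norm_mul, Complex.norm_exp_ofReal_mul_I, mul_one, Complex.norm_real, Real.norm_eq_abs,
        abs_of_nonneg h0] at h2
    linarith
  have hs := ((key (φ + θ)).add (key (φ - θ))).neg
  have hfac : (1 - 2 * ((Real.cos θ : ℝ) : ℂ) * (ρ * Complex.exp (φ * Complex.I))
        + (ρ * Complex.exp (φ * Complex.I)) ^ 2)
      = (1 - ρ * Complex.exp (((φ + θ : ℝ) : ℂ) * Complex.I)) *
        (1 - ρ * Complex.exp (((φ - θ : ℝ) : ℂ) * Complex.I)) := by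
    have e1 : Complex.exp (((φ + θ : ℝ) : ℂ) * Complex.I)
        = Complex.exp (φ * Complex.I) * Complex.exp (θ * Complex.I) := by
      rw [← Complex.exp_add]; push_cast; ring_nf
    have e2 : Complex.exp (((φ - θ : ℝ) : ℂ) * Complex.I)
        = Complex.exp (φ * Complex.I) * Complex.exp (-(θ * Complex.I)) := by
      rw [← Complex.exp_add]; push_cast; ring_nf
    have e3 : Complex.exp (θ * Complex.I) * Complex.exp (-(θ * Complex.I)) = 1 := by
      rw [← Complex.exp_add]; simp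
    have e4 : 2 * ((Real.cos θ : ℝ) : ℂ)
        = Complex.exp (θ * Complex.I) + Complex.exp (-(θ * Complex.I)) := by
      rw [Complex.ofReal_cos, Complex.cos]; ring_nf
    rw [e1, e2, e4]
    linear_combination (-(ρ : ℂ) ^ 2 * Complex.exp (φ * Complex.I) ^ 2) * e3
  rw [hfac, norm_mul, Real.log_mul (norm_ne_zero_iff.2 (hne _)) (norm_ne_zero_iff.2 (hne _))]
  have e1 : (fun m : ℕ => -(2 * (ρ ^ m / m) * (Real.cos (m * θ) * Real.cos (m * φ))))
      = fun m : ℕ => -(ρ ^ m / m * Real.cos (m * (φ + θ)) + ρ ^ m / m * Real.cos (m * (φ - θ))) := by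
    funext m
    have : Real.cos (m * (φ + θ)) + Real.cos (m * (φ - θ))
        = 2 * (Real.cos (m * θ) * Real.cos (m * φ)) := by
      rw [mul_add, mul_sub, Real.cos_add, Real.cos_sub]; ring
    linear_combination (ρ ^ m / m) * this
  rw [e1]
  rw [neg_add, neg_neg, neg_neg] at hs
  exact hs

lemma integral_cos_nat_mul_E (c : ℝ) (hc : c ≠ 0) (b : ℝ) (hb : Real.sin (c * b) = 0) :
    ∫ φ in (0:ℝ)..b, Real.cos (c * φ) = 0 := by
  rw [intervalIntegral.integral_comp_mul_left (fun x => Real.cos x) hc]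
  simp [hb]

lemma integral_cos_int_two_pi (c : ℤ) (hc : c ≠ 0) :
    ∫ φ in (0:ℝ)..(2 * π), Real.cos ((c : ℝ) * φ) = 0 := by
  refine integral_cos_nat_mul_E _ (by exact_mod_cast hc) _ ?_
  have : (c : ℝ) * (2 * π) = ((2 * c : ℤ) : ℝ) * π := by push_cast; ring
  rw [this, Real.sin_int_mul_pi]

lemma integral_cos_nat_pi (m : ℕ) (hm : m ≠ 0) :
    ∫ φ in (0:ℝ)..π, Real.cos ((m : ℝ) * φ) = 0 := by
  refine integral_cos_nat_mul_E _ (by exact_mod_cast hm) _ ?_
  rw [Real.sin_nat_mul_pi]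

lemma integral_cos_mul_cos (j m : ℕ) (hj : j ≠ 0) (hm : m ≠ 0) :
    ∫ φ in (0:ℝ)..(2 * π), Real.cos (j * φ) * Real.cos (m * φ) = if j = m then π else 0 := by
  have h : ∀ φ : ℝ, Real.cos (j * φ) * Real.cos (m * φ)
      = (Real.cos (((j - m : ℤ) : ℝ) * φ) + Real.cos (((j + m : ℤ) : ℝ) * φ)) / 2 := by
    intro φ
    push_cast
    rw [sub_mul, add_mul, Real.cos_add, Real.cos_sub]; ring
  simp_rw [h]
  rw [intervalIntegral.integral_div, intervalIntegral.integral_add
    (Continuous.intervalIntegrable (by fun_prop) _ _)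
    (Continuous.intervalIntegrable (by fun_prop) _ _)]
  rw [integral_cos_int_two_pi ((j:ℤ) + m) (by positivity)]
  split_ifs with hjm
  · subst hjm
    simp
  · rw [integral_cos_int_two_pi ((j:ℤ) - m) (by
      intro h0; apply hjm; exact_mod_cast sub_eq_zero.mp h0)]
    simp

/-- The function `φ ↦ log ‖1 - 2 cos θ ζ + ζ ^ 2‖`, `ζ = ρ e^{iφ}`. -/
noncomputable def lg (ρ θ φ : ℝ) : ℝ :=
  Real.log ‖1 - 2 * ((Real.cos θ : ℝ) : ℂ) * (ρ * Complex.exp (φ * Complex.I))
        + (ρ * Complex.exp (φ * Complex.I)) ^ 2‖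

lemma summable_pow_div (ρ : ℝ) (h0 : 0 ≤ ρ) (h1 : ρ < 1) :
    Summable (fun m : ℕ => ρ ^ m / m) := by
  refine Summable.of_nonneg_of_le (fun m => by positivity) (fun m => ?_)
    (summable_geometric_of_lt_one h0 h1)
  rcases Nat.eq_zero_or_pos m with rfl | hm
  · simp
  · exact div_le_self (by positivity) (by exact_mod_cast hm)

lemma continuous_lg (ρ : ℝ) (h0 : 0 ≤ ρ) (h1 : ρ < 1) :
    Continuous (fun p : ℝ × ℝ => lg ρ p.1 p.2) := by
  have : (fun p : ℝ × ℝ => lg ρ p.1 p.2) = fun p : ℝ × ℝ =>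
      ∑' m : ℕ, -(2 * (ρ ^ m / m) * (Real.cos (m * p.1) * Real.cos (m * p.2))) := by
    funext p
    exact ((hasSum_log ρ p.1 p.2 h0 h1).tsum_eq).symm
  rw [this]
  refine continuous_tsum (u := fun m : ℕ => 2 * (ρ ^ m / m)) (fun m => by fun_prop)
    ((summable_pow_div ρ h0 h1).mul_left 2) (fun m p => ?_)
  rw [norm_neg, norm_mul, Real.norm_eq_abs, abs_of_nonneg (by positivity : 0 ≤ 2 * (ρ ^ m / m))]
  refine mul_le_of_le_one_right (by positivity) ?_
  rw [norm_mul]
  exact mul_le_one₀ (Real.abs_cos_le_one _) (norm_nonneg _) (Real.abs_cos_le_one _)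

lemma continuous_lg_right (ρ : ℝ) (h0 : 0 ≤ ρ) (h1 : ρ < 1) (θ : ℝ) :
    Continuous (fun φ : ℝ => lg ρ θ φ) := by
  have h2 : Continuous (fun φ : ℝ => ((θ, φ) : ℝ × ℝ)) := by fun_prop
  have h3 := (continuous_lg ρ h0 h1).comp h2
  exact h3

lemma continuous_lg_left (ρ : ℝ) (h0 : 0 ≤ ρ) (h1 : ρ < 1) (φ : ℝ) :
    Continuous (fun θ : ℝ => lg ρ θ φ) := by
  have h2 : Continuous (fun θ : ℝ => ((θ, φ) : ℝ × ℝ)) := by fun_prop
  have h3 := (continuous_lg ρ h0 h1).comp h2
  exact h3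

lemma integral_lg_mul (ρ θ : ℝ) (h0 : 0 ≤ ρ) (h1 : ρ < 1) (m : ℕ) (hm : m ≠ 0) (s : ℝ) :
    ∫ φ in (0:ℝ)..(2 * π), lg ρ θ φ * (1 + s * Real.cos (m * φ))
      = -(2 * π * s * (ρ ^ m / m) * Real.cos (m * θ)) := by
  have H : HasSum (fun j : ℕ => ∫ φ in (0:ℝ)..(2 * π),
      -(2 * (ρ ^ j / j) * (Real.cos (j * θ) * Real.cos (j * φ))) * (1 + s * Real.cos (m * φ)))
      (∫ φ in (0:ℝ)..(2 * π), lg ρ θ φ * (1 + s * Real.cos (m * φ))) := by
    refine intervalIntegral.hasSum_integral_of_dominated_convergence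
      (fun (j : ℕ) (_ : ℝ) => 2 * (ρ ^ j / j) * (1 + |s|)) ?_ ?_ ?_ ?_ ?_
    · intro j
      exact Continuous.aestronglyMeasurable (by fun_prop)
    · intro j
      refine Filter.Eventually.of_forall fun t _ => ?_
      rw [norm_mul, norm_neg, norm_mul, Real.norm_eq_abs,
        abs_of_nonneg (by positivity : 0 ≤ 2 * (ρ ^ j / j))]
      have e1 : ‖Real.cos (j * θ) * Real.cos (j * t)‖ ≤ 1 := by
        rw [norm_mul]
        exact mul_le_one₀ (Real.abs_cos_le_one _) (norm_nonneg _) (Real.abs_cos_le_one _)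
      have e2 : ‖1 + s * Real.cos (m * t)‖ ≤ 1 + |s| := by
        refine (norm_add_le _ _).trans ?_
        rw [norm_one, norm_mul, Real.norm_eq_abs]
        have := mul_le_of_le_one_right (abs_nonneg s) (Real.abs_cos_le_one (m * t))
        rw [Real.norm_eq_abs]
        linarith
      exact mul_le_mul (mul_le_of_le_one_right (by positivity) e1) e2 (norm_nonneg _)
        (by positivity)
    · refine Filter.Eventually.of_forall fun t _ => ?_
      exact ((summable_pow_div ρ h0 h1).mul_left 2).mul_right _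
    · exact intervalIntegrable_const
    · refine Filter.Eventually.of_forall fun t _ => ?_
      exact (hasSum_log ρ θ t h0 h1).mul_right _
  have H2 : ∀ j : ℕ, (∫ φ in (0:ℝ)..(2 * π),
      -(2 * (ρ ^ j / j) * (Real.cos (j * θ) * Real.cos (j * φ))) * (1 + s * Real.cos (m * φ)))
      = if j = m then -(2 * π * s * (ρ ^ m / m) * Real.cos (m * θ)) else 0 := by
    intro j
    rcases Nat.eq_zero_or_pos j with rfl | hj
    · simp [hm.symm]
    have e : ∀ φ : ℝ, -(2 * (ρ ^ j / j) * (Real.cos (j * θ) * Real.cos (j * φ)))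
        * (1 + s * Real.cos (m * φ))
        = -(2 * (ρ ^ j / j) * Real.cos (j * θ)) * (Real.cos (((j : ℤ) : ℝ) * φ)
          + s * (Real.cos (j * φ) * Real.cos (m * φ))) := by
      intro φ; push_cast; ring
    simp_rw [e]
    rw [intervalIntegral.integral_const_mul, intervalIntegral.integral_add
      (Continuous.intervalIntegrable (by fun_prop) _ _)
      (Continuous.intervalIntegrable (by fun_prop) _ _), intervalIntegral.integral_const_mul,
      integral_cos_mul_cos j m hj.ne' hm, integral_cos_int_two_pi (j:ℤ) (by positivity)]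
    split_ifs with hjm
    · subst hjm; ring
    · ring
  simp_rw [H2] at H
  exact H.unique (by
    have := hasSum_ite_eq m (-(2 * π * s * (ρ ^ m / m) * Real.cos (m * θ)))
    exact this)

lemma lg_eq_log {n : ℕ} {x : Fin n → ℝ} (hx : Nodes x) (k : Fin n) (ρ φ : ℝ) :
    lg ρ (th x k) φ = Real.log ‖1 - 2 * (x k : ℂ) * (ρ * Complex.exp (φ * Complex.I))
        + (ρ * Complex.exp (φ * Complex.I)) ^ 2‖ := by
  unfold lg
  rw [hx.cos_th]

/-- The log lemma in logarithmic form. -/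
lemma sum_lg_ge (h : LogLemma) {n : ℕ} {x : Fin n → ℝ} (hn : 2 ≤ n) (hx : Nodes x) (hI : I x ≤ 2)
    (ρ φ : ℝ) (h0 : 0 ≤ ρ) (h1 : ρ < 1) (hq : ρ ^ (2 * n - 2) ≤ 1 / 2) :
    Real.log (π / 16) + 2 * Real.log (1 - ρ) - Real.log n / 2 ≤ ∑ k, lg ρ (th x k) φ := by
  have hz : ‖(ρ : ℂ) * Complex.exp (φ * Complex.I)‖ = ρ := by
    rw [norm_mul, Complex.norm_exp_ofReal_mul_I, mul_one, Complex.norm_real, Real.norm_eq_abs,
        abs_of_nonneg h0]
  have H := h n x (by omega) hx hI _ (hz.le.trans_lt h1)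
  rw [hz] at H
  have hn0 : (0:ℝ) < n := by positivity
  have hsq : (0:ℝ) < √n := Real.sqrt_pos.2 hn0
  have hlow : (π / 16) * (1 - ρ) ^ 2 / √n
      ≤ ∏ k, ‖1 - 2 * (x k : ℂ) * (ρ * Complex.exp (φ * Complex.I))
        + (ρ * Complex.exp (φ * Complex.I)) ^ 2‖ := by
    refine le_trans ?_ H
    refine div_le_div_of_nonneg_right ?_ hsq.le
    refine mul_le_mul_of_nonneg_right ?_ (by positivity)
    nlinarith [Real.pi_pos]
  have hpos : 0 < (π / 16) * (1 - ρ) ^ 2 / √n := by
    have : 0 < 1 - ρ := by linarith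
    positivity
  have h2 := Real.log_le_log hpos hlow
  rw [Real.log_prod (fun k _ => ?_)] at h2
  · rw [Real.log_div (by have : 0 < 1 - ρ := by linarith
                         positivity) hsq.ne', Real.log_mul (by positivity)
                          (by have : 0 < 1 - ρ := by linarith
                              positivity), Real.log_pow, Real.log_sqrt hn0.le] at h2
    simp_rw [lg_eq_log hx]
    push_cast at h2
    exact h2
  · intro h0'
    have hp := hpos.trans_le hlow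
    rw [Finset.prod_eq_zero (Finset.mem_univ k) h0'] at hp
    exact lt_irrefl _ hp

/-- Bound for the exponential sums of the node angles. -/
lemma weyl (h : LogLemma) {n : ℕ} {x : Fin n → ℝ} (hn : 2 ≤ n) (hx : Nodes x) (hI : I x ≤ 2)
    (m : ℕ) (hm : m ≠ 0) :
    |∑ k, Real.cos (m * th x k)| ≤ m * 2 ^ m *
      (-Real.log (π / 16) + 2 * Real.log 2 + Real.log n / 2) := by
  set K : ℝ := -Real.log (π / 16) + 2 * Real.log 2 + Real.log n / 2 with hK
  have hF : ∀ φ, -K ≤ ∑ k, lg (1/2) (th x k) φ := by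
    intro φ
    have h1 := sum_lg_ge h hn hx hI (1/2) φ (by norm_num) (by norm_num) (by
      calc (1/2:ℝ) ^ (2 * n - 2) ≤ (1/2) ^ 1 := by
            apply pow_le_pow_of_le_one (by norm_num) (by norm_num); omega
        _ = 1/2 := by norm_num)
    have h2 : Real.log (1 - 1/2 : ℝ) = - Real.log 2 := by
      rw [← Real.log_inv]; norm_num
    rw [h2] at h1
    linarith
  have key : ∀ s : ℝ, |s| = 1 → s * (∑ k, Real.cos (m * th x k)) ≤ m * 2 ^ m * K := by
    intro s hs
    have hnn : ∀ φ : ℝ, 0 ≤ 1 + s * Real.cos (m * φ) := by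
      intro φ
      have : |s * Real.cos (m * φ)| ≤ 1 := by
        rw [abs_mul, hs, one_mul]; exact Real.abs_cos_le_one _
      linarith [(abs_le.mp this).1]
    have hcont : ∀ k, Continuous (fun φ => lg (1/2) (th x k) φ) := fun k =>
      continuous_lg_right (1/2) (by norm_num) (by norm_num) _
    have h0 : 0 ≤ ∫ φ in (0:ℝ)..(2 * π),
        (∑ k, lg (1/2) (th x k) φ + K) * (1 + s * Real.cos (m * φ)) := by
      refine intervalIntegral.integral_nonneg (by positivity) fun φ _ => ?_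
      exact mul_nonneg (by linarith [hF φ]) (hnn φ)
    have h1 : ∫ φ in (0:ℝ)..(2 * π),
        (∑ k, lg (1/2) (th x k) φ + K) * (1 + s * Real.cos (m * φ))
        = ∑ k, (∫ φ in (0:ℝ)..(2 * π), lg (1/2) (th x k) φ * (1 + s * Real.cos (m * φ)))
          + K * (2 * π) := by
      have e : ∀ φ : ℝ, (∑ k, lg (1/2) (th x k) φ + K) * (1 + s * Real.cos (m * φ))
          = (∑ k, lg (1/2) (th x k) φ * (1 + s * Real.cos (m * φ)))
            + (K + K * s * Real.cos (((m : ℤ) : ℝ) * φ)) := by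
        intro φ
        rw [add_mul, Finset.sum_mul]; push_cast; ring
      simp_rw [e]
      have i1 : ∀ k ∈ (Finset.univ : Finset (Fin n)), IntervalIntegrable
          (fun φ : ℝ => lg (1/2) (th x k) φ * (1 + s * Real.cos (m * φ))) volume 0 (2 * π) := by
        intro k _
        have c2 : Continuous (fun φ : ℝ => 1 + s * Real.cos (m * φ)) := by fun_prop
        exact ((hcont k).mul c2).intervalIntegrable _ _
      have i2 : IntervalIntegrable (fun φ : ℝ => K * s * Real.cos (((m : ℤ) : ℝ) * φ))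
          volume 0 (2 * π) := by
        have c2 : Continuous (fun φ : ℝ => K * s * Real.cos (((m : ℤ) : ℝ) * φ)) := by fun_prop
        exact c2.intervalIntegrable _ _
      have i3 : IntervalIntegrable (fun φ : ℝ => K + K * s * Real.cos (((m : ℤ) : ℝ) * φ))
          volume 0 (2 * π) := intervalIntegrable_const.add i2
      have i4 : IntervalIntegrable
          (fun φ : ℝ => ∑ k, lg (1/2) (th x k) φ * (1 + s * Real.cos (m * φ)))
          volume 0 (2 * π) := by
        have c2 : Continuous (fun φ : ℝ => 1 + s * Real.cos (m * φ)) := by fun_prop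
        exact (continuous_finsetSum _ fun k _ => (hcont k).mul c2).intervalIntegrable _ _
      rw [intervalIntegral.integral_add i4 i3, intervalIntegral.integral_finsetSum i1,
        intervalIntegral.integral_add intervalIntegrable_const i2,
        intervalIntegral.integral_const_mul,
        integral_cos_int_two_pi (m:ℤ) (by exact_mod_cast hm), intervalIntegral.integral_const]
      simp [mul_comm]
    rw [h1] at h0
    simp_rw [integral_lg_mul (1/2) _ (by norm_num) (by norm_num) m hm s] at h0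
    rw [Finset.sum_neg_distrib, ← Finset.mul_sum] at h0
    have hm0 : (0:ℝ) < m := by positivity
    have h2 : s * ((1/2:ℝ) ^ m / m) * (∑ k, Real.cos (m * th x k)) ≤ K := by
      have h3 : 0 ≤ 2 * π * (K - s * ((1/2:ℝ) ^ m / m) * (∑ k, Real.cos (m * th x k))) := by
        linarith
      have h4 := nonneg_of_mul_nonneg_right h3 (by positivity)
      linarith
    calc s * (∑ k, Real.cos (m * th x k))
        = m * 2 ^ m * (s * ((1/2:ℝ) ^ m / m) * (∑ k, Real.cos (m * th x k))) := by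
          have e1 : (2:ℝ) ^ m * (1/2) ^ m = 1 := by rw [← mul_pow]; norm_num
          field_simp
          linear_combination -(s * ∑ k, Real.cos (m * th x k)) * e1
      _ ≤ _ := mul_le_mul_of_nonneg_left h2 (by positivity)
  rw [abs_le]
  constructor
  · have := key (-1) (by norm_num)
    linarith
  · have := key 1 (by norm_num)
    linarith

/-- The statement of equidistribution for a single function. -/
def Q (f : ℝ → ℝ) : Prop := ∀ ε > 0, ∃ N : ℕ, ∀ n ≥ N,
  ∀ x : Fin n → ℝ, Nodes x → I x ≤ 2 →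
    |(∑ k, f (th x k)) / n - (1 / π) * ∫ θ in (0:ℝ)..π, f θ| ≤ ε

lemma Q.add {f g : ℝ → ℝ} (hf : Q f) (hg : Q g) (cf : ContinuousOn f (Set.Icc 0 π))
    (cg : ContinuousOn g (Set.Icc 0 π)) : Q (fun θ => f θ + g θ) := by
  intro ε hε
  obtain ⟨N1, h1⟩ := hf (ε / 2) (by positivity)
  obtain ⟨N2, h2⟩ := hg (ε / 2) (by positivity)
  refine ⟨max N1 N2, fun n hn x hx hI => ?_⟩
  have a1 := h1 n (le_of_max_le_left hn) x hx hI
  have a2 := h2 n (le_of_max_le_right hn) x hx hI
  rw [intervalIntegral.integral_add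
    (ContinuousOn.intervalIntegrable (by rwa [Set.uIcc_of_le Real.pi_pos.le]))
    (ContinuousOn.intervalIntegrable (by rwa [Set.uIcc_of_le Real.pi_pos.le])),
    Finset.sum_add_distrib]
  have e : (∑ k, f (th x k) + ∑ k, g (th x k)) / n
      - 1 / π * ((∫ θ in (0:ℝ)..π, f θ) + ∫ θ in (0:ℝ)..π, g θ)
      = ((∑ k, f (th x k)) / n - 1 / π * ∫ θ in (0:ℝ)..π, f θ)
        + ((∑ k, g (th x k)) / n - 1 / π * ∫ θ in (0:ℝ)..π, g θ) := by ring
  rw [e]
  refine (abs_add_le _ _).trans ?_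
  linarith

lemma Q.const_mul {f : ℝ → ℝ} (hf : Q f) (c : ℝ) : Q (fun θ => c * f θ) := by
  intro ε hε
  obtain ⟨N1, h1⟩ := hf (ε / (|c| + 1)) (by positivity)
  refine ⟨N1, fun n hn x hx hI => ?_⟩
  have a1 := h1 n hn x hx hI
  rw [intervalIntegral.integral_const_mul, ← Finset.mul_sum]
  have e : c * (∑ k, f (th x k)) / n - 1 / π * (c * ∫ θ in (0:ℝ)..π, f θ)
      = c * ((∑ k, f (th x k)) / n - 1 / π * ∫ θ in (0:ℝ)..π, f θ) := by ring
  rw [e, abs_mul]
  calc |c| * _ ≤ |c| * (ε / (|c| + 1)) := mul_le_mul_of_nonneg_left a1 (abs_nonneg c)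
    _ ≤ (|c| + 1) * (ε / (|c| + 1)) := by
        refine mul_le_mul_of_nonneg_right (by linarith) (by positivity)
    _ = ε := by field_simp

lemma Q_cos (h : LogLemma) (m : ℕ) : Q (fun θ => Real.cos (m * θ)) := by
  intro ε hε
  rcases Nat.eq_zero_or_pos m with rfl | hm
  · refine ⟨1, fun n hn x hx hI => ?_⟩
    have : (n : ℝ) ≠ 0 := by positivity
    simp [this, Real.pi_ne_zero, hε.le]
  · have hlim : Filter.Tendsto (fun n : ℕ => m * 2 ^ m *
        (-Real.log (π / 16) + 2 * Real.log 2 + Real.log n / 2) / n) Filter.atTop (nhds 0) := by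
      have l1 : Filter.Tendsto (fun n : ℕ => Real.log n / n) Filter.atTop (nhds 0) := by
        have := (Real.isLittleO_log_id_atTop.tendsto_div_nhds_zero).comp tendsto_natCast_atTop_atTop
        exact this
      have l2 : Filter.Tendsto (fun n : ℕ => (1:ℝ) / n) Filter.atTop (nhds 0) :=
        tendsto_one_div_atTop_nhds_zero_nat
      have l3 := (l2.const_mul ((m:ℝ) * 2 ^ m * (-Real.log (π / 16) + 2 * Real.log 2))).add
        (l1.const_mul ((m:ℝ) * 2 ^ m / 2))
      simp only [mul_zero, add_zero] at l3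
      refine l3.congr fun n => ?_
      ring
    obtain ⟨N, hN⟩ := ((hlim.eventually (ge_mem_nhds hε)).exists_forall_of_atTop)
    refine ⟨max N 2, fun n hn x hx hI => ?_⟩
    rw [integral_cos_nat_pi m hm.ne', mul_zero, sub_zero, abs_div, Nat.abs_cast]
    refine le_trans (div_le_div_of_nonneg_right
      (weyl h (le_of_max_le_right hn) hx hI m hm.ne') (by positivity)) ?_
    exact hN n (le_of_max_le_left hn)

lemma Q_cos_pow_mul (h : LogLemma) (j : ℕ) : ∀ m : ℕ,
    Q (fun θ => Real.cos θ ^ j * Real.cos (m * θ)) := by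
  induction j with
  | zero => intro m; simpa using Q_cos h m
  | succ j ih =>
    intro m
    rcases Nat.eq_zero_or_pos m with rfl | hm
    · have := ih 1
      refine cast ?_ this
      congr 1
      funext θ
      simp [pow_succ]
    · obtain ⟨m, rfl⟩ : ∃ m', m = m' + 1 := ⟨m - 1, by omega⟩
      have h1 := ((ih (m + 2)).const_mul (1/2)).add ((ih m).const_mul (1/2))
        (Continuous.continuousOn (by fun_prop)) (Continuous.continuousOn (by fun_prop))
      refine cast ?_ h1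
      congr 1
      funext θ
      push_cast
      have e1 : ((m:ℝ) + 2) * θ = (m + 1) * θ + θ := by ring
      have e2 : (m:ℝ) * θ = (m + 1) * θ - θ := by ring
      rw [e1, e2, Real.cos_add, Real.cos_sub]
      ring

lemma Q_poly (h : LogLemma) (p : ℝ[X]) : Q (fun θ => p.eval (Real.cos θ)) := by
  induction p using Polynomial.induction_on' with
  | add p q hp hq =>
    have := hp.add hq (Continuous.continuousOn (by fun_prop)) (Continuous.continuousOn (by fun_prop))
    refine cast ?_ this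
    congr 1
    funext θ
    simp
  | monomial j a =>
    have := (Q_cos_pow_mul h j 0).const_mul a
    refine cast ?_ this
    congr 1
    funext θ
    simp

theorem equidist (h : LogLemma) : Equidist := by
  intro f hf ε hε
  have hg : ContinuousOn (fun y => f (Real.arccos y)) (Set.Icc (-1) 1) := by
    refine hf.comp Real.continuous_arccos.continuousOn fun y _ => ?_
    exact ⟨Real.arccos_nonneg _, Real.arccos_le_pi _⟩
  obtain ⟨p, hp⟩ := exists_polynomial_near_of_continuousOn (-1) 1 _ hg (ε / 3) (by positivity)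
  have hp' : ∀ θ ∈ Set.Icc (0:ℝ) π, |p.eval (Real.cos θ) - f θ| ≤ ε / 3 := by
    intro θ hθ
    have := hp (Real.cos θ) ⟨Real.neg_one_le_cos θ, Real.cos_le_one θ⟩
    rw [Real.arccos_cos hθ.1 hθ.2] at this
    exact this.le
  obtain ⟨N, hN⟩ := Q_poly h p (ε / 3) (by positivity)
  refine ⟨max N 1, fun n hn x hx hI => ?_⟩
  have a0 := hN n (le_of_max_le_left hn) x hx hI
  have hn0 : (0:ℝ) < n := by
    have : 1 ≤ n := le_of_max_le_right hn
    positivity
  have a1 : |(∑ k, p.eval (Real.cos (th x k))) / n - (∑ k, f (th x k)) / n| ≤ ε / 3 := by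
    rw [← sub_div, ← Finset.sum_sub_distrib, abs_div, Nat.abs_cast, div_le_iff₀ hn0]
    refine (Finset.abs_sum_le_sum_abs _ _).trans ?_
    refine (Finset.sum_le_card_nsmul _ _ (ε / 3) fun k _ => ?_).trans ?_
    · exact hp' _ ⟨th_nonneg x k, th_le_pi x k⟩
    · simp [mul_comm]
  have a2 : |(1 / π) * (∫ θ in (0:ℝ)..π, p.eval (Real.cos θ))
      - (1 / π) * (∫ θ in (0:ℝ)..π, f θ)| ≤ ε / 3 := by
    rw [← mul_sub, ← intervalIntegral.integral_sub
      (Continuous.intervalIntegrable (by fun_prop) _ _)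
      (ContinuousOn.intervalIntegrable (by rwa [Set.uIcc_of_le Real.pi_pos.le])), abs_mul,
      abs_of_nonneg (by positivity : 0 ≤ 1 / π)]
    have := intervalIntegral.norm_integral_le_of_norm_le_const (a := 0) (b := π) (C := ε / 3)
      (f := fun θ => p.eval (Real.cos θ) - f θ) (fun θ hθ => by
        rw [Set.uIoc_of_le Real.pi_pos.le] at hθ
        exact hp' θ ⟨hθ.1.le, hθ.2⟩)
    rw [Real.norm_eq_abs, sub_zero, abs_of_nonneg Real.pi_pos.le] at this
    calc 1 / π * _ ≤ 1 / π * (ε / 3 * π) := mul_le_mul_of_nonneg_left this (by positivity)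
      _ = ε / 3 := by field_simp
  have e : (∑ k, f (th x k)) / n - (1 / π) * ∫ θ in (0:ℝ)..π, f θ
      = -((∑ k, p.eval (Real.cos (th x k))) / n - (∑ k, f (th x k)) / n)
        + ((∑ k, p.eval (Real.cos (th x k))) / n - (1 / π) * (∫ θ in (0:ℝ)..π, p.eval (Real.cos θ)))
        + ((1 / π) * (∫ θ in (0:ℝ)..π, p.eval (Real.cos θ))
      - (1 / π) * (∫ θ in (0:ℝ)..π, f θ)) := by ring
  rw [e]
  refine (abs_add_three _ _ _).trans ?_
  rw [abs_neg]
  linarith

/-! ### Uniform integrability -/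

lemma lg_zero (ρ θ : ℝ) : lg ρ θ 0 = Real.log (1 - 2 * ρ * Real.cos θ + ρ ^ 2) := by
  unfold lg
  have : 1 - 2 * ((Real.cos θ : ℝ) : ℂ) * (ρ * Complex.exp ((0:ℝ) * Complex.I))
        + (ρ * Complex.exp ((0:ℝ) * Complex.I)) ^ 2
      = ((1 - 2 * ρ * Real.cos θ + ρ ^ 2 : ℝ) : ℂ) := by
    simp only [Complex.ofReal_zero, zero_mul, Complex.exp_zero, mul_one]
    push_cast; ring
  rw [this, Complex.norm_real, Real.norm_eq_abs, Real.log_abs]

lemma lg_pi (ρ θ : ℝ) : lg ρ θ π = Real.log (1 - 2 * ρ * (-Real.cos θ) + ρ ^ 2) := by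
  unfold lg
  have : 1 - 2 * ((Real.cos θ : ℝ) : ℂ) * (ρ * Complex.exp (π * Complex.I))
        + (ρ * Complex.exp (π * Complex.I)) ^ 2
      = ((1 - 2 * ρ * (-Real.cos θ) + ρ ^ 2 : ℝ) : ℂ) := by
    rw [Complex.exp_pi_mul_I]
    push_cast; ring
  rw [this, Complex.norm_real, Real.norm_eq_abs, Real.log_abs]

lemma integral_lg_pi (ρ φ : ℝ) (h0 : 0 ≤ ρ) (h1 : ρ < 1) :
    ∫ θ in (0:ℝ)..π, lg ρ θ φ = 0 := by
  have H : HasSum (fun j : ℕ => ∫ θ in (0:ℝ)..π,
      -(2 * (ρ ^ j / j) * (Real.cos (j * θ) * Real.cos (j * φ))))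
      (∫ θ in (0:ℝ)..π, lg ρ θ φ) := by
    refine intervalIntegral.hasSum_integral_of_dominated_convergence
      (fun (j : ℕ) (_ : ℝ) => 2 * (ρ ^ j / j)) ?_ ?_ ?_ ?_ ?_
    · intro j
      exact Continuous.aestronglyMeasurable (by fun_prop)
    · intro j
      refine Filter.Eventually.of_forall fun t _ => ?_
      rw [norm_neg, norm_mul, Real.norm_eq_abs,
        abs_of_nonneg (by positivity : 0 ≤ 2 * (ρ ^ j / j))]
      have e1 : ‖Real.cos (j * t) * Real.cos (j * φ)‖ ≤ 1 := by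
        rw [norm_mul]
        exact mul_le_one₀ (Real.abs_cos_le_one _) (norm_nonneg _) (Real.abs_cos_le_one _)
      exact mul_le_of_le_one_right (by positivity) e1
    · refine Filter.Eventually.of_forall fun t _ => ?_
      exact (summable_pow_div ρ h0 h1).mul_left 2
    · exact intervalIntegrable_const
    · refine Filter.Eventually.of_forall fun t _ => ?_
      exact hasSum_log ρ t φ h0 h1
  have H2 : ∀ j : ℕ, (∫ θ in (0:ℝ)..π,
      -(2 * (ρ ^ j / j) * (Real.cos (j * θ) * Real.cos (j * φ)))) = 0 := by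
    intro j
    rcases Nat.eq_zero_or_pos j with rfl | hj
    · simp
    have e : ∀ θ : ℝ, -(2 * (ρ ^ j / j) * (Real.cos (j * θ) * Real.cos (j * φ)))
        = -(2 * (ρ ^ j / j) * Real.cos (j * φ)) * Real.cos (j * θ) := by
      intro θ; ring
    simp_rw [e]
    rw [intervalIntegral.integral_const_mul, integral_cos_nat_pi j hj.ne', mul_zero]
  simp_rw [H2] at H
  exact H.unique hasSum_zero

/-- Few angles are close to the endpoints. -/
lemma count_small (h2 : Equidist) (κ : ℝ) (hκ : 0 < κ) (hκ' : κ ≤ 1 / 4) : ∃ N : ℕ, ∀ n ≥ N,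
    ∀ x : Fin n → ℝ, Nodes x → I x ≤ 2 →
    ((Finset.univ.filter (fun k => Real.sin (th x k) < κ)).card : ℝ) ≤ 3 * κ * n := by
  set f : ℝ → ℝ := fun θ => max 0 (min 1 (2 - Real.sin θ / κ)) with hf
  have cf : Continuous f := by
    rw [hf]; fun_prop
  have f0 : ∀ θ, 0 ≤ f θ := fun θ => le_max_left _ _
  have f1 : ∀ θ, f θ ≤ 1 := fun θ => max_le zero_le_one (min_le_left _ _)
  have hpi := Real.pi_gt_three
  have fz : ∀ θ ∈ Set.Icc (π * κ) (π - π * κ), f θ ≤ 0 := by
    intro θ hθ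
    refine max_le le_rfl ((min_le_right _ _).trans ?_)
    have hs : 2 * κ ≤ Real.sin θ := by
      rcases le_total θ (π / 2) with h | h
      · have := Real.mul_le_sin (x := θ) (by nlinarith [hθ.1]) h
        refine le_trans ?_ this
        rw [div_mul_eq_mul_div, le_div_iff₀ Real.pi_pos]
        nlinarith [hθ.1]
      · have := Real.mul_le_sin (x := π - θ) (by nlinarith [hθ.2]) (by linarith)
        rw [Real.sin_pi_sub] at this
        refine le_trans ?_ this
        rw [div_mul_eq_mul_div, le_div_iff₀ Real.pi_pos]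
        nlinarith [hθ.2]
    have : 2 ≤ Real.sin θ / κ := by rw [le_div_iff₀ hκ]; linarith
    linarith
  have hint : ∫ θ in (0:ℝ)..π, f θ ≤ 2 * π * κ := by
    have i1 := cf.intervalIntegrable (μ := volume) 0 (π * κ)
    have i2 := cf.intervalIntegrable (μ := volume) (π * κ) (π - π * κ)
    have i3 := cf.intervalIntegrable (μ := volume) (π - π * κ) π
    rw [← intervalIntegral.integral_add_adjacent_intervals (i1.trans i2) i3,
      ← intervalIntegral.integral_add_adjacent_intervals i1 i2]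
    have j1 : ∫ θ in (0:ℝ)..(π * κ), f θ ≤ π * κ := by
      have := intervalIntegral.integral_mono_on (by positivity) i1
        (intervalIntegrable_const (c := (1:ℝ))) (fun θ _ => f1 θ)
      simpa using this
    have j3 : ∫ θ in (π - π * κ)..π, f θ ≤ π * κ := by
      have := intervalIntegral.integral_mono_on (by nlinarith) i3
        (intervalIntegrable_const (c := (1:ℝ))) (fun θ _ => f1 θ)
      simpa using this
    have j2 : ∫ θ in (π * κ)..(π - π * κ), f θ ≤ 0 := by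
      have := intervalIntegral.integral_mono_on (by nlinarith) i2
        (intervalIntegrable_const (c := (0:ℝ))) fz
      simpa using this
    linarith
  obtain ⟨N, hN⟩ := h2 f cf.continuousOn κ hκ
  refine ⟨max N 1, fun n hn x hx hI => ?_⟩
  have a := hN n (le_of_max_le_left hn) x hx hI
  have hn0 : (0:ℝ) < n := by
    have : 1 ≤ n := le_of_max_le_right hn
    positivity
  have b : (∑ k, f (th x k)) / n ≤ 3 * κ := by
    have h3 := (abs_le.mp a).2
    have h4 : (1 / π) * ∫ θ in (0:ℝ)..π, f θ ≤ 2 * κ := by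
      calc (1 / π) * ∫ θ in (0:ℝ)..π, f θ ≤ (1 / π) * (2 * π * κ) :=
            mul_le_mul_of_nonneg_left hint (by positivity)
        _ = 2 * κ := by field_simp
    linarith
  rw [div_le_iff₀ hn0] at b
  refine le_trans ?_ b
  have c : ∑ k ∈ Finset.univ.filter (fun k => Real.sin (th x k) < κ), (1:ℝ)
      ≤ ∑ k ∈ Finset.univ.filter (fun k => Real.sin (th x k) < κ), f (th x k) := by
    refine Finset.sum_le_sum fun k hk => ?_
    rw [Finset.mem_filter] at hk
    refine le_trans ?_ (le_max_right _ _)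
    refine le_min le_rfl ?_
    have : Real.sin (th x k) / κ < 1 := by rw [div_lt_one hκ]; exact hk.2
    linarith
  rw [Finset.sum_const, nsmul_eq_mul, mul_one] at c
  refine c.trans ?_
  exact Finset.sum_le_sum_of_subset_of_nonneg (Finset.filter_subset _ _) fun k _ _ => f0 _

lemma q_pos {ρ c : ℝ} (h0 : 0 ≤ ρ) (h1 : ρ < 1) (hc : c ≤ 1) : 0 < 1 - 2 * ρ * c + ρ ^ 2 := by
  nlinarith [mul_nonneg h0 (sub_nonneg.2 hc)]

/-- Pointwise: comparison of two radii. -/
lemma log_ratio {ρ₀ ρ c : ℝ} (h0 : 0 < ρ₀) (h01 : ρ₀ ≤ ρ) (h1 : ρ < 1) (hc : c ≤ 1) :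
    Real.log ρ₀ ≤ Real.log (1 - 2 * ρ₀ * c + ρ₀ ^ 2) - Real.log (1 - 2 * ρ * c + ρ ^ 2) := by
  have p1 := q_pos (h0.le.trans h01) h1 hc
  have p0 := q_pos h0.le (h01.trans_lt h1) hc
  rw [le_sub_iff_add_le, ← Real.log_mul h0.ne' p1.ne']
  refine Real.log_le_log (by positivity) ?_
  have e : 1 - 2 * ρ₀ * c + ρ₀ ^ 2 - ρ₀ * (1 - 2 * ρ * c + ρ ^ 2)
      = (1 - ρ₀) ^ 2 - ρ₀ * (1 - ρ) ^ 2 + 2 * ρ₀ * (1 - ρ) * (1 - c) := by ring
  have e2 : 0 ≤ 2 * ρ₀ * (1 - ρ) * (1 - c) := by
    have : 0 ≤ 1 - ρ := by linarith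
    have : 0 ≤ 1 - c := by linarith
    positivity
  have e3 : ρ₀ * (1 - ρ) ^ 2 ≤ (1 - ρ₀) ^ 2 := by
    have a1 : (1 - ρ) ^ 2 ≤ (1 - ρ₀) ^ 2 := by
      apply pow_le_pow_left₀ (by linarith); linarith
    have a2 : ρ₀ * (1 - ρ) ^ 2 ≤ 1 * (1 - ρ) ^ 2 :=
      mul_le_mul_of_nonneg_right (by linarith) (by positivity)
    linarith
  linarith

/-- Pointwise bound for the weight. -/
lemma lam_le {n : ℕ} (hn : 1 ≤ n) {κ θ c ρ : ℝ} (hκ : 0 < κ) (hκ' : κ < 1)
    (hs : 0 ≤ Real.sin θ) (hc0 : 0 ≤ c) (hc1 : c ≤ 1) (hcs : c ^ 2 + Real.sin θ ^ 2 = 1)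
    (hρ : ρ = (n:ℝ) / (n + 1)) :
    lam n θ ≤ (2 - Real.log κ) + (1 / 2) * (Real.log (1 - 2 * (1 - κ) * c + (1 - κ) ^ 2)
      - Real.log (1 - 2 * ρ * c + ρ ^ 2)) := by
  have hn0 : (0:ℝ) < n := by positivity
  have hρ0 : 0 ≤ ρ := by rw [hρ]; positivity
  have hρ1 : ρ < 1 := by rw [hρ, div_lt_one (by positivity)]; linarith
  have hρ2 : 1 - ρ ≤ 1 / n := by
    rw [hρ]
    have : 1 - (n:ℝ) / (n + 1) = 1 / (n + 1) := by field_simp; ring
    rw [this]
    exact one_div_le_one_div_of_le hn0 (by linarith)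
  have p1 := q_pos hρ0 hρ1 hc1
  set s := Real.sin θ with hsdef
  set v := (1:ℝ) / n with hv
  have hv0 : 0 < v := by positivity
  have b1 : 1 - 2 * ρ * c + ρ ^ 2 ≤ 2 * (s + v) ^ 2 := by
    have c1 : 1 - c ≤ s ^ 2 := by nlinarith
    have c2 : (1 - ρ) ^ 2 ≤ v ^ 2 := by
      apply pow_le_pow_left₀ (by linarith) hρ2
    have c3 : ρ * (1 - c) ≤ 1 - c := mul_le_of_le_one_left (by linarith) hρ1.le
    have c4 : 0 ≤ s * v := by positivity
    have e : 1 - 2 * ρ * c + ρ ^ 2 = (1 - ρ) ^ 2 + 2 * (ρ * (1 - c)) := by ring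
    rw [e]
    nlinarith
  have b2 := Real.log_le_log p1 b1
  rw [Real.log_mul (by norm_num) (by positivity), Real.log_pow] at b2
  push_cast at b2
  have b3 : κ ^ 2 ≤ 1 - 2 * (1 - κ) * c + (1 - κ) ^ 2 := by
    have : 0 ≤ (1 - κ) * (1 - c) := mul_nonneg (by linarith) (by linarith)
    nlinarith
  have b4 := Real.log_le_log (by positivity) b3
  rw [Real.log_pow] at b4
  push_cast at b4
  have b5 : Real.log 2 ≤ 2 := by
    have := Real.log_two_lt_d9; linarith
  unfold lam
  rw [← hsdef, ← hv]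
  linarith

lemma pow_le_half {n : ℕ} (hn : 2 ≤ n) : ((n:ℝ) / (n + 1)) ^ (2 * n - 2) ≤ 1 / 2 := by
  have hn0 : (0:ℝ) < n := by positivity
  have h1 := one_add_mul_le_pow (a := (1:ℝ) / n) (by
    have : (0:ℝ) ≤ 1 / n := by positivity
    linarith) (2 * n - 2)
  have h2 : (2:ℝ) ≤ 1 + ((2 * n - 2 : ℕ) : ℝ) * (1 / n) := by
    rw [Nat.cast_sub (by omega)]
    push_cast
    have : (2:ℝ) ≤ n := by exact_mod_cast hn
    have h3 : (1:ℝ) ≤ (2 * n - 2) * (1 / n) := by
      rw [mul_one_div, le_div_iff₀ hn0]; linarith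
    linarith
  have h3 : (n:ℝ) / (n + 1) = (1 + 1 / (n:ℝ))⁻¹ := by
    field_simp
  rw [h3, inv_pow]
  calc ((1 + 1 / (n:ℝ)) ^ (2 * n - 2))⁻¹ ≤ (2:ℝ)⁻¹ :=
        inv_anti₀ (by norm_num) (h2.trans h1)
    _ = 1 / 2 := by norm_num

/-- The error term. -/
noncomputable def Rn (n : ℕ) : ℝ :=
  -Real.log (π / 16) + 2 * Real.log (n + 1) + Real.log n / 2

lemma Rn_small (ε : ℝ) (hε : 0 < ε) : ∃ N : ℕ, ∀ n ≥ N, Rn n ≤ ε * n := by
  have l1 : Filter.Tendsto (fun n : ℕ => Real.log n / n) Filter.atTop (nhds 0) := by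
    have := (Real.isLittleO_log_id_atTop.tendsto_div_nhds_zero).comp tendsto_natCast_atTop_atTop
    exact this
  have l2 : Filter.Tendsto (fun n : ℕ => (1:ℝ) / n) Filter.atTop (nhds 0) :=
    tendsto_one_div_atTop_nhds_zero_nat
  have l3 := (l2.const_mul (-Real.log (π / 16) + 2 * Real.log 2)).add
    (l1.const_mul (5 / 2 : ℝ))
  simp only [mul_zero, add_zero] at l3
  obtain ⟨N, hN⟩ := ((l3.eventually (ge_mem_nhds hε)).exists_forall_of_atTop)
  refine ⟨max N 1, fun n hn => ?_⟩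
  have hn1 : 1 ≤ n := le_of_max_le_right hn
  have hn0 : (0:ℝ) < n := by positivity
  have h1 := hN n (le_of_max_le_left hn)
  have h2 : Real.log (n + 1) ≤ Real.log 2 + Real.log n := by
    rw [← Real.log_mul (by norm_num) hn0.ne']
    refine Real.log_le_log (by positivity) ?_
    have : (1:ℝ) ≤ n := by exact_mod_cast hn1
    linarith
  have h3 : Rn n ≤ (-Real.log (π / 16) + 2 * Real.log 2) + 5 / 2 * Real.log n := by
    unfold Rn; linarith
  refine h3.trans ?_
  have h4 : (-Real.log (π / 16) + 2 * Real.log 2) + 5 / 2 * Real.log n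
      = ((-Real.log (π / 16) + 2 * Real.log 2) * (1 / n) + 5 / 2 * (Real.log n / n)) * n := by
    field_simp
  rw [h4]
  exact mul_le_mul_of_nonneg_right h1 hn0.le

/-- One endpoint. -/
lemma one_end (h : LogLemma) (h2 : Equidist) (φ : ℝ) (sg : ℝ)
    (hlg : ∀ ρ θ, lg ρ θ φ = Real.log (1 - 2 * ρ * (sg * Real.cos θ) + ρ ^ 2))
    (hsg : sg ^ 2 = 1) (ε : ℝ) (hε : 0 < ε) (κ : ℝ) (hκ : 0 < κ) (hκ' : κ ≤ 1 / 4) :
    ∃ N : ℕ, ∀ n ≥ N, ∀ x : Fin n → ℝ, Nodes x → I x ≤ 2 →
      ∀ A ⊆ Finset.univ.filter (fun k => Real.sin (th x k) < κ),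
        (∀ k ∈ A, 0 ≤ sg * Real.cos (th x k)) →
        ∑ k ∈ A, lam n (th x k) ≤ (3 * κ * (2 - Real.log κ) - Real.log (1 - κ) / 2 + ε) * n := by
  have hk1 : 0 < 1 - κ := by linarith
  have hk2 : 1 - κ < 1 := by linarith
  obtain ⟨N1, hN1⟩ := count_small h2 κ hκ hκ'
  obtain ⟨N2, hN2⟩ := h2 (fun θ => lg (1 - κ) θ φ)
    (continuous_lg_left (1 - κ) hk1.le hk2 φ).continuousOn ε hε
  obtain ⟨N3, hN3⟩ := Rn_small ε hε
  obtain ⟨N4, hN4⟩ := exists_nat_gt (1 / κ)
  refine ⟨max (max N1 N2) (max (max N3 N4) 2), fun n hn x hx hI A hA hA' => ?_⟩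
  have n1 : N1 ≤ n := by omega
  have n2 : N2 ≤ n := by omega
  have n3 : N3 ≤ n := by omega
  have n4 : N4 ≤ n := by omega
  have n5 : 2 ≤ n := by omega
  have hn0 : (0:ℝ) < n := by positivity
  have c1 := hN1 n n1 x hx hI
  have c2 := hN2 n n2 x hx hI
  rw [integral_lg_pi _ _ hk1.le hk2, mul_zero, sub_zero] at c2
  have c2' : ∑ k, lg (1 - κ) (th x k) φ ≤ ε * n := by
    have := (abs_le.mp c2).2
    rwa [div_le_iff₀ hn0] at this
  have c3 := hN3 n n3
  set ρ : ℝ := (n:ℝ) / (n + 1) with hρ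
  have hρ0 : 0 ≤ ρ := by positivity
  have hρ1 : ρ < 1 := by rw [hρ, div_lt_one (by positivity)]; linarith
  have hρκ : 1 - κ ≤ ρ := by
    rw [hρ, le_div_iff₀ (by positivity)]
    have h5 : 1 / κ < n := hN4.trans_le (by exact_mod_cast n4)
    rw [div_lt_iff₀ hκ] at h5
    nlinarith
  have c4 := sum_lg_ge h n5 hx hI ρ φ hρ0 hρ1 (pow_le_half n5)
  have c5 : Real.log (1 - ρ) = -Real.log (n + 1) := by
    rw [← Real.log_inv]
    congr 1
    rw [hρ]; field_simp; ring
  rw [c5] at c4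
  have c4' : -Rn n ≤ ∑ k, lg ρ (th x k) φ := by
    unfold Rn; linarith
  have hsc : ∀ k, sg * Real.cos (th x k) ≤ 1 := by
    intro k
    have h6 : (sg * Real.cos (th x k)) ^ 2 ≤ 1 := by
      rw [mul_pow, hsg, one_mul]
      nlinarith [Real.sin_sq_add_cos_sq (th x k), sq_nonneg (Real.sin (th x k))]
    nlinarith [sq_nonneg (sg * Real.cos (th x k) - 1)]
  have d1 : ∀ k ∈ A, lam n (th x k) ≤ (2 - Real.log κ)
      + (1 / 2) * (lg (1 - κ) (th x k) φ - lg ρ (th x k) φ) := by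
    intro k hk
    rw [hlg, hlg]
    refine lam_le (by omega) hκ (by linarith) (sin_th_nonneg x k) (hA' k hk) (hsc k) ?_ hρ
    rw [mul_pow, hsg, one_mul]
    linarith [Real.sin_sq_add_cos_sq (th x k)]
  have d2 : ∀ k, Real.log (1 - κ) ≤ lg (1 - κ) (th x k) φ - lg ρ (th x k) φ := by
    intro k
    rw [hlg, hlg]
    exact log_ratio hk1 hρκ hρ1 (hsc k)
  have d3 : ∑ k ∈ A, (lg (1 - κ) (th x k) φ - lg ρ (th x k) φ - Real.log (1 - κ))
      ≤ ∑ k, (lg (1 - κ) (th x k) φ - lg ρ (th x k) φ - Real.log (1 - κ)) :=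
    Finset.sum_le_sum_of_subset_of_nonneg (Finset.subset_univ _)
      (fun k _ _ => by linarith [d2 k])
  have d4 : ∑ k, (lg (1 - κ) (th x k) φ - lg ρ (th x k) φ - Real.log (1 - κ))
      ≤ ε * n + ε * n - n * Real.log (1 - κ) := by
    rw [Finset.sum_sub_distrib, Finset.sum_sub_distrib, Finset.sum_const, Finset.card_univ,
      Fintype.card_fin, nsmul_eq_mul]
    linarith
  have hlogk : Real.log κ ≤ 0 := Real.log_nonpos hκ.le (by linarith)
  have hlog1k : Real.log (1 - κ) ≤ 0 := Real.log_nonpos hk1.le hk2.le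
  have d5 : (A.card : ℝ) ≤ 3 * κ * n :=
    le_trans (by exact_mod_cast Finset.card_le_card hA) c1
  calc ∑ k ∈ A, lam n (th x k)
      ≤ ∑ k ∈ A, ((2 - Real.log κ)
      + (1 / 2) * (lg (1 - κ) (th x k) φ - lg ρ (th x k) φ - Real.log (1 - κ))) := by
        refine Finset.sum_le_sum fun k hk => ?_
        have := d1 k hk
        linarith
    _ = A.card * (2 - Real.log κ)
      + (1 / 2) * ∑ k ∈ A, (lg (1 - κ) (th x k) φ - lg ρ (th x k) φ - Real.log (1 - κ)) := by
        rw [Finset.sum_add_distrib, Finset.sum_const, nsmul_eq_mul, Finset.mul_sum]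
    _ ≤ (3 * κ * n) * (2 - Real.log κ) + (1 / 2) * (ε * n + ε * n - n * Real.log (1 - κ)) := by
        have := mul_le_mul_of_nonneg_right d5 (by linarith : 0 ≤ 2 - Real.log κ)
        linarith
    _ = (3 * κ * (2 - Real.log κ) - Real.log (1 - κ) / 2 + ε) * n := by ring

theorem unifInt (h : LogLemma) (h2 : Equidist) : UnifInt := by
  intro ε hε
  have t1 : Filter.Tendsto (fun κ : ℝ => 2 * (3 * κ * (2 - Real.log κ) - Real.log (1 - κ) / 2))
      (nhdsWithin 0 (Set.Ioi 0)) (nhds 0) := by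
    have a1 : Filter.Tendsto (fun κ : ℝ => Real.log κ * κ) (nhdsWithin 0 (Set.Ioi 0)) (nhds 0) := by
      have := tendsto_log_mul_rpow_nhdsGT_zero (r := 1) one_pos
      simpa using this
    have a2 : Filter.Tendsto (fun κ : ℝ => Real.log (1 - κ)) (nhdsWithin 0 (Set.Ioi 0)) (nhds 0) := by
      have : ContinuousAt (fun κ : ℝ => Real.log (1 - κ)) 0 := by
        refine ContinuousAt.log (by fun_prop) (by norm_num)
      have h3 := this.tendsto
      simp only [sub_zero, Real.log_one] at h3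
      exact h3.mono_left nhdsWithin_le_nhds
    have a3 : Filter.Tendsto (fun κ : ℝ => κ) (nhdsWithin 0 (Set.Ioi 0)) (nhds 0) :=
      nhdsWithin_le_nhds
    have a4 := ((a3.const_mul 12).sub (a1.const_mul 6)).sub a2
    simp only [mul_zero, sub_zero] at a4
    refine a4.congr fun κ => ?_
    ring
  have t2 := t1.eventually (ge_mem_nhds (show (0:ℝ) < ε / 2 by positivity))
  obtain ⟨u, hu0, hu⟩ := (mem_nhdsGT_iff_exists_Ioc_subset).mp t2
  refine ⟨min u (1 / 4), lt_min hu0 (by norm_num), fun κ hκ hκ' => ?_⟩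
  have hκ4 : κ ≤ 1 / 4 := hκ'.trans (min_le_right _ _)
  have hb : 2 * (3 * κ * (2 - Real.log κ) - Real.log (1 - κ) / 2) ≤ ε / 2 :=
    hu ⟨hκ, hκ'.trans (min_le_left _ _)⟩
  obtain ⟨N1, hN1⟩ := one_end h h2 0 1 (fun ρ θ => by rw [lg_zero, one_mul]) (by norm_num)
    (ε / 4) (by positivity) κ hκ hκ4
  obtain ⟨N2, hN2⟩ := one_end h h2 π (-1) (fun ρ θ => by rw [lg_pi, neg_one_mul]) (by norm_num)
    (ε / 4) (by positivity) κ hκ hκ4
  refine ⟨max N1 N2, fun n hn x hx hI => ?_⟩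
  have e1 := hN1 n (le_of_max_le_left hn) x hx hI
    ((Finset.univ.filter (fun k => Real.sin (th x k) < κ)).filter
      (fun k => 0 ≤ Real.cos (th x k))) (Finset.filter_subset _ _)
    (fun k hk => by rw [one_mul]; exact (Finset.mem_filter.mp hk).2)
  have e2 := hN2 n (le_of_max_le_right hn) x hx hI
    ((Finset.univ.filter (fun k => Real.sin (th x k) < κ)).filter
      (fun k => ¬ 0 ≤ Real.cos (th x k))) (Finset.filter_subset _ _)
    (fun k hk => by
      have := (Finset.mem_filter.mp hk).2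
      push Not at this
      linarith)
  rw [← Finset.sum_filter_add_sum_filter_not _ (fun k => 0 ≤ Real.cos (th x k))]
  refine (add_le_add e1 e2).trans ?_
  have hn0 : (0:ℝ) ≤ n := by positivity
  nlinarith

end ErdosLag
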