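import Pool.Agent.W_MP_93ab53_an.KDefs

/-!
The far part: cells and AM-GM.
-/

namespace ErdosLag

open Real MeasureTheory intervalIntegral Finset Polynomial

namespace Far

lemma D_sin (n : ℕ) (hn : 1 ≤ n) (t : ℝ) :
    D n t * Real.sin (t / 2) = Real.sin (n * t) * Real.cos (t / 2) := by
  induction n, hn using Nat.le_induction with
  | base =>
    have h1 : Real.cos t = 2 * Real.cos (t / 2) ^ 2 - 1 := by
      rw [← Real.cos_two_mul]; ring_nf
    have h2 : Real.sin t = 2 * Real.sin (t / 2) * Real.cos (t / 2) := by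
      rw [← Real.sin_two_mul]; ring_nf
    have h3 : D 1 t = 1 + Real.cos t := by simp [D]
    rw [h3, Nat.cast_one, one_mul, h1, h2]; ring
  | succ n hn ih =>
    have h1 : D (n + 1) t = D n t + (Real.cos ((n + 1 : ℝ) * t) + Real.cos (n * t)) := by
      unfold D; rw [Finset.sum_Ico_succ_top hn]; push_cast; ring
    have h2 := Real.cos_add_cos ((n + 1 : ℝ) * t) (n * t)
    have h3 := Real.sin_sub_sin ((n + 1 : ℝ) * t) (n * t)
    have e1 : ((n + 1 : ℝ) * t - n * t) / 2 = t / 2 := by ring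
    rw [e1] at h2 h3
    rw [h1, add_mul, ih, h2]
    push_cast
    have h4 : Real.sin ((n + 1 : ℝ) * t) = Real.sin (n * t)
        + 2 * Real.sin (t / 2) * Real.cos (((n + 1 : ℝ) * t + n * t) / 2) := by linarith
    rw [h4]; ring

lemma cos_sub_mul_D (n : ℕ) (hn : 1 ≤ n) (θ η : ℝ) :
    (Real.cos θ - Real.cos η) * D n (θ - η)
      = - ((Real.sin θ + Real.sin η) * Real.sin (n * (θ - η))) := by
  have h1 := D_sin n hn (θ - η)
  have h2 := Real.cos_sub_cos θ η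
  have h3 : Real.sin θ + Real.sin η
      = 2 * Real.sin ((θ + η) / 2) * Real.cos ((θ - η) / 2) := by
    have e1 : θ = (θ + η) / 2 + (θ - η) / 2 := by ring
    have e2 : η = (θ + η) / 2 - (θ - η) / 2 := by ring
    conv_lhs => rw [e1, e2]
    have e3 : ((θ + η) / 2 + (θ - η) / 2 + ((θ + η) / 2 - (θ - η) / 2)) / 2 = (θ + η) / 2 := by
      ring
    have e4 : ((θ + η) / 2 + (θ - η) / 2 - ((θ + η) / 2 - (θ - η) / 2)) / 2 = (θ - η) / 2 := by
      ring
    rw [Real.sin_add, Real.sin_sub]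
    ring_nf
  rw [h2, h3]
  linear_combination (-2 * Real.sin ((θ + η) / 2)) * h1

lemma cos_sub_mul_tau (n : ℕ) (hn : 1 ≤ n) (θ η : ℝ) :
    (Real.cos θ - Real.cos η) * tau n θ η
      = - ((Real.sin θ + Real.sin η) * Real.sin (n * (θ - η))
          + (Real.cos θ - Real.cos η) * Real.cos (n * (θ + η))) / (2 * n) := by
  have h1 := cos_sub_mul_D n hn θ η
  unfold tau
  rw [mul_div_assoc']
  congr 1
  rw [mul_sub, h1]
  ring

lemma cube_aux {u v σ c : ℝ} (hu0 : 0 ≤ u) (hu1 : u ≤ 1) (hv0 : 0 ≤ v) (hv1 : v ≤ 1)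
    (hs0 : 0 ≤ σ) (hs1 : σ ≤ 1) (hu : |u - σ| ≤ c) (hv : |v - σ| ≤ c) :
    4 * σ ^ 3 - 12 * c ≤ (u + v) ^ 2 * u := by
  have hc : 0 ≤ c := (abs_nonneg _).trans hu
  rw [abs_le] at hu hv
  have h1 : σ * ((2 * σ - u - v) * (2 * σ + u + v)) ≤ 8 * c := by
    have : (2 * σ - u - v) * (2 * σ + u + v) ≤ 2 * c * 4 := by
      have h2 : 2 * σ - u - v ≤ 2 * c := by linarith
      have h3 : 2 * σ + u + v ≤ 4 := by linarith
      have h4 : 0 ≤ 2 * σ + u + v := by linarith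
      calc (2 * σ - u - v) * (2 * σ + u + v) ≤ (2 * c) * (2 * σ + u + v) :=
            mul_le_mul_of_nonneg_right h2 h4
        _ ≤ 2 * c * 4 := mul_le_mul_of_nonneg_left h3 (by linarith)
    calc σ * ((2 * σ - u - v) * (2 * σ + u + v)) ≤ σ * (2 * c * 4) :=
          mul_le_mul_of_nonneg_left this hs0
      _ ≤ 1 * (2 * c * 4) := mul_le_mul_of_nonneg_right hs1 (by linarith)
      _ = 8 * c := by ring
  have h5 : (u + v) ^ 2 * (σ - u) ≤ 4 * c := by
    have h6 : (u + v) ^ 2 ≤ 4 := by nlinarith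
    calc (u + v) ^ 2 * (σ - u) ≤ (u + v) ^ 2 * c :=
          mul_le_mul_of_nonneg_left (by linarith) (sq_nonneg _)
      _ ≤ 4 * c := mul_le_mul_of_nonneg_right h6 hc
  nlinarith

lemma tau_lower (n : ℕ) (hn : 1 ≤ n) {θ η σ c : ℝ} (hθ : θ ∈ Set.Icc 0 π) (hη : η ∈ Set.Icc 0 π)
    (hs0 : 0 ≤ σ) (hs1 : σ ≤ 1) (hu : |Real.sin θ - σ| ≤ c) (hv : |Real.sin η - σ| ≤ c)
    (hc : |Real.cos θ - Real.cos η| ≤ c) :
    (σ ^ 3 * Real.sin (n * (θ - η)) ^ 2 - 4 * c) / (n:ℝ) ^ 2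
      ≤ ((Real.cos θ - Real.cos η) * tau n θ η) ^ 2 * Real.sin θ := by
  have hn' : (0:ℝ) < n := by exact_mod_cast hn
  rw [cos_sub_mul_tau n hn]
  set u := Real.sin θ with hudef
  set v := Real.sin η
  set s := Real.sin (n * (θ - η))
  set w := Real.cos θ - Real.cos η
  set z := Real.cos (n * (θ + η))
  have hu0 : 0 ≤ u := Real.sin_nonneg_of_nonneg_of_le_pi hθ.1 hθ.2
  have hv0 : 0 ≤ v := Real.sin_nonneg_of_nonneg_of_le_pi hη.1 hη.2
  have hu1 : u ≤ 1 := Real.sin_le_one _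
  have hv1 : v ≤ 1 := Real.sin_le_one _
  have hs2 : s ^ 2 ≤ 1 := Real.sin_sq_le_one _
  have hsabs : |s| ≤ 1 := Real.abs_sin_le_one _
  have hz : |z| ≤ 1 := Real.abs_cos_le_one _
  have hc0 : 0 ≤ c := (abs_nonneg _).trans hu
  have h1 := cube_aux hu0 hu1 hv0 hv1 hs0 hs1 hu hv
  have h2 : (-((u + v) * s + w * z) / (2 * (n:ℝ))) ^ 2 * u
      = (((u + v) * s + w * z) ^ 2 * u) / 4 / (n:ℝ) ^ 2 := by
    field_simp; ring
  rw [h2]
  apply div_le_div_of_nonneg_right _ (by positivity)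
  -- ((u+v)s + wz)^2 u ≥ (u+v)^2 u s^2 - 4c
  have h3 : |(u + v) * s * (w * z)| ≤ 2 * c := by
    rw [abs_mul, abs_mul, abs_mul]
    have e1 : |u + v| ≤ 2 := by rw [abs_of_nonneg (by linarith)]; linarith
    have e2 : |u + v| * |s| ≤ 2 * 1 := mul_le_mul e1 hsabs (abs_nonneg _) (by norm_num)
    have e3 : |w| * |z| ≤ c * 1 := mul_le_mul hc hz (abs_nonneg _) hc0
    calc |u + v| * |s| * (|w| * |z|) ≤ (2 * 1) * (c * 1) :=
          mul_le_mul e2 e3 (by positivity) (by norm_num)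
      _ = 2 * c := by ring
  have h4 : ((u + v) * s + w * z) ^ 2 * u ≥ (u + v) ^ 2 * u * s ^ 2 - 4 * c := by
    have e1 : ((u + v) * s + w * z) ^ 2 ≥ ((u + v) * s) ^ 2 - 4 * c := by
      have := (abs_le.mp h3).1
      nlinarith [sq_nonneg (w * z)]
    have e2 : ((u + v) * s + w * z) ^ 2 * u ≥ (((u + v) * s) ^ 2 - 4 * c) * u :=
      mul_le_mul_of_nonneg_right e1 hu0
    nlinarith
  have h5 : (u + v) ^ 2 * u * s ^ 2 ≥ (4 * σ ^ 3 - 12 * c) * s ^ 2 :=
    mul_le_mul_of_nonneg_right h1 (sq_nonneg s)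
  nlinarith

lemma integral_sin_sq_lower (n : ℕ) (hn : 1 ≤ n) (a b η : ℝ) :
    (b - a) / 2 - 1 / (2 * n) ≤ ∫ θ in a..b, Real.sin (n * (θ - η)) ^ 2 := by
  have hn' : (0:ℝ) < n := by exact_mod_cast hn
  have e : ∀ θ : ℝ, Real.sin (n * (θ - η)) ^ 2 = Real.sin (n * θ - n * η) ^ 2 := by
    intro θ; ring_nf
  simp_rw [e]
  rw [intervalIntegral.integral_comp_mul_sub (fun t => Real.sin t ^ 2) hn'.ne' (n * η),
    integral_sin_sq]
  set A := (n:ℝ) * a - n * η
  set B := (n:ℝ) * b - n * η with hB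
  have hBA : B - A = n * (b - a) := by simp only [A, B]; ring
  have h1 : |Real.sin A * Real.cos A| ≤ 1 / 2 := by
    have := Real.sin_two_mul A
    have h := Real.abs_sin_le_one (2 * A)
    rw [this, abs_le] at h
    rw [abs_le]; constructor <;> linarith
  have h2 : |Real.sin B * Real.cos B| ≤ 1 / 2 := by
    have := Real.sin_two_mul B
    have h := Real.abs_sin_le_one (2 * B)
    rw [this, abs_le] at h
    rw [abs_le]; constructor <;> linarith
  rw [abs_le] at h1 h2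
  rw [smul_eq_mul]
  have h3 : (b - a) / 2 - 1 / (2 * (n:ℝ)) = (n:ℝ)⁻¹ * ((n * (b - a) - 1) / 2) := by
    field_simp
  rw [h3]
  apply mul_le_mul_of_nonneg_left _ (by positivity)
  rw [← hBA]; linarith

/-! ### Grid and cells -/

/-- Grid points. -/
noncomputable def gr (M i : ℕ) : ℝ := π * i / M

lemma gr_zero (M : ℕ) : gr M 0 = 0 := by simp [gr]

lemma gr_self {M : ℕ} (hM : 0 < M) : gr M M = π := by
  have : (M:ℝ) ≠ 0 := by positivity
  unfold gr; field_simp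

lemma gr_succ {M : ℕ} (i : ℕ) : gr M (i + 1) = gr M i + π / M := by
  unfold gr; push_cast; ring

lemma gr_nonneg (M i : ℕ) : 0 ≤ gr M i := by unfold gr; positivity

lemma gr_mono {M i j : ℕ} (h : i ≤ j) : gr M i ≤ gr M j := by
  unfold gr
  have : (i:ℝ) ≤ j := by exact_mod_cast h
  gcongr

lemma gr_le_pi {M i : ℕ} (hM : 0 < M) (h : i ≤ M) : gr M i ≤ π := by
  rw [← gr_self hM]; exact gr_mono h

lemma gr_lt_succ {M : ℕ} (hM : 0 < M) (i : ℕ) : gr M i < gr M (i + 1) := by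
  rw [gr_succ]
  have : 0 < π / (M:ℝ) := by positivity
  linarith

/-- nodes in cell `j`. -/
noncomputable def cell {n : ℕ} (M : ℕ) (x : Fin n → ℝ) (j : ℕ) : Finset (Fin n) :=
  Finset.univ.filter fun k => gr M j ≤ th x k ∧ th x k < gr M (j + 1)

lemma mem_cell {n M : ℕ} {x : Fin n → ℝ} {j : ℕ} {k : Fin n} :
    k ∈ cell M x j ↔ gr M j ≤ th x k ∧ th x k < gr M (j + 1) := by
  simp [cell]

lemma cell_disjoint {n M : ℕ} (x : Fin n → ℝ) :
    Set.PairwiseDisjoint (Set.univ : Set ℕ) (cell M x) := by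
  intro i _ j _ hij
  rw [Function.onFun, Finset.disjoint_left]
  intro k hi hj
  rw [mem_cell] at hi hj
  rcases lt_or_gt_of_ne hij with h | h
  · have := gr_mono (M := M) (Nat.succ_le_of_lt h)
    exact absurd (hj.1.trans_lt hi.2) (not_lt.mpr this)
  · have := gr_mono (M := M) (Nat.succ_le_of_lt h)
    exact absurd (hi.1.trans_lt hj.2) (not_lt.mpr this)

lemma sum_cells_le {n M : ℕ} (x : Fin n → ℝ) (s : Fin n → ℝ) (hs : ∀ k, 0 ≤ s k) :
    ∑ j ∈ Finset.range M, ∑ k ∈ cell M x j, s k ≤ ∑ k, s k := by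
  classical
  rw [← Finset.sum_biUnion]
  · exact Finset.sum_le_univ_sum_of_nonneg hs
  · exact (cell_disjoint x).subset (Set.subset_univ _)

lemma split_integral {M : ℕ} (hM : 0 < M) {f : ℝ → ℝ} (hf : Continuous f) :
    ∫ θ in (0:ℝ)..π, f θ = ∑ i ∈ Finset.range M, ∫ θ in (gr M i)..(gr M (i + 1)), f θ := by
  rw [intervalIntegral.sum_integral_adjacent_intervals
    (fun k _ => hf.intervalIntegrable _ _), gr_zero, gr_self hM]

lemma double_riemann {Φ : ℝ → ℝ → ℝ} (hΦ : Continuous fun p : ℝ × ℝ => Φ p.1 p.2) {M : ℕ}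
    (hM : 0 < M) (d : ℝ)
    (h : ∀ i < M, ∀ j < M, ∀ θ ∈ Set.Icc (gr M i) (gr M (i + 1)),
      ∀ η ∈ Set.Icc (gr M j) (gr M (j + 1)), Φ θ η ≤ Φ (gr M i) (gr M j) + d) :
    ∫ θ in (0:ℝ)..π, ∫ η in (0:ℝ)..π, Φ θ η
      ≤ (π / M) ^ 2 * ∑ i ∈ Finset.range M, ∑ j ∈ Finset.range M, (Φ (gr M i) (gr M j) + d) := by
  have hc1 : ∀ θ, Continuous fun η => Φ θ η := fun θ =>
    hΦ.comp (Continuous.prodMk continuous_const continuous_id)
  have hc2 : Continuous fun θ => ∫ η in (0:ℝ)..π, Φ θ η :=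
    intervalIntegral.continuous_parametric_intervalIntegral_of_continuous'
      (show Continuous (Function.uncurry Φ) from hΦ) 0 π
  rw [split_integral hM hc2, Finset.mul_sum]
  refine Finset.sum_le_sum fun i hi => ?_
  have hi' := Finset.mem_range.mp hi
  have hle := (gr_lt_succ hM i).le
  calc ∫ θ in (gr M i)..(gr M (i + 1)), ∫ η in (0:ℝ)..π, Φ θ η
      ≤ ∫ θ in (gr M i)..(gr M (i + 1)),
          (π / M) * ∑ j ∈ Finset.range M, (Φ (gr M i) (gr M j) + d) := by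
        refine intervalIntegral.integral_mono_on hle (hc2.intervalIntegrable _ _)
          (continuous_const.intervalIntegrable _ _) fun θ hθ => ?_
        rw [split_integral hM (hc1 θ), Finset.mul_sum]
        refine Finset.sum_le_sum fun j hj => ?_
        have hj' := Finset.mem_range.mp hj
        have hle' := (gr_lt_succ hM j).le
        calc ∫ η in (gr M j)..(gr M (j + 1)), Φ θ η
            ≤ ∫ η in (gr M j)..(gr M (j + 1)), (Φ (gr M i) (gr M j) + d) := by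
              refine intervalIntegral.integral_mono_on hle' ((hc1 θ).intervalIntegrable _ _)
                (continuous_const.intervalIntegrable _ _) fun η hη => ?_
              exact h i hi' j hj' θ hθ η hη
          _ = (π / M) * (Φ (gr M i) (gr M j) + d) := by
              rw [intervalIntegral.integral_const, gr_succ, smul_eq_mul]; ring
    _ = (π / M) ^ 2 * ∑ j ∈ Finset.range M, (Φ (gr M i) (gr M j) + d) := by
        rw [intervalIntegral.integral_const, gr_succ, smul_eq_mul]; ring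

/-! ### Algebra -/

lemma amgm (M : ℕ) (κ : ℕ → ℕ → ℝ) (hsym : ∀ i j, κ i j = κ j i) (hnn : ∀ i j, 0 ≤ κ i j)
    (μ ν : ℕ → ℝ) (hμ : ∀ i, 0 ≤ μ i) (hν : ∀ i, 0 ≤ ν i) :
    ∑ i ∈ Finset.range M, ∑ j ∈ Finset.range M, κ i j * (√(μ i * ν i) * √(μ j * ν j))
      ≤ ∑ i ∈ Finset.range M, ∑ j ∈ Finset.range M, κ i j * (μ i * ν j) := by
  have key : ∀ i j, √(μ i * ν i) * √(μ j * ν j) ≤ (μ i * ν j + μ j * ν i) / 2 := by
    intro i j
    have h1 : (√(μ i * ν i) * √(μ j * ν j)) ^ 2 ≤ ((μ i * ν j + μ j * ν i) / 2) ^ 2 := by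
      rw [mul_pow, Real.sq_sqrt (mul_nonneg (hμ i) (hν i)),
        Real.sq_sqrt (mul_nonneg (hμ j) (hν j))]
      nlinarith [sq_nonneg (μ i * ν j - μ j * ν i)]
    have h2 : 0 ≤ (μ i * ν j + μ j * ν i) / 2 := by
      have := mul_nonneg (hμ i) (hν j)
      have := mul_nonneg (hμ j) (hν i)
      linarith
    exact (le_abs_self _).trans (abs_le_of_sq_le_sq h1 h2)
  have h1 : ∑ i ∈ Finset.range M, ∑ j ∈ Finset.range M, κ i j * (μ i * ν j)
      = ∑ i ∈ Finset.range M, ∑ j ∈ Finset.range M, κ i j * ((μ i * ν j + μ j * ν i) / 2) := by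
    have h2 : ∑ i ∈ Finset.range M, ∑ j ∈ Finset.range M, κ i j * (μ i * ν j)
        = ∑ i ∈ Finset.range M, ∑ j ∈ Finset.range M, κ i j * (μ j * ν i) := by
      rw [Finset.sum_comm]
      refine Finset.sum_congr rfl fun i _ => Finset.sum_congr rfl fun j _ => ?_
      rw [hsym]
    have h3 : ∑ i ∈ Finset.range M, ∑ j ∈ Finset.range M, κ i j * ((μ i * ν j + μ j * ν i) / 2)
        = (∑ i ∈ Finset.range M, ∑ j ∈ Finset.range M, κ i j * (μ i * ν j)
          + ∑ i ∈ Finset.range M, ∑ j ∈ Finset.range M, κ i j * (μ j * ν i)) / 2 := by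
      rw [← Finset.sum_add_distrib, Finset.sum_div]
      refine Finset.sum_congr rfl fun i _ => ?_
      rw [← Finset.sum_add_distrib, Finset.sum_div]
      refine Finset.sum_congr rfl fun j _ => ?_
      ring
    rw [h3, ← h2]; ring
  rw [h1]
  exact Finset.sum_le_sum fun i _ => Finset.sum_le_sum fun j _ =>
    mul_le_mul_of_nonneg_left (key i j) (hnn i j)

lemma pq_aux {P P' R R' Q Q' : ℝ} (hP : 0 ≤ P) (hP' : 0 ≤ P') (hR : 0 ≤ R) (hR' : 0 ≤ R')
    (hQ : 0 ≤ Q) (hQ' : 0 ≤ Q') (h : P - R ≤ Q) (h' : P' - R' ≤ Q') :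
    P * P' - P * R' - R * P' ≤ Q * Q' := by
  rcases le_total P R with h1 | h1
  · have : P * P' ≤ R * P' := mul_le_mul_of_nonneg_right h1 hP'
    have := mul_nonneg hP hR'
    have := mul_nonneg hQ hQ'
    linarith
  rcases le_total P' R' with h2 | h2
  · have : P * P' ≤ P * R' := mul_le_mul_of_nonneg_left h2 hP
    have := mul_nonneg hR hP'
    have := mul_nonneg hQ hQ'
    linarith
  · have h3 : (P - R) * (P' - R') ≤ Q * Q' :=
      mul_le_mul h h' (by linarith) hQ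
    have := mul_nonneg hR hR'
    nlinarith

lemma sub_le_of_sq {P R Q : ℝ} (hR : 0 ≤ R) (hQ : 0 ≤ Q) (h : P ^ 2 - R ^ 2 ≤ Q ^ 2) :
    P - R ≤ Q := by
  rcases le_total P R with h1 | h1
  · linarith
  · have h2 : (P - R) ^ 2 ≤ Q ^ 2 := by nlinarith
    exact (le_abs_self _).trans (abs_le_of_sq_le_sq h2 hQ)

/-! ### Counting nodes in cells -/

/-- bump function. -/
noncomputable def bump (u v w θ : ℝ) : ℝ := max 0 (min 1 (min ((θ - u) / w) ((v - θ) / w)))

lemma bump_continuous (u v w : ℝ) : Continuous (bump u v w) := by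
  unfold bump; fun_prop

lemma bump_nonneg (u v w θ : ℝ) : 0 ≤ bump u v w θ := le_max_left _ _

lemma bump_le_one (u v w θ : ℝ) : bump u v w θ ≤ 1 :=
  max_le zero_le_one (min_le_left _ _)

lemma bump_eq_zero {u v w θ : ℝ} (hw : 0 < w) (h : θ ≤ u ∨ v ≤ θ) : bump u v w θ = 0 := by
  unfold bump
  apply max_eq_left
  rcases h with h | h
  · exact (min_le_right _ _).trans ((min_le_left _ _).trans
      (div_nonpos_of_nonpos_of_nonneg (by linarith) hw.le))
  · exact (min_le_right _ _).trans ((min_le_right _ _).trans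
      (div_nonpos_of_nonpos_of_nonneg (by linarith) hw.le))

lemma bump_eq_one {u v w θ : ℝ} (hw : 0 < w) (h1 : u + w ≤ θ) (h2 : θ ≤ v - w) :
    bump u v w θ = 1 := by
  unfold bump
  have h3 : 1 ≤ (θ - u) / w := by rw [le_div_iff₀ hw]; linarith
  have h4 : 1 ≤ (v - θ) / w := by rw [le_div_iff₀ hw]; linarith
  rw [min_eq_left (le_min h3 h4)]
  simp

lemma bump_integral {u v w : ℝ} (hw : 0 < w) (hu : 0 ≤ u) (hv : v ≤ π) (huv : u + w ≤ v - w) :
    v - u - 2 * w ≤ ∫ θ in (0:ℝ)..π, bump u v w θ := by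
  have h1 : ∫ θ in (u + w)..(v - w), bump u v w θ ≤ ∫ θ in (0:ℝ)..π, bump u v w θ := by
    refine intervalIntegral.integral_mono_interval (by linarith) huv (by linarith) ?_
      ((bump_continuous u v w).intervalIntegrable _ _)
    exact Filter.Eventually.of_forall fun θ => bump_nonneg u v w θ
  have h2 : ∫ θ in (u + w)..(v - w), bump u v w θ = ∫ θ in (u + w)..(v - w), (1:ℝ) := by
    refine intervalIntegral.integral_congr fun θ hθ => ?_
    rw [Set.uIcc_of_le huv] at hθ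
    exact bump_eq_one hw hθ.1 hθ.2
  rw [h2, intervalIntegral.integral_const, smul_eq_mul, mul_one] at h1
  linarith

lemma count_lower (h1 : Equidist) {M : ℕ} (hM : 0 < M) {e : ℝ} (he : 0 < e) (he1 : e ≤ 1) :
    ∃ N : ℕ, ∀ n ≥ N, ∀ x : Fin n → ℝ, Nodes x → I x ≤ 2 → ∀ i < M,
      (1 - e) * n ≤ M * ((cell M x i).card : ℝ) := by
  have hMr : (0:ℝ) < M := by exact_mod_cast hM
  set w : ℝ := π * e / (4 * M) with hw
  have hw0 : 0 < w := by positivity
  have hchoose : ∀ i : ℕ, ∃ N : ℕ, ∀ n ≥ N, ∀ x : Fin n → ℝ, Nodes x → I x ≤ 2 →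
      |(∑ k, bump (gr M i) (gr M (i + 1)) w (th x k)) / n
        - (1 / π) * ∫ θ in (0:ℝ)..π, bump (gr M i) (gr M (i + 1)) w θ| ≤ e / (2 * M) := fun i =>
    h1 _ (bump_continuous _ _ _).continuousOn _ (by positivity)
  choose Nf hNf using hchoose
  refine ⟨(Finset.range M).sup Nf + 1, fun n hn x hx hI i hi => ?_⟩
  have hn1 : Nf i ≤ n :=
    (Finset.le_sup (f := Nf) (Finset.mem_range.mpr hi)).trans (by omega)
  have hn0 : (0:ℝ) < n := by
    have : 0 < n := by omega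
    exact_mod_cast this
  have h2 := (abs_le.mp (hNf i n hn1 x hx hI)).1
  have hsum : ∑ k, bump (gr M i) (gr M (i + 1)) w (th x k) ≤ ((cell M x i).card : ℝ) := by
    calc ∑ k, bump (gr M i) (gr M (i + 1)) w (th x k)
        = ∑ k ∈ cell M x i, bump (gr M i) (gr M (i + 1)) w (th x k) := by
          symm
          apply Finset.sum_subset (Finset.subset_univ _)
          intro k _ hk
          rw [mem_cell, not_and_or] at hk
          apply bump_eq_zero hw0
          rcases hk with hk | hk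
          · left; linarith
          · right; linarith
      _ ≤ ∑ k ∈ cell M x i, (1:ℝ) := Finset.sum_le_sum fun k _ => bump_le_one _ _ _ _
      _ = ((cell M x i).card : ℝ) := by simp
  have hint := bump_integral (u := gr M i) (v := gr M (i + 1)) hw0 (gr_nonneg _ _)
    (gr_le_pi hM hi) (by
      rw [gr_succ, hw]
      have h5 : π / M - 2 * (π * e / (4 * M)) = π * (2 - e) / (2 * M) := by field_simp; ring
      have h6 : 0 ≤ π * (2 - e) / (2 * M) := by
        apply div_nonneg _ (by positivity)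
        exact mul_nonneg pi_pos.le (by linarith)
      linarith)
  rw [gr_succ] at hint
  have h3 : (1 / M) * (1 - e / 2) ≤ (1 / π) * ∫ θ in (0:ℝ)..π, bump (gr M i) (gr M (i + 1)) w θ := by
    have h4 : π * ((1 / M) * (1 - e / 2)) ≤ ∫ θ in (0:ℝ)..π, bump (gr M i) (gr M (i + 1)) w θ := by
      rw [gr_succ]
      refine le_trans (le_of_eq ?_) hint
      rw [hw]; field_simp; ring
    calc (1 / M) * (1 - e / 2) = (1 / π) * (π * ((1 / M) * (1 - e / 2))) := by
          field_simp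
      _ ≤ _ := mul_le_mul_of_nonneg_left h4 (by positivity)
  have h5 : (1 - e) / M ≤ (∑ k, bump (gr M i) (gr M (i + 1)) w (th x k)) / n := by
    have : (1 - e) / (M:ℝ) = (1 / M) * (1 - e / 2) - e / (2 * M) := by field_simp; ring
    rw [this]; linarith
  have h6 : (1 - e) / M ≤ ((cell M x i).card : ℝ) / n := h5.trans (by gcongr)
  rw [div_le_div_iff₀ hMr hn0] at h6
  linarith

/-! ### The cell estimate -/

lemma continuous_D (n : ℕ) : Continuous (D n) := by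
  unfold D; fun_prop

lemma continuous_tau (n : ℕ) (η : ℝ) : Continuous fun θ => tau n θ η := by
  unfold tau
  have := continuous_D n
  fun_prop

lemma cell_tau {n M i : ℕ} (hn : 1 ≤ n) (hM : 0 < M) (hi : i < M) {η : ℝ}
    (hη : η ∈ Set.Icc (gr M i) (gr M (i + 1))) :
    (Real.sin (gr M i) ^ 3 * (π / (2 * M)) - 1 / (2 * n) - 4 * (π / M) ^ 2) / (n:ℝ) ^ 2
      ≤ ∫ θ in (gr M i)..(gr M (i + 1)),
        ((Real.cos θ - Real.cos η) * tau n θ η) ^ 2 * Real.sin θ := by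
  have hn' : (0:ℝ) < n := by exact_mod_cast hn
  have hMr : (0:ℝ) < M := by exact_mod_cast hM
  set σ := Real.sin (gr M i) with hσ
  have hle := (gr_lt_succ hM i).le
  have hg0 := gr_nonneg M i
  have hg1 : gr M (i + 1) ≤ π := gr_le_pi hM hi
  have hs0 : 0 ≤ σ := Real.sin_nonneg_of_nonneg_of_le_pi hg0 (hle.trans hg1)
  have hs1 : σ ≤ 1 := Real.sin_le_one _
  have hstep : gr M (i + 1) - gr M i = π / M := by rw [gr_succ]; ring
  have hlow : ∀ θ ∈ Set.Icc (gr M i) (gr M (i + 1)),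
      (σ ^ 3 * Real.sin (n * (θ - η)) ^ 2 - 4 * (π / M)) / (n:ℝ) ^ 2
        ≤ ((Real.cos θ - Real.cos η) * tau n θ η) ^ 2 * Real.sin θ := by
    intro θ hθ
    apply tau_lower n hn ⟨hg0.trans hθ.1, hθ.2.trans hg1⟩ ⟨hg0.trans hη.1, hη.2.trans hg1⟩
      hs0 hs1
    · refine (Real.abs_sin_sub_sin_le _ _).trans ?_
      rw [abs_le]; constructor <;> linarith [hθ.1, hθ.2]
    · refine (Real.abs_sin_sub_sin_le _ _).trans ?_
      rw [abs_le]; constructor <;> linarith [hη.1, hη.2]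
    · refine (Real.abs_cos_sub_cos_le _ _).trans ?_
      rw [abs_le]; constructor <;> linarith [hθ.1, hθ.2, hη.1, hη.2]
  have hc1 : Continuous fun θ => ((Real.cos θ - Real.cos η) * tau n θ η) ^ 2 * Real.sin θ := by
    have := continuous_tau n η
    fun_prop
  have hc2 : Continuous fun θ : ℝ =>
      (σ ^ 3 * Real.sin (n * (θ - η)) ^ 2 - 4 * (π / M)) / (n:ℝ) ^ 2 := by fun_prop
  refine le_trans ?_ (intervalIntegral.integral_mono_on hle (hc2.intervalIntegrable _ _)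
    (hc1.intervalIntegrable _ _) hlow)
  rw [intervalIntegral.integral_div, intervalIntegral.integral_sub
    (Continuous.intervalIntegrable (by fun_prop) _ _)
    (continuous_const.intervalIntegrable _ _), intervalIntegral.integral_const_mul,
    intervalIntegral.integral_const, hstep, smul_eq_mul]
  apply div_le_div_of_nonneg_right _ (by positivity)
  have h1 := integral_sin_sq_lower n hn (gr M i) (gr M (i + 1)) η
  rw [hstep] at h1
  have h2 : σ ^ 3 * (π / M / 2 - 1 / (2 * n))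
      ≤ σ ^ 3 * ∫ θ in (gr M i)..(gr M (i + 1)), Real.sin (n * (θ - η)) ^ 2 :=
    mul_le_mul_of_nonneg_left h1 (by positivity)
  have h3 : σ ^ 3 * (1 / (2 * (n:ℝ))) ≤ 1 * (1 / (2 * (n:ℝ))) :=
    mul_le_mul_of_nonneg_right (pow_le_one₀ hs0 hs1) (by positivity)
  have h4 : σ ^ 3 * (π / M / 2 - 1 / (2 * n))
      = σ ^ 3 * (π / (2 * M)) - σ ^ 3 * (1 / (2 * n)) := by
    have : π / (M:ℝ) / 2 = π / (2 * M) := by field_simp
    rw [this]; ring
  have h5 : π / (M:ℝ) * (4 * (π / M)) = 4 * (π / M) ^ 2 := by ring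
  linarith

/-- node polynomial. -/
noncomputable def om {n : ℕ} (x : Fin n → ℝ) (t : ℝ) : ℝ := ∏ i, (t - x i)

/-- inverse of the derivative of the node polynomial at the node. -/
noncomputable def vv {n : ℕ} (x : Fin n → ℝ) (k : Fin n) : ℝ :=
  ∏ i ∈ Finset.univ.erase k, (x k - x i)⁻¹

lemma L_mul {n : ℕ} (x : Fin n → ℝ) (k : Fin n) (t : ℝ) :
    (t - x k) * L x k t = om x t * vv x k := by
  unfold L om vv
  simp_rw [div_eq_mul_inv]
  rw [Finset.prod_mul_distrib, ← mul_assoc,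
    Finset.mul_prod_erase Finset.univ (fun i => t - x i) (Finset.mem_univ k)]

lemma continuous_om {n : ℕ} (x : Fin n → ℝ) : Continuous (om x) := by
  unfold om; fun_prop

/-- weight of `om ^ 2` on a cell. -/
noncomputable def mu {n : ℕ} (x : Fin n → ℝ) (M i : ℕ) : ℝ :=
  ∫ θ in (gr M i)..(gr M (i + 1)), om x (Real.cos θ) ^ 2 * Real.sin θ

/-- weight of the nodes in a cell. -/
noncomputable def nu {n : ℕ} (x : Fin n → ℝ) (M j : ℕ) : ℝ := ∑ k ∈ cell M x j, vv x k ^ 2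

/-- error of the Lagrange basis in a cell. -/
noncomputable def er {n : ℕ} (x : Fin n → ℝ) (M i : ℕ) : ℝ :=
  ∑ k ∈ cell M x i, ∫ θ in (gr M i)..(gr M (i + 1)),
    (L x k (Real.cos θ) - tau n θ (th x k)) ^ 2 * Real.sin θ

lemma sin_nonneg_cell {M i : ℕ} (hM : 0 < M) (hi : i < M) {θ : ℝ}
    (hθ : θ ∈ Set.Icc (gr M i) (gr M (i + 1))) : 0 ≤ Real.sin θ :=
  Real.sin_nonneg_of_nonneg_of_le_pi ((gr_nonneg M i).trans hθ.1)
    (hθ.2.trans (gr_le_pi hM hi))

lemma mu_nonneg {n : ℕ} (x : Fin n → ℝ) {M i : ℕ} (hM : 0 < M) (hi : i < M) : 0 ≤ mu x M i :=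
  intervalIntegral.integral_nonneg (gr_lt_succ hM i).le fun _ hθ =>
    mul_nonneg (sq_nonneg _) (sin_nonneg_cell hM hi hθ)

lemma nu_nonneg {n : ℕ} (x : Fin n → ℝ) (M j : ℕ) : 0 ≤ nu x M j :=
  Finset.sum_nonneg fun _ _ => sq_nonneg _

lemma er_nonneg {n : ℕ} (x : Fin n → ℝ) {M i : ℕ} (hM : 0 < M) (hi : i < M) : 0 ≤ er x M i :=
  Finset.sum_nonneg fun _ _ => intervalIntegral.integral_nonneg (gr_lt_succ hM i).le
    fun _ hθ => mul_nonneg (sq_nonneg _) (sin_nonneg_cell hM hi hθ)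

lemma integral_L_cell {n : ℕ} (x : Fin n → ℝ) (M i : ℕ) (k : Fin n) :
    ∫ θ in (gr M i)..(gr M (i + 1)), ((Real.cos θ - x k) * L x k (Real.cos θ)) ^ 2 * Real.sin θ
      = mu x M i * vv x k ^ 2 := by
  unfold mu
  rw [← intervalIntegral.integral_mul_const]
  refine intervalIntegral.integral_congr fun θ _ => ?_
  rw [L_mul]; ring

lemma mu_mul_nu {n : ℕ} (x : Fin n → ℝ) (M i j : ℕ) :
    mu x M i * nu x M j = ∑ k ∈ cell M x j, ∫ θ in (gr M i)..(gr M (i + 1)),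
      ((Real.cos θ - x k) * L x k (Real.cos θ)) ^ 2 * Real.sin θ := by
  unfold nu
  rw [Finset.mul_sum]
  exact Finset.sum_congr rfl fun k _ => (integral_L_cell x M i k).symm

/-- lower bound for the cell integral of the base kernel, times `n ^ 2`. -/
noncomputable def bet (n M i : ℕ) : ℝ :=
  Real.sin (gr M i) ^ 3 * (π / (2 * M)) - 1 / (2 * n) - 4 * (π / M) ^ 2

lemma cell_q {n M i : ℕ} (hn : 1 ≤ n) (hM : 0 < M) (hi : i < M) {x : Fin n → ℝ} (hx : Nodes x)
    {d : ℝ} (hd : 0 < d) (hd1 : d ≤ 1) :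
    (1 - d) * ((cell M x i).card * (max (bet n M i) 0 / (n:ℝ) ^ 2))
        - (1 / d) * ((π / M) ^ 2 * er x M i) ≤ mu x M i * nu x M i := by
  have hle := (gr_lt_succ hM i).le
  rw [mu_mul_nu]
  unfold er
  have hcard : ((cell M x i).card : ℝ) * (max (bet n M i) 0 / (n:ℝ) ^ 2)
      = ∑ k ∈ cell M x i, max (bet n M i) 0 / (n:ℝ) ^ 2 := by
    rw [Finset.sum_const, nsmul_eq_mul]
  rw [hcard, Finset.mul_sum, Finset.mul_sum, Finset.mul_sum, ← Finset.sum_sub_distrib]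
  refine Finset.sum_le_sum fun k hk => ?_
  rw [mem_cell] at hk
  have hη : th x k ∈ Set.Icc (gr M i) (gr M (i + 1)) := ⟨hk.1, hk.2.le⟩
  have hcos := hx.cos_th k
  have h1 := cell_tau hn hM hi hη
  rw [hcos] at h1
  have hct := continuous_tau n (th x k)
  have hcL : Continuous fun θ => L x k (Real.cos θ) := (continuous_L x k).comp Real.continuous_cos
  have h2 : 0 ≤ ∫ θ in (gr M i)..(gr M (i + 1)),
      ((Real.cos θ - x k) * tau n θ (th x k)) ^ 2 * Real.sin θ :=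
    intervalIntegral.integral_nonneg hle fun _ hθ =>
      mul_nonneg (sq_nonneg _) (sin_nonneg_cell hM hi hθ)
  have h3 : max (bet n M i) 0 / (n:ℝ) ^ 2 ≤ ∫ θ in (gr M i)..(gr M (i + 1)),
      ((Real.cos θ - x k) * tau n θ (th x k)) ^ 2 * Real.sin θ := by
    rcases le_total (bet n M i) 0 with h | h
    · rw [max_eq_right h, zero_div]; exact h2
    · rw [max_eq_left h]; exact h1
  have h4 : (1 - d) * (max (bet n M i) 0 / (n:ℝ) ^ 2) ≤ (1 - d) * ∫ θ in (gr M i)..(gr M (i + 1)),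
      ((Real.cos θ - x k) * tau n θ (th x k)) ^ 2 * Real.sin θ :=
    mul_le_mul_of_nonneg_left h3 (by linarith)
  refine (sub_le_sub_right h4 _).trans ?_
  rw [← intervalIntegral.integral_const_mul, ← intervalIntegral.integral_const_mul,
    ← intervalIntegral.integral_const_mul, ← intervalIntegral.integral_sub
      (Continuous.intervalIntegrable (by fun_prop) _ _)
      (Continuous.intervalIntegrable (by fun_prop) _ _)]
  refine intervalIntegral.integral_mono_on hle (Continuous.intervalIntegrable (by fun_prop) _ _)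
    (Continuous.intervalIntegrable (by fun_prop) _ _) fun θ hθ => ?_
  have hsin := sin_nonneg_cell hM hi hθ
  have hstep : gr M (i + 1) - gr M i = π / M := by rw [gr_succ]; ring
  have habs : |Real.cos θ - x k| ≤ π / M := by
    rw [← hcos]
    refine (Real.abs_cos_sub_cos_le _ _).trans ?_
    rw [abs_le]; constructor <;> linarith [hθ.1, hθ.2, hη.1, hη.2]
  have hsq : (Real.cos θ - x k) ^ 2 ≤ (π / M) ^ 2 := by
    rw [← sq_abs]; exact pow_le_pow_left₀ (abs_nonneg _) habs 2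
  set c := Real.cos θ - x k
  set t := tau n θ (th x k)
  set l := L x k (Real.cos θ)
  set s := Real.sin θ
  have e1 : (1 - d) * (c * t) ^ 2 - (1 / d) * (c * (l - t)) ^ 2 ≤ (c * l) ^ 2 := by
    have e2 : (c * l) ^ 2 - ((1 - d) * (c * t) ^ 2 - (1 / d) * (c * (l - t)) ^ 2)
        = ((d * (c * t) + c * (l - t)) ^ 2 + d * (c * (l - t)) ^ 2) / d := by
      field_simp; ring
    have e3 : 0 ≤ ((d * (c * t) + c * (l - t)) ^ 2 + d * (c * (l - t)) ^ 2) / d := by positivity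
    linarith
  have e4 : (1 / d) * (c * (l - t)) ^ 2 ≤ (1 / d) * ((π / M) ^ 2 * (l - t) ^ 2) := by
    apply mul_le_mul_of_nonneg_left _ (by positivity)
    rw [mul_pow]
    exact mul_le_mul_of_nonneg_right hsq (sq_nonneg _)
  have e5 : ((1 - d) * (c * t) ^ 2 - (1 / d) * ((π / M) ^ 2 * (l - t) ^ 2)) * s ≤ (c * l) ^ 2 * s :=
    mul_le_mul_of_nonneg_right (by linarith) hsin
  calc (1 - d) * ((c * t) ^ 2 * s) - 1 / d * ((π / M) ^ 2 * ((l - t) ^ 2 * s))
      = ((1 - d) * (c * t) ^ 2 - (1 / d) * ((π / M) ^ 2 * (l - t) ^ 2)) * s := by ring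
    _ ≤ _ := e5

lemma sum_er_le {n M : ℕ} (hM : 0 < M) {x : Fin n → ℝ} {C : ℝ}
    (h : ∑ k, ∫ θ in (0:ℝ)..π, (L x k (Real.cos θ) - tau n θ (th x k)) ^ 2 * Real.sin θ ≤ C) :
    ∑ i ∈ Finset.range M, er x M i ≤ C := by
  refine le_trans ?_ ((sum_cells_le (M := M) x _ fun k => ?_).trans h)
  · refine Finset.sum_le_sum fun i hi => Finset.sum_le_sum fun k _ => ?_
    have hi' := Finset.mem_range.mp hi
    have hct := continuous_tau n (th x k)
    have hcL : Continuous fun θ => L x k (Real.cos θ) :=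
      (continuous_L x k).comp Real.continuous_cos
    refine intervalIntegral.integral_mono_interval (gr_nonneg M i) (gr_lt_succ hM i).le
      (gr_le_pi hM hi') ?_ (Continuous.intervalIntegrable (by fun_prop) _ _)
    filter_upwards [ae_restrict_mem measurableSet_Ioc] with θ hθ
    exact mul_nonneg (sq_nonneg _) (Real.sin_nonneg_of_nonneg_of_le_pi hθ.1.le hθ.2)
  · exact intervalIntegral.integral_nonneg pi_pos.le fun θ hθ =>
      mul_nonneg (sq_nonneg _) (Real.sin_nonneg_of_nonneg_of_le_pi hθ.1 hθ.2)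

lemma sum_kernel_ge {n M : ℕ} (hM : 0 < M) {x : Fin n → ℝ}
    {K : ℝ → ℝ → ℝ} (hK : Continuous (fun p : ℝ × ℝ => K p.1 p.2)) (hnn : ∀ a b, 0 ≤ K a b)
    (κ : ℕ → ℕ → ℝ) (hκ : ∀ i < M, ∀ j < M, ∀ θ ∈ Set.Icc (gr M i) (gr M (i + 1)),
      ∀ η ∈ Set.Icc (gr M j) (gr M (j + 1)), κ i j ≤ K θ η) :
    ∑ i ∈ Finset.range M, ∑ j ∈ Finset.range M, κ i j * (mu x M i * nu x M j)
      ≤ ∑ k, ∫ θ in (0:ℝ)..π,
        K θ (th x k) * (Real.cos θ - x k) ^ 2 * L x k (Real.cos θ) ^ 2 * Real.sin θ := by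
  have hcK : ∀ η, Continuous fun θ => K θ η := fun η =>
    hK.comp (Continuous.prodMk continuous_id continuous_const)
  have hcL : ∀ k, Continuous fun θ => L x k (Real.cos θ) := fun k =>
    (continuous_L x k).comp Real.continuous_cos
  have hcont : ∀ k, Continuous fun θ =>
      K θ (th x k) * (Real.cos θ - x k) ^ 2 * L x k (Real.cos θ) ^ 2 * Real.sin θ := fun k => by
    have := hcK (th x k)
    have := hcL k
    fun_prop
  refine le_trans ?_ (sum_cells_le (M := M) x _ fun k =>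
    intervalIntegral.integral_nonneg pi_pos.le fun θ hθ => mul_nonneg (mul_nonneg
      (mul_nonneg (hnn _ _) (sq_nonneg _)) (sq_nonneg _))
      (Real.sin_nonneg_of_nonneg_of_le_pi hθ.1 hθ.2))
  rw [Finset.sum_comm]
  refine Finset.sum_le_sum fun j hj => ?_
  have hj' := Finset.mem_range.mp hj
  have h1 : ∑ i ∈ Finset.range M, κ i j * (mu x M i * nu x M j)
      = ∑ k ∈ cell M x j, ∑ i ∈ Finset.range M, κ i j * (mu x M i * vv x k ^ 2) := by
    rw [Finset.sum_comm]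
    refine Finset.sum_congr rfl fun i _ => ?_
    unfold nu
    rw [Finset.mul_sum, Finset.mul_sum]
  rw [h1]
  refine Finset.sum_le_sum fun k hk => ?_
  rw [mem_cell] at hk
  rw [split_integral hM (hcont k)]
  refine Finset.sum_le_sum fun i hi => ?_
  have hi' := Finset.mem_range.mp hi
  rw [← integral_L_cell, ← intervalIntegral.integral_const_mul]
  refine intervalIntegral.integral_mono_on (gr_lt_succ hM i).le
    (Continuous.intervalIntegrable (by have := hcL k; fun_prop) _ _)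
    ((hcont k).intervalIntegrable _ _) fun θ hθ => ?_
  have hsin := sin_nonneg_cell hM hi' hθ
  have hk2 := hκ i hi' j hj' θ hθ (th x k) ⟨hk.1, hk.2.le⟩
  have : κ i j * (((Real.cos θ - x k) * L x k (Real.cos θ)) ^ 2 * Real.sin θ)
      ≤ K θ (th x k) * (((Real.cos θ - x k) * L x k (Real.cos θ)) ^ 2 * Real.sin θ) :=
    mul_le_mul_of_nonneg_right hk2 (mul_nonneg (sq_nonneg _) hsin)
  refine this.trans (le_of_eq ?_)
  ring

lemma final_sum {M : ℕ} {κ Φ : ℕ → ℕ → ℝ} {P Q R : ℕ → ℝ} {B dd e1 : ℝ} (hB : 0 ≤ B)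
    (hκ0 : ∀ i j, 0 ≤ κ i j) (hκB : ∀ i < M, ∀ j < M, κ i j ≤ B)
    (hP0 : ∀ i < M, 0 ≤ P i) (hP2 : ∀ i < M, P i ≤ 2) (hR0 : ∀ i, 0 ≤ R i)
    (hQ0 : ∀ i, 0 ≤ Q i) (hPQ : ∀ i < M, P i - R i ≤ Q i)
    (hPP : ∀ i < M, ∀ j < M, (π / 2) * Φ i j - (π / 2) * dd ≤ κ i j * (P i * P j))
    (hR : ∑ i ∈ Finset.range M, R i ≤ M * e1) :
    ∑ i ∈ Finset.range M, ∑ j ∈ Finset.range M, ((π / 2) * Φ i j - (π / 2) * dd)
        - 4 * B * e1 * (M:ℝ) ^ 2
      ≤ ∑ i ∈ Finset.range M, ∑ j ∈ Finset.range M, κ i j * (Q i * Q j) := by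
  have h1 : ∀ i ∈ Finset.range M, ∀ j ∈ Finset.range M,
      ((π / 2) * Φ i j - (π / 2) * dd) - (2 * B * R j + 2 * B * R i) ≤ κ i j * (Q i * Q j) := by
    intro i hi j hj
    rw [Finset.mem_range] at hi hj
    have a1 := pq_aux (hP0 i hi) (hP0 j hj) (hR0 i) (hR0 j) (hQ0 i) (hQ0 j) (hPQ i hi) (hPQ j hj)
    have a2 : κ i j * (P i * P j - P i * R j - R i * P j) ≤ κ i j * (Q i * Q j) :=
      mul_le_mul_of_nonneg_left a1 (hκ0 i j)
    have a3 : κ i j * (P i * R j) ≤ B * (2 * R j) :=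
      mul_le_mul (hκB i hi j hj) (mul_le_mul_of_nonneg_right (hP2 i hi) (hR0 j))
        (mul_nonneg (hP0 i hi) (hR0 j)) hB
    have a4 : κ i j * (R i * P j) ≤ B * (R i * 2) :=
      mul_le_mul (hκB i hi j hj) (mul_le_mul_of_nonneg_left (hP2 j hj) (hR0 i))
        (mul_nonneg (hR0 i) (hP0 j hj)) hB
    have a5 := hPP i hi j hj
    nlinarith
  have h2 : ∑ i ∈ Finset.range M, ∑ j ∈ Finset.range M,
      (((π / 2) * Φ i j - (π / 2) * dd) - (2 * B * R j + 2 * B * R i))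
      ≤ ∑ i ∈ Finset.range M, ∑ j ∈ Finset.range M, κ i j * (Q i * Q j) :=
    Finset.sum_le_sum fun i hi => Finset.sum_le_sum fun j hj => h1 i hi j hj
  have h3 : ∑ i ∈ Finset.range M, ∑ j ∈ Finset.range M,
      (((π / 2) * Φ i j - (π / 2) * dd) - (2 * B * R j + 2 * B * R i))
      = ∑ i ∈ Finset.range M, ∑ j ∈ Finset.range M, ((π / 2) * Φ i j - (π / 2) * dd)
        - 4 * B * M * ∑ i ∈ Finset.range M, R i := by
    simp_rw [Finset.sum_sub_distrib, Finset.sum_add_distrib, Finset.sum_const,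
      Finset.card_range, nsmul_eq_mul, ← Finset.mul_sum]
    ring
  rw [h3] at h2
  have h4 : 4 * B * M * ∑ i ∈ Finset.range M, R i ≤ 4 * B * M * (M * e1) :=
    mul_le_mul_of_nonneg_left hR (by positivity)
  have h5 : 4 * B * M * (M * e1) = 4 * B * e1 * (M:ℝ) ^ 2 := by ring
  linarith

lemma exists_mesh {K : ℝ → ℝ → ℝ} (hK : Continuous (fun p : ℝ × ℝ => K p.1 p.2)) {d : ℝ}
    (hd : 0 < d) : ∃ w > 0, ∀ a ∈ Set.Icc 0 π, ∀ b ∈ Set.Icc 0 π, ∀ a' ∈ Set.Icc 0 π,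
      ∀ b' ∈ Set.Icc 0 π, |a - a'| < w → |b - b'| < w → |K a b - K a' b'| < d := by
  have hc : IsCompact (Set.Icc (0:ℝ) π ×ˢ Set.Icc (0:ℝ) π) := isCompact_Icc.prod isCompact_Icc
  have hu := hc.uniformContinuousOn_of_continuous hK.continuousOn
  rw [Metric.uniformContinuousOn_iff] at hu
  obtain ⟨w, hw, hu⟩ := hu d hd
  refine ⟨w, hw, fun a ha b hb a' ha' b' hb' h1 h2 => ?_⟩
  have := hu (a, b) ⟨ha, hb⟩ (a', b') ⟨ha', hb'⟩ (by
    rw [Prod.dist_eq, max_lt_iff, Real.dist_eq, Real.dist_eq]; exact ⟨h1, h2⟩)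
  rwa [Real.dist_eq] at this

lemma Q_sq_lower {n M i : ℕ} (hn : 1 ≤ n) (hM : 0 < M) (hi : i < M) {x : Fin n → ℝ}
    (hx : Nodes x) {d : ℝ} (hd : 0 < d) (hd1 : d ≤ 1)
    (hcard : (1 - d) * n ≤ M * ((cell M x i).card : ℝ)) :
    (π / 2) * Real.sin (gr M i) ^ 3
        - (M / (2 * n) + 4 * π ^ 2 / M + 4 * d + (π ^ 2 * n / d) * er x M i)
      ≤ n * (M:ℝ) ^ 2 * (mu x M i * nu x M i) := by
  have hn' : (0:ℝ) < n := by exact_mod_cast hn
  have hMr : (0:ℝ) < M := by exact_mod_cast hM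
  have h1 := cell_q hn hM hi hx hd hd1
  have h2 : n * (M:ℝ) ^ 2 * ((1 - d) * ((cell M x i).card * (max (bet n M i) 0 / (n:ℝ) ^ 2))
        - (1 / d) * ((π / M) ^ 2 * er x M i)) ≤ n * (M:ℝ) ^ 2 * (mu x M i * nu x M i) :=
    mul_le_mul_of_nonneg_left h1 (by positivity)
  refine le_trans ?_ h2
  set m := (M:ℝ) * max (bet n M i) 0 with hm
  have hm0 : 0 ≤ m := by positivity
  have hσ0 : 0 ≤ Real.sin (gr M i) :=
    sin_nonneg_cell hM hi ⟨le_refl _, (gr_lt_succ hM i).le⟩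
  have hσ1 : Real.sin (gr M i) ^ 3 ≤ 1 := pow_le_one₀ hσ0 (Real.sin_le_one _)
  have hbet : (M:ℝ) * bet n M i
      = (π / 2) * Real.sin (gr M i) ^ 3 - M / (2 * n) - 4 * π ^ 2 / M := by
    unfold bet; field_simp
  have hm1 : m ≤ 2 := by
    rw [hm]
    rcases le_total (bet n M i) 0 with h | h
    · rw [max_eq_right h]; simp
    · rw [max_eq_left h, hbet]
      have a1 : (π / 2) * Real.sin (gr M i) ^ 3 ≤ (π / 2) * 1 :=
        mul_le_mul_of_nonneg_left hσ1 (by positivity)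
      have a2 : 0 ≤ (M:ℝ) / (2 * n) := by positivity
      have a3 : 0 ≤ 4 * π ^ 2 / (M:ℝ) := by positivity
      have := Real.pi_lt_four
      linarith
  have hm2 : (M:ℝ) * bet n M i ≤ m := by
    rw [hm]; exact mul_le_mul_of_nonneg_left (le_max_left _ _) hMr.le
  have h3 : n * (M:ℝ) ^ 2 * ((1 - d) * ((cell M x i).card * (max (bet n M i) 0 / (n:ℝ) ^ 2))
        - (1 / d) * ((π / M) ^ 2 * er x M i))
      = (1 - d) * ((M * ((cell M x i).card : ℝ)) / n) * m - (π ^ 2 * n / d) * er x M i := by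
    rw [hm]; field_simp
  rw [h3]
  have h4 : 1 - d ≤ (M * ((cell M x i).card : ℝ)) / n := by
    rw [le_div_iff₀ hn']; exact hcard
  have h5 : (1 - d) * (1 - d) * m ≤ (1 - d) * ((M * ((cell M x i).card : ℝ)) / n) * m :=
    mul_le_mul_of_nonneg_right (mul_le_mul_of_nonneg_left h4 (by linarith)) hm0
  have h6 : m - 4 * d ≤ (1 - d) * (1 - d) * m := by nlinarith [mul_nonneg hd.le hm0]
  linarith

end Far

theorem farBound (h1 : Equidist) (C : ℝ) (h2 : Rigid C) : FarBound := by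
  intro K hK hsym hnn ε hε
  have hπ := Real.pi_pos
  -- bound on `K`
  obtain ⟨B, hB0, hB⟩ : ∃ B : ℝ, 0 ≤ B ∧ ∀ a ∈ Set.Icc 0 π, ∀ b ∈ Set.Icc 0 π, K a b ≤ B := by
    have hc : IsCompact (Set.Icc (0:ℝ) π ×ˢ Set.Icc (0:ℝ) π) := isCompact_Icc.prod isCompact_Icc
    obtain ⟨B, hB⟩ := hc.exists_bound_of_continuousOn hK.continuousOn
    refine ⟨B, (norm_nonneg _).trans (hB (0, 0) ⟨⟨le_refl _, hπ.le⟩, ⟨le_refl _, hπ.le⟩⟩), ?_⟩
    intro a ha b hb
    exact (le_abs_self _).trans (hB (a, b) ⟨ha, hb⟩)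
  set Φ : ℝ → ℝ → ℝ := fun θ η => K θ η * (√(Real.sin θ) ^ 3 * √(Real.sin η) ^ 3) with hΦdef
  have hΦ : Continuous fun p : ℝ × ℝ => Φ p.1 p.2 := by
    simp only [hΦdef]
    fun_prop
  set dd : ℝ := ε / (2 * π) with hdd
  have hdd0 : 0 < dd := by positivity
  obtain ⟨w1, hw1, hm1⟩ := Far.exists_mesh hK hdd0
  obtain ⟨w2, hw2, hm2⟩ := Far.exists_mesh hΦ hdd0
  set e1 : ℝ := min 1 (ε / (8 * (B + 1))) with he1
  have he0 : 0 < e1 := lt_min one_pos (by positivity)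
  have he11 : e1 ≤ 1 := min_le_left _ _
  have heB : 4 * B * e1 ≤ ε / 2 := by
    have a1 : e1 ≤ ε / (8 * (B + 1)) := min_le_right _ _
    have a2 : 4 * B * e1 ≤ 4 * B * (ε / (8 * (B + 1))) :=
      mul_le_mul_of_nonneg_left a1 (by positivity)
    have a3 : 4 * B * (ε / (8 * (B + 1))) = (ε / 2) * (B / (B + 1)) := by field_simp; ring
    have a4 : B / (B + 1) ≤ 1 := by rw [div_le_one (by positivity)]; linarith
    have a5 : (ε / 2) * (B / (B + 1)) ≤ (ε / 2) * 1 :=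
      mul_le_mul_of_nonneg_left a4 (by positivity)
    linarith
  set d : ℝ := e1 ^ 2 / 8 with hd
  have hd0 : 0 < d := by positivity
  have hd1 : d ≤ 1 := by
    have : e1 ^ 2 ≤ 1 := pow_le_one₀ he0.le he11
    rw [hd]; linarith
  set C' : ℝ := max C 0 with hC'
  have hC'0 : 0 ≤ C' := le_max_right _ _
  -- choice of `M`
  obtain ⟨M, hM⟩ := exists_nat_gt (max (max (π / w1) (π / w2))
    ((4 * π ^ 2 + π ^ 2 * C' / d) / (e1 ^ 2 / 4)))
  have hM1 : π / w1 < M := ((le_max_left _ _).trans (le_max_left _ _)).trans_lt hM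
  have hM2 : π / w2 < M := ((le_max_right _ _).trans (le_max_left _ _)).trans_lt hM
  have hM3 : (4 * π ^ 2 + π ^ 2 * C' / d) / (e1 ^ 2 / 4) < M := (le_max_right _ _).trans_lt hM
  have hMr : (0:ℝ) < M := (by positivity : 0 < π / w1).trans hM1
  have hM0 : 0 < M := by exact_mod_cast hMr
  have hmesh1 : π / M < w1 := by
    rw [div_lt_iff₀ hMr]; rw [div_lt_iff₀ hw1] at hM1; linarith
  have hmesh2 : π / M < w2 := by
    rw [div_lt_iff₀ hMr]; rw [div_lt_iff₀ hw2] at hM2; linarith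
  have hM4 : (4 * π ^ 2 + π ^ 2 * C' / d) / M ≤ e1 ^ 2 / 4 := by
    rw [div_lt_iff₀ (by positivity)] at hM3
    rw [div_le_iff₀ hMr]; linarith
  obtain ⟨N1, hN1⟩ := Far.count_lower h1 hM0 hd0 hd1
  obtain ⟨N2, hN2⟩ := h2
  obtain ⟨N3, hN3⟩ := exists_nat_gt (2 * (M:ℝ) / e1 ^ 2)
  refine ⟨N1 + N2 + N3 + 1, fun n hn x hx hI => ?_⟩
  have hn1 : 1 ≤ n := by omega
  have hnr : (0:ℝ) < n := by exact_mod_cast hn1
  have hcount := hN1 n (by omega) x hx hI
  have hrig := hN2 n (by omega) x hx hI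
  have hnM : (M:ℝ) / (2 * n) ≤ e1 ^ 2 / 4 := by
    have a1 : 2 * (M:ℝ) / e1 ^ 2 < n :=
      hN3.trans_le (by exact_mod_cast (by omega : N3 ≤ n))
    rw [div_lt_iff₀ (by positivity)] at a1
    rw [div_le_iff₀ (by positivity)]
    linarith
  have hrig' : ∑ i ∈ Finset.range M, Far.er x M i ≤ C' / n := by
    refine Far.sum_er_le hM0 (hrig.trans ?_)
    exact div_le_div_of_nonneg_right (le_max_left _ _) hnr.le
  -- the discrete quantities
  set κ : ℕ → ℕ → ℝ := fun i j => max (K (Far.gr M i) (Far.gr M j) - dd) 0 with hκ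
  set Q : ℕ → ℝ := fun i => √n * M * √(Far.mu x M i * Far.nu x M i) with hQ
  set P : ℕ → ℝ := fun i => √(π / 2) * √(Real.sin (Far.gr M i)) ^ 3 with hP
  set R : ℕ → ℝ := fun i => √(M / (2 * n) + 4 * π ^ 2 / M + 4 * d
    + (π ^ 2 * n / d) * max (Far.er x M i) 0) with hR
  have hgr : ∀ i < M, Far.gr M i ∈ Set.Icc 0 π := fun i hi =>
    ⟨Far.gr_nonneg M i, Far.gr_le_pi hM0 hi.le⟩
  have hcellsub : ∀ i < M, ∀ θ ∈ Set.Icc (Far.gr M i) (Far.gr M (i + 1)),
      θ ∈ Set.Icc 0 π ∧ |θ - Far.gr M i| ≤ π / M := by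
    intro i hi θ hθ
    refine ⟨⟨(Far.gr_nonneg M i).trans hθ.1, hθ.2.trans (Far.gr_le_pi hM0 hi)⟩, ?_⟩
    have := Far.gr_succ (M := M) i
    rw [abs_le]; constructor <;> linarith [hθ.1, hθ.2]
  have hκK : ∀ i < M, ∀ j < M, ∀ θ ∈ Set.Icc (Far.gr M i) (Far.gr M (i + 1)),
      ∀ η ∈ Set.Icc (Far.gr M j) (Far.gr M (j + 1)), κ i j ≤ K θ η := by
    intro i hi j hj θ hθ η hη
    obtain ⟨b1, b2⟩ := hcellsub i hi θ hθ
    obtain ⟨b3, b4⟩ := hcellsub j hj η hη
    have b5 := hm1 θ b1 η b3 _ (hgr i hi) _ (hgr j hj) (b2.trans_lt hmesh1) (b4.trans_lt hmesh1)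
    rw [abs_lt] at b5
    exact max_le (by linarith) (hnn _ _)
  have hΦK : ∀ i < M, ∀ j < M, ∀ θ ∈ Set.Icc (Far.gr M i) (Far.gr M (i + 1)),
      ∀ η ∈ Set.Icc (Far.gr M j) (Far.gr M (j + 1)),
        Φ θ η ≤ Φ (Far.gr M i) (Far.gr M j) + dd := by
    intro i hi j hj θ hθ η hη
    obtain ⟨b1, b2⟩ := hcellsub i hi θ hθ
    obtain ⟨b3, b4⟩ := hcellsub j hj η hη
    have b5 := hm2 θ b1 η b3 _ (hgr i hi) _ (hgr j hj) (b2.trans_lt hmesh2) (b4.trans_lt hmesh2)
    rw [abs_lt] at b5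
    linarith
  have hR1 := Far.double_riemann hΦ hM0 dd hΦK
  have hS := Far.sum_kernel_ge (x := x) hM0 hK hnn κ hκK
  -- the main sum
  have hRnn : ∀ i, 0 ≤ R i := fun i => Real.sqrt_nonneg _
  have hQnn : ∀ i, 0 ≤ Q i := fun i => by simp only [hQ]; positivity
  have hPnn : ∀ i < M, 0 ≤ P i := fun i _ => by simp only [hP]; positivity
  have hg1 : ∀ i, √(Real.sin (Far.gr M i)) ^ 3 ≤ 1 := fun i =>
    pow_le_one₀ (Real.sqrt_nonneg _) (Real.sqrt_le_one.mpr (Real.sin_le_one _))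
  have hP2 : ∀ i < M, P i ≤ 2 := by
    intro i _
    have a1 : √(π / 2) ≤ 2 := by
      rw [Real.sqrt_le_left (by norm_num)]
      have := Real.pi_lt_four; linarith
    calc P i ≤ 2 * 1 := mul_le_mul a1 (hg1 i) (by positivity) (by norm_num)
      _ = 2 := by ring
  have hPsq : ∀ i < M, P i ^ 2 = (π / 2) * Real.sin (Far.gr M i) ^ 3 := by
    intro i hi
    have hs : 0 ≤ Real.sin (Far.gr M i) :=
      Real.sin_nonneg_of_nonneg_of_le_pi (hgr i hi).1 (hgr i hi).2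
    simp only [hP]
    rw [mul_pow, Real.sq_sqrt (by positivity), ← pow_mul, mul_comm 3 2, pow_mul, Real.sq_sqrt hs]
  have hRsq : ∀ i < M, R i ^ 2 = M / (2 * n) + 4 * π ^ 2 / M + 4 * d
      + (π ^ 2 * n / d) * Far.er x M i := by
    intro i hi
    simp only [hR]
    rw [Real.sq_sqrt (by positivity), max_eq_left (Far.er_nonneg x hM0 hi)]
  have hQsq : ∀ i < M, Q i ^ 2 = n * (M:ℝ) ^ 2 * (Far.mu x M i * Far.nu x M i) := by
    intro i hi
    simp only [hQ]
    rw [mul_pow, mul_pow, Real.sq_sqrt hnr.le,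
      Real.sq_sqrt (mul_nonneg (Far.mu_nonneg x hM0 hi) (Far.nu_nonneg x M i))]
  have hPQ : ∀ i < M, P i - R i ≤ Q i := by
    intro i hi
    apply Far.sub_le_of_sq (hRnn i) (hQnn i)
    rw [hPsq i hi, hRsq i hi, hQsq i hi]
    exact Far.Q_sq_lower hn1 hM0 hi hx hd0 hd1 (hcount i hi)
  have hRsum : ∑ i ∈ Finset.range M, R i ≤ M * e1 := by
    have a1 : (∑ i ∈ Finset.range M, R i) ^ 2 ≤ M * ∑ i ∈ Finset.range M, R i ^ 2 := by
      have := sq_sum_le_card_mul_sum_sq (s := Finset.range M) (f := R)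
      rwa [Finset.card_range] at this
    have a2 : ∑ i ∈ Finset.range M, R i ^ 2
        = M * (M / (2 * n) + 4 * π ^ 2 / M + 4 * d)
          + (π ^ 2 * n / d) * ∑ i ∈ Finset.range M, Far.er x M i := by
      rw [Finset.sum_congr rfl fun i hi => hRsq i (Finset.mem_range.mp hi),
        Finset.sum_add_distrib, Finset.sum_const, Finset.card_range, nsmul_eq_mul,
        Finset.mul_sum]
    have a3 : (π ^ 2 * n / d) * ∑ i ∈ Finset.range M, Far.er x M i ≤ (π ^ 2 * n / d) * (C' / n) :=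
      mul_le_mul_of_nonneg_left hrig' (by positivity)
    have a4 : (π ^ 2 * n / d) * (C' / n) = π ^ 2 * C' / d := by field_simp
    have a5 : ∑ i ∈ Finset.range M, R i ^ 2 ≤ M * e1 ^ 2 := by
      rw [a2]
      have b1 : M * (e1 ^ 2 / 4) ≥ 4 * π ^ 2 + π ^ 2 * C' / d := by
        rw [div_le_iff₀ hMr] at hM4; linarith
      have b2 : (M:ℝ) * (M / (2 * n) + 4 * π ^ 2 / M + 4 * d)
          = M * (M / (2 * n)) + 4 * π ^ 2 + M * (e1 ^ 2 / 2) := by
        rw [hd]; field_simp; ring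
      have b3 : (M:ℝ) * (M / (2 * n)) ≤ M * (e1 ^ 2 / 4) := mul_le_mul_of_nonneg_left hnM hMr.le
      rw [b2]
      nlinarith
    have a6 : (∑ i ∈ Finset.range M, R i) ^ 2 ≤ (M * e1) ^ 2 := by
      calc (∑ i ∈ Finset.range M, R i) ^ 2 ≤ M * ∑ i ∈ Finset.range M, R i ^ 2 := a1
        _ ≤ M * (M * e1 ^ 2) := mul_le_mul_of_nonneg_left a5 hMr.le
        _ = (M * e1) ^ 2 := by ring
    exact (le_abs_self _).trans (abs_le_of_sq_le_sq a6 (by positivity))
  have hPP : ∀ i < M, ∀ j < M, (π / 2) * Φ (Far.gr M i) (Far.gr M j) - (π / 2) * dd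
      ≤ κ i j * (P i * P j) := by
    intro i hi j hj
    have a1 : P i * P j = (π / 2) *
        (√(Real.sin (Far.gr M i)) ^ 3 * √(Real.sin (Far.gr M j)) ^ 3) := by
      simp only [hP]
      have : √(π / 2) * √(π / 2) = π / 2 := Real.mul_self_sqrt (by positivity)
      linear_combination (√(Real.sin (Far.gr M i)) ^ 3 * √(Real.sin (Far.gr M j)) ^ 3) * this
    rw [a1]
    set g := √(Real.sin (Far.gr M i)) ^ 3 * √(Real.sin (Far.gr M j)) ^ 3 with hg
    have hg0 : 0 ≤ g := by positivity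
    have hg2 : g ≤ 1 := mul_le_one₀ (hg1 i) (by positivity) (hg1 j)
    have a2 : K (Far.gr M i) (Far.gr M j) - dd ≤ κ i j := le_max_left _ _
    have a3 : (K (Far.gr M i) (Far.gr M j) - dd) * ((π / 2) * g) ≤ κ i j * ((π / 2) * g) :=
      mul_le_mul_of_nonneg_right a2 (by positivity)
    refine le_trans ?_ a3
    have a4 : dd * ((π / 2) * g) ≤ (π / 2) * dd := by
      have : dd * ((π / 2) * g) ≤ dd * ((π / 2) * 1) := by gcongr
      linarith
    have a5 : Φ (Far.gr M i) (Far.gr M j) = K (Far.gr M i) (Far.gr M j) * g := rfl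
    rw [a5]
    linarith
  have hfin := Far.final_sum (M := M) (κ := κ) (Φ := fun i j => Φ (Far.gr M i) (Far.gr M j))
    (P := P) (Q := Q) (R := R) (B := B) (dd := dd) (e1 := e1) hB0
    (fun i j => le_max_right _ _)
    (fun i hi j hj => max_le (by linarith [hB _ (hgr i hi) _ (hgr j hj)]) hB0)
    hPnn hP2 hRnn hQnn hPQ hPP hRsum
  have hamgm := Far.amgm M κ (fun i j => by simp only [hκ]; rw [hsym])
    (fun i j => le_max_right _ _) (fun i => max (Far.mu x M i) 0) (fun i => Far.nu x M i)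
    (fun i => le_max_right _ _) (fun i => Far.nu_nonneg x M i)
  have hmu : ∀ i ∈ Finset.range M, max (Far.mu x M i) 0 = Far.mu x M i := fun i hi =>
    max_eq_left (Far.mu_nonneg x hM0 (Finset.mem_range.mp hi))
  have e2 : ∑ i ∈ Finset.range M, ∑ j ∈ Finset.range M, κ i j * (Q i * Q j)
      = n * (M:ℝ) ^ 2 * ∑ i ∈ Finset.range M, ∑ j ∈ Finset.range M,
        κ i j * (√(max (Far.mu x M i) 0 * Far.nu x M i)
          * √(max (Far.mu x M j) 0 * Far.nu x M j)) := by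
    rw [Finset.mul_sum]
    refine Finset.sum_congr rfl fun i hi => ?_
    rw [Finset.mul_sum]
    refine Finset.sum_congr rfl fun j hj => ?_
    rw [hmu i hi, hmu j hj]
    simp only [hQ]
    have : √(n:ℝ) * √(n:ℝ) = n := Real.mul_self_sqrt hnr.le
    linear_combination (κ i j * (M:ℝ) ^ 2 * √(Far.mu x M i * Far.nu x M i)
      * √(Far.mu x M j * Far.nu x M j)) * this
  have e3 : ∑ i ∈ Finset.range M, ∑ j ∈ Finset.range M,
      κ i j * (max (Far.mu x M i) 0 * Far.nu x M j)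
      = ∑ i ∈ Finset.range M, ∑ j ∈ Finset.range M, κ i j * (Far.mu x M i * Far.nu x M j) := by
    refine Finset.sum_congr rfl fun i hi => Finset.sum_congr rfl fun j hj => ?_
    rw [hmu i hi]
  rw [e3] at hamgm
  have e4 := hamgm.trans hS
  set S := ∑ k, ∫ θ in (0:ℝ)..π,
    K θ (th x k) * (Real.cos θ - x k) ^ 2 * L x k (Real.cos θ) ^ 2 * Real.sin θ
  have e5 : n * (M:ℝ) ^ 2 * ∑ i ∈ Finset.range M, ∑ j ∈ Finset.range M,
        κ i j * (√(max (Far.mu x M i) 0 * Far.nu x M i)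
          * √(max (Far.mu x M j) 0 * Far.nu x M j)) ≤ n * (M:ℝ) ^ 2 * S :=
    mul_le_mul_of_nonneg_left e4 (by positivity)
  rw [← e2] at e5
  have e6 := hfin.trans e5
  set T1 := ∑ i ∈ Finset.range M, ∑ j ∈ Finset.range M, Φ (Far.gr M i) (Far.gr M j) with hT1
  have e7 : ∑ i ∈ Finset.range M, ∑ j ∈ Finset.range M,
      ((π / 2) * Φ (Far.gr M i) (Far.gr M j) - (π / 2) * dd)
      = (π / 2) * T1 - (π / 2) * dd * (M:ℝ) ^ 2 := by
    simp_rw [Finset.sum_sub_distrib, Finset.sum_const, Finset.card_range, nsmul_eq_mul,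
      ← Finset.mul_sum]
    rw [hT1]; ring
  have e8 : ∑ i ∈ Finset.range M, ∑ j ∈ Finset.range M, (Φ (Far.gr M i) (Far.gr M j) + dd)
      = T1 + dd * (M:ℝ) ^ 2 := by
    simp_rw [Finset.sum_add_distrib, Finset.sum_const, Finset.card_range, nsmul_eq_mul]
    rw [hT1]; ring
  rw [e7] at e6
  rw [e8] at hR1
  have e9 : (1 / (2 * π)) * (∫ θ in (0:ℝ)..π, ∫ η in (0:ℝ)..π, Φ θ η)
      ≤ (1 / (2 * π)) * ((π / M) ^ 2 * (T1 + dd * (M:ℝ) ^ 2)) :=
    mul_le_mul_of_nonneg_left hR1 (by positivity)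
  have e10 : (1 / (2 * π)) * ((π / M) ^ 2 * (T1 + dd * (M:ℝ) ^ 2))
      = ((π / 2) * T1) / (M:ℝ) ^ 2 + (π / 2) * dd := by
    field_simp
  have e11 : ((π / 2) * T1) / (M:ℝ) ^ 2 ≤ n * S + (π / 2) * dd + 4 * B * e1 := by
    rw [div_le_iff₀ (by positivity)]
    nlinarith
  have e12 : π * dd = ε / 2 := by rw [hdd]; field_simp
  have e13 : (1 / (2 * π)) * (∫ θ in (0:ℝ)..π, ∫ η in (0:ℝ)..π, Φ θ η) - ε ≤ n * S := by
    linarith
  exact e13

end ErdosLag
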