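import Pool.Agent.W_MP_93ab53_an.QuadSing

/-!
The leftover term of the certificate kernel (task H).
-/

namespace ErdosLag

open Real MeasureTheory intervalIntegral Finset Polynomial

theorem leftover (h1 : Equidist) (C : ℝ) (h2 : Rigid C) : Leftover :=
  LO.leftover_of_singBound LO.singBound h1 C h2

end ErdosLag
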