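import Pool.Agent.W_MP_93ab53_an.Sine

/-!
Lower bound for the node polynomial off the interval (MP_93ab53_an).
-/

namespace ErdosLag

open Real MeasureTheory intervalIntegral Finset Polynomial

variable {n : ℕ} {x : Fin n → ℝ}

/-- Chebyshev polynomials in Joukowski coordinates. -/
lemma eval_T_joukowski (w : ℂ) (hw : w ≠ 0) (m : ℕ) :
    (Polynomial.Chebyshev.T ℂ m).eval ((w + w⁻¹) / 2) = (w ^ m + w⁻¹ ^ m) / 2 := by
  induction m using Nat.strong_induction_on with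
  | _ m ih =>
    match m with
    | 0 => simp
    | 1 => simp
    | (k + 2) =>
      have h1 := ih k (by omega)
      have h2 := ih (k + 1) (by omega)
      have h3 := Polynomial.Chebyshev.T_add_two ℂ (k : ℤ)
      have h4 : ((k + 2 : ℕ) : ℤ) = (k : ℤ) + 2 := by push_cast; ring
      have h5 : ((k + 1 : ℕ) : ℤ) = (k : ℤ) + 1 := by push_cast; ring
      rw [h5] at h2
      rw [h4, h3]
      simp only [Polynomial.eval_sub, Polynomial.eval_mul, Polynomial.eval_X,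
        Polynomial.eval_ofNat]
      rw [h1, h2]
      have h6 : w * w⁻¹ = 1 := mul_inv_cancel₀ hw
      linear_combination ((w⁻¹ ^ k + w ^ k) / 2) * h6

/-- `|T_m| ≤ 1` on the angles. -/
lemma norm_T_le_one (m : ℕ) (y : ℝ) (hy : y ∈ Set.Icc (-1:ℝ) 1) :
    ‖(Polynomial.Chebyshev.T ℂ m).eval (y : ℂ)‖ ≤ 1 := by
  have h1 : y = Real.cos (Real.arccos y) := (Real.cos_arccos hy.1 hy.2).symm
  rw [h1, Complex.ofReal_cos, Polynomial.Chebyshev.T_complex_cos]
  have h2 : Complex.cos (((m : ℤ) : ℂ) * ((Real.arccos y : ℝ) : ℂ)) =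
      ((Real.cos (m * Real.arccos y) : ℝ) : ℂ) := by
    push_cast; rfl
  rw [h2, Complex.norm_real]
  exact Real.abs_cos_le_one _

/-- each factor is at least `(1 - r)^2` -/
lemma factor_lower (ζ : ℂ) (hζ : ‖ζ‖ < 1) (y : ℝ) (hy : y ∈ Set.Icc (-1:ℝ) 1) :
    (1 - ‖ζ‖) ^ 2 ≤ ‖1 - 2 * (y : ℂ) * ζ + ζ ^ 2‖ := by
  set θ := Real.arccos y with hθ
  have h1 : y = Real.cos θ := (Real.cos_arccos hy.1 hy.2).symm
  have h2 : 1 - 2 * (y : ℂ) * ζ + ζ ^ 2 =
      (1 - Complex.exp (θ * Complex.I) * ζ) * (1 - Complex.exp (-(θ * Complex.I)) * ζ) := by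
    have h3 : 2 * (y : ℂ) = Complex.exp (θ * Complex.I) + Complex.exp (-(θ * Complex.I)) := by
      rw [h1, Complex.ofReal_cos, Complex.cos]
      ring_nf
    have h4 : Complex.exp (θ * Complex.I) * Complex.exp (-(θ * Complex.I)) = 1 := by
      rw [← Complex.exp_add]; simp
    linear_combination (-ζ) * h3 - ζ ^ 2 * h4
  rw [h2, norm_mul, sq]
  have h5 : ‖Complex.exp (θ * Complex.I)‖ = 1 := Complex.norm_exp_ofReal_mul_I θ
  have h6 : ‖Complex.exp (-(θ * Complex.I))‖ = 1 := by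
    have := Complex.norm_exp_ofReal_mul_I (-θ)
    push_cast at this
    rwa [neg_mul] at this
  have h7 : ∀ u : ℂ, ‖u‖ = 1 → 1 - ‖ζ‖ ≤ ‖1 - u * ζ‖ := by
    intro u hu
    have := norm_sub_norm_le (1 : ℂ) (u * ζ)
    rw [norm_mul, hu, one_mul, norm_one] at this
    exact this
  exact mul_le_mul (h7 _ h5) (h7 _ h6) (by linarith) (norm_nonneg _)

/-- leading coefficients of the basis -/
lemma Nodes.coeff_Lp (h : Nodes x) (k : Fin n) :
    (Lp x k).coeff (n - 1) = (∏ j ∈ Finset.univ.erase k, (x k - x j))⁻¹ := by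
  have h1 := Lagrange.leadingCoeff_basis (s := Finset.univ) (v := x) (i := k)
    (fun a _ b _ hab => h.inj hab) (Finset.mem_univ k)
  rw [Polynomial.leadingCoeff, Lagrange.natDegree_basis (fun a _ b _ hab => h.inj hab)
    (Finset.mem_univ k)] at h1
  simpa [Lp] using h1

/-- sum of the leading coefficients -/
lemma Nodes.sum_coeff_le (h : Nodes x) (hn : 1 ≤ n) (hI : I x ≤ 2) :
    ∑ k, |(Lp x k).coeff (n - 1)| ≤ 2 ^ (n - 1) * (4 / π) * √n := by
  have hpi := Real.pi_pos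
  have h1 : ∀ k, |(Lp x k).coeff (n - 1)| ≤
      2 ^ (n - 1) * (2 * √2 / π) * √(∫ t in (-1:ℝ)..1, L x k t ^ 2) := by
    intro k
    have := coeff_bound n hn (Lp x k) (h.degree_Lp k)
    simpa only [eval_Lp] using this
  have h2 : ∑ k, ∫ t in (-1:ℝ)..1, L x k t ^ 2 ≤ 2 := by
    have : I x = ∑ k, ∫ t in (-1:ℝ)..1, L x k t ^ 2 := by
      unfold I
      rw [intervalIntegral.integral_finsetSum]
      intro k _
      exact Continuous.intervalIntegrable ((continuous_L x k).pow 2) _ _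
    rw [← this]; exact hI
  have h0 : ∀ k, 0 ≤ ∫ t in (-1:ℝ)..1, L x k t ^ 2 := fun k =>
    intervalIntegral.integral_nonneg (by norm_num) fun t _ => sq_nonneg _
  have h3 : (∑ k, √(∫ t in (-1:ℝ)..1, L x k t ^ 2)) ^ 2 ≤ n * 2 := by
    have h4 := sq_sum_le_card_mul_sum_sq (s := (Finset.univ : Finset (Fin n)))
      (f := fun k => √(∫ t in (-1:ℝ)..1, L x k t ^ 2))
    simp only [Finset.card_univ, Fintype.card_fin] at h4
    refine h4.trans ?_
    have h5 : ∑ k, √(∫ t in (-1:ℝ)..1, L x k t ^ 2) ^ 2 = ∑ k, ∫ t in (-1:ℝ)..1, L x k t ^ 2 :=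
      Finset.sum_congr rfl fun k _ => Real.sq_sqrt (h0 k)
    rw [h5]
    exact mul_le_mul_of_nonneg_left h2 (Nat.cast_nonneg _)
  have h6 : ∑ k, √(∫ t in (-1:ℝ)..1, L x k t ^ 2) ≤ √n * √2 := by
    rw [← Real.sqrt_mul (Nat.cast_nonneg _)]
    exact Real.le_sqrt_of_sq_le h3
  calc ∑ k, |(Lp x k).coeff (n - 1)|
      ≤ ∑ k, 2 ^ (n - 1) * (2 * √2 / π) * √(∫ t in (-1:ℝ)..1, L x k t ^ 2) :=
        Finset.sum_le_sum fun k _ => h1 k
    _ = 2 ^ (n - 1) * (2 * √2 / π) * ∑ k, √(∫ t in (-1:ℝ)..1, L x k t ^ 2) := by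
        rw [Finset.mul_sum]
    _ ≤ 2 ^ (n - 1) * (2 * √2 / π) * (√n * √2) := by gcongr
    _ = 2 ^ (n - 1) * (4 / π) * √n := by
        have : √2 * √2 = 2 := Real.mul_self_sqrt (by norm_num)
        calc _ = 2 ^ (n - 1) * (2 * (√2 * √2) / π) * √n := by ring
          _ = _ := by rw [this]; ring

/-- Lagrange interpolation over `ℂ` at `T_{n-1}` -/
lemma Nodes.lagrange_T (h : Nodes x) (hn : 1 ≤ n) (z : ℂ) :
    ‖(Polynomial.Chebyshev.T ℂ ((n - 1 : ℕ) : ℤ)).eval z‖ ≤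
      ∑ k, |(Lp x k).coeff (n - 1)| * ∏ i ∈ Finset.univ.erase k, ‖z - x i‖ := by
  set v : Fin n → ℂ := fun k => (x k : ℂ) with hv
  have hinj : Set.InjOn v (Finset.univ : Finset (Fin n)) := by
    intro a _ b _ hab
    exact h.inj (by simpa [hv] using hab)
  have hdeg : (Polynomial.Chebyshev.T ℂ ((n - 1 : ℕ) : ℤ)).degree <
      ((Finset.univ : Finset (Fin n)).card : ℕ) := by
    rw [Polynomial.Chebyshev.degree_T]
    simp only [Int.natAbs_natCast, Finset.card_univ, Fintype.card_fin]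
    exact_mod_cast (by omega : n - 1 < n)
  have h1 := Lagrange.eq_interpolate (s := Finset.univ) (v := v)
    (f := Polynomial.Chebyshev.T ℂ ((n - 1 : ℕ) : ℤ)) hinj hdeg
  have h2 : (Polynomial.Chebyshev.T ℂ ((n - 1 : ℕ) : ℤ)).eval z =
      ∑ k, (Polynomial.Chebyshev.T ℂ ((n - 1 : ℕ) : ℤ)).eval (v k) *
        (Lagrange.basis Finset.univ v k).eval z := by
    conv_lhs => rw [h1]
    rw [Lagrange.interpolate_apply, Polynomial.eval_finsetSum]
    simp only [Polynomial.eval_mul, Polynomial.eval_C]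
  rw [h2]
  refine (norm_sum_le _ _).trans (Finset.sum_le_sum fun k _ => ?_)
  rw [norm_mul]
  have h3 := norm_T_le_one (n - 1) (x k) (h.mem k)
  have h4 : ‖(Lagrange.basis Finset.univ v k).eval z‖ =
      |(Lp x k).coeff (n - 1)| * ∏ i ∈ Finset.univ.erase k, ‖z - x i‖ := by
    unfold Lagrange.basis Lagrange.basisDivisor
    rw [Polynomial.eval_prod, norm_prod, h.coeff_Lp, abs_inv, Finset.abs_prod,
      ← Finset.prod_inv_distrib, ← Finset.prod_mul_distrib]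
    refine Finset.prod_congr rfl fun i _ => ?_
    simp only [Polynomial.eval_mul, Polynomial.eval_C, Polynomial.eval_sub, Polynomial.eval_X,
      norm_mul, norm_inv, hv]
    rw [← Complex.ofReal_sub, Complex.norm_real, Real.norm_eq_abs]
  rw [h4]
  calc _ ≤ 1 * _ := mul_le_mul_of_nonneg_right h3 (by positivity)
    _ = _ := one_mul _

theorem logLemma : LogLemma := by
  intro n x hn h hI ζ hζ
  have hpi := Real.pi_pos
  have hprod0 : 0 ≤ ∏ k, ‖1 - 2 * (x k : ℂ) * ζ + ζ ^ 2‖ :=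
    Finset.prod_nonneg fun k _ => norm_nonneg _
  have hnpos : (0:ℝ) < n := by exact_mod_cast hn
  have hsn : 0 < √(n:ℝ) := Real.sqrt_pos.mpr hnpos
  by_cases hz : ζ = 0
  · subst hz
    simp only [norm_zero, mul_zero, sub_zero, ne_eq, OfNat.ofNat_ne_zero, not_false_eq_true,
      zero_pow, add_zero, one_pow, mul_one, norm_one, Finset.prod_const_one]
    rw [div_le_one hsn]
    have h1 : (1:ℝ) ≤ √n := by
      rw [Real.one_le_sqrt]; exact_mod_cast hn
    have h2 : (1 - (0:ℝ) ^ (2 * n - 2)) ≤ 1 := by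
      have : (0:ℝ) ≤ 0 ^ (2 * n - 2) := by positivity
      linarith
    have h3 : π / 8 ≤ 1 := by
      have := Real.pi_le_four
      linarith
    calc π / 8 * (1 - (0:ℝ) ^ (2 * n - 2)) ≤ π / 8 * 1 := by gcongr
      _ ≤ 1 := by linarith
      _ ≤ _ := h1
  · set r := ‖ζ‖ with hr
    have hr0 : 0 < r := norm_pos_iff.mpr hz
    set z : ℂ := (ζ + ζ⁻¹) / 2 with hzdef
    set Q := ∏ k, ‖1 - 2 * (x k : ℂ) * ζ + ζ ^ 2‖ with hQ
    -- lower bound for T
    have hT : (r ^ (n - 1))⁻¹ * ((1 - r ^ (2 * n - 2)) / 2) ≤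
        ‖(Polynomial.Chebyshev.T ℂ ((n - 1 : ℕ) : ℤ)).eval z‖ := by
      rw [hzdef, eval_T_joukowski ζ hz, norm_div]
      have h1 : ‖ζ⁻¹ ^ (n - 1)‖ - ‖ζ ^ (n - 1)‖ ≤ ‖ζ ^ (n - 1) + ζ⁻¹ ^ (n - 1)‖ := by
        have := norm_sub_norm_le (ζ⁻¹ ^ (n - 1)) (-(ζ ^ (n - 1)))
        rw [norm_neg, sub_neg_eq_add, add_comm (ζ⁻¹ ^ (n - 1))] at this
        exact this
      rw [norm_pow, norm_pow, norm_inv, ← hr] at h1
      have h2 : (r ^ (n - 1))⁻¹ * ((1 - r ^ (2 * n - 2)) / 2) =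
          (r⁻¹ ^ (n - 1) - r ^ (n - 1)) / 2 := by
        have h3 : r ^ (2 * n - 2) = r ^ (n - 1) * r ^ (n - 1) := by
          rw [← pow_add]; congr 1; omega
        rw [h3, inv_pow]
        field_simp
      rw [h2]
      have h4 : ‖(2:ℂ)‖ = 2 := by simp
      rw [h4]
      gcongr
    -- upper bound for T
    have hzx : ∀ i, ‖z - x i‖ = ‖1 - 2 * (x i : ℂ) * ζ + ζ ^ 2‖ / (2 * r) := by
      intro i
      have h1 : z - x i = (1 - 2 * (x i : ℂ) * ζ + ζ ^ 2) / (2 * ζ) := by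
        rw [hzdef]; field_simp; ring
      rw [h1, norm_div, norm_mul, ← hr]
      simp
    have hterm : ∀ k, (1 - r) ^ 2 * ∏ i ∈ Finset.univ.erase k, ‖z - x i‖ ≤
        Q * ((2 * r) ^ (n - 1))⁻¹ := by
      intro k
      have h1 : ∏ i ∈ Finset.univ.erase k, ‖z - x i‖ =
          (∏ i ∈ Finset.univ.erase k, ‖1 - 2 * (x i : ℂ) * ζ + ζ ^ 2‖) *
            ((2 * r) ^ (n - 1))⁻¹ := by
        rw [Finset.prod_congr rfl fun i _ => hzx i]
        simp_rw [div_eq_mul_inv]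
        rw [Finset.prod_mul_distrib, Finset.prod_const,
          Finset.card_erase_of_mem (Finset.mem_univ k), Finset.card_univ, Fintype.card_fin, inv_pow]
      rw [h1, ← mul_assoc]
      apply mul_le_mul_of_nonneg_right _ (by positivity)
      rw [hQ, ← Finset.mul_prod_erase Finset.univ _ (Finset.mem_univ k)]
      apply mul_le_mul_of_nonneg_right _ (Finset.prod_nonneg fun i _ => norm_nonneg _)
      exact factor_lower ζ hζ (x k) (h.mem k)
    have hup : (1 - r) ^ 2 * ‖(Polynomial.Chebyshev.T ℂ ((n - 1 : ℕ) : ℤ)).eval z‖ ≤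
        (2 ^ (n - 1) * (4 / π) * √n) * (Q * ((2 * r) ^ (n - 1))⁻¹) := by
      calc (1 - r) ^ 2 * ‖(Polynomial.Chebyshev.T ℂ ((n - 1 : ℕ) : ℤ)).eval z‖
          ≤ (1 - r) ^ 2 * ∑ k, |(Lp x k).coeff (n - 1)| *
              ∏ i ∈ Finset.univ.erase k, ‖z - x i‖ :=
            mul_le_mul_of_nonneg_left (h.lagrange_T hn z) (sq_nonneg _)
        _ = ∑ k, |(Lp x k).coeff (n - 1)| *
              ((1 - r) ^ 2 * ∏ i ∈ Finset.univ.erase k, ‖z - x i‖) := by
            rw [Finset.mul_sum]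
            refine Finset.sum_congr rfl fun k _ => by ring
        _ ≤ ∑ k, |(Lp x k).coeff (n - 1)| * (Q * ((2 * r) ^ (n - 1))⁻¹) :=
            Finset.sum_le_sum fun k _ => mul_le_mul_of_nonneg_left (hterm k) (abs_nonneg _)
        _ = (∑ k, |(Lp x k).coeff (n - 1)|) * (Q * ((2 * r) ^ (n - 1))⁻¹) := by
            rw [Finset.sum_mul]
        _ ≤ _ := mul_le_mul_of_nonneg_right (h.sum_coeff_le hn hI) (by positivity)
    have hcomb : (1 - r) ^ 2 * ((r ^ (n - 1))⁻¹ * ((1 - r ^ (2 * n - 2)) / 2)) ≤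
        (2 ^ (n - 1) * (4 / π) * √n) * (Q * ((2 * r) ^ (n - 1))⁻¹) :=
      (mul_le_mul_of_nonneg_left hT (sq_nonneg _)).trans hup
    have h5 : (2 ^ (n - 1) * (4 / π) * √n) * (Q * ((2 * r) ^ (n - 1))⁻¹) =
        (r ^ (n - 1))⁻¹ * ((4 / π) * √n * Q) := by
      rw [mul_pow]
      field_simp
    have h6 : (1 - r) ^ 2 * ((r ^ (n - 1))⁻¹ * ((1 - r ^ (2 * n - 2)) / 2)) =
        (r ^ (n - 1))⁻¹ * ((1 - r) ^ 2 * ((1 - r ^ (2 * n - 2)) / 2)) := by ring
    rw [h5, h6] at hcomb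
    have h7 : (1 - r) ^ 2 * ((1 - r ^ (2 * n - 2)) / 2) ≤ (4 / π) * √n * Q :=
      le_of_mul_le_mul_left hcomb (by positivity)
    rw [div_le_iff₀ hsn]
    calc π / 8 * (1 - r ^ (2 * n - 2)) * (1 - r) ^ 2
        = (π / 4) * ((1 - r) ^ 2 * ((1 - r ^ (2 * n - 2)) / 2)) := by ring
      _ ≤ (π / 4) * ((4 / π) * √n * Q) := by gcongr
      _ = Q * √n := by field_simp

end ErdosLag
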