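import Pool.Agent.W_MP_93ab53_an.Defs

/-!
Nodes from sign changes, and the Wronskian identity (task I of MP_93ab53_an).
-/

namespace ErdosLag

open Real MeasureTheory intervalIntegral Finset Polynomial

/-- A polynomial with alternating signs at the Chebyshev extrema has a zero in each gap. -/
lemma exists_zero_between (n : ℕ) (hn : 1 ≤ n) (W : ℝ[X])
    (hsign : ∀ j : ℕ, j ≤ n → 0 < (-1 : ℝ) ^ j * W.eval (Real.cos (j * π / n)))
    (k : ℕ) (hk : k < n) :
    ∃ y : ℝ, Real.cos (((k + 1 : ℕ) : ℝ) * π / n) < y ∧ y < Real.cos ((k : ℝ) * π / n) ∧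
      W.eval y = 0 := by
  have hnpos : (0 : ℝ) < n := by exact_mod_cast hn
  set a := Real.cos (((k + 1 : ℕ) : ℝ) * π / n) with ha
  set b := Real.cos ((k : ℝ) * π / n) with hb
  have h1 := hsign k hk.le
  have h2 := hsign (k + 1) hk
  rw [← hb] at h1
  rw [← ha] at h2
  have hab : a ≤ b := by
    rw [ha, hb]
    apply Real.cos_le_cos_of_nonneg_of_le_pi
    · positivity
    · rw [div_le_iff₀ hnpos]
      have : ((k + 1 : ℕ) : ℝ) ≤ n := by exact_mod_cast hk
      nlinarith [Real.pi_pos]
    · have : (k : ℝ) ≤ ((k + 1 : ℕ) : ℝ) := by push_cast; linarith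
      gcongr
  -- the continuous function `(-1)^k W` is negative at `a` and positive at `b`
  have hcont : ContinuousOn (fun t => (-1 : ℝ) ^ k * W.eval t) (Set.Icc a b) :=
    (continuous_const.mul W.continuous).continuousOn
  have h2' : (-1 : ℝ) ^ k * W.eval a < 0 := by
    rw [pow_succ] at h2
    nlinarith
  obtain ⟨y, hy, hy0⟩ := intermediate_value_Ioo hab hcont ⟨h2', h1⟩
  refine ⟨y, hy.1, hy.2, ?_⟩
  have hne : (-1 : ℝ) ^ k ≠ 0 := pow_ne_zero _ (by norm_num)
  exact (mul_eq_zero.mp hy0).resolve_left hne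

/-- `W = W'(x k) (X - x k) L x k` for a polynomial of degree at most `n` vanishing at the
nodes. -/
lemma eval_eq_of_nodes {n : ℕ} {x : Fin n → ℝ} (hx : Function.Injective x) (W : ℝ[X])
    (hW : W.natDegree ≤ n) (hz : ∀ k, W.eval (x k) = 0) (k : Fin n) :
    W = C (W.derivative.eval (x k)) * ((X - C (x k)) * Lp x k) := by
  classical
  have hdvd : Lagrange.nodal Finset.univ x ∣ W := by
    rw [Lagrange.nodal_eq]
    refine Finset.prod_dvd_of_coprime (fun i _ j _ hij => ?_) (fun i _ => ?_)
    · exact Polynomial.isCoprime_X_sub_C_of_isUnit_sub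
        (sub_ne_zero.mpr (fun h => hij (hx h))).isUnit
    · exact Polynomial.dvd_iff_isRoot.mpr (hz i)
  obtain ⟨q, hq⟩ := hdvd
  have hqdeg : q.natDegree = 0 := by
    by_cases hq0 : q = 0
    · simp [hq0]
    · have h1 : W.natDegree = n + q.natDegree := by
        rw [hq, Polynomial.natDegree_mul Lagrange.nodal_ne_zero hq0, Lagrange.natDegree_nodal]
        simp
      omega
  obtain ⟨a, ha⟩ : ∃ a : ℝ, q = C a := ⟨_, Polynomial.eq_C_of_natDegree_eq_zero hqdeg⟩
  have hder : W.derivative.eval (x k) =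
      a * (Lagrange.nodal (Finset.univ.erase k) x).eval (x k) := by
    rw [hq, ha, Polynomial.derivative_mul, Polynomial.derivative_C, mul_zero, add_zero,
      Polynomial.eval_mul, Polynomial.eval_C,
      Lagrange.eval_nodal_derivative_eval_node_eq (Finset.mem_univ k)]
    ring
  have hLp : C ((Lagrange.nodal (Finset.univ.erase k) x).eval (x k)) * Lp x k
      = Lagrange.nodal (Finset.univ.erase k) x := by
    rw [Lagrange.eval_nodal, Lagrange.nodal_eq, Lp, Lagrange.basis, map_prod,
      ← Finset.prod_mul_distrib]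
    refine Finset.prod_congr rfl fun i hi => ?_
    have hne : x k - x i ≠ 0 := by
      intro h
      exact (Finset.mem_erase.mp hi).1 (hx (sub_eq_zero.mp h)).symm
    rw [Lagrange.basisDivisor, ← mul_assoc, ← C_mul, mul_inv_cancel₀ hne, C_1, one_mul]
  rw [hder, C_mul]
  have : C a * C ((Lagrange.nodal (Finset.univ.erase k) x).eval (x k)) *
      ((X - C (x k)) * Lp x k) = (X - C (x k)) *
        (C ((Lagrange.nodal (Finset.univ.erase k) x).eval (x k)) * Lp x k) * C a := by ring
  rw [this, hLp, ← Lagrange.nodal_eq_mul_nodal_erase (Finset.mem_univ k), ← ha]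
  exact hq

/-- The Wronskian identity for one Lagrange basis polynomial. -/
lemma wronskian_basis {n : ℕ} {x : Fin n → ℝ} (hx : Function.Injective x) (W : ℝ[X])
    (hW : W.natDegree ≤ n) (hz : ∀ k, W.eval (x k) = 0) (k : Fin n) (t : ℝ) :
    W.derivative.eval t * (Lp x k).eval t - W.eval t * (Lp x k).derivative.eval t
      = W.derivative.eval (x k) * (Lp x k).eval t ^ 2 := by
  have h := eval_eq_of_nodes hx W hW hz k
  set c := W.derivative.eval (x k) with hc
  rw [h]
  simp only [Polynomial.derivative_mul, Polynomial.derivative_C, Polynomial.derivative_sub,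
    Polynomial.derivative_X, Polynomial.eval_mul, Polynomial.eval_add, Polynomial.eval_C,
    Polynomial.eval_sub, Polynomial.eval_X, Polynomial.eval_one,
    zero_mul, sub_zero, zero_add]
  ring

theorem exists_nodes (n : ℕ) (hn : 1 ≤ n) (W : ℝ[X]) (hW : W.natDegree ≤ n)
    (hsign : ∀ j : ℕ, j ≤ n → 0 < (-1 : ℝ) ^ j * W.eval (Real.cos (j * π / n))) :
    ∃ x : Fin n → ℝ, Nodes x ∧ (∀ k, x k ∈ Set.Ioo (-1 : ℝ) 1) ∧ (∀ k, W.eval (x k) = 0) ∧
      ∀ ρ : ℝ[X], ρ.degree < n → ∀ t,
        W.derivative.eval t * ρ.eval t - W.eval t * ρ.derivative.eval t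
          = ∑ k, (W.derivative.eval (x k) * ρ.eval (x k)) * L x k t ^ 2 := by
  classical
  have hnpos : (0 : ℝ) < n := by exact_mod_cast hn
  choose y hy1 hy2 hy3 using exists_zero_between n hn W hsign
  let x : Fin n → ℝ := fun k => y k k.2
  have hmono : ∀ i j : Fin n, i < j → x j < x i := by
    intro i j hij
    have h1 := hy1 i i.2
    have h2 := hy2 j j.2
    refine h2.trans_le (le_trans ?_ h1.le)
    apply Real.cos_le_cos_of_nonneg_of_le_pi
    · positivity
    · rw [div_le_iff₀ hnpos]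
      have : ((j : ℕ) : ℝ) ≤ n := by exact_mod_cast j.2.le
      nlinarith [Real.pi_pos]
    · have : (((i : ℕ) + 1 : ℕ) : ℝ) ≤ ((j : ℕ) : ℝ) := by exact_mod_cast hij
      gcongr
  have hinj : Function.Injective x := by
    intro i j hij
    rcases lt_trichotomy i j with h | h | h
    · exact absurd hij (hmono i j h).ne'
    · exact h
    · exact absurd hij (hmono j i h).ne
  have hIoo : ∀ k, x k ∈ Set.Ioo (-1 : ℝ) 1 := by
    intro k
    exact ⟨(Real.neg_one_le_cos _).trans_lt (hy1 k k.2), (hy2 k k.2).trans_le (Real.cos_le_one _)⟩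
  have hz : ∀ k, W.eval (x k) = 0 := fun k => hy3 k k.2
  refine ⟨x, ⟨hinj, fun k => ⟨(hIoo k).1.le, (hIoo k).2.le⟩⟩, hIoo, hz, ?_⟩
  intro ρ hρ t
  have hρ' : ρ = ∑ k, C (ρ.eval (x k)) * Lp x k := by
    have h1 := Lagrange.eq_interpolate (s := Finset.univ) (v := x) (f := ρ)
      (fun a _ b _ hab => hinj hab) (by simpa using hρ)
    rw [Lagrange.interpolate_apply] at h1
    exact h1
  have he : ρ.eval t = ∑ k, ρ.eval (x k) * (Lp x k).eval t := by
    conv_lhs => rw [hρ']
    rw [Polynomial.eval_finsetSum]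
    simp
  have hd : ρ.derivative.eval t = ∑ k, ρ.eval (x k) * (Lp x k).derivative.eval t := by
    conv_lhs => rw [hρ']
    rw [Polynomial.derivative_sum, Polynomial.eval_finsetSum]
    simp
  rw [he, hd, Finset.mul_sum, Finset.mul_sum, ← Finset.sum_sub_distrib]
  refine Finset.sum_congr rfl fun k _ => ?_
  rw [← eval_Lp]
  have h := wronskian_basis hinj W hW hz k t
  linear_combination (ρ.eval (x k)) * h

end ErdosLag
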