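import Pool.Agent.W_MP_93ab53_an.Defs
import Pool.Agent.W_MP_93ab53_an.UNodes

/-!
Finite-`n` upper bound for `M n`.
-/

set_option autoImplicit false

namespace ErdosLag

open Real MeasureTheory intervalIntegral Finset Polynomial

namespace UMain

/-- Chebyshev polynomials. -/
noncomputable def Tc (m : ℕ) : ℝ[X] := Polynomial.Chebyshev.T ℝ (m : ℤ)

lemma Tc_cos (m : ℕ) (θ : ℝ) : (Tc m).eval (cos θ) = cos (m * θ) := by
  unfold Tc
  rw [Polynomial.Chebyshev.T_real_cos]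
  norm_cast

lemma Tc_deriv (m : ℕ) (θ : ℝ) :
    (Tc m).derivative.eval (cos θ) * sin θ = m * sin (m * θ) := by
  have h1 : HasDerivAt (fun θ => (Tc m).eval (cos θ)) ((Tc m).derivative.eval (cos θ) * (-sin θ)) θ :=
    ((Tc m).hasDerivAt (cos θ)).comp θ (hasDerivAt_cos θ)
  have h2 : HasDerivAt (fun θ : ℝ => cos (m * θ)) (-sin (m * θ) * m) θ := by
    have h3 : HasDerivAt (fun θ : ℝ => (m : ℝ) * θ) (m : ℝ) θ := by
      simpa using (hasDerivAt_id θ).const_mul (m : ℝ)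
    exact h3.cos
  have e : (fun θ => (Tc m).eval (cos θ)) = fun θ : ℝ => cos (m * θ) := funext (Tc_cos m)
  rw [e] at h1
  have := h1.unique h2
  linarith

lemma Tc_natDegree (m : ℕ) : (Tc m).natDegree = m := by
  unfold Tc
  rw [Polynomial.Chebyshev.natDegree_T]
  simp

variable (n N J : ℕ) (h t : ℕ → ℝ)

/-- The node polynomial. -/
noncomputable def Wp : ℝ[X] := ∑ i ∈ range (N + 1), C (h i) * Tc (n - 2 * i)

/-- The test polynomial. -/
noncomputable def Rp : ℝ[X] :=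
  ∑ l ∈ range (N + 1), ∑ j ∈ Icc 1 J, C (h l * t j / n) * Tc (n - 2 * l - j)

lemma Wp_natDegree : (Wp n N h).natDegree ≤ n := by
  unfold Wp
  refine Polynomial.natDegree_sum_le_of_forall_le _ _ fun i _ => ?_
  refine (Polynomial.natDegree_C_mul_le _ _).trans ?_
  rw [Tc_natDegree]
  omega

lemma Rp_natDegree (hn : 1 ≤ n) : (Rp n N J h t).natDegree ≤ n - 1 := by
  unfold Rp
  refine Polynomial.natDegree_sum_le_of_forall_le _ _ fun i _ => ?_
  refine Polynomial.natDegree_sum_le_of_forall_le _ _ fun j hj => ?_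
  refine (Polynomial.natDegree_C_mul_le _ _).trans ?_
  rw [Tc_natDegree]
  have := (Finset.mem_Icc.1 hj).1
  omega

lemma Rp_degree (hn : 1 ≤ n) : (Rp n N J h t).degree < n := by
  refine lt_of_le_of_lt Polynomial.degree_le_natDegree ?_
  have := Rp_natDegree n N J h t hn
  exact_mod_cast (by omega : (Rp n N J h t).natDegree < n)

variable {n N J}

lemma cast_p (hNJ : 4 * N + J ≤ n) {i : ℕ} (hi : i ∈ range (N + 1)) :
    ((n - 2 * i : ℕ) : ℝ) = n - 2 * i := by
  have := Finset.mem_range.1 hi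
  rw [Nat.cast_sub (by omega)]
  push_cast
  ring

lemma cast_q (hNJ : 4 * N + J ≤ n) {l j : ℕ} (hl : l ∈ range (N + 1)) (hj : j ∈ Icc 1 J) :
    ((n - 2 * l - j : ℕ) : ℝ) = n - 2 * l - j := by
  have h1 := Finset.mem_range.1 hl
  have h2 := Finset.mem_Icc.1 hj
  rw [Nat.cast_sub (by omega), Nat.cast_sub (by omega)]
  push_cast
  ring

lemma Wp_eval (hNJ : 4 * N + J ≤ n) (θ : ℝ) : (Wp n N h).eval (cos θ) =
    ∑ i ∈ range (N + 1), h i * cos ((n - 2 * i) * θ) := by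
  unfold Wp
  rw [Polynomial.eval_finsetSum]
  refine Finset.sum_congr rfl fun i hi => ?_
  rw [Polynomial.eval_mul, Polynomial.eval_C, Tc_cos, cast_p hNJ hi]

lemma Wp_deriv (hNJ : 4 * N + J ≤ n) (θ : ℝ) : (Wp n N h).derivative.eval (cos θ) * sin θ =
    ∑ i ∈ range (N + 1), h i * ((n - 2 * i) * sin ((n - 2 * i) * θ)) := by
  unfold Wp
  rw [Polynomial.derivative_sum, Polynomial.eval_finsetSum, Finset.sum_mul]
  refine Finset.sum_congr rfl fun i hi => ?_
  rw [Polynomial.derivative_C_mul, Polynomial.eval_mul, Polynomial.eval_C, mul_assoc, Tc_deriv,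
    cast_p hNJ hi]

lemma Rp_eval (hNJ : 4 * N + J ≤ n) (θ : ℝ) : (Rp n N J h t).eval (cos θ) =
    ∑ l ∈ range (N + 1), ∑ j ∈ Icc 1 J, h l * t j / n * cos ((n - 2 * l - j) * θ) := by
  unfold Rp
  rw [Polynomial.eval_finsetSum]
  refine Finset.sum_congr rfl fun l hl => ?_
  rw [Polynomial.eval_finsetSum]
  refine Finset.sum_congr rfl fun j hj => ?_
  rw [Polynomial.eval_mul, Polynomial.eval_C, Tc_cos, cast_q hNJ hl hj]

lemma Rp_deriv (hNJ : 4 * N + J ≤ n) (θ : ℝ) : (Rp n N J h t).derivative.eval (cos θ) * sin θ =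
    ∑ l ∈ range (N + 1), ∑ j ∈ Icc 1 J, h l * t j / n *
      ((n - 2 * l - j) * sin ((n - 2 * l - j) * θ)) := by
  unfold Rp
  rw [Polynomial.derivative_sum, Polynomial.eval_finsetSum, Finset.sum_mul]
  refine Finset.sum_congr rfl fun l hl => ?_
  rw [Polynomial.derivative_sum, Polynomial.eval_finsetSum, Finset.sum_mul]
  refine Finset.sum_congr rfl fun j hj => ?_
  rw [Polynomial.derivative_C_mul, Polynomial.eval_mul, Polynomial.eval_C, mul_assoc, Tc_deriv,
    cast_q hNJ hl hj]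

/-- Symmetrisation of a double sum. -/
lemma sum_symm (s : Finset ℕ) (F H : ℕ → ℕ → ℝ) (hFH : ∀ i ∈ s, ∀ l ∈ s, F i l + F l i = H i l + H l i) :
    ∑ i ∈ s, ∑ l ∈ s, F i l = ∑ i ∈ s, ∑ l ∈ s, H i l := by
  have key : ∀ K : ℕ → ℕ → ℝ, 2 * ∑ i ∈ s, ∑ l ∈ s, K i l = ∑ i ∈ s, ∑ l ∈ s, (K i l + K l i) := by
    intro K
    have h1 : ∑ i ∈ s, ∑ l ∈ s, K l i = ∑ i ∈ s, ∑ l ∈ s, K i l := Finset.sum_comm
    simp only [Finset.sum_add_distrib]
    rw [h1]
    ring
  have h2 := key F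
  have h3 := key H
  have h4 : ∑ i ∈ s, ∑ l ∈ s, (F i l + F l i) = ∑ i ∈ s, ∑ l ∈ s, (H i l + H l i) :=
    Finset.sum_congr rfl fun i hi => Finset.sum_congr rfl fun l hl => hFH i hi l hl
  linarith

lemma trig_prod (p q θ : ℝ) : p * sin (p * θ) * cos (q * θ) - q * cos (p * θ) * sin (q * θ) =
    (1 / 2) * ((p + q) * sin ((p - q) * θ) + (p - q) * sin ((p + q) * θ)) := by
  have e1 : (p - q) * θ = p * θ - q * θ := by ring
  have e2 : (p + q) * θ = p * θ + q * θ := by ring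
  rw [e1, e2, Real.sin_sub, Real.sin_add]
  ring

/-- The pointwise identity. -/
lemma pointwise (hn : 1 ≤ n) (hNJ : 4 * N + J ≤ n) (θ : ℝ) :
    ((Wp n N h).derivative.eval (cos θ) * (Rp n N J h t).eval (cos θ) -
      (Wp n N h).eval (cos θ) * (Rp n N J h t).derivative.eval (cos θ)) * sin θ =
    (∑ i ∈ range (N + 1), ∑ l ∈ range (N + 1),
        h i * h l * (1 - (i + l : ℝ) / n) * cos (2 * ((i : ℝ) - l) * θ)) *
      (∑ j ∈ Icc 1 J, t j * sin (j * θ)) -
    (1 / (2 * n)) * ∑ j ∈ Icc 1 J, (j : ℝ) * t j *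
      ((∑ i ∈ range (N + 1), ∑ l ∈ range (N + 1), h i * h l * cos (2 * ((i : ℝ) - l) * θ)) *
        sin (j * θ)) +
    (1 / (2 * n)) * ∑ i ∈ range (N + 1), ∑ l ∈ range (N + 1), ∑ j ∈ Icc 1 J,
      h i * h l * (j * t j) * sin ((2 * n - 2 * i - 2 * l - j) * θ) := by
  have hn' : (n : ℝ) ≠ 0 := by positivity
  have e1 : ((Wp n N h).derivative.eval (cos θ) * (Rp n N J h t).eval (cos θ) -
      (Wp n N h).eval (cos θ) * (Rp n N J h t).derivative.eval (cos θ)) * sin θ =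
      ((Wp n N h).derivative.eval (cos θ) * sin θ) * (Rp n N J h t).eval (cos θ) -
      (Wp n N h).eval (cos θ) * ((Rp n N J h t).derivative.eval (cos θ) * sin θ) := by ring
  rw [e1, Wp_deriv h hNJ, Rp_eval h t hNJ, Wp_eval h hNJ, Rp_deriv h t hNJ]
  rw [Finset.sum_mul_sum, Finset.sum_mul_sum]
  have e2 : (∑ i ∈ range (N + 1), ∑ l ∈ range (N + 1),
        h i * h l * (1 - (i + l : ℝ) / n) * cos (2 * ((i : ℝ) - l) * θ)) *
      (∑ j ∈ Icc 1 J, t j * sin (j * θ)) = ∑ i ∈ range (N + 1), ∑ l ∈ range (N + 1),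
        (h i * h l * (1 - (i + l : ℝ) / n) * cos (2 * ((i : ℝ) - l) * θ)) *
        (∑ j ∈ Icc 1 J, t j * sin (j * θ)) := by
    rw [Finset.sum_mul]
    exact Finset.sum_congr rfl fun i _ => Finset.sum_mul _ _ _
  have e3 : ∑ j ∈ Icc 1 J, (j : ℝ) * t j *
      ((∑ i ∈ range (N + 1), ∑ l ∈ range (N + 1), h i * h l * cos (2 * ((i : ℝ) - l) * θ)) *
        sin (j * θ)) = ∑ i ∈ range (N + 1), ∑ l ∈ range (N + 1),
        (h i * h l * cos (2 * ((i : ℝ) - l) * θ)) * ∑ j ∈ Icc 1 J, (j : ℝ) * t j * sin (j * θ) := by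
    have e4 : ∀ j ∈ Icc 1 J, (j : ℝ) * t j *
      ((∑ i ∈ range (N + 1), ∑ l ∈ range (N + 1), h i * h l * cos (2 * ((i : ℝ) - l) * θ)) *
        sin (j * θ)) = (∑ i ∈ range (N + 1), ∑ l ∈ range (N + 1),
          h i * h l * cos (2 * ((i : ℝ) - l) * θ)) * ((j : ℝ) * t j * sin (j * θ)) := by
      intro j _; ring
    rw [Finset.sum_congr rfl e4, ← Finset.mul_sum, Finset.sum_mul]
    exact Finset.sum_congr rfl fun i _ => Finset.sum_mul _ _ _
  rw [e2, e3]
  simp only [Finset.mul_sum, ← Finset.sum_sub_distrib, ← Finset.sum_add_distrib]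
  refine sum_symm _ _ _ fun i _ l _ => ?_
  rw [← Finset.sum_add_distrib, ← Finset.sum_add_distrib]
  refine Finset.sum_congr rfl fun j _ => ?_
  have a1 := trig_prod (n - 2 * i) (n - 2 * l - j) θ
  have a2 := trig_prod (n - 2 * l) (n - 2 * i - j) θ
  have b1 : ((n : ℝ) - 2 * i - (n - 2 * l - j)) * θ = j * θ - 2 * ((i : ℝ) - l) * θ := by ring
  have b2 : ((n : ℝ) - 2 * l - (n - 2 * i - j)) * θ = j * θ + 2 * ((i : ℝ) - l) * θ := by ring
  have b3 : ((n : ℝ) - 2 * i + (n - 2 * l - j)) * θ = (2 * n - 2 * i - 2 * l - j) * θ := by ring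
  have b4 : ((n : ℝ) - 2 * l + (n - 2 * i - j)) * θ = (2 * n - 2 * i - 2 * l - j) * θ := by ring
  rw [b1, b3, Real.sin_sub] at a1
  rw [b2, b4, Real.sin_add] at a2
  have b5 : 2 * ((l : ℝ) - i) * θ = -(2 * ((i : ℝ) - l) * θ) := by ring
  have b6 : (2 * (n : ℝ) - 2 * l - 2 * i - j) * θ = (2 * n - 2 * i - 2 * l - j) * θ := by ring
  rw [b5, b6, Real.cos_neg]
  have c1 : h i * (((n : ℝ) - 2 * i) * sin ((n - 2 * i) * θ)) *
      (h l * t j / n * cos ((n - 2 * l - j) * θ)) -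
      h i * cos ((n - 2 * i) * θ) * (h l * t j / n * ((n - 2 * l - j) * sin ((n - 2 * l - j) * θ))) =
      h i * h l * t j / n * (((n : ℝ) - 2 * i) * sin ((n - 2 * i) * θ) * cos ((n - 2 * l - j) * θ) -
        (n - 2 * l - j) * cos ((n - 2 * i) * θ) * sin ((n - 2 * l - j) * θ)) := by ring
  have c2 : h l * (((n : ℝ) - 2 * l) * sin ((n - 2 * l) * θ)) *
      (h i * t j / n * cos ((n - 2 * i - j) * θ)) -
      h l * cos ((n - 2 * l) * θ) * (h i * t j / n * ((n - 2 * i - j) * sin ((n - 2 * i - j) * θ))) =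
      h i * h l * t j / n * (((n : ℝ) - 2 * l) * sin ((n - 2 * l) * θ) * cos ((n - 2 * i - j) * θ) -
        (n - 2 * i - j) * cos ((n - 2 * l) * θ) * sin ((n - 2 * i - j) * θ)) := by ring
  rw [c1, c2, a1, a2]
  field_simp
  ring

/-- Value at a zero of the node polynomial. -/
lemma node_value (hn : 1 ≤ n) (hNJ : 4 * N + J ≤ n) (θ : ℝ) (h0 : (Wp n N h).eval (cos θ) = 0) :
    ((Wp n N h).derivative.eval (cos θ) * (Rp n N J h t).eval (cos θ)) * sin θ =
    (∑ i ∈ range (N + 1), ∑ l ∈ range (N + 1),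
        h i * h l * (1 - (i + l : ℝ) / n) * cos (2 * ((i : ℝ) - l) * θ)) *
      (∑ j ∈ Icc 1 J, t j * sin (j * θ)) := by
  have hn' : (n : ℝ) ≠ 0 := by positivity
  rw [Wp_eval h hNJ] at h0
  have e1 : ((Wp n N h).derivative.eval (cos θ) * (Rp n N J h t).eval (cos θ)) * sin θ =
      ((Wp n N h).derivative.eval (cos θ) * sin θ) * (Rp n N J h t).eval (cos θ) := by ring
  rw [e1, Wp_deriv h hNJ, Rp_eval h t hNJ]
  have e2 : ∑ l ∈ range (N + 1), ∑ j ∈ Icc 1 J, h l * t j / n * cos ((n - 2 * l - j) * θ) =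
      (1 / n) * ((∑ l ∈ range (N + 1), h l * sin ((n - 2 * l) * θ)) *
        (∑ j ∈ Icc 1 J, t j * sin (j * θ))) := by
    have e3 : ∑ l ∈ range (N + 1), ∑ j ∈ Icc 1 J, h l * t j / n * cos ((n - 2 * l - j) * θ) =
      (1 / n) * ((∑ l ∈ range (N + 1), h l * cos ((n - 2 * l) * θ)) *
        (∑ j ∈ Icc 1 J, t j * cos (j * θ))) +
      (1 / n) * ((∑ l ∈ range (N + 1), h l * sin ((n - 2 * l) * θ)) *
        (∑ j ∈ Icc 1 J, t j * sin (j * θ))) := by
      rw [Finset.sum_mul_sum, Finset.sum_mul_sum, Finset.mul_sum, Finset.mul_sum,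
        ← Finset.sum_add_distrib]
      refine Finset.sum_congr rfl fun l _ => ?_
      rw [Finset.mul_sum, Finset.mul_sum, ← Finset.sum_add_distrib]
      refine Finset.sum_congr rfl fun j _ => ?_
      have b : ((n : ℝ) - 2 * l - j) * θ = (n - 2 * l) * θ - j * θ := by ring
      rw [b, Real.cos_sub]
      field_simp
    rw [e3, h0]
    ring
  rw [e2]
  have e4 : (∑ i ∈ range (N + 1), h i * ((n - 2 * i) * sin ((n - 2 * i) * θ))) *
      (∑ l ∈ range (N + 1), h l * sin ((n - 2 * l) * θ)) =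
      n * ∑ i ∈ range (N + 1), ∑ l ∈ range (N + 1),
        h i * h l * (1 - (i + l : ℝ) / n) * cos (2 * ((i : ℝ) - l) * θ) := by
    have e5 : (∑ i ∈ range (N + 1), h i * ((n - 2 * i) * sin ((n - 2 * i) * θ))) *
        (∑ l ∈ range (N + 1), h l * sin ((n - 2 * l) * θ)) =
        (∑ i ∈ range (N + 1), h i * ((n - 2 * i) * sin ((n - 2 * i) * θ))) *
        (∑ l ∈ range (N + 1), h l * sin ((n - 2 * l) * θ)) +
        (∑ i ∈ range (N + 1), h i * ((n - 2 * i) * cos ((n - 2 * i) * θ))) *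
        (∑ l ∈ range (N + 1), h l * cos ((n - 2 * l) * θ)) := by
      rw [h0]; ring
    rw [e5, Finset.sum_mul_sum, Finset.sum_mul_sum, Finset.mul_sum]
    simp only [Finset.mul_sum, ← Finset.sum_add_distrib]
    refine sum_symm _ _ _ fun i _ l _ => ?_
    have b0 : 2 * ((i : ℝ) - l) * θ = (n - 2 * l) * θ - (n - 2 * i) * θ := by ring
    have b1 : 2 * ((l : ℝ) - i) * θ = -((n - 2 * l) * θ - (n - 2 * i) * θ) := by ring
    rw [b1, Real.cos_neg, b0, Real.cos_sub]
    field_simp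
    ring
  have e6 : (∑ i ∈ range (N + 1), h i * ((n - 2 * i) * sin ((n - 2 * i) * θ))) *
      ((1 / n) * ((∑ l ∈ range (N + 1), h l * sin ((n - 2 * l) * θ)) *
        (∑ j ∈ Icc 1 J, t j * sin (j * θ)))) =
      (1 / n) * (((∑ i ∈ range (N + 1), h i * ((n - 2 * i) * sin ((n - 2 * i) * θ))) *
      (∑ l ∈ range (N + 1), h l * sin ((n - 2 * l) * θ))) * (∑ j ∈ Icc 1 J, t j * sin (j * θ))) := by
    ring
  rw [e6, e4, ← mul_assoc, ← mul_assoc, one_div, inv_mul_cancel₀ hn', one_mul]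

/-- Signs of the node polynomial. -/
lemma sign_W (hn : 1 ≤ n) (hNJ : 4 * N + J ≤ n) (hh : ∑ i ∈ Icc 1 N, |h i| < h 0) (j : ℕ) :
    0 < (-1 : ℝ) ^ j * (Wp n N h).eval (cos (j * π / n)) := by
  have hn' : (n : ℝ) ≠ 0 := by positivity
  rw [Wp_eval h hNJ, Finset.mul_sum]
  have e1 : ∀ i ∈ range (N + 1), (-1 : ℝ) ^ j * (h i * cos ((n - 2 * i) * (j * π / n))) =
      h i * cos (2 * i * (j * π / n)) := by
    intro i _
    have b : ((n : ℝ) - 2 * i) * (j * π / n) = j * π - 2 * i * (j * π / n) := by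
      field_simp
    rw [b, Real.cos_nat_mul_pi_sub]
    have : (-1 : ℝ) ^ j * (-1 : ℝ) ^ j = 1 := by
      rw [← mul_pow]; norm_num
    linear_combination (h i * cos (2 * i * (j * π / n))) * this
  rw [Finset.sum_congr rfl e1, Finset.sum_range_succ']
  have e2 : h 0 * cos (2 * ((0 : ℕ) : ℝ) * (j * π / n)) = h 0 := by simp
  rw [e2]
  have e3 : |∑ i ∈ range N, h (i + 1) * cos (2 * ((i + 1 : ℕ) : ℝ) * (j * π / n))| ≤
      ∑ i ∈ Icc 1 N, |h i| := by
    refine (Finset.abs_sum_le_sum_abs _ _).trans ?_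
    have e4 : ∑ i ∈ Icc 1 N, |h i| = ∑ i ∈ range N, |h (i + 1)| := by
      rw [Finset.range_eq_Ico, Finset.sum_Ico_add' (fun i => |h i|) 0 N 1]
      rfl
    rw [e4]
    refine Finset.sum_le_sum fun i _ => ?_
    rw [abs_mul]
    exact mul_le_of_le_one_right (abs_nonneg _) (Real.abs_cos_le_one _)
  have := (abs_le.1 e3).1
  linarith

/-! ### Integrals -/

lemma integral_sin_mul (m : ℝ) (hm : 0 < m) : |∫ θ in (0:ℝ)..π, sin (m * θ)| ≤ 2 / m := by
  rw [intervalIntegral.integral_comp_mul_left (fun θ => sin θ) hm.ne', integral_sin]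
  rw [smul_eq_mul, abs_mul, abs_inv, abs_of_pos hm, div_eq_inv_mul]
  apply mul_le_mul_of_nonneg_left _ (by positivity)
  rw [mul_zero, Real.cos_zero]
  have h1 := Real.neg_one_le_cos (m * π)
  have h2 := Real.cos_le_one (m * π)
  rw [abs_le]
  constructor <;> linarith

/-- The statement of task I. -/
def NodesStmt : Prop := ∀ (n : ℕ) (_ : 1 ≤ n) (W : ℝ[X]) (_ : W.natDegree ≤ n)
    (_ : ∀ j : ℕ, j ≤ n → 0 < (-1 : ℝ) ^ j * W.eval (Real.cos (j * π / n))),
    ∃ x : Fin n → ℝ, Nodes x ∧ (∀ k, x k ∈ Set.Ioo (-1 : ℝ) 1) ∧ (∀ k, W.eval (x k) = 0) ∧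
      ∀ ρ : ℝ[X], ρ.degree < n → ∀ t,
        W.derivative.eval t * ρ.eval t - W.eval t * ρ.derivative.eval t
          = ∑ k, (W.derivative.eval (x k) * ρ.eval (x k)) * L x k t ^ 2

lemma M_le {x : Fin n → ℝ} (hx : Nodes x) : M n ≤ I x := by
  unfold M
  apply csInf_le
  · refine ⟨0, ?_⟩
    rintro v ⟨y, -, rfl⟩
    unfold I
    apply intervalIntegral.integral_nonneg (by norm_num)
    intro t _
    exact Finset.sum_nonneg fun k _ => sq_nonneg _
  · exact ⟨x, hx, rfl⟩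

lemma upper_of_nodes (hnodes : NodesStmt) (hn : 1 ≤ n) (hNJ : 4 * N + J ≤ n)
    (hh : ∑ i ∈ Finset.Icc 1 N, |h i| < h 0) (δ : ℝ) (hδ : δ < 1)
    (hlow : ∀ θ ∈ Set.Ioo 0 π, (1 - δ) * Real.sin θ ≤
      (∑ i ∈ Finset.range (N + 1), ∑ l ∈ Finset.range (N + 1),
        h i * h l * (1 - (i + l : ℝ) / n) * Real.cos (2 * ((i : ℝ) - l) * θ)) *
      (∑ j ∈ Finset.Icc 1 J, t j * Real.sin (j * θ))) :
    (1 - δ) * M n ≤ (∫ θ in (0:ℝ)..π,
      (∑ i ∈ Finset.range (N + 1), ∑ l ∈ Finset.range (N + 1),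
        h i * h l * (1 - (i + l : ℝ) / n) * Real.cos (2 * ((i : ℝ) - l) * θ)) *
      (∑ j ∈ Finset.Icc 1 J, t j * Real.sin (j * θ)))
      - (1 / (2 * n)) * (∑ j ∈ Finset.Icc 1 J, (j : ℝ) * t j * (∫ θ in (0:ℝ)..π,
        (∑ i ∈ Finset.range (N + 1), ∑ l ∈ Finset.range (N + 1),
          h i * h l * Real.cos (2 * ((i : ℝ) - l) * θ)) * Real.sin (j * θ)))
      + (1 / (n:ℝ) ^ 2) * (∑ i ∈ Finset.range (N + 1), |h i|) ^ 2
          * ∑ j ∈ Finset.Icc 1 J, (j : ℝ) * |t j| := by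
  have hn' : (0 : ℝ) < n := by positivity
  obtain ⟨x, hx, hx1, hx0, hid⟩ := hnodes n hn (Wp n N h) (Wp_natDegree n N h)
    (fun j _ => sign_W h hn hNJ hh j)
  set A : ℝ → ℝ := fun θ => (∑ i ∈ Finset.range (N + 1), ∑ l ∈ Finset.range (N + 1),
        h i * h l * (1 - (i + l : ℝ) / n) * Real.cos (2 * ((i : ℝ) - l) * θ)) with hA
  set Th : ℝ → ℝ := fun θ => (∑ j ∈ Finset.Icc 1 J, t j * Real.sin (j * θ)) with hTh
  set B : ℝ → ℝ := fun θ => (∑ i ∈ Finset.range (N + 1), ∑ l ∈ Finset.range (N + 1),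
          h i * h l * Real.cos (2 * ((i : ℝ) - l) * θ)) with hB
  set R : ℝ → ℝ := fun θ => ∑ i ∈ range (N + 1), ∑ l ∈ range (N + 1), ∑ j ∈ Icc 1 J,
      h i * h l * (j * t j) * sin ((2 * n - 2 * i - 2 * l - j) * θ) with hR
  have cA : Continuous A := by
    rw [hA]; fun_prop
  have cTh : Continuous Th := by
    rw [hTh]; fun_prop
  have cB : Continuous B := by
    rw [hB]; fun_prop
  have cR : Continuous R := by
    rw [hR]; fun_prop
  -- values at the nodes
  have hval : ∀ k, 1 - δ ≤ (Wp n N h).derivative.eval (x k) * (Rp n N J h t).eval (x k) := by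
    intro k
    set θ := arccos (x k) with hθ
    have hc : cos θ = x k := Real.cos_arccos (hx1 k).1.le (hx1 k).2.le
    have h0π : θ ∈ Set.Ioo 0 π := by
      constructor
      · exact Real.arccos_pos.2 (hx1 k).2
      · rw [hθ, Real.arccos_lt_pi]
        exact (hx1 k).1
    have hs : 0 < sin θ := Real.sin_pos_of_pos_of_lt_pi h0π.1 h0π.2
    have h1 := node_value h t hn hNJ θ (by rw [hc]; exact hx0 k)
    have h2 := hlow θ h0π
    rw [← h1, hc] at h2
    exact le_of_mul_le_mul_right h2 hs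
  -- integrate the identity
  have hI : ∫ s in (-1:ℝ)..1, ((Wp n N h).derivative.eval s * (Rp n N J h t).eval s -
      (Wp n N h).eval s * (Rp n N J h t).derivative.eval s) =
      ∑ k, ((Wp n N h).derivative.eval (x k) * (Rp n N J h t).eval (x k)) *
        ∫ s in (-1:ℝ)..1, L x k s ^ 2 := by
    simp only [hid _ (Rp_degree n N J h t hn)]
    rw [intervalIntegral.integral_finsetSum]
    · refine Finset.sum_congr rfl fun k _ => ?_
      rw [intervalIntegral.integral_const_mul]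
    · intro k _
      exact (continuous_const.mul ((continuous_L x k).pow 2)).intervalIntegrable _ _
  have hIx : I x = ∑ k, ∫ s in (-1:ℝ)..1, L x k s ^ 2 := by
    unfold I
    rw [intervalIntegral.integral_finsetSum]
    intro k _
    exact ((continuous_L x k).pow 2).intervalIntegrable _ _
  have hlower : (1 - δ) * M n ≤ ∫ s in (-1:ℝ)..1, ((Wp n N h).derivative.eval s *
      (Rp n N J h t).eval s - (Wp n N h).eval s * (Rp n N J h t).derivative.eval s) := by
    rw [hI]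
    calc (1 - δ) * M n ≤ (1 - δ) * I x := mul_le_mul_of_nonneg_left (M_le hx) (by linarith)
      _ = ∑ k, (1 - δ) * ∫ s in (-1:ℝ)..1, L x k s ^ 2 := by rw [hIx, Finset.mul_sum]
      _ ≤ _ := by
        refine Finset.sum_le_sum fun k _ => ?_
        apply mul_le_mul_of_nonneg_right (hval k)
        exact intervalIntegral.integral_nonneg (by norm_num) fun s _ => sq_nonneg _
  -- change of variables
  have hcv : ∫ s in (-1:ℝ)..1, ((Wp n N h).derivative.eval s * (Rp n N J h t).eval s -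
      (Wp n N h).eval s * (Rp n N J h t).derivative.eval s) =
      ∫ θ in (0:ℝ)..π, (A θ * Th θ - (1 / (2 * n)) * ∑ j ∈ Icc 1 J, (j : ℝ) * t j *
        (B θ * sin (j * θ)) + (1 / (2 * n)) * R θ) := by
    rw [integral_cos_sub (f := fun s => ((Wp n N h).derivative.eval s * (Rp n N J h t).eval s -
      (Wp n N h).eval s * (Rp n N J h t).derivative.eval s))]
    · refine intervalIntegral.integral_congr fun θ _ => ?_
      exact pointwise h t hn hNJ θ
    · have := (Wp n N h).derivative.continuous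
      have := (Wp n N h).continuous
      have := (Rp n N J h t).derivative.continuous
      have := (Rp n N J h t).continuous
      fun_prop
  have hsplit : ∫ θ in (0:ℝ)..π, (A θ * Th θ - (1 / (2 * n)) * ∑ j ∈ Icc 1 J, (j : ℝ) * t j *
        (B θ * sin (j * θ)) + (1 / (2 * n)) * R θ) =
      (∫ θ in (0:ℝ)..π, A θ * Th θ) - (1 / (2 * n)) * ∑ j ∈ Icc 1 J, (j : ℝ) * t j *
        (∫ θ in (0:ℝ)..π, B θ * sin (j * θ)) + (1 / (2 * n)) * ∫ θ in (0:ℝ)..π, R θ := by
    have c1 : Continuous (fun θ => A θ * Th θ) := cA.mul cTh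
    have c2 : Continuous (fun θ => (1 / (2 * (n : ℝ))) * ∑ j ∈ Icc 1 J, (j : ℝ) * t j *
        (B θ * sin (j * θ))) := by fun_prop
    have c3 : Continuous (fun θ => (1 / (2 * (n : ℝ))) * R θ) := continuous_const.mul cR
    have i12 : IntervalIntegrable (fun θ => A θ * Th θ - (1 / (2 * (n : ℝ))) *
        ∑ j ∈ Icc 1 J, (j : ℝ) * t j * (B θ * sin (j * θ))) volume 0 π :=
      (c1.sub c2).intervalIntegrable _ _
    rw [intervalIntegral.integral_add i12
      (c3.intervalIntegrable _ _), intervalIntegral.integral_sub (c1.intervalIntegrable _ _)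
      (c2.intervalIntegrable _ _), intervalIntegral.integral_const_mul,
      intervalIntegral.integral_const_mul, intervalIntegral.integral_finsetSum]
    · simp only [intervalIntegral.integral_const_mul]
    · intro j _
      have : Continuous (fun θ => (j : ℝ) * t j * (B θ * sin (j * θ))) := by fun_prop
      exact this.intervalIntegrable _ _
  have hRint : (1 / (2 * (n : ℝ))) * ∫ θ in (0:ℝ)..π, R θ ≤ (1 / (n:ℝ) ^ 2) *
      (∑ i ∈ Finset.range (N + 1), |h i|) ^ 2 * ∑ j ∈ Finset.Icc 1 J, (j : ℝ) * |t j| := by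
    have h1 : ∫ θ in (0:ℝ)..π, R θ = ∑ i ∈ range (N + 1), ∑ l ∈ range (N + 1), ∑ j ∈ Icc 1 J,
        h i * h l * (j * t j) * ∫ θ in (0:ℝ)..π, sin ((2 * n - 2 * i - 2 * l - j) * θ) := by
      rw [hR]
      rw [intervalIntegral.integral_finsetSum]
      · refine Finset.sum_congr rfl fun i _ => ?_
        rw [intervalIntegral.integral_finsetSum]
        · refine Finset.sum_congr rfl fun l _ => ?_
          rw [intervalIntegral.integral_finsetSum]
          · refine Finset.sum_congr rfl fun j _ => ?_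
            rw [intervalIntegral.integral_const_mul]
          · intro j _
            exact Continuous.intervalIntegrable (by fun_prop) _ _
        · intro l _
          exact Continuous.intervalIntegrable (by fun_prop) _ _
      · intro i _
        exact Continuous.intervalIntegrable (by fun_prop) _ _
    have h2 : ∫ θ in (0:ℝ)..π, R θ ≤ ∑ i ∈ range (N + 1), ∑ l ∈ range (N + 1), ∑ j ∈ Icc 1 J,
        |h i| * |h l| * (j * |t j|) * (2 / n) := by
      rw [h1]
      refine Finset.sum_le_sum fun i hi => Finset.sum_le_sum fun l hl =>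
        Finset.sum_le_sum fun j hj => ?_
      refine (le_abs_self _).trans ?_
      rw [abs_mul, abs_mul, abs_mul, abs_mul, Nat.abs_cast]
      apply mul_le_mul_of_nonneg_left _ (by positivity)
      have hi' := Finset.mem_range.1 hi
      have hl' := Finset.mem_range.1 hl
      have hj' := Finset.mem_Icc.1 hj
      have hm : (n : ℝ) ≤ 2 * n - 2 * i - 2 * l - j := by
        have h4 : n + 2 * i + 2 * l + j ≤ 2 * n := by omega
        have h5 : (n : ℝ) + 2 * i + 2 * l + j ≤ 2 * n := by exact_mod_cast h4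
        linarith
      refine (integral_sin_mul _ (by linarith)).trans ?_
      exact div_le_div_of_nonneg_left (by norm_num) hn' hm
    have h3 : ∑ i ∈ range (N + 1), ∑ l ∈ range (N + 1), ∑ j ∈ Icc 1 J,
        |h i| * |h l| * (j * |t j|) * (2 / n) = (2 / n) * ((∑ i ∈ Finset.range (N + 1), |h i|) ^ 2 *
          ∑ j ∈ Finset.Icc 1 J, (j : ℝ) * |t j|) := by
      rw [sq, Finset.sum_mul_sum, Finset.sum_mul, Finset.mul_sum]
      refine Finset.sum_congr rfl fun i _ => ?_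
      rw [Finset.sum_mul, Finset.mul_sum]
      refine Finset.sum_congr rfl fun l _ => ?_
      rw [Finset.mul_sum, Finset.mul_sum]
      refine Finset.sum_congr rfl fun j _ => ?_
      ring
    rw [h3] at h2
    calc (1 / (2 * (n : ℝ))) * ∫ θ in (0:ℝ)..π, R θ ≤ (1 / (2 * (n : ℝ))) * ((2 / n) *
          ((∑ i ∈ Finset.range (N + 1), |h i|) ^ 2 * ∑ j ∈ Finset.Icc 1 J, (j : ℝ) * |t j|)) :=
          mul_le_mul_of_nonneg_left h2 (by positivity)
      _ = _ := by field_simp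
  rw [hcv, hsplit] at hlower
  linarith

end UMain

theorem upper_main (n N J : ℕ) (hn : 1 ≤ n) (hNJ : 4 * N + J ≤ n) (h t : ℕ → ℝ)
    (hh : ∑ i ∈ Finset.Icc 1 N, |h i| < h 0) (δ : ℝ) (hδ : δ < 1)
    (hlow : ∀ θ ∈ Set.Ioo 0 π, (1 - δ) * Real.sin θ ≤
      (∑ i ∈ Finset.range (N + 1), ∑ l ∈ Finset.range (N + 1),
        h i * h l * (1 - (i + l : ℝ) / n) * Real.cos (2 * ((i : ℝ) - l) * θ)) *
      (∑ j ∈ Finset.Icc 1 J, t j * Real.sin (j * θ))) :
    (1 - δ) * M n ≤ (∫ θ in (0:ℝ)..π,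
      (∑ i ∈ Finset.range (N + 1), ∑ l ∈ Finset.range (N + 1),
        h i * h l * (1 - (i + l : ℝ) / n) * Real.cos (2 * ((i : ℝ) - l) * θ)) *
      (∑ j ∈ Finset.Icc 1 J, t j * Real.sin (j * θ)))
      - (1 / (2 * n)) * (∑ j ∈ Finset.Icc 1 J, (j : ℝ) * t j * (∫ θ in (0:ℝ)..π,
        (∑ i ∈ Finset.range (N + 1), ∑ l ∈ Finset.range (N + 1),
          h i * h l * Real.cos (2 * ((i : ℝ) - l) * θ)) * Real.sin (j * θ)))
      + (1 / (n:ℝ) ^ 2) * (∑ i ∈ Finset.range (N + 1), |h i|) ^ 2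
          * ∑ j ∈ Finset.Icc 1 J, (j : ℝ) * |t j| :=
  UMain.upper_of_nodes h t exists_nodes hn hNJ hh δ hδ hlow

end ErdosLag
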