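import Pool.Agent.W_MP_93ab53_an.UAsymAux
import Pool.Agent.W_MP_93ab53_an.UMain

/-!
Asymptotic upper bound for `M n` at fixed `ρ` (task K).
-/

namespace ErdosLag

open Real MeasureTheory intervalIntegral Finset Polynomial

theorem upper_asym (ρ : ℝ) (h0 : 0 < ρ) (h1 : ρ < 1) (ε : ℝ) (hε : 0 < ε) :
    ∃ N : ℕ, ∀ n ≥ N,
      (1 / π) * (∑' j : ℕ, (j : ℝ) * alpha ρ j * beta ρ j) - ε ≤ n * (2 - M n) :=
  upper_asym_of (fun n N J hn hNJ h t hh δ hδ hlow =>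
    upper_main n N J hn hNJ h t hh δ hδ hlow) ρ h0 h1 ε hε

end ErdosLag
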