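import Pool.Agent.W_MP_93ab53_an.KDefs

/-!
MP_93ab53_an, task B: the closed form of the sum of `m * b m ^ 2`.
-/

namespace ErdosLag

open Real MeasureTheory intervalIntegral Finset Polynomial

lemma b_even (k : ℕ) : b (2 * k) = 0 := by
  have h1 : b (2 * k) = - b (2 * k) := by
    unfold b
    have h := intervalIntegral.integral_comp_sub_left (a := 0) (b := π)
      (fun θ => √(Real.sin θ) * Real.sin (((2 * k : ℕ) : ℝ) * θ)) π
    simp only [sub_self, sub_zero] at h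
    rw [← intervalIntegral.integral_neg]
    conv_lhs => rw [← h]
    refine intervalIntegral.integral_congr fun θ _ => ?_
    have e1 : Real.sin (π - θ) = Real.sin θ := Real.sin_pi_sub θ
    have e2 : Real.sin (((2 * k : ℕ) : ℝ) * (π - θ)) = - Real.sin (((2 * k : ℕ) : ℝ) * θ) := by
      have : ((2 * k : ℕ) : ℝ) * (π - θ) = (k : ℝ) * (2 * π) - ((2 * k : ℕ) : ℝ) * θ := by
        push_cast; ring
      rw [this, Real.sin_nat_mul_two_pi_sub]
    simp only [e1, e2]
    ring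
  linarith

lemma b_rec (m : ℕ) : (2 * (m : ℝ) + 5) * b (m + 2) = (2 * (m : ℝ) - 1) * b m := by
  have hint : ∀ j : ℕ, IntervalIntegrable (fun θ => √(Real.sin θ) * Real.sin ((j : ℝ) * θ))
      volume 0 π := fun j => Continuous.intervalIntegrable (by fun_prop) _ _
  have key : ∫ θ in (0:ℝ)..π, ((2 * (m : ℝ) + 5) / 4 *
      (√(Real.sin θ) * Real.sin (((m + 2 : ℕ) : ℝ) * θ))
      - (2 * (m : ℝ) - 1) / 4 * (√(Real.sin θ) * Real.sin ((m : ℝ) * θ))) = 0 := by
    have h := intervalIntegral.integral_eq_sub_of_hasDerivAt_of_le (a := 0) (b := π)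
      (f := fun θ => √(Real.sin θ) * Real.sin θ * Real.sin ((m + 1 : ℝ) * θ))
      (f' := fun θ => (2 * (m : ℝ) + 5) / 4 *
      (√(Real.sin θ) * Real.sin (((m + 2 : ℕ) : ℝ) * θ))
      - (2 * (m : ℝ) - 1) / 4 * (√(Real.sin θ) * Real.sin ((m : ℝ) * θ))) Real.pi_pos.le
      (by fun_prop) ?_ ((hint _).const_mul _ |>.sub ((hint _).const_mul _))
    · rw [h]; simp
    · intro θ hθ
      have hs : 0 < Real.sin θ := Real.sin_pos_of_pos_of_lt_pi hθ.1 hθ.2
      have hsq : 0 < √(Real.sin θ) := Real.sqrt_pos.2 hs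
      have hss : √(Real.sin θ) * √(Real.sin θ) = Real.sin θ := Real.mul_self_sqrt hs.le
      have d1 : HasDerivAt (fun θ => √(Real.sin θ)) (Real.cos θ / (2 * √(Real.sin θ))) θ :=
        (Real.hasDerivAt_sin θ).sqrt hs.ne'
      have d2 : HasDerivAt (fun θ => Real.sin ((m + 1 : ℝ) * θ))
          (Real.cos ((m + 1 : ℝ) * θ) * ((m + 1 : ℝ) * 1)) θ :=
        ((hasDerivAt_id θ).const_mul (m + 1 : ℝ)).sin
      have d3 := (d1.mul (Real.hasDerivAt_sin θ)).mul d2
      refine d3.congr_deriv ?_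
      have e1 : Real.sin (((m + 2 : ℕ) : ℝ) * θ)
          = Real.sin ((m + 1 : ℝ) * θ) * Real.cos θ + Real.cos ((m + 1 : ℝ) * θ) * Real.sin θ := by
        rw [← Real.sin_add]; congr 1; push_cast; ring
      have e2 : Real.sin ((m : ℝ) * θ)
          = Real.sin ((m + 1 : ℝ) * θ) * Real.cos θ - Real.cos ((m + 1 : ℝ) * θ) * Real.sin θ := by
        rw [← Real.sin_sub]; congr 1; push_cast; ring
      rw [e1, e2]
      have e4 : Real.cos θ / (2 * √(Real.sin θ)) * Real.sin θ = √(Real.sin θ) * Real.cos θ / 2 := by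
        calc Real.cos θ / (2 * √(Real.sin θ)) * Real.sin θ
            = Real.cos θ / (2 * √(Real.sin θ)) * (√(Real.sin θ) * √(Real.sin θ)) := by rw [hss]
          _ = _ := by field_simp
      rw [e4]
      simp only [Pi.mul_apply]
      ring
  rw [intervalIntegral.integral_sub ((hint _).const_mul _) ((hint _).const_mul _),
    intervalIntegral.integral_const_mul, intervalIntegral.integral_const_mul] at key
  change (2 * (m : ℝ) + 5) / 4 * b (m + 2) - (2 * (m : ℝ) - 1) / 4 * b m = 0 at key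
  linarith

lemma b_odd_step (k : ℕ) :
    b (2 * (k + 1) + 1) = (4 * (k : ℝ) + 1) / (4 * k + 7) * b (2 * k + 1) := by
  have h := b_rec (2 * k + 1)
  have e : 2 * (k + 1) + 1 = 2 * k + 1 + 2 := by ring
  rw [e]
  push_cast at h
  have h7 : (4 * (k : ℝ) + 7) ≠ 0 := by positivity
  field_simp
  linarith

lemma partial_sum (K : ℕ) :
    ∑ k ∈ Finset.range K, ((2 * k + 1 : ℕ) : ℝ) * b (2 * k + 1) ^ 2
      = 9 / 8 * b 1 ^ 2 - (4 * (K : ℝ) + 3) ^ 2 * b (2 * K + 1) ^ 2 / 8 := by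
  induction K with
  | zero => simp; ring
  | succ K ih =>
    rw [Finset.sum_range_succ, ih, b_odd_step]
    have h7 : (4 * (K : ℝ) + 7) ≠ 0 := by positivity
    push_cast
    field_simp
    ring

lemma decay (K : ℕ) :
    (4 * (K : ℝ) + 3) ^ 3 * b (2 * K + 1) ^ 2 ≤ 27 * b 1 ^ 2 := by
  induction K with
  | zero => simp; nlinarith [sq_nonneg (b 1)]
  | succ K ih =>
    refine le_trans ?_ ih
    rw [b_odd_step]
    have h7 : (0:ℝ) < (4 * (K : ℝ) + 7) := by positivity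
    have : (4 * ((K + 1 : ℕ) : ℝ) + 3) ^ 3 * ((4 * (K : ℝ) + 1) / (4 * K + 7) * b (2 * K + 1)) ^ 2
        = ((4 * (K : ℝ) + 7) * (4 * K + 1) ^ 2) * b (2 * K + 1) ^ 2 := by
      push_cast
      field_simp
      ring
    rw [this]
    refine mul_le_mul_of_nonneg_right ?_ (sq_nonneg _)
    have hK : (0:ℝ) ≤ K := Nat.cast_nonneg K
    nlinarith [mul_nonneg hK hK]

lemma hasSum_odd : HasSum (fun k : ℕ => ((2 * k + 1 : ℕ) : ℝ) * b (2 * k + 1) ^ 2)
    (9 / 8 * b 1 ^ 2) := by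
  rw [hasSum_iff_tendsto_nat_of_nonneg (fun k => by positivity)]
  simp_rw [partial_sum]
  have h0 : Filter.Tendsto (fun K : ℕ => (4 * (K : ℝ) + 3) ^ 2 * b (2 * K + 1) ^ 2 / 8)
      Filter.atTop (nhds 0) := by
    refine squeeze_zero (g := fun K : ℕ => 27 * b 1 ^ 2 / 8 * (1 / ((K : ℝ) + 1)))
      (fun K => by positivity) (fun K => ?_) ?_
    · have h := decay K
      have h3 : (0:ℝ) < 4 * (K : ℝ) + 3 := by positivity
      have h4 : (4 * (K : ℝ) + 3) ^ 2 * b (2 * K + 1) ^ 2 ≤ 27 * b 1 ^ 2 / (4 * (K : ℝ) + 3) := by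
        rw [le_div_iff₀ h3]
        calc _ = (4 * (K : ℝ) + 3) ^ 3 * b (2 * K + 1) ^ 2 := by ring
          _ ≤ _ := h
      have h5 : 27 * b 1 ^ 2 / (4 * (K : ℝ) + 3) ≤ 27 * b 1 ^ 2 / ((K : ℝ) + 1) := by
        have hK : (0:ℝ) ≤ K := Nat.cast_nonneg K
        exact div_le_div_of_nonneg_left (by positivity) (by positivity) (by linarith)
      calc _ ≤ 27 * b 1 ^ 2 / ((K : ℝ) + 1) / 8 := by
            have := h4.trans h5
            linarith
        _ = _ := by ring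
    · have := (tendsto_one_div_add_atTop_nhds_zero_nat (𝕜 := ℝ)).const_mul (27 * b 1 ^ 2 / 8)
      simpa using this
  simpa using (tendsto_const_nhds (x := 9 / 8 * b 1 ^ 2)).sub h0

lemma b_one_eq : b 1 = 2 * √2 * (Complex.betaIntegral ((5/4 : ℝ) : ℂ) ((5/4 : ℝ) : ℂ)).re := by
  have h1 : b 1 = ∫ t in (-1:ℝ)..1, √(√(1 - t ^ 2)) := by
    rw [integral_cos_sub (f := fun t => √(√(1 - t ^ 2))) (by fun_prop)]
    unfold b
    refine intervalIntegral.integral_congr fun θ hθ => ?_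
    rw [Set.uIcc_of_le Real.pi_pos.le] at hθ
    have hs := Real.sin_nonneg_of_nonneg_of_le_pi hθ.1 hθ.2
    have e : 1 - Real.cos θ ^ 2 = Real.sin θ ^ 2 := by
      have := Real.sin_sq_add_cos_sq θ; linarith
    simp only [e, Real.sqrt_sq hs, Nat.cast_one, one_mul]
  have h2 : ∫ t in (-1:ℝ)..1, √(√(1 - t ^ 2)) = 2 * ∫ u in (0:ℝ)..1, √(√(4 * u * (1 - u))) := by
    have h := intervalIntegral.integral_comp_mul_add (a := 0) (b := 1) (c := 2)
      (fun t => √(√(1 - t ^ 2))) (by norm_num) (-1)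
    norm_num at h
    have e : ∫ u in (0:ℝ)..1, √(√(4 * u * (1 - u)))
        = ∫ x in (0:ℝ)..1, √(√(1 - (2 * x + -1) ^ 2)) := by
      refine intervalIntegral.integral_congr fun u _ => ?_
      congr 2
      ring
    rw [e, h]
    ring
  have h3 : ∫ u in (0:ℝ)..1, √(√(4 * u * (1 - u)))
      = √2 * (Complex.betaIntegral ((5/4 : ℝ) : ℂ) ((5/4 : ℝ) : ℂ)).re := by
    have e1 : Complex.betaIntegral ((5/4 : ℝ) : ℂ) ((5/4 : ℝ) : ℂ)
        = ((∫ u in (0:ℝ)..1, u ^ ((1:ℝ)/4) * (1 - u) ^ ((1:ℝ)/4) : ℝ) : ℂ) := by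
      unfold Complex.betaIntegral
      rw [← intervalIntegral.integral_ofReal]
      refine intervalIntegral.integral_congr fun u hu => ?_
      rw [Set.uIcc_of_le zero_le_one] at hu
      have e0 : (((5/4 : ℝ) : ℂ) - 1) = ((1 / 4 : ℝ) : ℂ) := by push_cast; norm_num
      have e01 : (1 : ℂ) - (u : ℂ) = ((1 - u : ℝ) : ℂ) := by push_cast; ring
      simp only [e0, e01]
      rw [← Complex.ofReal_cpow hu.1, ← Complex.ofReal_cpow (by linarith [hu.2])]
      push_cast
      ring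
    rw [e1, Complex.ofReal_re, ← intervalIntegral.integral_const_mul]
    refine intervalIntegral.integral_congr fun u hu => ?_
    rw [Set.uIcc_of_le zero_le_one] at hu
    have hu0 := hu.1
    have hu1 : 0 ≤ 1 - u := by linarith [hu.2]
    have e2 : √(4 * u * (1 - u)) = 2 * √(u * (1 - u)) := by
      rw [show 4 * u * (1 - u) = 2 ^ 2 * (u * (1 - u)) by ring,
        Real.sqrt_mul (by norm_num), Real.sqrt_sq (by norm_num)]
    have e3 : ∀ x : ℝ, 0 ≤ x → x ^ ((1:ℝ)/4) = √(√x) := by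
      intro x hx
      rw [Real.sqrt_eq_rpow, Real.sqrt_eq_rpow, ← Real.rpow_mul hx]
      norm_num
    rw [e2, Real.sqrt_mul (by norm_num), e3 u hu0, e3 (1 - u) hu1, Real.sqrt_mul hu0,
      Real.sqrt_mul (Real.sqrt_nonneg _)]
  rw [h1, h2, h3]
  ring

lemma b_one_sq : 9 / 8 * b 1 ^ 2 = π * cstar := by
  have hb := ProbabilityTheory.beta_eq_betaIntegralReal (5/4) (5/4) (by norm_num) (by norm_num)
  have h1 : b 1 = 2 * √2 * ProbabilityTheory.beta (5/4) (5/4) := by
    rw [b_one_eq, hb]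
  unfold ProbabilityTheory.beta at h1
  have g54 : Real.Gamma (5/4) = 1/4 * Real.Gamma (1/4) := by
    rw [← Real.Gamma_add_one (by norm_num)]; norm_num
  have g52 : Real.Gamma (5/4 + 5/4) = 3/4 * √π := by
    have a1 : Real.Gamma (5/4 + 5/4) = 3/2 * Real.Gamma (3/2) := by
      rw [← Real.Gamma_add_one (by norm_num)]; norm_num
    have a2 : Real.Gamma (3/2) = 1/2 * Real.Gamma (1/2) := by
      rw [← Real.Gamma_add_one (by norm_num)]; norm_num
    rw [a1, a2, Real.Gamma_one_half_eq]; ring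
  have hrefl : Real.Gamma (1/4) * Real.Gamma (3/4) = √2 * π := by
    have := Real.Gamma_mul_Gamma_one_sub (1/4)
    rw [show (1:ℝ) - 1/4 = 3/4 by norm_num, show π * (1/4) = π / 4 by ring,
      Real.sin_pi_div_four] at this
    rw [this]
    have h2 : √2 * √2 = 2 := Real.mul_self_sqrt (by norm_num)
    have h2' : √2 ≠ 0 := by positivity
    field_simp
    nlinarith [h2]
  rw [h1, g54, g52]
  unfold cstar
  have hg1 : 0 < Real.Gamma (1/4) := Real.Gamma_pos_of_pos (by norm_num)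
  have hg3 : 0 < Real.Gamma (3/4) := Real.Gamma_pos_of_pos (by norm_num)
  have hpi : 0 < √π := by positivity
  have hpp : √π ^ 2 = π := Real.sq_sqrt Real.pi_pos.le
  have h22 : √2 ^ 2 = 2 := Real.sq_sqrt (by norm_num)
  have hG3 : Real.Gamma (3/4) = √2 * π / Real.Gamma (1/4) := by
    field_simp; linarith
  rw [hG3]
  have e1 : (2 * √2 * (1/4 * Real.Gamma (1/4) * (1/4 * Real.Gamma (1/4)) / (3/4 * √π))) ^ 2
      = 4 * √2 ^ 2 * (1/4 * Real.Gamma (1/4) * (1/4 * Real.Gamma (1/4))) ^ 2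
        / (9/16 * √π ^ 2) := by
    field_simp; ring
  have e2 : (√2 * π / Real.Gamma (1/4)) ^ 2 = √2 ^ 2 * π ^ 2 / Real.Gamma (1/4) ^ 2 := by
    field_simp
  rw [e1, e2, hpp, h22]
  field_simp
  ring

theorem hasSum_b : HasSum (fun m : ℕ => (m : ℝ) * b m ^ 2) (π * cstar) := by
  rw [← b_one_sq]
  have h0 : HasSum (fun k : ℕ => ((2 * k : ℕ) : ℝ) * b (2 * k) ^ 2) 0 := by
    have : (fun k : ℕ => ((2 * k : ℕ) : ℝ) * b (2 * k) ^ 2) = fun _ => 0 := by
      funext k; rw [b_even]; ring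
    rw [this]; exact hasSum_zero
  have := HasSum.even_add_odd (f := fun m : ℕ => (m : ℝ) * b m ^ 2) h0 hasSum_odd
  simpa using this

end ErdosLag
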