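import Mathlib

/-!
Parseval's identity for sine series on `[0, π]`.
-/

namespace ErdosLag

open Real MeasureTheory intervalIntegral Finset Polynomial

lemma hasSum_congr_aux {f g : ℕ → ℝ} {a b : ℝ} (h : HasSum f a) (hfg : ∀ m, f m = g m)
    (hab : a = b) : HasSum g b := by
  have : f = g := funext hfg
  rw [← this, ← hab]; exact h

/-- The odd extension of a function on `[0, ∞)`. -/
noncomputable def oddExt (F : ℝ → ℝ) (θ : ℝ) : ℝ := if 0 ≤ θ then F θ else -F (-θ)

lemma oddExt_intervalIntegrable (F : ℝ → ℝ) (hF : Continuous F) (u : ℝ → ℝ) (hu : Continuous u) :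
    IntervalIntegrable (fun θ => oddExt F θ * u θ) volume (-π) 0 ∧
    IntervalIntegrable (fun θ => oddExt F θ * u θ) volume 0 π := by
  constructor
  · have h : IntervalIntegrable (fun θ => -F (-θ) * u θ) volume (-π) 0 :=
      (by fun_prop : Continuous fun θ => -F (-θ) * u θ).intervalIntegrable _ _
    refine h.congr_ae ?_
    rw [Set.uIoc_of_le (by linarith [Real.pi_pos])]
    have : ∀ᵐ θ ∂(volume.restrict (Set.Ioc (-π) 0)), θ ≠ 0 := by
      exact ae_restrict_of_ae (by simp [ae_iff, measure_singleton])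
    filter_upwards [this, ae_restrict_mem measurableSet_Ioc] with θ h0 hθ
    have : ¬ (0 ≤ θ) := fun h => h0 (le_antisymm hθ.2 h)
    simp [oddExt, this]
  · have h : IntervalIntegrable (fun θ => F θ * u θ) volume 0 π :=
      (by fun_prop : Continuous fun θ => F θ * u θ).intervalIntegrable _ _
    refine h.congr_ae ?_
    rw [Set.uIoc_of_le (by linarith [Real.pi_pos])]
    filter_upwards [ae_restrict_mem measurableSet_Ioc] with θ hθ
    simp [oddExt, hθ.1.le]

lemma integral_oddExt_neg (F : ℝ → ℝ) (u : ℝ → ℝ) :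
    ∫ θ in (-π)..0, oddExt F θ * u θ = ∫ θ in (0:ℝ)..π, -(F θ * u (-θ)) := by
  have h1 : ∫ θ in (-π)..0, oddExt F θ * u θ = ∫ θ in (-π)..0, (fun x => -(F x * u (-x))) (-θ) := by
    refine intervalIntegral.integral_congr_ae ?_
    have : ∀ᵐ θ : ℝ, θ ≠ 0 := by simp [ae_iff, measure_singleton]
    filter_upwards [this] with θ h0 hθ
    rw [Set.uIoc_of_le (by linarith [Real.pi_pos])] at hθ
    have : ¬ (0 ≤ θ) := fun h => h0 (le_antisymm hθ.2 h)
    simp [oddExt, this]
  rw [h1, intervalIntegral.integral_comp_neg (fun x => -(F x * u (-x)))]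
  simp

lemma integral_oddExt_pos (F : ℝ → ℝ) (u : ℝ → ℝ) :
    ∫ θ in (0:ℝ)..π, oddExt F θ * u θ = ∫ θ in (0:ℝ)..π, F θ * u θ := by
  refine intervalIntegral.integral_congr fun θ hθ => ?_
  rw [Set.uIcc_of_le Real.pi_pos.le] at hθ
  simp [oddExt, hθ.1]

lemma integral_oddExt_cos (F : ℝ → ℝ) (hF : Continuous F) (n : ℤ) :
    ∫ θ in (-π)..π, oddExt F θ * Real.cos (n * θ) = 0 := by
  obtain ⟨h1, h2⟩ := oddExt_intervalIntegrable F hF (fun θ => Real.cos (n * θ)) (by fun_prop)
  rw [← intervalIntegral.integral_add_adjacent_intervals h1 h2, integral_oddExt_neg,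
    integral_oddExt_pos]
  have : ∀ θ : ℝ, Real.cos (n * -θ) = Real.cos (n * θ) := fun θ => by
    rw [mul_neg, Real.cos_neg]
  have e : ∫ θ in (0:ℝ)..π, -(F θ * Real.cos (n * -θ)) = -∫ θ in (0:ℝ)..π, F θ * Real.cos (n * θ) := by
    rw [← intervalIntegral.integral_neg]
    exact intervalIntegral.integral_congr fun θ _ => by simp only [this]
  rw [e]
  ring

lemma integral_oddExt_sin (F : ℝ → ℝ) (hF : Continuous F) (n : ℤ) :
    ∫ θ in (-π)..π, oddExt F θ * Real.sin (n * θ) = 2 * ∫ θ in (0:ℝ)..π, F θ * Real.sin (n * θ) := by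
  obtain ⟨h1, h2⟩ := oddExt_intervalIntegrable F hF (fun θ => Real.sin (n * θ)) (by fun_prop)
  rw [← intervalIntegral.integral_add_adjacent_intervals h1 h2, integral_oddExt_neg,
    integral_oddExt_pos]
  have : ∀ θ : ℝ, Real.sin (n * -θ) = -Real.sin (n * θ) := fun θ => by
    rw [mul_neg, Real.sin_neg]
  have e : ∫ θ in (0:ℝ)..π, -(F θ * Real.sin (n * -θ)) = ∫ θ in (0:ℝ)..π, F θ * Real.sin (n * θ) :=
    intervalIntegral.integral_congr fun θ _ => by simp only [this]; ring
  rw [e]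
  ring

lemma integral_oddExt_sq (F : ℝ → ℝ) (hF : Continuous F) :
    ∫ θ in (-π)..π, oddExt F θ ^ 2 = 2 * ∫ θ in (0:ℝ)..π, F θ ^ 2 := by
  have h0 : ∀ a b : ℝ, ∫ θ in a..b, oddExt F θ ^ 2 = ∫ θ in a..b, oddExt F θ * oddExt F θ := by
    intro a b; simp [sq]
  have e1 : ∫ θ in (-π)..0, oddExt F θ ^ 2 = ∫ θ in (0:ℝ)..π, F θ ^ 2 := by
    have h1 : ∫ θ in (-π)..0, oddExt F θ ^ 2 = ∫ θ in (-π)..0, (fun x => F x ^ 2) (-θ) := by
      refine intervalIntegral.integral_congr_ae ?_
      have : ∀ᵐ θ : ℝ, θ ≠ 0 := by simp [ae_iff, measure_singleton]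
      filter_upwards [this] with θ h0 hθ
      rw [Set.uIoc_of_le (by linarith [Real.pi_pos])] at hθ
      have : ¬ (0 ≤ θ) := fun h => h0 (le_antisymm hθ.2 h)
      simp [oddExt, this]
    rw [h1, intervalIntegral.integral_comp_neg (fun x => F x ^ 2)]
    simp
  have e2 : ∫ θ in (0:ℝ)..π, oddExt F θ ^ 2 = ∫ θ in (0:ℝ)..π, F θ ^ 2 := by
    refine intervalIntegral.integral_congr fun θ hθ => ?_
    rw [Set.uIcc_of_le Real.pi_pos.le] at hθ
    simp [oddExt, hθ.1]
  have i1 : IntervalIntegrable (fun θ => oddExt F θ ^ 2) volume (-π) 0 := by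
    have h : IntervalIntegrable (fun θ => F (-θ) ^ 2) volume (-π) 0 :=
      (by fun_prop : Continuous fun θ => F (-θ) ^ 2).intervalIntegrable _ _
    refine h.congr_ae ?_
    rw [Set.uIoc_of_le (by linarith [Real.pi_pos])]
    have : ∀ᵐ θ ∂(volume.restrict (Set.Ioc (-π) 0)), θ ≠ 0 := by
      exact ae_restrict_of_ae (by simp [ae_iff, measure_singleton])
    filter_upwards [this, ae_restrict_mem measurableSet_Ioc] with θ h0 hθ
    have : ¬ (0 ≤ θ) := fun h => h0 (le_antisymm hθ.2 h)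
    simp [oddExt, this]
  have i2 : IntervalIntegrable (fun θ => oddExt F θ ^ 2) volume 0 π := by
    have h : IntervalIntegrable (fun θ => F θ ^ 2) volume 0 π :=
      (by fun_prop : Continuous fun θ => F θ ^ 2).intervalIntegrable _ _
    refine h.congr_ae ?_
    rw [Set.uIoc_of_le (by linarith [Real.pi_pos])]
    filter_upwards [ae_restrict_mem measurableSet_Ioc] with θ hθ
    simp [oddExt, hθ.1.le]
  rw [← intervalIntegral.integral_add_adjacent_intervals i1 i2, e1, e2]
  ring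

lemma measurable_oddExt (F : ℝ → ℝ) (hF : Continuous F) : Measurable (oddExt F) := by
  unfold oddExt
  exact Measurable.ite measurableSet_Ici hF.measurable (hF.measurable.comp measurable_neg).neg

lemma coeff_oddExt (F : ℝ → ℝ) (hF : Continuous F) (hab : (-π : ℝ) < π) (n : ℤ) :
    fourierCoeffOn hab (fun θ => (oddExt F θ : ℂ)) n
      = -(Complex.I) * (((1 / π) * ∫ θ in (0:ℝ)..π, F θ * Real.sin (n * θ) : ℝ) : ℂ) := by
  rw [fourierCoeffOn_eq_integral]
  have h1 : ∀ x : ℝ, (fourier (-n) (x : AddCircle (π - -π)) • (oddExt F x : ℂ))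
      = ((oddExt F x * Real.cos (n * x) : ℝ) : ℂ)
        - Complex.I * ((oddExt F x * Real.sin (n * x) : ℝ) : ℂ) := by
    intro x
    have hx : fourier (-n) (x : AddCircle (π - -π)) = Complex.exp (-(n * x : ℝ) * Complex.I) := by
      rw [fourier_coe_apply]
      congr 1
      have : (π : ℂ) ≠ 0 := by exact_mod_cast Real.pi_ne_zero
      push_cast
      field_simp
      ring
    rw [hx, Complex.exp_mul_I, smul_eq_mul, Complex.cos_neg, Complex.sin_neg,
      ← Complex.ofReal_cos, ← Complex.ofReal_sin]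
    push_cast
    ring
  simp only [h1]
  have hc := oddExt_intervalIntegrable F hF (fun θ => Real.cos (n * θ)) (by fun_prop)
  have hs := oddExt_intervalIntegrable F hF (fun θ => Real.sin (n * θ)) (by fun_prop)
  have hc' := (hc.1.trans hc.2)
  have hs' := (hs.1.trans hs.2)
  have hc2 : IntervalIntegrable (fun x => ((oddExt F x * Real.cos (n * x) : ℝ) : ℂ)) volume (-π) π :=
    ⟨hc'.1.ofReal, hc'.2.ofReal⟩
  have hs2 : IntervalIntegrable (fun x => ((oddExt F x * Real.sin (n * x) : ℝ) : ℂ)) volume (-π) π :=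
    ⟨hs'.1.ofReal, hs'.2.ofReal⟩
  rw [intervalIntegral.integral_sub hc2 (hs2.const_mul _),
    intervalIntegral.integral_ofReal, intervalIntegral.integral_const_mul,
    intervalIntegral.integral_ofReal, integral_oddExt_cos F hF, integral_oddExt_sin F hF]
  have : (π : ℂ) ≠ 0 := by exact_mod_cast Real.pi_ne_zero
  simp only [Complex.ofReal_zero, zero_sub, Complex.real_smul]
  push_cast
  field_simp
  ring

lemma parseval_sine_cont (F : ℝ → ℝ) (hF : Continuous F) (B : ℝ) (hB : ∀ x, |F x| ≤ B) :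
    HasSum (fun m : ℕ => (∫ θ in (0:ℝ)..π, F θ * Real.sin ((m:ℝ) * θ)) ^ 2)
      ((π / 2) * ∫ θ in (0:ℝ)..π, F θ ^ 2) := by
  have hab : (-π : ℝ) < π := by linarith [Real.pi_pos]
  have hL2 : MemLp (fun θ => (oddExt F θ : ℂ)) 2 (volume.restrict (Set.Ioc (-π) π)) := by
    refine MemLp.of_bound (by
      exact (Complex.measurable_ofReal.comp (measurable_oddExt F hF)).aestronglyMeasurable) B ?_
    refine Filter.Eventually.of_forall fun θ => ?_
    simp only [Complex.norm_real, Real.norm_eq_abs, oddExt]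
    split_ifs with h
    · exact hB _
    · rw [abs_neg]; exact hB _
  have h := hasSum_sq_fourierCoeffOn hab hL2
  simp only [coeff_oddExt F hF hab] at h
  have h2 := h.nat_add_neg
  have hpi : (π : ℝ) ≠ 0 := Real.pi_ne_zero
  have h3 := h2.mul_left (π ^ 2 / 2)
  refine hasSum_congr_aux h3 ?_ ?_
  · intro m
    have : ∀ θ : ℝ, F θ * Real.sin (((-(m:ℤ) : ℤ) : ℝ) * θ) = -(F θ * Real.sin ((m:ℝ) * θ)) := by
      intro θ
      push_cast
      rw [neg_mul, Real.sin_neg, mul_neg]
    simp only [this, intervalIntegral.integral_neg, Int.cast_natCast]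
    simp only [norm_mul, norm_neg, Complex.norm_I, one_mul, Complex.norm_real, Real.norm_eq_abs,
      sq_abs, mul_pow]
    field_simp
    ring
  · have : ∀ x : ℝ, ‖(oddExt F x : ℂ)‖ ^ 2 = oddExt F x ^ 2 := by
      intro x
      rw [Complex.norm_real, Real.norm_eq_abs, sq_abs]
    simp only [this, integral_oddExt_sq F hF]
    simp
    field_simp
    ring

theorem parseval_sine (f : ℝ → ℝ) (hf : ContinuousOn f (Set.Icc 0 π)) :
    HasSum (fun m : ℕ => (∫ θ in (0:ℝ)..π, f θ * Real.sin ((m:ℝ) * θ)) ^ 2)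
      ((π / 2) * ∫ θ in (0:ℝ)..π, f θ ^ 2) := by
  set F : ℝ → ℝ := Set.IccExtend Real.pi_pos.le ((Set.Icc 0 π).domRestrict f) with hFdef
  have hF : Continuous F := (continuousOn_iff_continuous_domRestrict.mp hf).Icc_extend'
  have hFf : ∀ θ ∈ Set.Icc 0 π, F θ = f θ := fun θ hθ => by
    rw [hFdef, Set.IccExtend_of_mem _ _ hθ]; rfl
  obtain ⟨B, hB⟩ := isCompact_Icc.exists_bound_of_continuousOn hf
  have hB' : ∀ x, |F x| ≤ B := fun x => by
    have : F x = f (Set.projIcc 0 π Real.pi_pos.le x) := rfl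
    rw [this]
    exact hB _ (Set.projIcc 0 π Real.pi_pos.le x).2
  have h := parseval_sine_cont F hF B hB'
  have e1 : ∀ m : ℕ, ∫ θ in (0:ℝ)..π, F θ * Real.sin ((m:ℝ) * θ)
      = ∫ θ in (0:ℝ)..π, f θ * Real.sin ((m:ℝ) * θ) := fun m => by
    refine intervalIntegral.integral_congr fun θ hθ => ?_
    rw [Set.uIcc_of_le Real.pi_pos.le] at hθ
    simp only [hFf θ hθ]
  have e2 : ∫ θ in (0:ℝ)..π, F θ ^ 2 = ∫ θ in (0:ℝ)..π, f θ ^ 2 := by
    refine intervalIntegral.integral_congr fun θ hθ => ?_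
    rw [Set.uIcc_of_le Real.pi_pos.le] at hθ
    simp only [hFf θ hθ]
  simp only [e1, e2] at h
  exact h

theorem parseval_sine_mul (f g : ℝ → ℝ) (hf : ContinuousOn f (Set.Icc 0 π))
    (hg : ContinuousOn g (Set.Icc 0 π)) :
    HasSum (fun m : ℕ => (∫ θ in (0:ℝ)..π, f θ * Real.sin ((m:ℝ) * θ)) *
        (∫ θ in (0:ℝ)..π, g θ * Real.sin ((m:ℝ) * θ)))
      ((π / 2) * ∫ θ in (0:ℝ)..π, f θ * g θ) := by
  have hint : ∀ u : ℝ → ℝ, ContinuousOn u (Set.Icc 0 π) → IntervalIntegrable u volume 0 π :=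
    fun u hu => ContinuousOn.intervalIntegrable (by rwa [Set.uIcc_of_le Real.pi_pos.le])
  have h1 := parseval_sine (fun θ => f θ + g θ) (hf.add hg)
  have h2 := parseval_sine (fun θ => f θ - g θ) (hf.sub hg)
  have h3 := (h1.sub h2).mul_left (1 / 4)
  refine hasSum_congr_aux h3 ?_ ?_
  · intro m
    have hs : ∀ m : ℕ, ContinuousOn (fun θ : ℝ => Real.sin ((m:ℝ) * θ)) (Set.Icc 0 π) :=
      fun m => by fun_prop
    have a1 : ∫ θ in (0:ℝ)..π, (f θ + g θ) * Real.sin ((m:ℝ) * θ)
        = (∫ θ in (0:ℝ)..π, f θ * Real.sin ((m:ℝ) * θ))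
          + ∫ θ in (0:ℝ)..π, g θ * Real.sin ((m:ℝ) * θ) := by
      have i1 : IntervalIntegrable (fun θ => f θ * Real.sin ((m:ℝ) * θ)) volume 0 π :=
        hint _ (hf.mul (hs m))
      have i2 : IntervalIntegrable (fun θ => g θ * Real.sin ((m:ℝ) * θ)) volume 0 π :=
        hint _ (hg.mul (hs m))
      rw [← intervalIntegral.integral_add i1 i2]
      exact intervalIntegral.integral_congr fun θ _ => by simp only [add_mul]
    have a2 : ∫ θ in (0:ℝ)..π, (f θ - g θ) * Real.sin ((m:ℝ) * θ)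
        = (∫ θ in (0:ℝ)..π, f θ * Real.sin ((m:ℝ) * θ))
          - ∫ θ in (0:ℝ)..π, g θ * Real.sin ((m:ℝ) * θ) := by
      have i1 : IntervalIntegrable (fun θ => f θ * Real.sin ((m:ℝ) * θ)) volume 0 π :=
        hint _ (hf.mul (hs m))
      have i2 : IntervalIntegrable (fun θ => g θ * Real.sin ((m:ℝ) * θ)) volume 0 π :=
        hint _ (hg.mul (hs m))
      rw [← intervalIntegral.integral_sub i1 i2]
      exact intervalIntegral.integral_congr fun θ _ => by simp only [sub_mul]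
    rw [a1, a2]
    ring
  · have a3 : (∫ θ in (0:ℝ)..π, (f θ + g θ) ^ 2) - (∫ θ in (0:ℝ)..π, (f θ - g θ) ^ 2)
        = 4 * ∫ θ in (0:ℝ)..π, f θ * g θ := by
      have i1 : IntervalIntegrable (fun θ => (f θ + g θ) ^ 2) volume 0 π :=
        hint _ ((hf.add hg).pow 2)
      have i2 : IntervalIntegrable (fun θ => (f θ - g θ) ^ 2) volume 0 π :=
        hint _ ((hf.sub hg).pow 2)
      rw [← intervalIntegral.integral_sub i1 i2, ← intervalIntegral.integral_const_mul]
      exact intervalIntegral.integral_congr fun θ _ => by ring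
    rw [← mul_sub, a3]
    ring

end ErdosLag
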