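import Pool.Agent.W_MP_93ab53_an.KDefs
import Pool.Agent.W_MP_93ab53_an.Parseval
import Pool.Agent.W_MP_93ab53_an.Const

/-!
Task L of MP_93ab53_an: the constants for `ρ → 1` (file by helper85).
-/

namespace ErdosLag

open Real MeasureTheory intervalIntegral Finset Polynomial Filter Topology

namespace UC

/-- the radicand -/
lemma rad_eq (ρ θ : ℝ) : 1 - 2 * ρ * Real.cos (2 * θ) + ρ ^ 2 =
    (1 - ρ) ^ 2 + 4 * ρ * Real.sin θ ^ 2 := by
  rw [Real.cos_two_mul, Real.cos_sq']; ring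

lemma rad_pos {ρ : ℝ} (h0 : 0 < ρ) (h1 : ρ < 1) (θ : ℝ) :
    0 < 1 - 2 * ρ * Real.cos (2 * θ) + ρ ^ 2 := by
  rw [rad_eq]
  have : 0 < (1 - ρ) ^ 2 := by have : 0 < 1 - ρ := by linarith
                               positivity
  positivity

lemma amp_pos {ρ : ℝ} (h0 : 0 < ρ) (h1 : ρ < 1) (θ : ℝ) : 0 < amp ρ θ := by
  unfold amp
  exact Real.sqrt_pos.2 (Real.sqrt_pos.2 (rad_pos h0 h1 θ))

lemma amp_pow_four {ρ : ℝ} (h0 : 0 < ρ) (h1 : ρ < 1) (θ : ℝ) :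
    amp ρ θ ^ 4 = (1 - ρ) ^ 2 + 4 * ρ * Real.sin θ ^ 2 := by
  rw [← rad_eq]
  unfold amp
  have h := (rad_pos h0 h1 θ).le
  calc √(√(1 - 2 * ρ * Real.cos (2 * θ) + ρ ^ 2)) ^ 4
      = (√(√(1 - 2 * ρ * Real.cos (2 * θ) + ρ ^ 2)) ^ 2) ^ 2 := by ring
    _ = _ := by rw [Real.sq_sqrt (Real.sqrt_nonneg _), Real.sq_sqrt h]

lemma contDiff_amp {ρ : ℝ} (h0 : 0 < ρ) (h1 : ρ < 1) : ContDiff ℝ 2 (amp ρ) := by
  unfold amp
  have h2 : ContDiff ℝ 2 (fun θ : ℝ => 1 - 2 * ρ * Real.cos (2 * θ) + ρ ^ 2) := by fun_prop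
  have h3 := h2.sqrt (fun θ => (rad_pos h0 h1 θ).ne')
  exact h3.sqrt (fun θ => (Real.sqrt_pos.2 (rad_pos h0 h1 θ)).ne')

/-- the second function -/
noncomputable def g (ρ θ : ℝ) : ℝ := Real.sin θ / amp ρ θ

lemma contDiff_g {ρ : ℝ} (h0 : 0 < ρ) (h1 : ρ < 1) : ContDiff ℝ 2 (g ρ) := by
  unfold g
  exact Real.contDiff_sin.div (contDiff_amp h0 h1) (fun θ => (amp_pos h0 h1 θ).ne')

lemma amp_le {ρ : ℝ} (h0 : 0 < ρ) (h1 : ρ < 1) (θ : ℝ) : amp ρ θ ≤ 2 := by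
  have h := amp_pow_four h0 h1 θ
  have hs : Real.sin θ ^ 2 ≤ 1 := by
    have := Real.sin_sq_add_cos_sq θ; nlinarith [sq_nonneg (Real.cos θ)]
  have h4 : amp ρ θ ^ 4 ≤ 2 ^ 4 := by rw [h]; nlinarith
  exact le_of_pow_le_pow_left₀ (by norm_num) (by norm_num) h4

/-- integration by parts, `sin` coefficients -/
lemma mul_coeff_sin {f f' : ℝ → ℝ} (hf : ∀ θ, HasDerivAt f (f' θ) θ) (hf' : Continuous f') (j : ℕ) :
    (j : ℝ) * ∫ θ in (0:ℝ)..π, f θ * Real.sin (j * θ) =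
      (∫ θ in (0:ℝ)..π, f' θ * Real.cos (j * θ)) - (f π * Real.cos (j * π) - f 0) := by
  have hfc : Continuous f := continuous_iff_continuousAt.2 fun θ => (hf θ).continuousAt
  have hd : ∀ θ ∈ Set.uIcc (0:ℝ) π, HasDerivAt (fun θ => f θ * Real.cos (j * θ))
      (f' θ * Real.cos (j * θ) - j * (f θ * Real.sin (j * θ))) θ := by
    intro θ _
    have h1 : HasDerivAt (fun θ : ℝ => (j : ℝ) * θ) (j : ℝ) θ := by
      simpa using (hasDerivAt_id θ).const_mul (j : ℝ)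
    exact ((hf θ).mul h1.cos).congr_deriv (by ring)
  have hint : IntervalIntegrable (fun θ => f' θ * Real.cos (j * θ) - j * (f θ * Real.sin (j * θ)))
      volume 0 π := by
    apply Continuous.intervalIntegrable
    fun_prop
  have h3 := integral_eq_sub_of_hasDerivAt hd hint
  rw [intervalIntegral.integral_sub (by apply Continuous.intervalIntegrable; fun_prop)
    (by apply Continuous.intervalIntegrable; fun_prop),
    intervalIntegral.integral_const_mul] at h3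
  simp only [mul_zero, Real.cos_zero, mul_one] at h3
  linarith

lemma mul_coeff_cos {f f' : ℝ → ℝ} (hf : ∀ θ, HasDerivAt f (f' θ) θ) (hf' : Continuous f') (j : ℕ) :
    (j : ℝ) * ∫ θ in (0:ℝ)..π, f θ * Real.cos (j * θ) =
      - ∫ θ in (0:ℝ)..π, f' θ * Real.sin (j * θ) := by
  have hfc : Continuous f := continuous_iff_continuousAt.2 fun θ => (hf θ).continuousAt
  have hd : ∀ θ ∈ Set.uIcc (0:ℝ) π, HasDerivAt (fun θ => f θ * Real.sin (j * θ))
      (f' θ * Real.sin (j * θ) + j * (f θ * Real.cos (j * θ))) θ := by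
    intro θ _
    have h1 : HasDerivAt (fun θ : ℝ => (j : ℝ) * θ) (j : ℝ) θ := by
      simpa using (hasDerivAt_id θ).const_mul (j : ℝ)
    exact ((hf θ).mul h1.sin).congr_deriv (by ring)
  have hint : IntervalIntegrable (fun θ => f' θ * Real.sin (j * θ) + j * (f θ * Real.cos (j * θ)))
      volume 0 π := by
    apply Continuous.intervalIntegrable
    fun_prop
  have h3 := integral_eq_sub_of_hasDerivAt hd hint
  rw [intervalIntegral.integral_add (by apply Continuous.intervalIntegrable; fun_prop)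
    (by apply Continuous.intervalIntegrable; fun_prop),
    intervalIntegral.integral_const_mul] at h3
  simp only [mul_zero, Real.sin_zero, Real.sin_nat_mul_pi, sub_zero] at h3
  linarith

lemma bound_int {f : ℝ → ℝ} (hf : Continuous f) : ∃ C : ℝ, 0 ≤ C ∧ ∀ h : ℝ → ℝ, (∀ θ, |h θ| ≤ 1) →
    |∫ θ in (0:ℝ)..π, f θ * h θ| ≤ C := by
  obtain ⟨C, hC⟩ := (isCompact_Icc (a := (0:ℝ)) (b := π)).exists_bound_of_continuousOn hf.continuousOn
  have hC0 : 0 ≤ C := (norm_nonneg _).trans (hC 0 ⟨le_rfl, Real.pi_pos.le⟩)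
  refine ⟨C * π, by positivity, fun h hh => ?_⟩
  have := intervalIntegral.norm_integral_le_of_norm_le_const (a := (0:ℝ)) (b := π)
    (f := fun θ => f θ * h θ) (C := C) ?_
  · simpa [abs_of_pos Real.pi_pos] using this
  · intro θ hθ
    rw [Set.uIoc_of_le Real.pi_pos.le] at hθ
    rw [norm_mul]
    calc ‖f θ‖ * ‖h θ‖ ≤ C * 1 :=
          mul_le_mul (hC θ ⟨hθ.1.le, hθ.2⟩) (hh θ) (norm_nonneg _) hC0
      _ = C := mul_one C

lemma coeff_one {f : ℝ → ℝ} (hf : ContDiff ℝ 2 f) : ∃ C : ℝ, 0 ≤ C ∧ ∀ j : ℕ,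
    |(j : ℝ) * ∫ θ in (0:ℝ)..π, f θ * Real.sin (j * θ)| ≤ C := by
  have hd : ∀ θ, HasDerivAt f (deriv f θ) θ := fun θ =>
    (hf.differentiable (by norm_num) θ).hasDerivAt
  have hc : Continuous (deriv f) := hf.continuous_deriv (by norm_num)
  obtain ⟨C, hC0, hC⟩ := bound_int hc
  refine ⟨C + (|f π| + |f 0|), by positivity, fun j => ?_⟩
  rw [mul_coeff_sin hd hc]
  have h1 := hC (fun θ => Real.cos (j * θ)) (fun θ => Real.abs_cos_le_one _)
  have h2 : |f π * Real.cos (j * π) - f 0| ≤ |f π| + |f 0| := by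
    refine (abs_sub _ _).trans ?_
    rw [abs_mul]
    have := Real.abs_cos_le_one (j * π)
    nlinarith [abs_nonneg (f π)]
  exact (abs_sub _ _).trans (add_le_add h1 h2)

lemma coeff_two {f : ℝ → ℝ} (hf : ContDiff ℝ 2 f) (h0 : f 0 = 0) (h1 : f π = 0) :
    ∃ C : ℝ, 0 ≤ C ∧ ∀ j : ℕ,
    |(j : ℝ) ^ 2 * ∫ θ in (0:ℝ)..π, f θ * Real.sin (j * θ)| ≤ C := by
  have hd : ∀ θ, HasDerivAt f (deriv f θ) θ := fun θ =>
    (hf.differentiable (by norm_num) θ).hasDerivAt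
  have hc : Continuous (deriv f) := hf.continuous_deriv (by norm_num)
  have hf1 : ContDiff ℝ 1 (deriv f) := by
    have : ContDiff ℝ (1 + 1) f := by simpa [one_add_one_eq_two] using hf
    exact (contDiff_succ_iff_deriv.1 this).2.2
  have hd2 : ∀ θ, HasDerivAt (deriv f) (deriv (deriv f) θ) θ := fun θ =>
    (hf1.differentiable (by norm_num) θ).hasDerivAt
  have hc2 : Continuous (deriv (deriv f)) := hf1.continuous_deriv (by norm_num)
  obtain ⟨C, hC0, hC⟩ := bound_int hc2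
  refine ⟨C, hC0, fun j => ?_⟩
  have e : (j : ℝ) ^ 2 * ∫ θ in (0:ℝ)..π, f θ * Real.sin (j * θ) =
      - ∫ θ in (0:ℝ)..π, deriv (deriv f) θ * Real.sin (j * θ) := by
    rw [← mul_coeff_cos hd2 hc2 j, sq, mul_assoc, mul_coeff_sin hd hc, h0, h1]
    ring
  rw [e, abs_neg]
  exact hC (fun θ => Real.sin (j * θ)) (fun θ => Real.abs_sin_le_one _)

lemma summable_ab {ρ : ℝ} (h0 : 0 < ρ) (h1 : ρ < 1) :
    Summable (fun j : ℕ => |(j : ℝ) * alpha ρ j * beta ρ j|) := by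
  obtain ⟨C, hC0, hC⟩ := coeff_one (contDiff_amp h0 h1)
  obtain ⟨C', hC0', hC'⟩ := coeff_two (contDiff_g h0 h1) (by simp [g]) (by simp [g])
  have hs : Summable (fun j : ℕ => C * C' * (1 / (j : ℝ) ^ 2)) :=
    (Real.summable_one_div_nat_pow.2 (by norm_num)).mul_left _
  refine Summable.of_nonneg_of_le (fun j => abs_nonneg _) (fun j => ?_) hs
  rcases Nat.eq_zero_or_pos j with rfl | hj
  · simp
  have hj' : (0:ℝ) < j := by exact_mod_cast hj
  have e : |(j : ℝ) * alpha ρ j * beta ρ j| = |(j : ℝ) * alpha ρ j| * |(j : ℝ) ^ 2 * beta ρ j| *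
      (1 / (j : ℝ) ^ 2) := by
    rw [abs_mul, abs_mul ((j : ℝ) ^ 2), abs_of_pos (show (0:ℝ) < (j : ℝ) ^ 2 by positivity)]
    field_simp
  rw [e]
  have ha : |(j : ℝ) * alpha ρ j| ≤ C := hC j
  have hb : |(j : ℝ) ^ 2 * beta ρ j| ≤ C' := hC' j
  gcongr


/-! ### The Poisson kernel and the double integral -/

lemma den_pos {r : ℝ} (h0 : 0 ≤ r) (h1 : r < 1) (t : ℝ) : 0 < 1 - 2 * r * Real.cos t + r ^ 2 := by
  have hc := Real.cos_le_one t
  have : 0 < (1 - r) ^ 2 := by have : 0 < 1 - r := by linarith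
                               positivity
  nlinarith [mul_nonneg h0 (sub_nonneg.2 hc)]

lemma hasSum_cos {r : ℝ} (h0 : 0 ≤ r) (h1 : r < 1) (t : ℝ) :
    HasSum (fun j : ℕ => r ^ j * Real.cos (j * t)) ((1 + P r t) / 2) := by
  have hz : ‖(r : ℂ) * Complex.exp (t * Complex.I)‖ < 1 := by
    rw [norm_mul, Complex.norm_exp_ofReal_mul_I, mul_one, Complex.norm_real, Real.norm_eq_abs,
      abs_of_nonneg h0]
    exact h1
  have h := (hasSum_geometric_of_norm_lt_one hz)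
  have h2 := Complex.hasSum_re h
  have e1 : ∀ j : ℕ, (((r : ℂ) * Complex.exp (t * Complex.I)) ^ j).re = r ^ j * Real.cos (j * t) := by
    intro j
    rw [mul_pow, ← Complex.exp_nat_mul]
    have : (j : ℂ) * (t * Complex.I) = ((j * t : ℝ) : ℂ) * Complex.I := by push_cast; ring
    rw [this, ← Complex.ofReal_pow, Complex.re_ofReal_mul, Complex.exp_ofReal_mul_I_re]
  have e2 : ((1 - (r : ℂ) * Complex.exp (t * Complex.I))⁻¹).re = (1 + P r t) / 2 := by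
    have hre : (1 - (r : ℂ) * Complex.exp (t * Complex.I)).re = 1 - r * Real.cos t := by
      rw [Complex.sub_re, Complex.re_ofReal_mul, Complex.exp_ofReal_mul_I_re, Complex.one_re]
    have him : (1 - (r : ℂ) * Complex.exp (t * Complex.I)).im = - (r * Real.sin t) := by
      rw [Complex.sub_im, Complex.im_ofReal_mul, Complex.exp_ofReal_mul_I_im, Complex.one_im]
      ring
    have hd := den_pos h0 h1 t
    have hn : Complex.normSq (1 - (r : ℂ) * Complex.exp (t * Complex.I)) =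
        1 - 2 * r * Real.cos t + r ^ 2 := by
      rw [Complex.normSq_apply, hre, him]
      have := Real.sin_sq_add_cos_sq t
      nlinarith
    rw [Complex.inv_re, hre, hn]
    unfold P
    rw [div_eq_div_iff hd.ne' two_ne_zero, add_mul, div_mul_cancel₀ _ hd.ne']
    ring
  simp only [e1] at h2
  rw [e2] at h2
  exact h2

/-- the kernel -/
noncomputable def Kr (r : ℝ) (p : ℝ × ℝ) : ℝ := P r (p.1 - p.2) - P r (p.1 + p.2)

lemma hasSum_K {r : ℝ} (h0 : 0 ≤ r) (h1 : r < 1) (p : ℝ × ℝ) :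
    HasSum (fun j : ℕ => r ^ j * (Real.sin (j * p.1) * Real.sin (j * p.2))) (Kr r p / 4) := by
  have h := ((hasSum_cos h0 h1 (p.1 - p.2)).sub (hasSum_cos h0 h1 (p.1 + p.2))).mul_left (1 / 2)
  have e3 : (fun j : ℕ => r ^ j * (Real.sin (j * p.1) * Real.sin (j * p.2))) =
      fun j : ℕ => 1 / 2 * (r ^ j * Real.cos (j * (p.1 - p.2)) - r ^ j * Real.cos (j * (p.1 + p.2))) := by
    funext j
    have e1 : (j : ℝ) * (p.1 - p.2) = j * p.1 - j * p.2 := by ring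
    have e2 : (j : ℝ) * (p.1 + p.2) = j * p.1 + j * p.2 := by ring
    rw [e1, e2, Real.cos_sub, Real.cos_add]
    ring
  have e4 : Kr r p / 4 = 1 / 2 * ((1 + P r (p.1 - p.2)) / 2 - (1 + P r (p.1 + p.2)) / 2) := by
    unfold Kr
    ring
  rw [e3, e4]
  exact h

lemma Kr_eq {r : ℝ} (h0 : 0 ≤ r) (h1 : r < 1) (p : ℝ × ℝ) :
    Kr r p = (1 - r ^ 2) * (4 * r * Real.sin p.1 * Real.sin p.2) /
      ((1 - 2 * r * Real.cos (p.1 - p.2) + r ^ 2) * (1 - 2 * r * Real.cos (p.1 + p.2) + r ^ 2)) := by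
  unfold Kr P
  have hd := den_pos h0 h1 (p.1 - p.2)
  have hd' := den_pos h0 h1 (p.1 + p.2)
  rw [div_sub_div _ _ hd.ne' hd'.ne']
  congr 1
  rw [Real.cos_sub, Real.cos_add]
  ring

lemma den_mul {r : ℝ} (p : ℝ × ℝ) :
    (1 - 2 * r * Real.cos (p.1 - p.2) + r ^ 2) * (1 - 2 * r * Real.cos (p.1 + p.2) + r ^ 2)
      = (1 - r ^ 2) ^ 2 - 4 * r * (1 - r) ^ 2 * Real.cos p.1 * Real.cos p.2 +
        4 * r ^ 2 * (Real.cos p.1 - Real.cos p.2) ^ 2 := by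
  rw [Real.cos_sub, Real.cos_add]
  have h1 := Real.sin_sq p.1
  have h2 := Real.sin_sq p.2
  have : (Real.sin p.1 * Real.sin p.2) ^ 2 = (1 - Real.cos p.1 ^ 2) * (1 - Real.cos p.2 ^ 2) := by
    rw [mul_pow, h1, h2]
  linear_combination (-4 * r ^ 2) * this

lemma den_mul_ge {r : ℝ} (h0 : 0 ≤ r) (p : ℝ × ℝ) :
    4 * r ^ 2 * (Real.cos p.1 - Real.cos p.2) ^ 2 ≤
    (1 - 2 * r * Real.cos (p.1 - p.2) + r ^ 2) * (1 - 2 * r * Real.cos (p.1 + p.2) + r ^ 2) := by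
  rw [den_mul]
  have h : Real.cos p.1 * Real.cos p.2 ≤ 1 := by
    nlinarith [Real.cos_sq_le_one p.1, Real.cos_sq_le_one p.2, sq_nonneg (Real.cos p.1 - Real.cos p.2)]
  have h2 : 4 * r * (1 - r) ^ 2 * Real.cos p.1 * Real.cos p.2 ≤ 4 * r * (1 - r) ^ 2 := by
    have : 0 ≤ 4 * r * (1 - r) ^ 2 := by positivity
    nlinarith
  nlinarith [sq_nonneg ((1 - r) ^ 2)]

/-- Lebesgue measure on `(0, π)` -/
noncomputable def μ : Measure ℝ := volume.restrict (Set.Ioo (0:ℝ) π)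

instance : IsFiniteMeasure μ := by unfold μ; infer_instance

lemma int_mu (f : ℝ → ℝ) : ∫ θ in (0:ℝ)..π, f θ = ∫ θ, f θ ∂μ := by
  unfold μ
  rw [intervalIntegral.integral_of_le Real.pi_pos.le, integral_Ioc_eq_integral_Ioo]

lemma ae_mem : ∀ᵐ p ∂(μ.prod μ), p.1 ∈ Set.Ioo (0:ℝ) π ∧ p.2 ∈ Set.Ioo (0:ℝ) π := by
  unfold μ
  rw [Measure.prod_restrict]
  filter_upwards [ae_restrict_mem (measurableSet_Ioo.prod measurableSet_Ioo)] with p hp
  exact hp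

/-- the integrand -/
noncomputable def F (ρ : ℝ) (p : ℝ × ℝ) : ℝ :=
  amp ρ p.1 * g ρ p.2 - √(Real.sin p.1) * √(Real.sin p.2)

lemma continuous_F {ρ : ℝ} (h0 : 0 < ρ) (h1 : ρ < 1) : Continuous (F ρ) := by
  have ha := (contDiff_amp h0 h1).continuous
  have hg := (contDiff_g h0 h1).continuous
  unfold F
  fun_prop

/-- a continuous function is a.e. bounded -/
lemma ae_bound {f : ℝ × ℝ → ℝ} (hf : Continuous f) : ∃ C : ℝ, 0 ≤ C ∧ ∀ᵐ p ∂(μ.prod μ), ‖f p‖ ≤ C := by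
  obtain ⟨C, hC⟩ := ((isCompact_Icc (a := (0:ℝ)) (b := π)).prod
    (isCompact_Icc (a := (0:ℝ)) (b := π))).exists_bound_of_continuousOn hf.continuousOn
  refine ⟨C, (norm_nonneg _).trans (hC (0, 0) ⟨⟨le_rfl, Real.pi_pos.le⟩, ⟨le_rfl, Real.pi_pos.le⟩⟩), ?_⟩
  filter_upwards [ae_mem] with p hp
  exact hC p ⟨⟨hp.1.1.le, hp.1.2.le⟩, ⟨hp.2.1.le, hp.2.2.le⟩⟩

lemma integrable_cont {f : ℝ × ℝ → ℝ} (hf : Continuous f) : Integrable f (μ.prod μ) := by
  obtain ⟨C, _, hC⟩ := ae_bound hf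
  exact Integrable.of_bound hf.aestronglyMeasurable C hC

lemma int_F {ρ : ℝ} (h0 : 0 < ρ) (h1 : ρ < 1) (j : ℕ) :
    ∫ p, F ρ p * (Real.sin (j * p.1) * Real.sin (j * p.2)) ∂(μ.prod μ) =
      alpha ρ j * beta ρ j - b j ^ 2 := by
  have ha := (contDiff_amp h0 h1).continuous
  have hg := (contDiff_g h0 h1).continuous
  have e : ∀ p : ℝ × ℝ, F ρ p * (Real.sin (j * p.1) * Real.sin (j * p.2)) =
      (amp ρ p.1 * Real.sin (j * p.1)) * (g ρ p.2 * Real.sin (j * p.2)) -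
      (√(Real.sin p.1) * Real.sin (j * p.1)) * (√(Real.sin p.2) * Real.sin (j * p.2)) := by
    intro p; unfold F; ring
  simp only [e]
  rw [integral_sub (integrable_cont (by fun_prop)) (integrable_cont (by fun_prop)),
    integral_prod_mul (fun θ => amp ρ θ * Real.sin (j * θ)) (fun θ => g ρ θ * Real.sin (j * θ)),
    integral_prod_mul (fun θ => √(Real.sin θ) * Real.sin (j * θ))
      (fun θ => √(Real.sin θ) * Real.sin (j * θ)),
    ← int_mu, ← int_mu, ← int_mu, sq]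
  rfl

lemma continuous_Kr {r : ℝ} (h0 : 0 ≤ r) (h1 : r < 1) : Continuous (Kr r) := by
  unfold Kr P
  refine Continuous.sub ?_ ?_
  · exact Continuous.div (by fun_prop) (by fun_prop) fun p => (den_pos h0 h1 _).ne'
  · exact Continuous.div (by fun_prop) (by fun_prop) fun p => (den_pos h0 h1 _).ne'

lemma hasSum_F {ρ : ℝ} (h0 : 0 < ρ) (h1 : ρ < 1) {r : ℝ} (hr0 : 0 ≤ r) (hr1 : r < 1) :
    HasSum (fun j : ℕ => r ^ j * (alpha ρ j * beta ρ j - b j ^ 2))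
      (∫ p, F ρ p * (Kr r p / 4) ∂(μ.prod μ)) := by
  have hF := continuous_F h0 h1
  obtain ⟨C, hC0, hC⟩ := ae_bound hF
  have hs : Summable (fun j : ℕ => C * r ^ j) := (summable_geometric_of_lt_one hr0 hr1).mul_left C
  have h := MeasureTheory.hasSum_integral_of_dominated_convergence (μ := μ.prod μ)
    (F := fun (j : ℕ) (p : ℝ × ℝ) => F ρ p * (r ^ j * (Real.sin (j * p.1) * Real.sin (j * p.2))))
    (f := fun p => F ρ p * (Kr r p / 4)) (bound := fun j _ => C * r ^ j)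
    (fun j => Continuous.aestronglyMeasurable (by fun_prop)) ?_ ?_ ?_ ?_
  · have e : (fun j : ℕ => r ^ j * (alpha ρ j * beta ρ j - b j ^ 2)) = fun j : ℕ =>
        ∫ p, F ρ p * (r ^ j * (Real.sin (j * p.1) * Real.sin (j * p.2))) ∂(μ.prod μ) := by
      funext j
      rw [← int_F h0 h1, ← MeasureTheory.integral_const_mul]
      congr 1
      funext p
      ring
    rw [e]
    exact h
  · intro j
    filter_upwards [hC] with p hp
    rw [norm_mul]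
    refine mul_le_mul hp ?_ (norm_nonneg _) hC0
    rw [norm_mul, norm_mul, Real.norm_eq_abs, abs_of_nonneg (pow_nonneg hr0 j)]
    have h2 : ‖Real.sin (j * p.1)‖ * ‖Real.sin (j * p.2)‖ ≤ 1 * 1 :=
      mul_le_mul (Real.abs_sin_le_one _) (Real.abs_sin_le_one _) (norm_nonneg _) zero_le_one
    calc r ^ j * (‖Real.sin (j * p.1)‖ * ‖Real.sin (j * p.2)‖) ≤ r ^ j * (1 * 1) := by gcongr
      _ = r ^ j := by ring
  · exact Filter.Eventually.of_forall fun p => hs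
  · exact integrable_const _
  · exact Filter.Eventually.of_forall fun p => (hasSum_K hr0 hr1 p).mul_left _

/-- the symmetrised integrand -/
noncomputable def Q (ρ : ℝ) (p : ℝ × ℝ) : ℝ :=
  (amp ρ p.1 * √(Real.sin p.2) - amp ρ p.2 * √(Real.sin p.1)) ^ 2 / (amp ρ p.1 * amp ρ p.2)

lemma Q_nonneg {ρ : ℝ} (h0 : 0 < ρ) (h1 : ρ < 1) (p : ℝ × ℝ) : 0 ≤ Q ρ p := by
  have := amp_pos h0 h1 p.1
  have := amp_pos h0 h1 p.2
  unfold Q; positivity

lemma continuous_Q {ρ : ℝ} (h0 : 0 < ρ) (h1 : ρ < 1) : Continuous (Q ρ) := by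
  have ha := (contDiff_amp h0 h1).continuous
  unfold Q
  exact Continuous.div (by fun_prop) (by fun_prop) fun p =>
    (mul_pos (amp_pos h0 h1 p.1) (amp_pos h0 h1 p.2)).ne'

lemma F_add_swap {ρ : ℝ} (h0 : 0 < ρ) (h1 : ρ < 1) {p : ℝ × ℝ} (hp1 : p.1 ∈ Set.Ioo (0:ℝ) π)
    (hp2 : p.2 ∈ Set.Ioo (0:ℝ) π) : F ρ p + F ρ p.swap = Q ρ p := by
  have ha := amp_pos h0 h1 p.1
  have hb := amp_pos h0 h1 p.2
  have hs1 := Real.sq_sqrt (Real.sin_nonneg_of_nonneg_of_le_pi hp1.1.le hp1.2.le)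
  have hs2 := Real.sq_sqrt (Real.sin_nonneg_of_nonneg_of_le_pi hp2.1.le hp2.2.le)
  unfold F Q g
  simp only [Prod.fst_swap, Prod.snd_swap]
  field_simp
  rw [sub_sq, mul_pow, mul_pow, hs1, hs2]
  ring

lemma Kr_swap (r : ℝ) (p : ℝ × ℝ) : Kr r p.swap = Kr r p := by
  unfold Kr P
  simp only [Prod.fst_swap, Prod.snd_swap]
  rw [add_comm p.2 p.1, show p.2 - p.1 = -(p.1 - p.2) by ring, Real.cos_neg]

lemma int_FK {ρ : ℝ} (h0 : 0 < ρ) (h1 : ρ < 1) {r : ℝ} (hr0 : 0 ≤ r) (hr1 : r < 1) :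
    ∫ p, F ρ p * (Kr r p / 4) ∂(μ.prod μ) = (1 / 8) * ∫ p, Q ρ p * Kr r p ∂(μ.prod μ) := by
  have hF := continuous_F h0 h1
  have hK := continuous_Kr hr0 hr1
  have hsw : ∫ p, F ρ p * (Kr r p / 4) ∂(μ.prod μ) = ∫ p, F ρ p.swap * (Kr r p / 4) ∂(μ.prod μ) := by
    rw [← integral_prod_swap (fun p => F ρ p * (Kr r p / 4))]
    simp only [Kr_swap]
  have h2 : ∫ p, Q ρ p * Kr r p ∂(μ.prod μ) =
      4 * ((∫ p, F ρ p * (Kr r p / 4) ∂(μ.prod μ)) + ∫ p, F ρ p.swap * (Kr r p / 4) ∂(μ.prod μ)) := by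
    have i1 : Integrable (fun p => F ρ p * (Kr r p / 4)) (μ.prod μ) :=
      integrable_cont (by fun_prop)
    have i2 : Integrable (fun p : ℝ × ℝ => F ρ p.swap * (Kr r p / 4)) (μ.prod μ) :=
      integrable_cont (by fun_prop)
    rw [← integral_add i1 i2, ← MeasureTheory.integral_const_mul]
    refine integral_congr_ae ?_
    filter_upwards [ae_mem] with p hp
    rw [← F_add_swap h0 h1 hp.1 hp.2]
    ring
  rw [h2, ← hsw]
  ring

/-- the limit integrand -/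
noncomputable def W (ρ : ℝ) (p : ℝ × ℝ) : ℝ :=
  Q ρ p * (Real.sin p.1 * Real.sin p.2 / (Real.cos p.1 - Real.cos p.2) ^ 2)

lemma cos_inj {x y : ℝ} (hx : x ∈ Set.Ioo (0:ℝ) π) (hy : y ∈ Set.Ioo (0:ℝ) π)
    (h : Real.cos x = Real.cos y) : x = y :=
  Real.injOn_cos ⟨hx.1.le, hx.2.le⟩ ⟨hy.1.le, hy.2.le⟩ h

lemma QK_le {ρ : ℝ} (h0 : 0 < ρ) (h1 : ρ < 1) {r : ℝ} (hr0 : 0 < r) (hr1 : r < 1) {p : ℝ × ℝ}
    (hp1 : p.1 ∈ Set.Ioo (0:ℝ) π) (hp2 : p.2 ∈ Set.Ioo (0:ℝ) π) :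
    Q ρ p * Kr r p ≤ ((1 - r ^ 2) / r) * W ρ p := by
  have hs1 := Real.sin_pos_of_pos_of_lt_pi hp1.1 hp1.2
  have hs2 := Real.sin_pos_of_pos_of_lt_pi hp2.1 hp2.2
  by_cases hc : Real.cos p.1 = Real.cos p.2
  · have he := cos_inj hp1 hp2 hc
    have hQ : Q ρ p = 0 := by unfold Q; rw [he]; simp
    simp [W, hQ]
  · have hQ := Q_nonneg h0 h1 p
    have hcc : 0 < (Real.cos p.1 - Real.cos p.2) ^ 2 := by
      have : Real.cos p.1 - Real.cos p.2 ≠ 0 := sub_ne_zero.2 hc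
      positivity
    have hr2 : 0 < 1 - r ^ 2 := by nlinarith
    have hK : Kr r p ≤ ((1 - r ^ 2) / r) *
        (Real.sin p.1 * Real.sin p.2 / (Real.cos p.1 - Real.cos p.2) ^ 2) := by
      rw [Kr_eq hr0.le hr1]
      have hge := den_mul_ge hr0.le p
      have h4 : 0 < 4 * r ^ 2 * (Real.cos p.1 - Real.cos p.2) ^ 2 := by positivity
      calc _ ≤ (1 - r ^ 2) * (4 * r * Real.sin p.1 * Real.sin p.2) /
            (4 * r ^ 2 * (Real.cos p.1 - Real.cos p.2) ^ 2) := by gcongr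
        _ = _ := by field_simp
    calc Q ρ p * Kr r p ≤ Q ρ p * (((1 - r ^ 2) / r) *
        (Real.sin p.1 * Real.sin p.2 / (Real.cos p.1 - Real.cos p.2) ^ 2)) := by gcongr
      _ = _ := by unfold W; ring

lemma W_nonneg {ρ : ℝ} (h0 : 0 < ρ) (h1 : ρ < 1) {p : ℝ × ℝ}
    (hp1 : p.1 ∈ Set.Ioo (0:ℝ) π) (hp2 : p.2 ∈ Set.Ioo (0:ℝ) π) : 0 ≤ W ρ p := by
  have hs1 := Real.sin_pos_of_pos_of_lt_pi hp1.1 hp1.2
  have hs2 := Real.sin_pos_of_pos_of_lt_pi hp2.1 hp2.2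
  have hQ := Q_nonneg h0 h1 p
  unfold W
  positivity

/-- the elementary inequality behind the dominating function -/
lemma Q_le_aux {a a' p q : ℝ} (ha : 0 < a) (ha' : 0 < a') (_hp : 0 < p) (_hq : 0 < q)
    (h1 : a ≤ a') (h2 : a' * p ^ 2 ≤ a * q ^ 2) :
    (a * q - a' * p) ^ 2 / (a * a') ≤ (q - p) ^ 2 := by
  rw [div_le_iff₀ (by positivity)]
  nlinarith [mul_nonneg (sub_nonneg.2 h1) (sub_nonneg.2 h2)]

lemma amp_mono {ρ : ℝ} (h0 : 0 < ρ) (h1 : ρ < 1) {x y : ℝ} (hx : 0 < Real.sin x)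
    (hxy : Real.sin x ≤ Real.sin y) :
    amp ρ x ≤ amp ρ y ∧ amp ρ y * Real.sin x ≤ amp ρ x * Real.sin y := by
  have e1 := amp_pow_four h0 h1 x
  have e2 := amp_pow_four h0 h1 y
  have p1 := amp_pos h0 h1 x
  have p2 := amp_pos h0 h1 y
  have hsq : Real.sin x ^ 2 ≤ Real.sin y ^ 2 := by gcongr
  constructor
  · refine le_of_pow_le_pow_left₀ (n := 4) (by norm_num) p2.le ?_
    rw [e1, e2]
    gcongr
  · have hy : 0 < Real.sin y := hx.trans_le hxy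
    refine le_of_pow_le_pow_left₀ (n := 4) (by norm_num) (by positivity) ?_
    rw [mul_pow, mul_pow, e1, e2]
    have h3 : Real.sin x ^ 4 ≤ Real.sin y ^ 4 := by gcongr
    have h4 : 0 ≤ 4 * ρ * (Real.sin x ^ 2 * Real.sin y ^ 2) := by positivity
    nlinarith [mul_nonneg (sq_nonneg (1 - ρ)) (sub_nonneg.2 h3), mul_nonneg h4 (sub_nonneg.2 hsq)]

lemma Q_le {ρ : ℝ} (h0 : 0 < ρ) (h1 : ρ < 1) {p : ℝ × ℝ}
    (hp1 : p.1 ∈ Set.Ioo (0:ℝ) π) (hp2 : p.2 ∈ Set.Ioo (0:ℝ) π) :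
    Q ρ p ≤ (√(Real.sin p.2) - √(Real.sin p.1)) ^ 2 := by
  have hs1 := Real.sin_pos_of_pos_of_lt_pi hp1.1 hp1.2
  have hs2 := Real.sin_pos_of_pos_of_lt_pi hp2.1 hp2.2
  have q1 := Real.sqrt_pos.2 hs1
  have q2 := Real.sqrt_pos.2 hs2
  unfold Q
  rcases le_total (Real.sin p.1) (Real.sin p.2) with h | h
  · obtain ⟨m1, m2⟩ := amp_mono h0 h1 hs1 h
    exact Q_le_aux (amp_pos h0 h1 _) (amp_pos h0 h1 _) q1 q2 m1
      (by rw [Real.sq_sqrt hs1.le, Real.sq_sqrt hs2.le]; exact m2)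
  · obtain ⟨m1, m2⟩ := amp_mono h0 h1 hs2 h
    have := Q_le_aux (amp_pos h0 h1 p.2) (amp_pos h0 h1 p.1) q2 q1 m1
      (by rw [Real.sq_sqrt hs1.le, Real.sq_sqrt hs2.le]; exact m2)
    calc _ = (amp ρ p.2 * √(Real.sin p.1) - amp ρ p.1 * √(Real.sin p.2)) ^ 2 /
        (amp ρ p.2 * amp ρ p.1) := by
          rw [mul_comm (amp ρ p.2) (amp ρ p.1)]; congr 1; ring
      _ ≤ _ := this
      _ = _ := by ring

lemma elem_aux {p q x y : ℝ} (hp : 0 < p) (hq : 0 < q) (hx : x ^ 2 = 1 - p ^ 4)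
    (hy : y ^ 2 = 1 - q ^ 4) : 4 * (p * q) ^ 3 * (q - p) ^ 2 ≤ (x - y) ^ 2 := by
  have h1 : (x - y) ^ 2 * (x + y) ^ 2 = (q - p) ^ 2 * ((q + p) ^ 2 * (p ^ 2 + q ^ 2) ^ 2) := by
    have : (x - y) * (x + y) = (q - p) * (q + p) * (p ^ 2 + q ^ 2) := by
      linear_combination hx - hy
    calc (x - y) ^ 2 * (x + y) ^ 2 = ((x - y) * (x + y)) ^ 2 := by ring
      _ = _ := by rw [this]; ring
  have h2 : (x + y) ^ 2 ≤ 4 := by
    have := pow_pos hp 4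
    have := pow_pos hq 4
    nlinarith [sq_nonneg (x - y)]
  have h3 : 4 * (p * q) ≤ (q + p) ^ 2 := by nlinarith [sq_nonneg (p - q)]
  have h4 : 4 * (p * q) ^ 2 ≤ (p ^ 2 + q ^ 2) ^ 2 := by nlinarith [sq_nonneg (p ^ 2 - q ^ 2)]
  have h5 : 4 * (p * q) * (4 * (p * q) ^ 2) ≤ (q + p) ^ 2 * (p ^ 2 + q ^ 2) ^ 2 := by
    gcongr
  have h6 : (q - p) ^ 2 * (4 * (p * q) * (4 * (p * q) ^ 2)) ≤ (x - y) ^ 2 * 4 := by
    calc _ ≤ (q - p) ^ 2 * ((q + p) ^ 2 * (p ^ 2 + q ^ 2) ^ 2) := by gcongr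
      _ = (x - y) ^ 2 * (x + y) ^ 2 := h1.symm
      _ ≤ _ := by gcongr
  nlinarith

lemma W_le {ρ : ℝ} (h0 : 0 < ρ) (h1 : ρ < 1) {p : ℝ × ℝ}
    (hp1 : p.1 ∈ Set.Ioo (0:ℝ) π) (hp2 : p.2 ∈ Set.Ioo (0:ℝ) π) :
    W ρ p ≤ (√(Real.sin p.1))⁻¹ * (√(Real.sin p.2))⁻¹ := by
  have hs1 := Real.sin_pos_of_pos_of_lt_pi hp1.1 hp1.2
  have hs2 := Real.sin_pos_of_pos_of_lt_pi hp2.1 hp2.2
  have q1 := Real.sqrt_pos.2 hs1
  have q2 := Real.sqrt_pos.2 hs2
  by_cases hc : Real.cos p.1 = Real.cos p.2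
  · have he := cos_inj hp1 hp2 hc
    have hQ : Q ρ p = 0 := by unfold Q; rw [he]; simp
    simp only [W, hQ, zero_mul]
    positivity
  · have hcc : 0 < (Real.cos p.1 - Real.cos p.2) ^ 2 := by
      have : Real.cos p.1 - Real.cos p.2 ≠ 0 := sub_ne_zero.2 hc
      positivity
    have hQ := Q_le h0 h1 hp1 hp2
    have e1 := Real.sq_sqrt hs1.le
    have e2 := Real.sq_sqrt hs2.le
    have hx : Real.cos p.1 ^ 2 = 1 - √(Real.sin p.1) ^ 4 := by
      have : √(Real.sin p.1) ^ 4 = Real.sin p.1 ^ 2 := by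
        rw [show √(Real.sin p.1) ^ 4 = (√(Real.sin p.1) ^ 2) ^ 2 by ring, e1]
      rw [this, Real.cos_sq']
    have hy : Real.cos p.2 ^ 2 = 1 - √(Real.sin p.2) ^ 4 := by
      have : √(Real.sin p.2) ^ 4 = Real.sin p.2 ^ 2 := by
        rw [show √(Real.sin p.2) ^ 4 = (√(Real.sin p.2) ^ 2) ^ 2 by ring, e2]
      rw [this, Real.cos_sq']
    have hel := elem_aux q1 q2 hx hy
    unfold W
    rw [← e1, ← e2] 
    simp only [Real.sqrt_sq q1.le, Real.sqrt_sq q2.le]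
    rw [← mul_div_assoc, div_le_iff₀ hcc, ← mul_inv, mul_comm (_)⁻¹, ← div_eq_mul_inv,
      le_div_iff₀ (by positivity)]
    have hpq : 0 < √(Real.sin p.1) * √(Real.sin p.2) := by positivity
    calc Q ρ p * (√(Real.sin p.1) ^ 2 * √(Real.sin p.2) ^ 2) * (√(Real.sin p.1) * √(Real.sin p.2))
        = Q ρ p * (√(Real.sin p.1) * √(Real.sin p.2)) ^ 3 := by ring
      _ ≤ (√(Real.sin p.2) - √(Real.sin p.1)) ^ 2 * (√(Real.sin p.1) * √(Real.sin p.2)) ^ 3 := by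
          gcongr
      _ ≤ 4 * (√(Real.sin p.1) * √(Real.sin p.2)) ^ 3 * (√(Real.sin p.2) - √(Real.sin p.1)) ^ 2 := by
          have : 0 ≤ (√(Real.sin p.2) - √(Real.sin p.1)) ^ 2 *
            (√(Real.sin p.1) * √(Real.sin p.2)) ^ 3 := by positivity
          nlinarith
      _ ≤ _ := hel



/-! ### Integrability of the dominating function -/

lemma integrable_inv_sqrt_sin : Integrable (fun θ => (√(Real.sin θ))⁻¹) μ := by
  have h1 : IntegrableOn (fun x : ℝ => x ^ (-(1/2) : ℝ)) (Set.Ioo 0 π) volume :=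
    (intervalIntegrable_iff_integrableOn_Ioo_of_le Real.pi_pos.le).1
      (intervalIntegral.intervalIntegrable_rpow' (by norm_num))
  have h2 : IntegrableOn (fun x : ℝ => (π - x) ^ (-(1/2) : ℝ)) (Set.Ioo 0 π) volume := by
    have := (intervalIntegral.intervalIntegrable_rpow' (a := π) (b := 0)
      (r := (-(1/2) : ℝ)) (by norm_num)).comp_sub_left π
    simp only [sub_self, sub_zero] at this
    exact (intervalIntegrable_iff_integrableOn_Ioo_of_le Real.pi_pos.le).1 this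
  have h3 : Integrable (fun x : ℝ => (√(2 / π))⁻¹ * (x ^ (-(1/2) : ℝ) + (π - x) ^ (-(1/2) : ℝ))) μ :=
    (Integrable.add h1 h2).const_mul _
  refine h3.mono' (by fun_prop) ?_
  unfold μ
  filter_upwards [ae_restrict_mem measurableSet_Ioo] with x hx
  have hx0 : 0 < x := hx.1
  have hx1 : 0 < π - x := by linarith [hx.2]
  have e : ∀ y : ℝ, 0 < y → y ^ (-(1/2) : ℝ) = (√y)⁻¹ := by
    intro y hy
    rw [Real.rpow_neg hy.le, Real.sqrt_eq_rpow]
  rw [e x hx0, e _ hx1]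
  have hpi := Real.pi_pos
  have hs := Real.sin_pos_of_pos_of_lt_pi hx.1 hx.2
  have aux : ∀ y : ℝ, 0 < y → 2 / π * y ≤ Real.sin x → (√(Real.sin x))⁻¹ ≤ (√(2/π))⁻¹ * (√y)⁻¹ := by
    intro y hy hxy
    rw [← mul_inv, ← Real.sqrt_mul (by positivity)]
    have : 0 < √(2 / π * y) := Real.sqrt_pos.2 (by positivity)
    gcongr
  rw [Real.norm_eq_abs, abs_of_nonneg (by positivity), mul_add]
  rcases le_total x (π / 2) with h | h
  · have := aux x hx0 (Real.mul_le_sin hx0.le h)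
    have h' : 0 ≤ (√(2/π))⁻¹ * (√(π - x))⁻¹ := by positivity
    linarith
  · have := aux (π - x) hx1 (by
      have := Real.mul_le_sin hx1.le (by linarith)
      rwa [Real.sin_pi_sub] at this)
    have h' : 0 ≤ (√(2/π))⁻¹ * (√x)⁻¹ := by positivity
    linarith

lemma integrable_dom : Integrable
    (fun p : ℝ × ℝ => (√(Real.sin p.1))⁻¹ * (√(Real.sin p.2))⁻¹) (μ.prod μ) :=
  integrable_inv_sqrt_sin.mul_prod integrable_inv_sqrt_sin

lemma meas_W {ρ : ℝ} (h0 : 0 < ρ) (h1 : ρ < 1) : AEStronglyMeasurable (W ρ) (μ.prod μ) := by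
  have hQ := (continuous_Q h0 h1).measurable
  have : Measurable (W ρ) := by
    unfold W
    fun_prop
  exact this.aestronglyMeasurable

lemma W_bound {ρ : ℝ} (h0 : 0 < ρ) (h1 : ρ < 1) : ∀ᵐ p ∂(μ.prod μ), ‖W ρ p‖ ≤
    (√(Real.sin p.1))⁻¹ * (√(Real.sin p.2))⁻¹ := by
  filter_upwards [ae_mem] with p hp
  rw [Real.norm_eq_abs, abs_of_nonneg (W_nonneg h0 h1 hp.1 hp.2)]
  exact W_le h0 h1 hp.1 hp.2

lemma integrable_W {ρ : ℝ} (h0 : 0 < ρ) (h1 : ρ < 1) : Integrable (W ρ) (μ.prod μ) :=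
  integrable_dom.mono' (meas_W h0 h1) (W_bound h0 h1)

lemma continuousAt_amp_one {x : ℝ} : Tendsto (fun ρ => amp ρ x) (𝓝[<] 1) (𝓝 (amp 1 x)) := by
  have : Continuous (fun ρ => amp ρ x) := by
    unfold amp
    fun_prop
  exact (this.tendsto 1).mono_left nhdsWithin_le_nhds

lemma amp_one {x : ℝ} (hx : 0 < Real.sin x) : amp 1 x = √2 * √(Real.sin x) := by
  unfold amp
  rw [rad_eq, ← Real.sqrt_mul (by norm_num)]
  congr 1
  rw [show (1 - 1) ^ 2 + 4 * 1 * Real.sin x ^ 2 = (2 * Real.sin x) ^ 2 by ring]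
  exact Real.sqrt_sq (by positivity)

lemma tendsto_intW : Tendsto (fun ρ => ∫ p, W ρ p ∂(μ.prod μ)) (𝓝[<] 1) (𝓝 0) := by
  have hev : ∀ᶠ ρ : ℝ in 𝓝[<] 1, 0 < ρ ∧ ρ < 1 := by
    filter_upwards [Ioo_mem_nhdsLT (show (0:ℝ) < 1 by norm_num)] with ρ hρ
    exact hρ
  have h := MeasureTheory.tendsto_integral_filter_of_dominated_convergence (μ := μ.prod μ)
    (l := 𝓝[<] (1:ℝ)) (F := fun ρ p => W ρ p) (f := fun _ => (0:ℝ))
    (fun p => (√(Real.sin p.1))⁻¹ * (√(Real.sin p.2))⁻¹) ?_ ?_ integrable_dom ?_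
  · simpa using h
  · filter_upwards [hev] with ρ hρ using meas_W hρ.1 hρ.2
  · filter_upwards [hev] with ρ hρ using W_bound hρ.1 hρ.2
  · filter_upwards [ae_mem] with p hp
    have hs1 := Real.sin_pos_of_pos_of_lt_pi hp.1.1 hp.1.2
    have hs2 := Real.sin_pos_of_pos_of_lt_pi hp.2.1 hp.2.2
    have q1 := Real.sqrt_pos.2 hs1
    have q2 := Real.sqrt_pos.2 hs2
    have t1 := continuousAt_amp_one (x := p.1)
    have t2 := continuousAt_amp_one (x := p.2)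
    rw [amp_one hs1] at t1
    rw [amp_one hs2] at t2
    have hQ : Tendsto (fun ρ => Q ρ p) (𝓝[<] 1) (𝓝 0) := by
      unfold Q
      have hne : (√2 * √(Real.sin p.1)) * (√2 * √(Real.sin p.2)) ≠ 0 := by positivity
      have := (((t1.mul_const (√(Real.sin p.2))).sub (t2.mul_const (√(Real.sin p.1)))).pow 2).div
        (t1.mul t2) hne
      have e0 : (√2 * √(Real.sin p.1) * √(Real.sin p.2) - √2 * √(Real.sin p.2) * √(Real.sin p.1)) ^ 2 /
          (√2 * √(Real.sin p.1) * (√2 * √(Real.sin p.2))) = 0 := by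
        rw [show √2 * √(Real.sin p.1) * √(Real.sin p.2) -
          √2 * √(Real.sin p.2) * √(Real.sin p.1) = 0 by ring]
        simp
      rw [e0] at this
      exact this
    have := hQ.mul_const (Real.sin p.1 * Real.sin p.2 / (Real.cos p.1 - Real.cos p.2) ^ 2)
    simpa [W] using this

/-! ### The main estimate -/

lemma hasSum_geom_bound {r : ℝ} (hr0 : 0 < r) (hr1 : r < 1) (j : ℕ) :
    0 ≤ (1 - r ^ j) / (1 - r) ∧ (1 - r ^ j) / (1 - r) ≤ j := by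
  have h1 : 0 < 1 - r := by linarith
  constructor
  · have : r ^ j ≤ 1 := pow_le_one₀ hr0.le hr1.le
    exact div_nonneg (by linarith) h1.le
  · rw [div_le_iff₀ h1]
    have := one_add_mul_le_pow (a := r - 1) (by linarith) j
    simp only [add_sub_cancel] at this
    nlinarith

lemma tendsto_geom (j : ℕ) :
    Tendsto (fun r : ℝ => (1 - r ^ j) / (1 - r)) (𝓝[<] 1) (𝓝 (j : ℝ)) := by
  have h : Tendsto (fun r : ℝ => ∑ i ∈ Finset.range j, r ^ i) (𝓝[<] 1) (𝓝 (j : ℝ)) := by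
    have hc : Continuous (fun r : ℝ => ∑ i ∈ Finset.range j, r ^ i) := by fun_prop
    have := (hc.tendsto 1).mono_left (nhdsWithin_le_nhds (s := Set.Iio (1:ℝ)))
    simpa using this
  refine h.congr' ?_
  filter_upwards [self_mem_nhdsWithin] with r hr
  have hr' : r < 1 := hr
  rw [geom_sum_eq hr'.ne, ← neg_div_neg_eq]
  congr 1 <;> ring

section
variable (hpars : ∀ f g : ℝ → ℝ, ContinuousOn f (Set.Icc 0 π) → ContinuousOn g (Set.Icc 0 π) →
    HasSum (fun m : ℕ => (∫ θ in (0:ℝ)..π, f θ * Real.sin ((m:ℝ) * θ)) *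
        (∫ θ in (0:ℝ)..π, g θ * Real.sin ((m:ℝ) * θ)))
      ((π / 2) * ∫ θ in (0:ℝ)..π, f θ * g θ))
include hpars

lemma hasSum_diff {ρ : ℝ} (h0 : 0 < ρ) (h1 : ρ < 1) :
    HasSum (fun j : ℕ => b j ^ 2 - alpha ρ j * beta ρ j) 0 := by
  have hc : Continuous (fun θ : ℝ => √(Real.sin θ)) := by fun_prop
  have e1 := hpars _ _ (contDiff_amp h0 h1).continuous.continuousOn
    (contDiff_g h0 h1).continuous.continuousOn
  have e2 := hpars _ _ hc.continuousOn hc.continuousOn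
  have i1 : ∫ θ in (0:ℝ)..π, amp ρ θ * g ρ θ = ∫ θ in (0:ℝ)..π, Real.sin θ := by
    refine intervalIntegral.integral_congr fun θ _ => ?_
    unfold g
    exact mul_div_cancel₀ _ (amp_pos h0 h1 θ).ne'
  have i2 : ∫ θ in (0:ℝ)..π, √(Real.sin θ) * √(Real.sin θ) = ∫ θ in (0:ℝ)..π, Real.sin θ := by
    refine intervalIntegral.integral_congr fun θ hθ => ?_
    rw [Set.uIcc_of_le Real.pi_pos.le] at hθ
    exact Real.mul_self_sqrt (Real.sin_nonneg_of_nonneg_of_le_pi hθ.1 hθ.2)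
  rw [i1] at e1
  rw [i2] at e2
  have h := e2.sub e1
  rw [sub_self] at h
  refine h.congr_fun ?_
  intro j
  simp only [sq]
  rfl

lemma key_r {ρ : ℝ} (h0 : 0 < ρ) (h1 : ρ < 1) {r : ℝ} (hr0 : 0 < r) (hr1 : r < 1) :
    ∑' j : ℕ, (1 - r ^ j) / (1 - r) * (b j ^ 2 - alpha ρ j * beta ρ j) ≤
      (1 + r) / (8 * r) * ∫ p, W ρ p ∂(μ.prod μ) := by
  have hr : 0 < 1 - r := by linarith
  have hF := hasSum_F h0 h1 hr0.le hr1
  rw [int_FK h0 h1 hr0.le hr1] at hF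
  have hD := hasSum_diff hpars h0 h1
  have hS := (hD.add hF).div_const (1 - r)
  have e : (fun j : ℕ => (1 - r ^ j) / (1 - r) * (b j ^ 2 - alpha ρ j * beta ρ j)) =
      fun j : ℕ => (b j ^ 2 - alpha ρ j * beta ρ j + r ^ j * (alpha ρ j * beta ρ j - b j ^ 2)) /
        (1 - r) := by
    funext j
    ring
  rw [e, hS.tsum_eq, zero_add]
  have hW : ∫ p, Q ρ p * Kr r p ∂(μ.prod μ) ≤ ∫ p, ((1 - r ^ 2) / r) * W ρ p ∂(μ.prod μ) := by
    have hK := continuous_Kr hr0.le hr1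
    have hQ := continuous_Q h0 h1
    refine integral_mono_ae (integrable_cont (by fun_prop)) ((integrable_W h0 h1).const_mul _) ?_
    filter_upwards [ae_mem] with p hp
    exact QK_le h0 h1 hr0 hr1 hp.1 hp.2
  rw [MeasureTheory.integral_const_mul] at hW
  rw [div_le_iff₀ hr]
  calc 1 / 8 * ∫ p, Q ρ p * Kr r p ∂(μ.prod μ)
      ≤ 1 / 8 * ((1 - r ^ 2) / r * ∫ p, W ρ p ∂(μ.prod μ)) := by gcongr
    _ = _ := by field_simp; ring

lemma key {ρ : ℝ} (h0 : 0 < ρ) (h1 : ρ < 1) (hb : Summable (fun j : ℕ => (j : ℝ) * b j ^ 2)) :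
    ∑' j : ℕ, (j : ℝ) * (b j ^ 2 - alpha ρ j * beta ρ j) ≤
      1 / 4 * ∫ p, W ρ p ∂(μ.prod μ) := by
  have hab := summable_ab h0 h1
  have hev : ∀ᶠ r : ℝ in 𝓝[<] 1, 0 < r ∧ r < 1 := by
    filter_upwards [Ioo_mem_nhdsLT (show (0:ℝ) < 1 by norm_num)] with ρ hρ
    exact hρ
  have t1 : Tendsto (fun r : ℝ => ∑' j : ℕ, (1 - r ^ j) / (1 - r) *
      (b j ^ 2 - alpha ρ j * beta ρ j)) (𝓝[<] 1)
      (𝓝 (∑' j : ℕ, (j : ℝ) * (b j ^ 2 - alpha ρ j * beta ρ j))) := by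
    refine tendsto_tsum_of_dominated_convergence
      (bound := fun j : ℕ => (j : ℝ) * b j ^ 2 + |(j : ℝ) * alpha ρ j * beta ρ j|) (hb.add hab)
      (fun j => (tendsto_geom j).mul_const _) ?_
    filter_upwards [hev] with r hr j
    obtain ⟨g0, g1⟩ := hasSum_geom_bound hr.1 hr.2 j
    rw [norm_mul, Real.norm_eq_abs, abs_of_nonneg g0]
    have hj : (0:ℝ) ≤ j := Nat.cast_nonneg j
    calc (1 - r ^ j) / (1 - r) * ‖b j ^ 2 - alpha ρ j * beta ρ j‖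
        ≤ j * (b j ^ 2 + |alpha ρ j * beta ρ j|) := by
          refine mul_le_mul g1 ?_ (norm_nonneg _) hj
          refine (norm_sub_le _ _).trans ?_
          rw [Real.norm_eq_abs, Real.norm_eq_abs, abs_of_nonneg (sq_nonneg (b j))]
      _ = _ := by
          rw [mul_add, mul_assoc (j : ℝ), abs_mul (j : ℝ), abs_of_nonneg hj]
  have t2 : Tendsto (fun r : ℝ => (1 + r) / (8 * r) * ∫ p, W ρ p ∂(μ.prod μ)) (𝓝[<] 1)
      (𝓝 (1 / 4 * ∫ p, W ρ p ∂(μ.prod μ))) := by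
    have hc : ContinuousAt (fun r : ℝ => (1 + r) / (8 * r)) 1 := by
      refine ContinuousAt.div (by fun_prop) (by fun_prop) (by norm_num)
    have := (hc.tendsto.mono_left (nhdsWithin_le_nhds (s := Set.Iio (1:ℝ)))).mul_const
      (∫ p, W ρ p ∂(μ.prod μ))
    convert this using 2
    norm_num
  refine le_of_tendsto_of_tendsto t1 t2 ?_
  filter_upwards [hev] with r hr using key_r hpars h0 h1 hr.1 hr.2

end

theorem upper_const_of
    (hpars : ∀ f g : ℝ → ℝ, ContinuousOn f (Set.Icc 0 π) → ContinuousOn g (Set.Icc 0 π) →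
    HasSum (fun m : ℕ => (∫ θ in (0:ℝ)..π, f θ * Real.sin ((m:ℝ) * θ)) *
        (∫ θ in (0:ℝ)..π, g θ * Real.sin ((m:ℝ) * θ)))
      ((π / 2) * ∫ θ in (0:ℝ)..π, f θ * g θ))
    (hasb : HasSum (fun m : ℕ => (m : ℝ) * b m ^ 2) (π * cstar))
    (ε : ℝ) (hε : 0 < ε) : ∃ ρ : ℝ, 0 < ρ ∧ ρ < 1 ∧
    cstar - ε ≤ (1 / π) * (∑' j : ℕ, (j : ℝ) * alpha ρ j * beta ρ j) := by
  have hev : ∀ᶠ r : ℝ in 𝓝[<] 1, 0 < r ∧ r < 1 := by
    filter_upwards [Ioo_mem_nhdsLT (show (0:ℝ) < 1 by norm_num)] with ρ hρ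
    exact hρ
  have hlt : ∀ᶠ ρ : ℝ in 𝓝[<] 1, ∫ p, W ρ p ∂(μ.prod μ) < 4 * π * ε :=
    tendsto_intW.eventually_lt_const (by have := Real.pi_pos; positivity)
  obtain ⟨ρ, ⟨h0, h1⟩, hρ⟩ := (hev.and hlt).exists
  refine ⟨ρ, h0, h1, ?_⟩
  have hk := key hpars h0 h1 hasb.summable
  have hab := (summable_ab h0 h1).of_abs
  have e : (fun j : ℕ => (j : ℝ) * (b j ^ 2 - alpha ρ j * beta ρ j)) =
      fun j : ℕ => (j : ℝ) * b j ^ 2 - (j : ℝ) * alpha ρ j * beta ρ j := by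
    funext j; ring
  rw [e, (hasb.summable.tsum_sub hab), hasb.tsum_eq] at hk
  have hpi := Real.pi_pos
  have h3 : π * cstar - π * ε ≤ ∑' j : ℕ, (j : ℝ) * alpha ρ j * beta ρ j := by linarith
  rw [one_div, inv_mul_eq_div, le_div_iff₀ hpi]
  linarith

end UC

theorem upper_const (ε : ℝ) (hε : 0 < ε) : ∃ ρ : ℝ, 0 < ρ ∧ ρ < 1 ∧
    cstar - ε ≤ (1 / π) * (∑' j : ℕ, (j : ℝ) * alpha ρ j * beta ρ j) :=
  UC.upper_const_of (fun f g hf hg => parseval_sine_mul f g hf hg) hasSum_b ε hε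

end ErdosLag
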