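import Pool.Agent.W_MP_93ab53_an.Lower
import Pool.Agent.W_MP_93ab53_an.LogLemma
import Pool.Agent.W_MP_93ab53_an.Equi
import Pool.Agent.W_MP_93ab53_an.Far
import Pool.Agent.W_MP_93ab53_an.Leftover
import Pool.Agent.W_MP_93ab53_an.UAsym
import Pool.Agent.W_MP_93ab53_an.UConst

/-!
Sharp asymptotics of `M n`.
-/

namespace ErdosLag

open Real MeasureTheory intervalIntegral Finset Polynomial Filter Topology

/-- The sharp lower bound for all node systems. -/
theorem lower_all (ε : ℝ) (hε : 0 < ε) : ∃ N : ℕ, ∀ n ≥ N, ∀ x : Fin n → ℝ, Nodes x →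
    n * (2 - I x) ≤ cstar + ε := by
  have hE := equidist logLemma
  have hU := unifInt logLemma hE
  obtain ⟨C, _, hR⟩ := rigid hU
  exact lower hE hU (leftover hE C hR) (farBound hE C hR) ε hε

lemma exists_Nodes (n : ℕ) : ∃ x : Fin n → ℝ, Nodes x := by
  refine ⟨fun k => (k : ℝ) / n, ?_, ?_⟩
  · intro a b hab
    have hn : (0:ℝ) < n := by exact_mod_cast Fin.pos a
    simp only at hab
    rw [div_left_inj' hn.ne'] at hab
    exact Fin.ext (by exact_mod_cast hab)
  · intro k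
    have hn : (0:ℝ) < n := by exact_mod_cast Fin.pos k
    have h1 : (0:ℝ) ≤ (k : ℝ) / n := by positivity
    have h2 : (k : ℝ) / n ≤ 1 := by
      rw [div_le_one hn]
      exact_mod_cast k.2.le
    exact ⟨by linarith, h2⟩

/-- `n (2 - M n)` tends to `c*`. -/
theorem main : Tendsto (fun n : ℕ => (n : ℝ) * (2 - M n)) atTop (𝓝 cstar) := by
  rw [Metric.tendsto_atTop]
  intro ε hε
  obtain ⟨N1, h1⟩ := lower_all (ε / 2) (by positivity)
  obtain ⟨ρ, hρ0, hρ1, hρ⟩ := upper_const (ε / 4) (by positivity)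
  obtain ⟨N2, h2⟩ := upper_asym ρ hρ0 hρ1 (ε / 4) (by positivity)
  refine ⟨max (max N1 N2) 1, fun n hn => ?_⟩
  have hn1 : 1 ≤ n := le_trans (le_max_right _ _) hn
  have hnN1 : N1 ≤ n := le_trans (le_trans (le_max_left _ _) (le_max_left _ _)) hn
  have hnN2 : N2 ≤ n := le_trans (le_trans (le_max_right _ _) (le_max_left _ _)) hn
  have hn0 : (0:ℝ) < n := by exact_mod_cast hn1
  have hlow : 2 - (cstar + ε / 2) / n ≤ M n := by
    unfold M
    apply le_csInf
    · obtain ⟨x, hx⟩ := exists_Nodes n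
      exact ⟨I x, x, hx, rfl⟩
    · rintro v ⟨x, hx, rfl⟩
      have := h1 n hnN1 x hx
      rw [sub_le_iff_le_add, ← sub_le_iff_le_add', le_div_iff₀ hn0]
      linarith
  have hup := h2 n hnN2
  have h3 : (n:ℝ) * (2 - M n) ≤ cstar + ε / 2 := by
    have : (n:ℝ) * (2 - (cstar + ε / 2) / n) ≤ n * M n := mul_le_mul_of_nonneg_left hlow hn0.le
    have e : (n:ℝ) * (2 - (cstar + ε / 2) / n) = 2 * n - (cstar + ε / 2) := by
      field_simp
    rw [e] at this
    linarith
  rw [Real.dist_eq, abs_lt]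
  constructor
  · linarith
  · linarith

end ErdosLag
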