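import Mathlib

/-!
Definitions for MP_93ab53_an: minimal integral of the squared Lagrange basis.
-/

namespace ErdosLag

open Real MeasureTheory intervalIntegral Finset Polynomial

/-- The `k`-th Lagrange basis polynomial of the nodes `x`, as a function. -/
noncomputable def L {n : ℕ} (x : Fin n → ℝ) (k : Fin n) (t : ℝ) : ℝ :=
  ∏ i ∈ Finset.univ.erase k, (t - x i) / (x k - x i)

/-- The integral over `[-1,1]` of the sum of the squared Lagrange basis polynomials. -/
noncomputable def I {n : ℕ} (x : Fin n → ℝ) : ℝ := ∫ t in (-1:ℝ)..1, ∑ k, L x k t ^ 2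

/-- `x` is a tuple of distinct points of `[-1,1]`. -/
structure Nodes {n : ℕ} (x : Fin n → ℝ) : Prop where
  inj : Function.Injective x
  mem : ∀ k, x k ∈ Set.Icc (-1:ℝ) 1

/-- The infimum of `I` over all choices of `n` distinct nodes in `[-1,1]`. -/
noncomputable def M (n : ℕ) : ℝ := sInf {v : ℝ | ∃ x : Fin n → ℝ, Nodes x ∧ v = I x}

/-- The angle of the `k`-th node: `x k = cos (th x k)`. -/
noncomputable def th {n : ℕ} (x : Fin n → ℝ) (k : Fin n) : ℝ := Real.arccos (x k)

variable {n : ℕ} {x : Fin n → ℝ}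

lemma Nodes.cos_th (h : Nodes x) (k : Fin n) : Real.cos (th x k) = x k :=
  Real.cos_arccos (h.mem k).1 (h.mem k).2

lemma th_nonneg (x : Fin n → ℝ) (k : Fin n) : 0 ≤ th x k := Real.arccos_nonneg _

lemma th_le_pi (x : Fin n → ℝ) (k : Fin n) : th x k ≤ π := Real.arccos_le_pi _

lemma sin_th_nonneg (x : Fin n → ℝ) (k : Fin n) : 0 ≤ Real.sin (th x k) :=
  Real.sin_nonneg_of_nonneg_of_le_pi (th_nonneg x k) (th_le_pi x k)

/-- The Lagrange basis polynomial as a polynomial. -/
noncomputable def Lp (x : Fin n → ℝ) (k : Fin n) : ℝ[X] := Lagrange.basis Finset.univ x k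

lemma eval_Lp (x : Fin n → ℝ) (k : Fin n) (t : ℝ) : (Lp x k).eval t = L x k t := by
  unfold Lp L Lagrange.basis Lagrange.basisDivisor
  rw [Polynomial.eval_prod]
  refine Finset.prod_congr rfl fun i _ => ?_
  simp [div_eq_inv_mul]

lemma Nodes.degree_Lp (h : Nodes x) (k : Fin n) : (Lp x k).degree < n := by
  have hn : 0 < n := Fin.pos k
  unfold Lp
  rw [Lagrange.degree_basis (fun a _ b _ hab => h.inj hab) (Finset.mem_univ k)]
  simp only [Finset.card_univ, Fintype.card_fin]
  exact_mod_cast Nat.sub_lt hn one_pos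

lemma continuous_L (x : Fin n → ℝ) (k : Fin n) : Continuous (L x k) := by
  have : L x k = fun t => (Lp x k).eval t := by
    funext t; rw [eval_Lp]
  rw [this]; exact (Lp x k).continuous

lemma Nodes.L_self (h : Nodes x) (k : Fin n) : L x k (x k) = 1 := by
  rw [← eval_Lp]
  exact Lagrange.eval_basis_self (fun a _ b _ hab => h.inj hab) (Finset.mem_univ k)

lemma L_of_ne (x : Fin n → ℝ) {k i : Fin n} (hik : i ≠ k) : L x k (x i) = 0 := by
  rw [← eval_Lp]
  exact Lagrange.eval_basis_of_ne hik.symm (Finset.mem_univ i)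

/-- Lagrange interpolation reproduces polynomials of degree `< n`. -/
lemma Nodes.sum_L_mul (h : Nodes x) (p : ℝ[X]) (hp : p.degree < n) (t : ℝ) :
    ∑ k, L x k t * p.eval (x k) = p.eval t := by
  have h1 := Lagrange.eq_interpolate (s := Finset.univ) (v := x) (f := p)
    (fun a _ b _ hab => h.inj hab) (by simpa using hp)
  conv_rhs => rw [h1]
  rw [Lagrange.interpolate_apply, Polynomial.eval_finsetSum]
  refine Finset.sum_congr rfl fun k _ => ?_
  rw [Polynomial.eval_mul, Polynomial.eval_C, ← eval_Lp, mul_comm]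
  rfl

/-- Change of variables `t = cos θ`. -/
lemma integral_cos_sub {f : ℝ → ℝ} (hf : Continuous f) :
    ∫ t in (-1:ℝ)..1, f t = ∫ θ in (0:ℝ)..π, f (Real.cos θ) * Real.sin θ := by
  have h := intervalIntegral.integral_comp_mul_deriv (a := 0) (b := π) (f := Real.cos)
    (f' := fun θ => - Real.sin θ) (g := f) (fun θ _ => Real.hasDerivAt_cos θ)
    (by fun_prop) hf
  simp only [Function.comp, Real.cos_zero, Real.cos_pi] at h
  rw [intervalIntegral.integral_symm, ← h, ← intervalIntegral.integral_neg]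
  refine intervalIntegral.integral_congr fun θ _ => ?_
  simp

lemma I_eq (x : Fin n → ℝ) :
    I x = ∑ k, ∫ θ in (0:ℝ)..π, L x k (Real.cos θ) ^ 2 * Real.sin θ := by
  unfold I
  rw [integral_cos_sub (f := fun t => ∑ k, L x k t ^ 2)
    (continuous_finsetSum _ fun k _ => (continuous_L x k).pow 2)]
  rw [← intervalIntegral.integral_finsetSum]
  · refine intervalIntegral.integral_congr fun θ _ => ?_
    simp [Finset.sum_mul]
  · intro k _
    exact Continuous.intervalIntegrable
      ((((continuous_L x k).comp Real.continuous_cos).pow 2).mul Real.continuous_sin) _ _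

/-- The coefficients `b m = ∫_0^π √(sin θ) sin (m θ) dθ`. -/
noncomputable def b (m : ℕ) : ℝ := ∫ θ in (0:ℝ)..π, √(Real.sin θ) * Real.sin (m * θ)

/-- The constant `c* = Γ(1/4)^2 / (8 Γ(3/4)^2) = 1.0942...`. -/
noncomputable def cstar : ℝ := Real.Gamma (1/4) ^ 2 / (8 * Real.Gamma (3/4) ^ 2)

end ErdosLag
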