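import Pool.Agent.W_MP_93ab53_an.Defs

/-!
Kernels and shared statements for MP_93ab53_an.
-/

namespace ErdosLag

open Real MeasureTheory intervalIntegral Finset Polynomial

/-- The Poisson kernel. -/
noncomputable def P (r t : ℝ) : ℝ := (1 - r ^ 2) / (1 - 2 * r * Real.cos t + r ^ 2)

/-- The Poisson kernel normalised by `V 0 = 1`. -/
noncomputable def V (r t : ℝ) : ℝ := (1 - r) ^ 2 / (1 - 2 * r * Real.cos t + r ^ 2)

/-- The modified Dirichlet kernel `sin (n t) cot (t/2)`. -/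
noncomputable def D (n : ℕ) (t : ℝ) : ℝ :=
  1 + 2 * ∑ m ∈ Finset.Ico 1 n, Real.cos (m * t) + Real.cos (n * t)

/-- The certificate kernel. -/
noncomputable def T (r : ℝ) (n : ℕ) (θ η : ℝ) : ℝ :=
  (V r (θ - η) * D n (θ - η) - Real.cos (n * (θ + η)) * P r (θ + η)
    + r ^ n / 2 * (P r (θ - η) + P r (θ + η))) / (2 * n)

/-- The part of the certificate kernel which is a polynomial of degree `< n` in `cos η`. -/
noncomputable def G (r : ℝ) (n : ℕ) (θ η : ℝ) : ℝ :=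
  ((1 - r ^ n) / 2
    + ∑ m ∈ Finset.Ico 1 n, (1 - r ^ (n - m)) * Real.cos (m * θ) * Real.cos (m * η)) / n

/-- The base kernel (`T` with `r = 0`). -/
noncomputable def tau (n : ℕ) (θ η : ℝ) : ℝ :=
  (D n (θ - η) - Real.cos (n * (θ + η))) / (2 * n)

/-- The remainder kernel: `V D_n / (2 n) = T + rho`. -/
noncomputable def rho (r : ℝ) (n : ℕ) (θ η : ℝ) : ℝ :=
  (Real.cos (n * (θ + η)) * P r (θ + η) - r ^ n / 2 * (P r (θ - η) + P r (θ + η))) / (2 * n)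

/-- A positive weight, logarithmically large near the endpoints. -/
noncomputable def lam (n : ℕ) (θ : ℝ) : ℝ := 1 - Real.log (Real.sin θ + 1 / n)

/-- Lower bound for the node polynomial off the interval. -/
def LogLemma : Prop := ∀ (n : ℕ) (x : Fin n → ℝ), 1 ≤ n → Nodes x → I x ≤ 2 → ∀ ζ : ℂ, ‖ζ‖ < 1 →
  (π / 8) * (1 - ‖ζ‖ ^ (2 * n - 2)) * (1 - ‖ζ‖) ^ 2 / √n
    ≤ ∏ k, ‖1 - 2 * (x k : ℂ) * ζ + ζ ^ 2‖

/-- Equidistribution of the angles of nodes with `I ≤ 2`. -/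
def Equidist : Prop := ∀ f : ℝ → ℝ, ContinuousOn f (Set.Icc 0 π) → ∀ ε > 0, ∃ N : ℕ, ∀ n ≥ N,
  ∀ x : Fin n → ℝ, Nodes x → I x ≤ 2 →
    |(∑ k, f (th x k)) / n - (1 / π) * ∫ θ in (0:ℝ)..π, f θ| ≤ ε

/-- Uniform integrability of the logarithmic weight near the endpoints. -/
def UnifInt : Prop := ∀ ε > 0, ∃ κ₀ > 0, ∀ κ, 0 < κ → κ ≤ κ₀ → ∃ N : ℕ, ∀ n ≥ N,
  ∀ x : Fin n → ℝ, Nodes x → I x ≤ 2 →
    ∑ k with Real.sin (th x k) < κ, lam n (th x k) ≤ ε * n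

/-- Rigidity: the Lagrange basis is close to the base kernel. -/
def Rigid (C : ℝ) : Prop := ∃ N : ℕ, ∀ n ≥ N, ∀ x : Fin n → ℝ, Nodes x → I x ≤ 2 →
  ∑ k, ∫ θ in (0:ℝ)..π, (L x k (Real.cos θ) - tau n θ (th x k)) ^ 2 * Real.sin θ ≤ C / n

/-- The remainder kernel contributes `o(1)/n` as `r → 1`. -/
def Leftover : Prop := ∀ ε > 0, ∃ r₀ < (1:ℝ), ∀ r, r₀ < r → 0 < r → r < 1 → ∃ N : ℕ, ∀ n ≥ N,
  ∀ x : Fin n → ℝ, Nodes x → I x ≤ 2 →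
    n * |∑ k, ∫ θ in (0:ℝ)..π, L x k (Real.cos θ) * rho r n θ (th x k) * Real.sin θ| ≤ ε

/-- The far part. -/
def FarBound : Prop := ∀ K : ℝ → ℝ → ℝ, Continuous (fun p : ℝ × ℝ => K p.1 p.2) →
  (∀ a b, K a b = K b a) → (∀ a b, 0 ≤ K a b) → ∀ ε > 0, ∃ N : ℕ, ∀ n ≥ N,
  ∀ x : Fin n → ℝ, Nodes x → I x ≤ 2 →
    (1 / (2 * π)) * (∫ θ in (0:ℝ)..π, ∫ η in (0:ℝ)..π,
        K θ η * (√(Real.sin θ) ^ 3 * √(Real.sin η) ^ 3)) - ε
      ≤ n * ∑ k, ∫ θ in (0:ℝ)..π,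
        K θ (th x k) * (Real.cos θ - x k) ^ 2 * L x k (Real.cos θ) ^ 2 * Real.sin θ

/-- The amplitude `|1 - ρ e^{2iθ}|^{1/2}` used for the upper bound. -/
noncomputable def amp (ρ θ : ℝ) : ℝ := √(√(1 - 2 * ρ * Real.cos (2 * θ) + ρ ^ 2))

noncomputable def alpha (ρ : ℝ) (j : ℕ) : ℝ := ∫ θ in (0:ℝ)..π, amp ρ θ * Real.sin (j * θ)

noncomputable def beta (ρ : ℝ) (j : ℕ) : ℝ :=
  ∫ θ in (0:ℝ)..π, Real.sin θ / amp ρ θ * Real.sin (j * θ)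

end ErdosLag
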