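import Pool.Agent.W_MP_93ab53_an.KDefs

/-!
Kernel identities for MP_93ab53_an: the Fourier expansion of the certificate kernel `T`.
-/

namespace ErdosLag

open Real MeasureTheory intervalIntegral Finset Polynomial

/-- The common denominator. -/
noncomputable def Den (r t : ℝ) : ℝ := 1 - 2 * r * Real.cos t + r ^ 2

lemma Den_ge {r : ℝ} (hr0 : 0 ≤ r) (t : ℝ) : (1 - r) ^ 2 ≤ Den r t := by
  unfold Den
  nlinarith [Real.cos_le_one t, mul_nonneg hr0 (sub_nonneg.2 (Real.cos_le_one t))]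

lemma Den_pos {r : ℝ} (hr0 : 0 ≤ r) (hr1 : r < 1) (t : ℝ) : 0 < Den r t :=
  lt_of_lt_of_le (by have : 0 < 1 - r := by linarith
                     positivity) (Den_ge hr0 t)

lemma P_eq (r t : ℝ) : P r t = (1 - r ^ 2) / Den r t := rfl

lemma V_eq (r t : ℝ) : V r t = (1 - r) ^ 2 / Den r t := rfl

lemma P_pos {r : ℝ} (hr0 : 0 ≤ r) (hr1 : r < 1) (t : ℝ) : 0 < P r t := by
  rw [P_eq]
  have := Den_pos hr0 hr1 t
  have h2 : 0 < 1 - r ^ 2 := by nlinarith
  positivity

lemma P_le {r : ℝ} (hr0 : 0 ≤ r) (hr1 : r < 1) (t : ℝ) : P r t ≤ (1 + r) / (1 - r) := by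
  have h1 : 0 < 1 - r := by linarith
  rw [P_eq, div_le_div_iff₀ (Den_pos hr0 hr1 t) h1]
  have := Den_ge hr0 t
  nlinarith [mul_nonneg (by linarith : 0 ≤ 1 + r) (sub_nonneg.2 this)]

lemma V_nonneg_K {r : ℝ} (hr0 : 0 ≤ r) (hr1 : r < 1) (t : ℝ) : 0 ≤ V r t := by
  rw [V_eq]
  have := Den_pos hr0 hr1 t
  positivity

lemma V_le_one_K {r : ℝ} (hr0 : 0 ≤ r) (hr1 : r < 1) (t : ℝ) : V r t ≤ 1 := by
  rw [V_eq, div_le_one (Den_pos hr0 hr1 t)]
  exact Den_ge hr0 t

lemma continuous_Den (r : ℝ) : Continuous (Den r) := by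
  unfold Den; fun_prop

lemma continuous_P {r : ℝ} (hr0 : 0 ≤ r) (hr1 : r < 1) : Continuous (P r) := by
  have : P r = fun t => (1 - r ^ 2) / Den r t := by funext t; rfl
  rw [this]
  exact continuous_const.div (continuous_Den r) fun t => (Den_pos hr0 hr1 t).ne'

lemma cont_V {r : ℝ} (hr0 : 0 ≤ r) (hr1 : r < 1) : Continuous (V r) := by
  have : V r = fun t => (1 - r) ^ 2 / Den r t := by funext t; rfl
  rw [this]
  exact continuous_const.div (continuous_Den r) fun t => (Den_pos hr0 hr1 t).ne'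

lemma cont_D (n : ℕ) : Continuous (D n) := by
  unfold D; fun_prop

lemma D_one (t : ℝ) : D 1 t = 1 + Real.cos t := by
  simp [D]

lemma D_succ_K {n : ℕ} (hn : 1 ≤ n) (t : ℝ) :
    D (n + 1) t = D n t + Real.cos (n * t) + Real.cos (((n : ℝ) + 1) * t) := by
  unfold D
  rw [Finset.sum_Ico_succ_top hn]
  push_cast
  ring

/-- `(1 - cos t) D_n(t) = sin t sin (n t)`. -/
lemma one_sub_cos_mul_D {n : ℕ} (hn : 1 ≤ n) (t : ℝ) :
    (1 - Real.cos t) * D n t = Real.sin t * Real.sin (n * t) := by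
  induction n, hn using Nat.le_induction with
  | base =>
    rw [D_one]
    have := Real.sin_sq_add_cos_sq t
    push_cast
    rw [one_mul]
    nlinarith
  | succ n hn ih =>
    rw [D_succ_K hn]
    push_cast
    have e1 : Real.cos (((n:ℝ) + 1) * t) = Real.cos (n * t) * Real.cos t - Real.sin (n * t) * Real.sin t := by
      rw [add_mul, one_mul, Real.cos_add]
    have e2 : Real.sin (((n:ℝ) + 1) * t) = Real.sin (n * t) * Real.cos t + Real.cos (n * t) * Real.sin t := by
      rw [add_mul, one_mul, Real.sin_add]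
    rw [e1, e2]
    have := Real.sin_sq_add_cos_sq t
    linear_combination ih - Real.cos (n * t) * this

/-- The finite geometric-trigonometric sum `∑_{m=1}^n r^{n-m} cos (m t)`. -/
lemma fin_geom (r : ℝ) (n : ℕ) (t : ℝ) :
    (∑ m ∈ Finset.Ico 1 (n + 1), r ^ (n - m) * Real.cos (m * t)) * Den r t
      = Real.cos (n * t) - r * Real.cos (((n : ℝ) + 1) * t) - r ^ n
        + r ^ (n + 1) * Real.cos t := by
  induction n with
  | zero => simp
  | succ n ih =>
    rw [Finset.sum_Ico_succ_top (by omega)]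
    have h1 : ∑ m ∈ Finset.Ico 1 (n + 1), r ^ (n + 1 - m) * Real.cos (m * t)
        = r * ∑ m ∈ Finset.Ico 1 (n + 1), r ^ (n - m) * Real.cos (m * t) := by
      rw [Finset.mul_sum]
      refine Finset.sum_congr rfl fun m hm => ?_
      rw [Finset.mem_Ico] at hm
      rw [Nat.sub_add_comm (by omega), pow_succ]
      ring
    rw [h1, add_mul, mul_assoc, ih]
    simp only [Nat.sub_self, pow_zero, one_mul]
    push_cast
    have e1 : Real.cos (((n:ℝ) + 1 + 1) * t) = 2 * Real.cos t * Real.cos (((n:ℝ) + 1) * t) - Real.cos (n * t) := by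
      have := Real.cos_add_cos (((n:ℝ) + 1 + 1) * t) (n * t)
      rw [show (((n:ℝ) + 1 + 1) * t + n * t) / 2 = ((n:ℝ) + 1) * t by ring,
        show (((n:ℝ) + 1 + 1) * t - n * t) / 2 = t by ring] at this
      linear_combination this
    rw [e1]
    unfold Den
    ring

/-- The tail geometric-trigonometric series. -/
lemma tail_geom {r : ℝ} (hr0 : 0 ≤ r) (hr1 : r < 1) (n : ℕ) (t : ℝ) :
    HasSum (fun i : ℕ => r ^ (i + 1) * Real.cos (((n : ℝ) + 1 + i) * t))
      (r * (Real.cos (((n : ℝ) + 1) * t) - r * Real.cos (n * t)) / Den r t) := by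
  have hD := Den_pos hr0 hr1 t
  set ξ : ℂ := (r : ℂ) * Complex.exp (t * Complex.I) with hξ
  have hnorm : ‖ξ‖ < 1 := by
    rw [hξ, norm_mul, Complex.norm_exp_ofReal_mul_I, mul_one, Complex.norm_real, Real.norm_eq_abs,
      abs_of_nonneg hr0]
    exact hr1
  have h1 := (hasSum_geometric_of_norm_lt_one hnorm).mul_left
    ((r : ℂ) * Complex.exp ((((n : ℝ) + 1) * t : ℝ) * Complex.I))
  have h2 := Complex.hasSum_re h1
  convert h2 using 1
  · funext i
    rw [hξ, mul_pow, ← Complex.exp_nat_mul]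
    have : (r : ℂ) * Complex.exp ((((n : ℝ) + 1) * t : ℝ) * Complex.I) *
        ((r : ℂ) ^ i * Complex.exp (i * (t * Complex.I)))
        = ((r ^ (i + 1) : ℝ) : ℂ) * Complex.exp (((((n : ℝ) + 1 + i) * t : ℝ)) * Complex.I) := by
      have e : Complex.exp ((((n : ℝ) + 1) * t : ℝ) * Complex.I) * Complex.exp (i * (t * Complex.I))
          = Complex.exp (((((n : ℝ) + 1 + i) * t : ℝ)) * Complex.I) := by
        rw [← Complex.exp_add]
        congr 1
        push_cast
        ring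
      rw [← e]
      push_cast
      ring
    rw [this, Complex.re_ofReal_mul, Complex.exp_ofReal_mul_I_re]
  · have hne : (1 : ℂ) - ξ ≠ 0 := by
      intro h0
      have : ξ = 1 := by linear_combination -h0
      rw [this] at hnorm
      simp at hnorm
    have hconj : (1 - ξ) * (starRingEnd ℂ) (1 - ξ) = ((Den r t : ℝ) : ℂ) := by
      rw [Complex.mul_conj, Complex.normSq_apply]
      have hre : (1 - ξ).re = 1 - r * Real.cos t := by
        simp [hξ, Complex.exp_ofReal_mul_I_re]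
      have him : (1 - ξ).im = - (r * Real.sin t) := by
        simp [hξ, Complex.exp_ofReal_mul_I_im]
      rw [hre, him]
      congr 1
      unfold Den
      have := Real.sin_sq_add_cos_sq t
      linear_combination r ^ 2 * this
    have hinv : (1 - ξ)⁻¹ = (starRingEnd ℂ) (1 - ξ) / ((Den r t : ℝ) : ℂ) := by
      have hDne : ((Den r t : ℝ) : ℂ) ≠ 0 := by exact_mod_cast hD.ne'
      rw [eq_div_iff hDne, ← hconj]
      field_simp
    rw [hinv, ← mul_div_assoc, Complex.div_ofReal_re]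
    congr 1
    have hc : (starRingEnd ℂ) (1 - ξ) = 1 - (r : ℂ) * Complex.exp (-(t : ℂ) * Complex.I) := by
      rw [map_sub, map_one, hξ, map_mul, Complex.conj_ofReal, ← Complex.exp_conj, map_mul,
        Complex.conj_ofReal, Complex.conj_I]
      congr 3
      ring
    rw [hc]
    have e2 : (r : ℂ) * Complex.exp ((((n : ℝ) + 1) * t : ℝ) * Complex.I) *
        (1 - (r : ℂ) * Complex.exp (-(t : ℂ) * Complex.I))
        = (r : ℂ) * Complex.exp ((((n : ℝ) + 1) * t : ℝ) * Complex.I)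
          - ((r ^ 2 : ℝ) : ℂ) * Complex.exp (((n * t : ℝ)) * Complex.I) := by
      have e : Complex.exp ((((n : ℝ) + 1) * t : ℝ) * Complex.I) * Complex.exp (-(t : ℂ) * Complex.I)
          = Complex.exp (((n * t : ℝ)) * Complex.I) := by
        rw [← Complex.exp_add]
        congr 1
        push_cast
        ring
      rw [← e]
      push_cast
      ring
    rw [e2, Complex.sub_re, Complex.re_ofReal_mul, Complex.re_ofReal_mul,
      Complex.exp_ofReal_mul_I_re, Complex.exp_ofReal_mul_I_re]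
    ring


lemma sum_cos_eq {n : ℕ} (hn : 1 ≤ n) (t : ℝ) :
    1 + 2 * ∑ m ∈ Finset.Ico 1 (n + 1), Real.cos (m * t) = D n t + Real.cos (n * t) := by
  rw [Finset.sum_Ico_succ_top hn]
  unfold D
  ring

lemma A_expansion {r : ℝ} (hr0 : 0 ≤ r) (hr1 : r < 1) {n : ℕ} (hn : 1 ≤ n) (t : ℝ) :
    V r t * D n t + r ^ n / 2 * P r t = 1 - r ^ n / 2
      + ∑ m ∈ Finset.Ico 1 (n + 1), (2 - r ^ (n - m)) * Real.cos (m * t)
      + r * (Real.cos (((n : ℝ) + 1) * t) - r * Real.cos (n * t)) / Den r t := by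
  have hD := Den_pos hr0 hr1 t
  have hF := fin_geom r n t
  have hS := sum_cos_eq hn t
  have hDn := one_sub_cos_mul_D hn t
  have hsum : ∑ m ∈ Finset.Ico 1 (n + 1), (2 - r ^ (n - m)) * Real.cos (m * t)
      = 2 * ∑ m ∈ Finset.Ico 1 (n + 1), Real.cos (m * t)
        - ∑ m ∈ Finset.Ico 1 (n + 1), r ^ (n - m) * Real.cos (m * t) := by
    rw [Finset.mul_sum, ← Finset.sum_sub_distrib]
    exact Finset.sum_congr rfl fun m _ => by ring
  rw [hsum]
  set F := ∑ m ∈ Finset.Ico 1 (n + 1), r ^ (n - m) * Real.cos (m * t)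
  set S := ∑ m ∈ Finset.Ico 1 (n + 1), Real.cos (m * t)
  have e1 : Real.cos (((n:ℝ) + 1) * t)
      = Real.cos (n * t) * Real.cos t - Real.sin (n * t) * Real.sin t := by
    rw [add_mul, one_mul, Real.cos_add]
  rw [V_eq, P_eq]
  have key : ((1 - r) ^ 2 * D n t + r ^ n / 2 * (1 - r ^ 2))
      = (1 - r ^ n / 2 + (2 * S - F)) * Den r t
        + r * (Real.cos (((n : ℝ) + 1) * t) - r * Real.cos (n * t)) := by
    have h1 : 2 * S = D n t + Real.cos (n * t) - 1 := by linarith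
    have h2 : (1 - r ^ n / 2 + (2 * S - F)) * Den r t
        = (D n t + Real.cos (n * t) - r ^ n / 2) * Den r t - F * Den r t := by
      rw [h1]; ring
    rw [h2, hF, e1]
    unfold Den
    linear_combination (-2 * r) * hDn
  field_simp
  linear_combination 2 * key

lemma B_expansion {r : ℝ} (hr0 : 0 ≤ r) (hr1 : r < 1) (n : ℕ) (t : ℝ) :
    - (Real.cos (n * t) * P r t) + r ^ n / 2 * P r t = - (r ^ n / 2)
      - ∑ m ∈ Finset.Ico 1 (n + 1), r ^ (n - m) * Real.cos (m * t)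
      - r * (Real.cos (((n : ℝ) + 1) * t) - r * Real.cos (n * t)) / Den r t := by
  have hD := Den_pos hr0 hr1 t
  have hF := fin_geom r n t
  set F := ∑ m ∈ Finset.Ico 1 (n + 1), r ^ (n - m) * Real.cos (m * t)
  rw [P_eq]
  generalize Real.cos (((n : ℝ) + 1) * t) = c1 at *
  generalize Real.cos ((n : ℝ) * t) = c0 at *
  have key : - (c0 * (1 - r ^ 2)) + r ^ n / 2 * (1 - r ^ 2)
      = (- (r ^ n / 2) - F) * Den r t
        - r * (c1 - r * c0) := by
    have h2 : (- (r ^ n / 2) - F) * Den r t = - (r ^ n / 2) * Den r t - F * Den r t := by ring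
    rw [h2, hF]
    unfold Den
    ring
  field_simp
  linear_combination 2 * key

/-- The tail series of products of sines. -/
lemma tail_sin {r : ℝ} (hr0 : 0 ≤ r) (hr1 : r < 1) (n : ℕ) (θ η : ℝ) :
    HasSum (fun i : ℕ => r ^ (i + 1) *
        (Real.sin (((n : ℝ) + 1 + i) * θ) * Real.sin (((n : ℝ) + 1 + i) * η)))
      ((r * (Real.cos (((n : ℝ) + 1) * (θ - η)) - r * Real.cos (n * (θ - η))) / Den r (θ - η)
        - r * (Real.cos (((n : ℝ) + 1) * (θ + η)) - r * Real.cos (n * (θ + η))) / Den r (θ + η)) / 2) := by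
  have h := ((tail_geom hr0 hr1 n (θ - η)).sub (tail_geom hr0 hr1 n (θ + η))).div_const 2
  have hfun : (fun i : ℕ => r ^ (i + 1) *
        (Real.sin (((n : ℝ) + 1 + i) * θ) * Real.sin (((n : ℝ) + 1 + i) * η)))
      = fun i : ℕ => (r ^ (i + 1) * Real.cos (((n : ℝ) + 1 + i) * (θ - η))
        - r ^ (i + 1) * Real.cos (((n : ℝ) + 1 + i) * (θ + η))) / 2 := ?_
  · rw [hfun]; exact h
  funext i
  have e1 : Real.cos (((n : ℝ) + 1 + i) * (θ - η))
      = Real.cos (((n : ℝ) + 1 + i) * θ) * Real.cos (((n : ℝ) + 1 + i) * η)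
        + Real.sin (((n : ℝ) + 1 + i) * θ) * Real.sin (((n : ℝ) + 1 + i) * η) := by
    rw [mul_sub, Real.cos_sub]
  have e2 : Real.cos (((n : ℝ) + 1 + i) * (θ + η))
      = Real.cos (((n : ℝ) + 1 + i) * θ) * Real.cos (((n : ℝ) + 1 + i) * η)
        - Real.sin (((n : ℝ) + 1 + i) * θ) * Real.sin (((n : ℝ) + 1 + i) * η) := by
    rw [mul_add, Real.cos_add]
  rw [e1, e2]
  ring

/-- Fourier expansion of the certificate kernel. -/
theorem T_expansion {r : ℝ} (hr0 : 0 ≤ r) (hr1 : r < 1) {n : ℕ} (hn : 1 ≤ n) (θ η : ℝ) :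
    T r n θ η = G r n θ η
      + (∑ m ∈ Finset.Ico 1 (n + 1), Real.sin (m * θ) * Real.sin (m * η)) / n
      + (∑' i : ℕ, r ^ (i + 1) *
        (Real.sin (((n : ℝ) + 1 + i) * θ) * Real.sin (((n : ℝ) + 1 + i) * η))) / n := by
  have hn0 : (n : ℝ) ≠ 0 := by positivity
  rw [(tail_sin hr0 hr1 n θ η).tsum_eq]
  have hA := A_expansion hr0 hr1 hn (θ - η)
  have hB := B_expansion hr0 hr1 n (θ + η)
  have hsum : ∑ m ∈ Finset.Ico 1 (n + 1), (2 - r ^ (n - m)) * Real.cos (m * (θ - η))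
      - ∑ m ∈ Finset.Ico 1 (n + 1), r ^ (n - m) * Real.cos (m * (θ + η))
      = 2 * ∑ m ∈ Finset.Ico 1 n, (1 - r ^ (n - m)) * Real.cos (m * θ) * Real.cos (m * η)
        + 2 * ∑ m ∈ Finset.Ico 1 (n + 1), Real.sin (m * θ) * Real.sin (m * η) := by
    have h0 : ∑ m ∈ Finset.Ico 1 n, (1 - r ^ (n - m)) * Real.cos (m * θ) * Real.cos (m * η)
        = ∑ m ∈ Finset.Ico 1 (n + 1), (1 - r ^ (n - m)) * Real.cos (m * θ) * Real.cos (m * η) := by
      rw [Finset.sum_Ico_succ_top hn]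
      simp
    rw [h0, Finset.mul_sum, Finset.mul_sum, ← Finset.sum_add_distrib, ← Finset.sum_sub_distrib]
    refine Finset.sum_congr rfl fun m _ => ?_
    rw [mul_sub, mul_add, Real.cos_sub, Real.cos_add]
    ring
  have hTT : T r n θ η = ((V r (θ - η) * D n (θ - η) + r ^ n / 2 * P r (θ - η))
      + (- (Real.cos (n * (θ + η)) * P r (θ + η)) + r ^ n / 2 * P r (θ + η))) / (2 * n) := by
    unfold T; ring
  rw [hTT, hA, hB]
  unfold G
  set X1 := r * (Real.cos (((n : ℝ) + 1) * (θ - η)) - r * Real.cos (n * (θ - η))) / Den r (θ - η)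
  set X2 := r * (Real.cos (((n : ℝ) + 1) * (θ + η)) - r * Real.cos (n * (θ + η))) / Den r (θ + η)
  generalize ∑ m ∈ Finset.Ico 1 (n + 1), (2 - r ^ (n - m)) * Real.cos (m * (θ - η)) = S1 at *
  generalize ∑ m ∈ Finset.Ico 1 (n + 1), r ^ (n - m) * Real.cos (m * (θ + η)) = S2 at *
  generalize ∑ m ∈ Finset.Ico 1 n, (1 - r ^ (n - m)) * Real.cos (m * θ) * Real.cos (m * η)
    = S3 at *
  generalize ∑ m ∈ Finset.Ico 1 (n + 1), Real.sin (m * θ) * Real.sin (m * η) = S4 at *
  field_simp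
  linear_combination 2 * hsum

end ErdosLag
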