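import Pool.Agent.W_MP_93ab53_an.KDefs

/-!
Elementary bounds for the Poisson kernel (used for the leftover term).
-/

namespace ErdosLag.LO

open Real MeasureTheory intervalIntegral Finset Polynomial

lemma Pden_ge {r : ℝ} (hr0 : 0 ≤ r) (t : ℝ) :
    (1 - r) ^ 2 ≤ 1 - 2 * r * Real.cos t + r ^ 2 := by
  nlinarith [Real.cos_le_one t]

lemma Pden_pos {r : ℝ} (hr0 : 0 ≤ r) (hr1 : r < 1) (t : ℝ) :
    0 < 1 - 2 * r * Real.cos t + r ^ 2 :=
  lt_of_lt_of_le (by nlinarith [sub_pos.2 hr1]) (Pden_ge hr0 t)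

lemma P_nonneg {r : ℝ} (hr0 : 0 ≤ r) (hr1 : r < 1) (t : ℝ) : 0 ≤ P r t := by
  unfold P
  exact div_nonneg (by nlinarith) (Pden_pos hr0 hr1 t).le

lemma P_le {r : ℝ} (hr0 : 0 ≤ r) (hr1 : r < 1) (t : ℝ) : P r t ≤ 2 / (1 - r) := by
  unfold P
  have h1 : 0 < 1 - r := by linarith
  rw [div_le_div_iff₀ (Pden_pos hr0 hr1 t) h1]
  have := Pden_ge hr0 t
  nlinarith

lemma P_continuous {r : ℝ} (hr0 : 0 ≤ r) (hr1 : r < 1) : Continuous (P r) := by
  unfold P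
  refine Continuous.div (by fun_prop) (by fun_prop) fun t => (Pden_pos hr0 hr1 t).ne'

lemma P_lip {r : ℝ} (hr0 : 0 ≤ r) (hr1 : r < 1) (s t : ℝ) :
    |P r s - P r t| ≤ 4 / (1 - r) ^ 3 * |s - t| := by
  have h1 : 0 < 1 - r := by linarith
  have hs := Pden_pos hr0 hr1 s
  have ht := Pden_pos hr0 hr1 t
  have hs' := Pden_ge hr0 s
  have ht' := Pden_ge hr0 t
  have hc : |Real.cos s - Real.cos t| ≤ |s - t| := Real.abs_cos_sub_cos_le s t
  have e : P r s - P r t = (1 - r ^ 2) * (2 * r * (Real.cos s - Real.cos t)) /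
      ((1 - 2 * r * Real.cos s + r ^ 2) * (1 - 2 * r * Real.cos t + r ^ 2)) := by
    unfold P
    rw [div_sub_div _ _ hs.ne' ht.ne']
    congr 1
    ring
  rw [e, abs_div, abs_of_pos (mul_pos hs ht), div_le_iff₀ (mul_pos hs ht), abs_mul, abs_mul,
    abs_of_nonneg (by nlinarith : (0:ℝ) ≤ 1 - r ^ 2), abs_of_nonneg (by linarith : (0:ℝ) ≤ 2 * r)]
  have hprod : (1 - r) ^ 2 * (1 - r) ^ 2 ≤
      (1 - 2 * r * Real.cos s + r ^ 2) * (1 - 2 * r * Real.cos t + r ^ 2) :=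
    mul_le_mul hs' ht' (by positivity) hs.le
  have h2 : 4 / (1 - r) ^ 3 * |s - t| * ((1 - r) ^ 2 * (1 - r) ^ 2) = 4 * (1 - r) * |s - t| := by
    field_simp
  have h3 : 4 / (1 - r) ^ 3 * |s - t| * ((1 - r) ^ 2 * (1 - r) ^ 2) ≤ 4 / (1 - r) ^ 3 * |s - t| *
      ((1 - 2 * r * Real.cos s + r ^ 2) * (1 - 2 * r * Real.cos t + r ^ 2)) :=
    mul_le_mul_of_nonneg_left hprod (by positivity)
  refine le_trans ?_ h3
  rw [h2]
  have h4 : (1 - r ^ 2) * (2 * r * |Real.cos s - Real.cos t|) ≤ (1 - r ^ 2) * (2 * r * |s - t|) := by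
    apply mul_le_mul_of_nonneg_left _ (by nlinarith)
    apply mul_le_mul_of_nonneg_left hc (by linarith)
  refine le_trans h4 ?_
  have h5 : (1 - r ^ 2) * (2 * r) ≤ 4 * (1 - r) := by nlinarith
  nlinarith [abs_nonneg (s - t)]

lemma P_periodic (r : ℝ) : Function.Periodic (P r) (2 * π) := by
  intro t
  unfold P
  rw [Real.cos_add_two_pi]

lemma integral_P {r : ℝ} (hr0 : 0 ≤ r) (hr1 : r < 1) :
    ∫ θ in (0:ℝ)..2 * π, P r θ = 2 * π := by
  have hf : DiffContOnCl ℂ (fun _ : ℂ => (1:ℂ)) (Metric.ball 0 1) := diffContOnCl_const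
  have h := hf.circleAverage_poissonKernel_smul' (w := (r:ℂ)) (by
    rw [mem_ball_zero_iff, Complex.norm_real, Real.norm_eq_abs, abs_of_nonneg hr0]; exact hr1)
  rw [Real.circleAverage_def] at h
  have e : ∀ θ : ℝ, ((‖circleMap 0 1 θ - 0‖ ^ 2 - ‖(r:ℂ) - 0‖ ^ 2) /
      ‖(circleMap 0 1 θ - 0) - ((r:ℂ) - 0)‖ ^ 2) • (1:ℂ) = ((P r θ : ℝ) : ℂ) := by
    intro θ
    have e1 : ‖circleMap 0 1 θ - 0‖ ^ 2 = 1 := by simp [circleMap]
    have e2 : ‖(r:ℂ) - 0‖ ^ 2 = r ^ 2 := by simp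
    have e3 : ‖(circleMap 0 1 θ - 0) - ((r:ℂ) - 0)‖ ^ 2 = 1 - 2 * r * Real.cos θ + r ^ 2 := by
      rw [← Complex.normSq_eq_norm_sq, Complex.normSq_apply]
      simp only [circleMap, zero_add, Complex.ofReal_one, one_mul, sub_zero, Complex.sub_re,
        Complex.sub_im, Complex.ofReal_re, Complex.ofReal_im, Complex.exp_ofReal_mul_I_re,
        Complex.exp_ofReal_mul_I_im]
      nlinarith [Real.sin_sq_add_cos_sq θ]
    rw [e1, e2, e3]
    unfold P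
    simp
  simp_rw [e] at h
  rw [intervalIntegral.integral_ofReal] at h
  have h2 : (2 * π)⁻¹ * ∫ θ in (0:ℝ)..2 * π, P r θ = 1 := by
    have h3 := congrArg Complex.re h
    simpa using h3
  have hpi : (0:ℝ) < 2 * π := by positivity
  field_simp at h2
  linarith

lemma key_cos (θ η : ℝ) :
    (Real.sin θ + Real.sin η) ^ 2 ≤ 2 * (1 - Real.cos (θ + η)) := by
  rw [Real.cos_add]
  nlinarith [sq_nonneg (Real.cos θ - Real.cos η), Real.sin_sq_add_cos_sq θ,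
    Real.sin_sq_add_cos_sq η]

lemma Pden_ge' {r : ℝ} (hr0 : 0 ≤ r) (θ η : ℝ) :
    (1 - r) ^ 2 + r * (Real.sin θ + Real.sin η) ^ 2 ≤ 1 - 2 * r * Real.cos (θ + η) + r ^ 2 := by
  nlinarith [key_cos θ η, mul_le_mul_of_nonneg_left (key_cos θ η) hr0]

lemma P_mul_sin_le {r : ℝ} (hr0 : 1 / 4 ≤ r) (hr1 : r < 1) {θ η : ℝ}
    (h1 : 0 ≤ Real.sin θ) (h2 : 0 ≤ Real.sin η) : P r (θ + η) * Real.sin θ ≤ 2 := by
  unfold P
  have hd := Pden_pos (by linarith : 0 ≤ r) hr1 (θ + η)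
  have hd' := Pden_ge' (by linarith : 0 ≤ r) θ η
  rw [div_mul_eq_mul_div, div_le_iff₀ hd]
  set S := Real.sin θ + Real.sin η with hS
  have hS0 : Real.sin θ ≤ S := by linarith
  have hSn : 0 ≤ S := by linarith
  have h3 : (1 - r) * S ≤ (1 - r) ^ 2 + r * S ^ 2 := by
    nlinarith [sq_nonneg ((1 - r) - S / 2), sq_nonneg S]
  have h4 : (1 - r ^ 2) * Real.sin θ ≤ 2 * ((1 - r) * S) := by
    have : (1 - r ^ 2) * Real.sin θ ≤ (1 - r ^ 2) * S :=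
      mul_le_mul_of_nonneg_left hS0 (by nlinarith)
    have h5 : (1 - r ^ 2) * S ≤ 2 * (1 - r) * S := by
      apply mul_le_mul_of_nonneg_right _ hSn
      nlinarith
    nlinarith
  linarith

lemma P_le_of_sin {r q : ℝ} (hr0 : 1 / 4 ≤ r) (hr1 : r < 1) (hq : 0 < q) {θ η : ℝ}
    (h1 : 0 ≤ Real.sin θ) (h2 : q ≤ Real.sin η) : P r (θ + η) ≤ 8 * (1 - r) / q ^ 2 := by
  unfold P
  have hd := Pden_pos (by linarith : 0 ≤ r) hr1 (θ + η)
  have hd' := Pden_ge' (by linarith : 0 ≤ r) θ η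
  rw [div_le_div_iff₀ hd (by positivity)]
  set S := Real.sin θ + Real.sin η with hS
  have hS0 : q ≤ S := by linarith
  have h3 : q ^ 2 ≤ S ^ 2 := by nlinarith
  have h4 : q ^ 2 / 4 ≤ 1 - 2 * r * Real.cos (θ + η) + r ^ 2 := by
    nlinarith [sq_nonneg (1 - r), sq_nonneg S]
  have h5 : 0 < 1 - r := by linarith
  have h6 : (1 - r ^ 2) * q ^ 2 ≤ 2 * (1 - r) * q ^ 2 := by
    apply mul_le_mul_of_nonneg_right _ (by positivity)
    nlinarith
  nlinarith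

end ErdosLag.LO
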