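import Pool.Agent.W_MP_93ab53_an.Leftover1

/-!
Integrals against the Poisson kernel, the bad nodes (used for the leftover term).
-/

namespace ErdosLag.LO

open Real MeasureTheory intervalIntegral Finset Polynomial

lemma integral_P_shift_le {r : ℝ} (hr0 : 0 ≤ r) (hr1 : r < 1) {η : ℝ} (h0 : 0 ≤ η) (h1 : η ≤ π) :
    ∫ θ in (0:ℝ)..π, P r (θ + η) ≤ 2 * π := by
  rw [intervalIntegral.integral_comp_add_right (fun t => P r t) η]
  rw [← integral_P hr0 hr1]
  have hc := P_continuous hr0 hr1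
  have hi : ∀ a b, IntervalIntegrable (P r) volume a b := fun a b => hc.intervalIntegrable a b
  have e1 : ∫ θ in (0:ℝ)..2 * π, P r θ =
      (∫ θ in (0:ℝ)..(0 + η), P r θ) + (∫ θ in (0 + η)..(π + η), P r θ) +
      ∫ θ in (π + η)..2 * π, P r θ := by
    rw [intervalIntegral.integral_add_adjacent_intervals (hi _ _) (hi _ _),
      intervalIntegral.integral_add_adjacent_intervals (hi _ _) (hi _ _)]
  rw [e1]
  have n1 : 0 ≤ ∫ θ in (0:ℝ)..(0 + η), P r θ :=
    intervalIntegral.integral_nonneg (by linarith) fun t _ => P_nonneg hr0 hr1 t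
  have n2 : 0 ≤ ∫ θ in (π + η)..2 * π, P r θ :=
    intervalIntegral.integral_nonneg (by linarith) fun t _ => P_nonneg hr0 hr1 t
  linarith

/-- The function to which the singular integral bound is applied. -/
noncomputable def Fk (r η θ : ℝ) : ℝ := P r (θ + η) * max (Real.sin θ) 0

lemma Fk_nonneg {r : ℝ} (hr0 : 0 ≤ r) (hr1 : r < 1) (η θ : ℝ) : 0 ≤ Fk r η θ :=
  mul_nonneg (P_nonneg hr0 hr1 _) (le_max_right _ _)

lemma Fk_le {r : ℝ} (hr0 : 1 / 4 ≤ r) (hr1 : r < 1) {η : ℝ} (h : 0 ≤ Real.sin η) (θ : ℝ) :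
    |Fk r η θ| ≤ 2 := by
  rw [abs_of_nonneg (Fk_nonneg (by linarith) hr1 _ _)]
  unfold Fk
  rcases le_total (Real.sin θ) 0 with h1 | h1
  · rw [max_eq_right h1]; norm_num
  · rw [max_eq_left h1]; exact P_mul_sin_le hr0 hr1 h1 h

lemma Fk_le' {r q : ℝ} (hr0 : 1 / 4 ≤ r) (hr1 : r < 1) (hq : 0 < q) {η : ℝ}
    (h : q ≤ Real.sin η) (θ : ℝ) : |Fk r η θ| ≤ 8 * (1 - r) / q ^ 2 := by
  rw [abs_of_nonneg (Fk_nonneg (by linarith) hr1 _ _)]
  have h0 : 0 ≤ 8 * (1 - r) / q ^ 2 := div_nonneg (by linarith) (by positivity)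
  unfold Fk
  rcases le_total (Real.sin θ) 0 with h1 | h1
  · rw [max_eq_right h1, mul_zero]; exact h0
  · rw [max_eq_left h1]
    have := P_le_of_sin hr0 hr1 hq h1 h
    calc P r (θ + η) * Real.sin θ ≤ 8 * (1 - r) / q ^ 2 * 1 :=
          mul_le_mul this (Real.sin_le_one θ) h1 h0
      _ = _ := mul_one _

lemma Fk_lip {r : ℝ} (hr0 : 0 ≤ r) (hr1 : r < 1) (η s t : ℝ) :
    |Fk r η s - Fk r η t| ≤ 6 / (1 - r) ^ 3 * |s - t| := by
  have h1 : 0 < 1 - r := by linarith
  have e : Fk r η s - Fk r η t = (P r (s + η) - P r (t + η)) * max (Real.sin s) 0 +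
      P r (t + η) * (max (Real.sin s) 0 - max (Real.sin t) 0) := by
    unfold Fk; ring
  rw [e]
  have hm0 : 0 ≤ max (Real.sin s) 0 := le_max_right _ _
  have hm1 : max (Real.sin s) 0 ≤ 1 := max_le (Real.sin_le_one s) zero_le_one
  have hm2 : |max (Real.sin s) 0 - max (Real.sin t) 0| ≤ |s - t| := by
    refine le_trans (abs_max_sub_max_le_abs _ _ _) (Real.abs_sin_sub_sin_le s t)
  have hp := P_lip hr0 hr1 (s + η) (t + η)
  have hst : s + η - (t + η) = s - t := by ring
  rw [hst] at hp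
  have h2 : |(P r (s + η) - P r (t + η)) * max (Real.sin s) 0| ≤ 4 / (1 - r) ^ 3 * |s - t| := by
    rw [abs_mul, abs_of_nonneg hm0]
    calc |P r (s + η) - P r (t + η)| * max (Real.sin s) 0
        ≤ (4 / (1 - r) ^ 3 * |s - t|) * 1 :=
          mul_le_mul hp hm1 hm0 (by positivity)
      _ = _ := mul_one _
  have h3 : |P r (t + η) * (max (Real.sin s) 0 - max (Real.sin t) 0)| ≤
      2 / (1 - r) ^ 3 * |s - t| := by
    rw [abs_mul, abs_of_nonneg (P_nonneg hr0 hr1 _)]
    have hle : P r (t + η) ≤ 2 / (1 - r) ^ 3 := by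
      refine le_trans (P_le hr0 hr1 _) ?_
      apply div_le_div_of_nonneg_left (by norm_num) (by positivity)
      calc (1 - r) ^ 3 = (1 - r) * (1 - r) ^ 2 := by ring
        _ ≤ (1 - r) * 1 := by
          apply mul_le_mul_of_nonneg_left _ h1.le
          nlinarith
        _ = _ := mul_one _
    exact mul_le_mul hle hm2 (abs_nonneg _) (by positivity)
  calc _ ≤ _ := abs_add_le _ _
    _ ≤ 4 / (1 - r) ^ 3 * |s - t| + 2 / (1 - r) ^ 3 * |s - t| := add_le_add h2 h3
    _ = _ := by ring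

lemma Fk_continuous {r : ℝ} (hr0 : 0 ≤ r) (hr1 : r < 1) (η : ℝ) : Continuous (Fk r η) := by
  unfold Fk
  exact ((P_continuous hr0 hr1).comp (continuous_id.add continuous_const)).mul
    (Real.continuous_sin.max continuous_const)

lemma D_continuous (n : ℕ) : Continuous (D n) := by
  unfold D
  fun_prop

lemma D_periodic (n : ℕ) (t : ℝ) : D n (t + 2 * π) = D n t := by
  unfold D
  congr 1
  · congr 2
    refine Finset.sum_congr rfl fun m _ => ?_
    rw [mul_add, show (m:ℝ) * (2 * π) = m * (2 * π) from rfl, Real.cos_add_nat_mul_two_pi]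
  · rw [mul_add, Real.cos_add_nat_mul_two_pi]

lemma shift_integral {r : ℝ} (hr0 : 0 ≤ r) (hr1 : r < 1) (n : ℕ) (η : ℝ) :
    ∫ θ in (0:ℝ)..π, D n (θ - η) * Real.cos (n * (θ + η)) * P r (θ + η) * Real.sin θ =
      ∫ t in (-π)..π, D n t * Real.cos (n * t + 2 * n * η) * Fk r η (η + t) := by
  set g : ℝ → ℝ := fun θ => D n (θ - η) * Real.cos (n * (θ + η)) * Fk r η θ with hg
  have hgc : Continuous g := by
    rw [hg]
    exact (((D_continuous n).comp (continuous_id.sub continuous_const)).mul (by fun_prop)).mul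
      (Fk_continuous hr0 hr1 η)
  have hgp : Function.Periodic g (2 * π) := by
    intro θ
    simp only [hg]
    have e1 : D n (θ + 2 * π - η) = D n (θ - η) := by
      rw [show θ + 2 * π - η = (θ - η) + 2 * π by ring, D_periodic]
    have e2 : Real.cos (n * (θ + 2 * π + η)) = Real.cos (n * (θ + η)) := by
      rw [show (n:ℝ) * (θ + 2 * π + η) = n * (θ + η) + n * (2 * π) by ring,
        Real.cos_add_nat_mul_two_pi]
    have e3 : Fk r η (θ + 2 * π) = Fk r η θ := by
      unfold Fk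
      rw [Real.sin_add_two_pi, show θ + 2 * π + η = (θ + η) + 2 * π by ring, P_periodic r (θ + η)]
    rw [e1, e2, e3]
  have hi : ∀ a b, IntervalIntegrable g volume a b := fun a b => hgc.intervalIntegrable a b
  have e1 : ∫ θ in (0:ℝ)..π, D n (θ - η) * Real.cos (n * (θ + η)) * P r (θ + η) * Real.sin θ =
      ∫ θ in (0:ℝ)..π, g θ := by
    refine intervalIntegral.integral_congr fun θ hθ => ?_
    rw [Set.uIcc_of_le Real.pi_pos.le] at hθ
    simp only [hg, Fk]
    rw [max_eq_left (Real.sin_nonneg_of_mem_Icc hθ)]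
    ring
  have e2 : ∫ θ in (-π)..0, g θ = 0 := by
    rw [intervalIntegral.integral_congr (g := fun _ => (0:ℝ))]
    · simp
    · intro θ hθ
      rw [Set.uIcc_of_le (by linarith [Real.pi_pos])] at hθ
      simp only [hg, Fk]
      rw [max_eq_right (Real.sin_nonpos_of_nonpos_of_neg_pi_le hθ.2 hθ.1)]
      ring
  have e3 : ∫ θ in (-π)..π, g θ = ∫ θ in (0:ℝ)..π, g θ := by
    rw [← intervalIntegral.integral_add_adjacent_intervals (hi (-π) 0) (hi 0 π), e2, zero_add]
  have e4 : ∫ θ in (-π)..π, g θ = ∫ θ in (η - π)..(η + π), g θ := by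
    have h1 := hgp.intervalIntegral_add_eq (-π) (η - π)
    rw [show -π + 2 * π = π by ring, show η - π + 2 * π = η + π by ring] at h1
    exact h1
  have e5 : ∫ t in (-π)..π, D n t * Real.cos (n * t + 2 * n * η) * Fk r η (η + t) =
      ∫ t in (-π)..π, g (η + t) := by
    refine intervalIntegral.integral_congr fun t _ => ?_
    simp only [hg]
    rw [show η + t - η = t by ring, show (n:ℝ) * (η + t + η) = n * t + 2 * n * η by ring]
  rw [e1, ← e3, e4, e5, intervalIntegral.integral_comp_add_left (fun t => g t) η]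
  rfl

end ErdosLag.LO
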