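import Pool.Agent.W_MP_93ab53_an.Leftover2

/-!
The leftover term of the certificate kernel.
-/

namespace ErdosLag.LO

open Real MeasureTheory intervalIntegral Finset Polynomial

lemma bad_count (h1 : Equidist) {q : ℝ} (hq : 0 < q) (hq' : q ≤ 1 / 2) :
    ∃ N : ℕ, ∀ n ≥ N, ∀ x : Fin n → ℝ, Nodes x → I x ≤ 2 →
      ((Finset.univ.filter fun k => Real.sin (th x k) < q).card : ℝ) ≤ 5 * q * n := by
  set f : ℝ → ℝ := fun θ => max 0 (2 - Real.sin θ / q) with hf
  have hfc : Continuous f := by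
    rw [hf]; exact continuous_const.max (by fun_prop)
  have hpi := Real.pi_pos
  have hi : ∀ a b, IntervalIntegrable f volume a b := fun a b => hfc.intervalIntegrable a b
  have hf2 : ∀ θ ∈ Set.Icc 0 π, f θ ≤ 2 := by
    intro θ hθ
    have := Real.sin_nonneg_of_mem_Icc hθ
    simp only [hf]
    apply max_le (by norm_num)
    have : 0 ≤ Real.sin θ / q := div_nonneg this hq.le
    linarith
  have hf0 : ∀ θ, 0 ≤ f θ := fun θ => le_max_left _ _
  have hmid : ∀ θ ∈ Set.Icc (π * q) (π - π * q), f θ = 0 := by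
    intro θ hθ
    have hs : 2 * q ≤ Real.sin θ := by
      rcases le_total θ (π / 2) with h | h
      · have h3 := Real.mul_le_sin (by nlinarith [hθ.1] : 0 ≤ θ) h
        refine le_trans ?_ h3
        rw [div_mul_eq_mul_div, le_div_iff₀ hpi]
        nlinarith [hθ.1]
      · have h3 := Real.mul_le_sin (by nlinarith [hθ.2] : 0 ≤ π - θ) (by linarith)
        rw [Real.sin_pi_sub] at h3
        refine le_trans ?_ h3
        rw [div_mul_eq_mul_div, le_div_iff₀ hpi]
        nlinarith [hθ.2]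
    simp only [hf]
    apply max_eq_left
    have : 2 ≤ Real.sin θ / q := by rw [le_div_iff₀ hq]; linarith
    linarith
  have hint : ∫ θ in (0:ℝ)..π, f θ ≤ 4 * π * q := by
    have e : ∫ θ in (0:ℝ)..π, f θ = (∫ θ in (0:ℝ)..(π * q), f θ) +
        (∫ θ in (π * q)..(π - π * q), f θ) + ∫ θ in (π - π * q)..π, f θ := by
      rw [intervalIntegral.integral_add_adjacent_intervals (hi _ _) (hi _ _),
        intervalIntegral.integral_add_adjacent_intervals (hi _ _) (hi _ _)]
    have e1 : ∫ θ in (0:ℝ)..(π * q), f θ ≤ 2 * (π * q) := by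
      have := intervalIntegral.integral_mono_on (by positivity : (0:ℝ) ≤ π * q) (hi 0 (π * q))
        (intervalIntegrable_const (c := (2:ℝ))) fun θ hθ => hf2 θ ⟨hθ.1, by nlinarith [hθ.2]⟩
      simpa [mul_comm] using this
    have e3 : ∫ θ in (π - π * q)..π, f θ ≤ 2 * (π * q) := by
      have := intervalIntegral.integral_mono_on (by nlinarith : π - π * q ≤ π)
        (hi (π - π * q) π)
        (intervalIntegrable_const (c := (2:ℝ))) fun θ hθ => hf2 θ ⟨by nlinarith [hθ.1], hθ.2⟩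
      simpa [mul_comm] using this
    have e2 : ∫ θ in (π * q)..(π - π * q), f θ = 0 := by
      rw [intervalIntegral.integral_congr (g := fun _ => (0:ℝ))]
      · simp
      · intro θ hθ
        rw [Set.uIcc_of_le (by nlinarith)] at hθ
        exact hmid θ hθ
    rw [e, e2]
    linarith
  obtain ⟨N, hN⟩ := h1 f hfc.continuousOn q hq
  refine ⟨max N 1, fun n hn x hx hI => ?_⟩
  have hn0 : (0:ℝ) < n := by
    have : 1 ≤ n := le_trans (le_max_right _ _) hn
    exact_mod_cast this
  have h3 := hN n (le_trans (le_max_left _ _) hn) x hx hI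
  have h4 : (∑ k, f (th x k)) / n ≤ 5 * q := by
    have h5 := (abs_le.1 h3).2
    have h6 : 1 / π * ∫ θ in (0:ℝ)..π, f θ ≤ 4 * q := by
      rw [one_div, inv_mul_le_iff₀ hpi]
      linarith
    linarith
  rw [div_le_iff₀ hn0] at h4
  refine le_trans ?_ h4
  rw [Finset.card_eq_sum_ones, Nat.cast_sum]
  refine le_trans ?_ (Finset.sum_le_sum_of_subset_of_nonneg
    (Finset.filter_subset (fun k => Real.sin (th x k) < q) Finset.univ) fun k _ _ => hf0 _)
  refine Finset.sum_le_sum fun k hk => ?_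
  rw [Finset.mem_filter] at hk
  simp only [hf, Nat.cast_one]
  apply le_max_of_le_right
  have : Real.sin (th x k) / q ≤ 1 := by rw [div_le_one hq]; exact hk.2.le
  linarith

section pieces

variable {n : ℕ}

noncomputable def Xk (r : ℝ) (x : Fin n → ℝ) (k : Fin n) : ℝ :=
  ∫ θ in (0:ℝ)..π, (L x k (Real.cos θ) - tau n θ (th x k)) * Real.cos (n * (θ + th x k)) *
    P r (θ + th x k) * Real.sin θ

noncomputable def Yk (r : ℝ) (n : ℕ) (η : ℝ) : ℝ :=
  ∫ θ in (0:ℝ)..π, D n (θ - η) * Real.cos (n * (θ + η)) * P r (θ + η) * Real.sin θ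

noncomputable def Zk (r : ℝ) (n : ℕ) (η : ℝ) : ℝ :=
  ∫ θ in (0:ℝ)..π, Real.cos (n * (θ + η)) ^ 2 * P r (θ + η) * Real.sin θ

noncomputable def Wk (r : ℝ) (x : Fin n → ℝ) (k : Fin n) : ℝ :=
  ∫ θ in (0:ℝ)..π, L x k (Real.cos θ) * (P r (θ - th x k) + P r (θ + th x k)) * Real.sin θ

noncomputable def Ek (x : Fin n → ℝ) (k : Fin n) : ℝ :=
  ∫ θ in (0:ℝ)..π, (L x k (Real.cos θ) - tau n θ (th x k)) ^ 2 * Real.sin θ

noncomputable def Qk (r : ℝ) (η : ℝ) : ℝ :=
  ∫ θ in (0:ℝ)..π, P r (θ + η) ^ 2 * Real.sin θ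

lemma cont_L (x : Fin n → ℝ) (k : Fin n) : Continuous fun θ => L x k (Real.cos θ) :=
  (continuous_L x k).comp Real.continuous_cos

lemma cont_P_add {r : ℝ} (hr0 : 0 ≤ r) (hr1 : r < 1) (η : ℝ) : Continuous fun θ => P r (θ + η) :=
  (P_continuous hr0 hr1).comp (continuous_id.add continuous_const)

lemma cont_P_sub {r : ℝ} (hr0 : 0 ≤ r) (hr1 : r < 1) (η : ℝ) : Continuous fun θ => P r (θ - η) :=
  (P_continuous hr0 hr1).comp (continuous_id.sub continuous_const)

lemma cont_D_sub (n : ℕ) (η : ℝ) : Continuous fun θ => D n (θ - η) :=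
  (D_continuous n).comp (continuous_id.sub continuous_const)

lemma cont_tau (n : ℕ) (η : ℝ) : Continuous fun θ => tau n θ η := by
  unfold tau
  exact ((cont_D_sub n η).sub (by fun_prop)).div_const _

lemma split_k {r : ℝ} (hr0 : 0 ≤ r) (hr1 : r < 1) (hn : 1 ≤ n) (x : Fin n → ℝ) (k : Fin n) :
    ∫ θ in (0:ℝ)..π, L x k (Real.cos θ) * rho r n θ (th x k) * Real.sin θ =
      Xk r x k / (2 * n) + (Yk r n (th x k) - Zk r n (th x k)) / (4 * n ^ 2)
        - r ^ n / (4 * n) * Wk r x k := by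
  have hn0 : (n:ℝ) ≠ 0 := by
    have : 0 < n := hn
    exact_mod_cast this.ne'
  have c1 := cont_L x k
  have c2 := cont_P_add hr0 hr1 (th x k)
  have c3 := cont_P_sub hr0 hr1 (th x k)
  have c4 := cont_D_sub n (th x k)
  have c5 := cont_tau n (th x k)
  have c6 : Continuous fun θ : ℝ => Real.cos (n * (θ + th x k)) := by fun_prop
  have c7 := Real.continuous_sin
  have i1 : IntervalIntegrable (fun θ => (L x k (Real.cos θ) - tau n θ (th x k)) *
      Real.cos (n * (θ + th x k)) * P r (θ + th x k) * Real.sin θ / (2 * n)) volume 0 π :=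
    Continuous.intervalIntegrable (by fun_prop) _ _
  have i2 : IntervalIntegrable (fun θ => D n (θ - th x k) * Real.cos (n * (θ + th x k)) *
      P r (θ + th x k) * Real.sin θ) volume 0 π :=
    Continuous.intervalIntegrable (by fun_prop) _ _
  have i3 : IntervalIntegrable (fun θ => Real.cos (n * (θ + th x k)) ^ 2 *
      P r (θ + th x k) * Real.sin θ) volume 0 π :=
    Continuous.intervalIntegrable (by fun_prop) _ _
  have i4 : IntervalIntegrable (fun θ => (D n (θ - th x k) * Real.cos (n * (θ + th x k)) *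
      P r (θ + th x k) * Real.sin θ - Real.cos (n * (θ + th x k)) ^ 2 *
      P r (θ + th x k) * Real.sin θ) / (4 * n ^ 2)) volume 0 π :=
    (i2.sub i3).div_const _
  have i5 : IntervalIntegrable (fun θ => r ^ n / (4 * n) * (L x k (Real.cos θ) *
      (P r (θ - th x k) + P r (θ + th x k)) * Real.sin θ)) volume 0 π :=
    Continuous.intervalIntegrable (by fun_prop) _ _
  unfold Xk Yk Zk Wk
  rw [← intervalIntegral.integral_sub i2 i3,
    ← intervalIntegral.integral_div, ← intervalIntegral.integral_div,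
    ← intervalIntegral.integral_const_mul,
    ← intervalIntegral.integral_add i1 i4,
    ← intervalIntegral.integral_sub (i1.add i4) i5]
  refine intervalIntegral.integral_congr fun θ _ => ?_
  simp only [tau, rho]
  field_simp
  ring

lemma abs_integral_le_of {f g : ℝ → ℝ} (hf : Continuous f) (hg : Continuous g)
    (h : ∀ θ ∈ Set.Icc 0 π, |f θ| ≤ g θ) :
    |∫ θ in (0:ℝ)..π, f θ| ≤ ∫ θ in (0:ℝ)..π, g θ := by
  refine le_trans (intervalIntegral.abs_integral_le_integral_abs Real.pi_pos.le) ?_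
  exact intervalIntegral.integral_mono_on Real.pi_pos.le (hf.abs.intervalIntegrable _ _)
    (hg.intervalIntegrable _ _) h

lemma Xk_le {r : ℝ} (hr0 : 0 ≤ r) (hr1 : r < 1) (x : Fin n → ℝ) (k : Fin n) {α : ℝ}
    (hα : 0 < α) : |Xk r x k| ≤ α / 2 * Ek x k + 1 / (2 * α) * Qk r (th x k) := by
  have c1 := cont_L x k
  have c2 := cont_P_add hr0 hr1 (th x k)
  have c5 := cont_tau n (th x k)
  have c6 : Continuous fun θ : ℝ => Real.cos (n * (θ + th x k)) := by fun_prop
  have c7 := Real.continuous_sin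
  unfold Xk Ek Qk
  have i1 : IntervalIntegrable (fun θ => α / 2 * ((L x k (Real.cos θ) - tau n θ (th x k)) ^ 2 *
      Real.sin θ)) volume 0 π := Continuous.intervalIntegrable (by fun_prop) _ _
  have i2 : IntervalIntegrable (fun θ => 1 / (2 * α) * (P r (θ + th x k) ^ 2 *
      Real.sin θ)) volume 0 π := Continuous.intervalIntegrable (by fun_prop) _ _
  rw [← intervalIntegral.integral_const_mul, ← intervalIntegral.integral_const_mul,
    ← intervalIntegral.integral_add i1 i2]
  refine abs_integral_le_of (by fun_prop) (by fun_prop) ?_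
  intro θ hθ
  have hs := Real.sin_nonneg_of_mem_Icc hθ
  have hc : |Real.cos (n * (θ + th x k))| ≤ 1 := Real.abs_cos_le_one _
  have hP := P_nonneg hr0 hr1 (θ + th x k)
  set a := L x k (Real.cos θ) - tau n θ (th x k)
  set c := Real.cos (n * (θ + th x k))
  set p := P r (θ + th x k)
  rw [abs_mul, abs_mul, abs_mul, abs_of_nonneg hs, abs_of_nonneg hP]
  have h1 : |a| * |c| * p ≤ |a| * p := by
    have : |a| * |c| ≤ |a| * 1 := mul_le_mul_of_nonneg_left hc (abs_nonneg _)
    rw [mul_one] at this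
    exact mul_le_mul_of_nonneg_right this hP
  have h2 : |a| * p ≤ α / 2 * a ^ 2 + 1 / (2 * α) * p ^ 2 := by
    rw [← sq_abs a]
    have h3 : α / 2 * |a| ^ 2 + 1 / (2 * α) * p ^ 2 - |a| * p = (α * |a| - p) ^ 2 / (2 * α) := by
      field_simp
      ring
    have h4 : 0 ≤ (α * |a| - p) ^ 2 / (2 * α) := by positivity
    linarith
  calc |a| * |c| * p * Real.sin θ ≤ (α / 2 * a ^ 2 + 1 / (2 * α) * p ^ 2) * Real.sin θ :=
        mul_le_mul_of_nonneg_right (h1.trans h2) hs
    _ = _ := by ring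

lemma Qk_le {r : ℝ} (hr0 : 1 / 4 ≤ r) (hr1 : r < 1) {η : ℝ} (h0 : 0 ≤ η) (h1 : η ≤ π) :
    Qk r η ≤ 4 * π := by
  have hr0' : 0 ≤ r := by linarith
  have c2 := cont_P_add hr0' hr1 η
  have c7 := Real.continuous_sin
  have h := integral_P_shift_le hr0' hr1 h0 h1
  have h2 : Qk r η ≤ ∫ θ in (0:ℝ)..π, 2 * P r (θ + η) := by
    unfold Qk
    refine intervalIntegral.integral_mono_on Real.pi_pos.le
      (Continuous.intervalIntegrable ((c2.pow 2).mul c7) _ _)
      (Continuous.intervalIntegrable (c2.const_mul 2) _ _) fun θ hθ => ?_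
    have hs := Real.sin_nonneg_of_mem_Icc hθ
    have hs' := Real.sin_nonneg_of_mem_Icc (show η ∈ Set.Icc 0 π from ⟨h0, h1⟩)
    have := P_mul_sin_le hr0 hr1 hs hs'
    have hP := P_nonneg hr0' hr1 (θ + η)
    nlinarith
  rw [intervalIntegral.integral_const_mul] at h2
  linarith

lemma Qk_le' {r q : ℝ} (hr0 : 1 / 4 ≤ r) (hr1 : r < 1) (hq : 0 < q) {η : ℝ}
    (h : q ≤ Real.sin η) : Qk r η ≤ π * (8 * (1 - r) / q ^ 2) ^ 2 := by
  have hr0' : 0 ≤ r := by linarith
  have c2 := cont_P_add hr0' hr1 η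
  have c7 := Real.continuous_sin
  have h2 : Qk r η ≤ ∫ θ in (0:ℝ)..π, (8 * (1 - r) / q ^ 2) ^ 2 := by
    unfold Qk
    refine intervalIntegral.integral_mono_on Real.pi_pos.le
      (Continuous.intervalIntegrable ((c2.pow 2).mul c7) _ _)
      (Continuous.intervalIntegrable continuous_const _ _) fun θ hθ => ?_
    have hs := Real.sin_nonneg_of_mem_Icc hθ
    have := P_le_of_sin hr0 hr1 hq hs h
    have hP := P_nonneg hr0' hr1 (θ + η)
    calc P r (θ + η) ^ 2 * Real.sin θ ≤ (8 * (1 - r) / q ^ 2) ^ 2 * 1 :=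
          mul_le_mul (pow_le_pow_left₀ hP this 2) (Real.sin_le_one _) hs (by positivity)
      _ = _ := mul_one _
  simpa using h2

lemma Zk_le {r : ℝ} (hr0 : 1 / 4 ≤ r) (hr1 : r < 1) (n : ℕ) {η : ℝ} (h0 : 0 ≤ Real.sin η) :
    |Zk r n η| ≤ 2 * π := by
  have hr0' : 0 ≤ r := by linarith
  have c2 := cont_P_add hr0' hr1 η
  have c6 : Continuous fun θ : ℝ => Real.cos (n * (θ + η)) := by fun_prop
  have c7 := Real.continuous_sin
  unfold Zk
  have h2 := abs_integral_le_of
    (show Continuous fun θ => Real.cos (n * (θ + η)) ^ 2 * P r (θ + η) * Real.sin θ by fun_prop)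
    (continuous_const : Continuous fun _ : ℝ => (2:ℝ)) (fun θ hθ => by
      have hs := Real.sin_nonneg_of_mem_Icc hθ
      have hP := P_nonneg hr0' hr1 (θ + η)
      have h3 := P_mul_sin_le hr0 hr1 hs h0
      have hc : Real.cos (n * (θ + η)) ^ 2 ≤ 1 := Real.cos_sq_le_one _
      have h4 : 0 ≤ P r (θ + η) * Real.sin θ := mul_nonneg hP hs
      rw [abs_of_nonneg (by positivity)]
      have h5 : Real.cos (n * (θ + η)) ^ 2 * (P r (θ + η) * Real.sin θ) ≤
          1 * (P r (θ + η) * Real.sin θ) := mul_le_mul_of_nonneg_right hc h4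
      nlinarith)
  refine h2.trans ?_
  simp [mul_comm]

lemma Zk_le' {r q : ℝ} (hr0 : 1 / 4 ≤ r) (hr1 : r < 1) (hq : 0 < q) (n : ℕ) {η : ℝ}
    (h : q ≤ Real.sin η) : |Zk r n η| ≤ π * (8 * (1 - r) / q ^ 2) := by
  have hr0' : 0 ≤ r := by linarith
  have c2 := cont_P_add hr0' hr1 η
  have c6 : Continuous fun θ : ℝ => Real.cos (n * (θ + η)) := by fun_prop
  have c7 := Real.continuous_sin
  have hb : 0 ≤ 8 * (1 - r) / q ^ 2 := div_nonneg (by linarith) (by positivity)
  unfold Zk
  have h2 := abs_integral_le_of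
    (show Continuous fun θ => Real.cos (n * (θ + η)) ^ 2 * P r (θ + η) * Real.sin θ by fun_prop)
    (continuous_const : Continuous fun _ : ℝ => 8 * (1 - r) / q ^ 2) (fun θ hθ => by
      have hs := Real.sin_nonneg_of_mem_Icc hθ
      have hP := P_nonneg hr0' hr1 (θ + η)
      have h3 := P_le_of_sin hr0 hr1 hq hs h
      have hc : Real.cos (n * (θ + η)) ^ 2 ≤ 1 := Real.cos_sq_le_one _
      rw [abs_of_nonneg (by positivity)]
      have h5 : Real.cos (n * (θ + η)) ^ 2 * P r (θ + η) ≤ 1 * (8 * (1 - r) / q ^ 2) :=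
        mul_le_mul hc h3 hP zero_le_one
      calc Real.cos (n * (θ + η)) ^ 2 * P r (θ + η) * Real.sin θ
          ≤ (1 * (8 * (1 - r) / q ^ 2)) * 1 :=
            mul_le_mul h5 (Real.sin_le_one _) hs (by linarith)
        _ = _ := by ring)
  refine h2.trans (le_of_eq ?_)
  rw [intervalIntegral.integral_const, sub_zero, smul_eq_mul]

lemma Wk_sum_le {r : ℝ} (hr0 : 0 ≤ r) (hr1 : r < 1) (x : Fin n → ℝ) (hI : I x ≤ 2) :
    ∑ k, |Wk r x k| ≤ 4 * (n + 1) / (1 - r) := by
  have h1r : 0 < 1 - r := by linarith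
  have c7 := Real.continuous_sin
  have hk : ∀ k, |Wk r x k| ≤ 2 / (1 - r) * (2 + ∫ θ in (0:ℝ)..π, L x k (Real.cos θ) ^ 2 *
      Real.sin θ) := by
    intro k
    have c1 := cont_L x k
    have c2 := cont_P_add hr0 hr1 (th x k)
    have c3 := cont_P_sub hr0 hr1 (th x k)
    have e : 2 / (1 - r) * (2 + ∫ θ in (0:ℝ)..π, L x k (Real.cos θ) ^ 2 * Real.sin θ) =
        ∫ θ in (0:ℝ)..π, 2 / (1 - r) * (Real.sin θ + L x k (Real.cos θ) ^ 2 * Real.sin θ) := by
      have i1 : IntervalIntegrable (fun θ => L x k (Real.cos θ) ^ 2 * Real.sin θ) volume 0 π :=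
        Continuous.intervalIntegrable (by fun_prop) _ _
      rw [intervalIntegral.integral_const_mul, intervalIntegral.integral_add
        (c7.intervalIntegrable _ _) i1]
      rw [integral_sin]
      norm_num
    rw [e]
    unfold Wk
    refine abs_integral_le_of (by fun_prop) (by fun_prop) fun θ hθ => ?_
    have hs := Real.sin_nonneg_of_mem_Icc hθ
    have p1 := P_nonneg hr0 hr1 (θ - th x k)
    have p2 := P_nonneg hr0 hr1 (θ + th x k)
    have p3 := P_le hr0 hr1 (θ - th x k)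
    have p4 := P_le hr0 hr1 (θ + th x k)
    rw [abs_mul, abs_mul, abs_of_nonneg hs, abs_of_nonneg (add_nonneg p1 p2)]
    have h3 : |L x k (Real.cos θ)| ≤ (1 + L x k (Real.cos θ) ^ 2) / 2 := by
      rw [← sq_abs]
      nlinarith [sq_nonneg (|L x k (Real.cos θ)| - 1)]
    have h4 : P r (θ - th x k) + P r (θ + th x k) ≤ 4 / (1 - r) := by
      have : 4 / (1 - r) = 2 / (1 - r) + 2 / (1 - r) := by ring
      linarith
    calc |L x k (Real.cos θ)| * (P r (θ - th x k) + P r (θ + th x k)) * Real.sin θ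
        ≤ ((1 + L x k (Real.cos θ) ^ 2) / 2) * (4 / (1 - r)) * Real.sin θ := by
          apply mul_le_mul_of_nonneg_right _ hs
          exact mul_le_mul h3 h4 (add_nonneg p1 p2) (by positivity)
      _ = _ := by ring
  refine (Finset.sum_le_sum fun k _ => hk k).trans ?_
  rw [← Finset.mul_sum, Finset.sum_add_distrib, ← I_eq]
  simp only [sum_const, card_univ, Fintype.card_fin, nsmul_eq_mul]
  rw [div_mul_eq_mul_div]
  apply div_le_div_of_nonneg_right _ h1r.le
  linarith

end pieces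

end ErdosLag.LO
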