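import Pool.Agent.W_MP_93ab53_an.Leftover3

/-!
The leftover term of the certificate kernel: assembly, from the singular integral bound.
-/

namespace ErdosLag.LO

open Real MeasureTheory intervalIntegral Finset Polynomial

/-- The statement of the singular integral bound. -/
def SingBound : Prop := ∀ {F : ℝ → ℝ} {B A : ℝ} (_ : ∀ s t, |F s - F t| ≤ A * |s - t|)
    (_ : ∀ s, |F s| ≤ B) (n : ℕ) (_ : 1 ≤ n) (η d : ℝ) (_ : 0 < d) (_ : d ≤ π),
    |∫ t in (-π)..π, D n t * Real.cos (n * t + 2 * n * η) * F (η + t)|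
      ≤ π * B + 4 * A * d + 8 * B * Real.log (π / d)

lemma Yk_bound (sb : SingBound) {p : ℝ} (hp : 0 < p) (hp' : p ≤ 1 / 2) {n : ℕ} (hn : 1 ≤ n) {η B : ℝ}
    (hB0 : 0 ≤ B) (hB : ∀ θ, |Fk (1 - p ^ 8) η θ| ≤ B) :
    |Yk (1 - p ^ 8) n η| ≤ π * B + 24 * p ^ 8 + 8 * B * (32 / p) := by
  have hp8 : p ^ 8 ≤ (1 / 2) ^ 8 := pow_le_pow_left₀ hp.le hp' 8
  have hp8' : 0 < p ^ 8 := by positivity
  have hr0 : 0 ≤ 1 - p ^ 8 := by norm_num at hp8; linarith
  have hr1 : 1 - p ^ 8 < 1 := by linarith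
  have hd : p ^ 32 ≤ 1 := pow_le_one₀ hp.le (by linarith)
  have hpi := Real.pi_gt_three
  have h := sb (F := Fk (1 - p ^ 8) η) (B := B) (A := 6 / (1 - (1 - p ^ 8)) ^ 3)
    (fun s t => Fk_lip hr0 hr1 η s t) hB n hn η (p ^ 32) (by positivity) (by linarith)
  unfold Yk
  rw [shift_integral hr0 hr1]
  refine h.trans ?_
  have e1 : 4 * (6 / (1 - (1 - p ^ 8)) ^ 3) * p ^ 32 = 24 * p ^ 8 := by
    have : (1 - (1 - p ^ 8)) = p ^ 8 := by ring
    rw [this]
    field_simp
    ring
  have e2 : Real.log (π / p ^ 32) ≤ 32 / p := by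
    rw [Real.log_div (by positivity) (by positivity), Real.log_pow]
    have l1 : Real.log π ≤ π - 1 := Real.log_le_sub_one_of_pos (by positivity)
    have l2 : Real.log (1 / p) ≤ 1 / p - 1 := Real.log_le_sub_one_of_pos (by positivity)
    rw [Real.log_div (by norm_num) hp.ne', Real.log_one] at l2
    have hpi4 := Real.pi_lt_four
    have : (32:ℝ) / p = 32 * (1 / p) := by ring
    rw [this]
    push_cast
    linarith
  rw [e1]
  have e3 : 8 * B * Real.log (π / p ^ 32) ≤ 8 * B * (32 / p) :=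
    mul_le_mul_of_nonneg_left e2 (by linarith)
  linarith

lemma leftover_core (sb : SingBound) (h1 : Equidist) {C : ℝ} (h2 : Rigid C) {p : ℝ} (hp : 0 < p)
    (hp' : p ≤ 1 / 2) : ∃ N : ℕ, ∀ n ≥ N, ∀ x : Fin n → ℝ, Nodes x → I x ≤ 2 →
      n * |∑ k, ∫ θ in (0:ℝ)..π, L x k (Real.cos θ) * rho (1 - p ^ 8) n θ (th x k) * Real.sin θ|
        ≤ (|C| / 4 + 2000) * p := by
  have hp8 : p ^ 8 ≤ (1 / 2) ^ 8 := pow_le_pow_left₀ hp.le hp' 8
  have hp8' : 0 < p ^ 8 := by positivity
  norm_num at hp8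
  set r := 1 - p ^ 8 with hr
  have hr0 : 1 / 4 ≤ r := by rw [hr]; linarith
  have hr0' : 0 ≤ r := by linarith
  have hr1 : r < 1 := by rw [hr]; linarith
  have hκ : 1 - r = p ^ 8 := by rw [hr]; ring
  have hpi3 := Real.pi_gt_three
  have hpi4 := Real.pi_lt_four
  have hpi5 := Real.pi_lt_d2
  have hq : 0 < p ^ 2 := by positivity
  have hq' : p ^ 2 ≤ 1 / 2 := by nlinarith
  obtain ⟨N1, hN1⟩ := bad_count h1 hq hq'
  obtain ⟨N2, hN2⟩ := h2
  -- the geometric part
  have h3 : Filter.Tendsto (fun n : ℕ => (n:ℝ) * r ^ n + r ^ n) Filter.atTop (nhds (0 + 0)) :=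
    (tendsto_self_mul_const_pow_of_lt_one hr0' hr1).add
      (tendsto_pow_atTop_nhds_zero_of_lt_one hr0' hr1)
  rw [add_zero] at h3
  have h4 : ∀ᶠ n : ℕ in Filter.atTop, (n:ℝ) * r ^ n + r ^ n < p * p ^ 8 :=
    h3.eventually (gt_mem_nhds (by positivity))
  obtain ⟨N3, hN3⟩ := Filter.eventually_atTop.1 h4
  refine ⟨max (max N1 N2) (max N3 1), fun n hn x hx hI => ?_⟩
  have hnN1 : N1 ≤ n := le_trans (le_trans (le_max_left _ _) (le_max_left _ _)) hn
  have hnN2 : N2 ≤ n := le_trans (le_trans (le_max_right _ _) (le_max_left _ _)) hn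
  have hnN3 : N3 ≤ n := le_trans (le_trans (le_max_left _ _) (le_max_right _ _)) hn
  have hn1 : 1 ≤ n := le_trans (le_trans (le_max_right _ _) (le_max_right _ _)) hn
  have hn0 : (0:ℝ) < n := by exact_mod_cast hn1
  have hcard := hN1 n hnN1 x hx hI
  have hE : ∑ k, Ek x k ≤ C / n := hN2 n hnN2 x hx hI
  have hgeo := hN3 n hnN3
  have hW := Wk_sum_le hr0' hr1 x hI
  set bad := Finset.univ.filter fun k => Real.sin (th x k) < p ^ 2 with hbad
  -- constants
  have h8 : 8 * (1 - r) / (p ^ 2) ^ 2 = 8 * p ^ 4 := by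
    rw [hκ]; field_simp
  -- Y + Z
  have hYZ : ∀ k, |Yk r n (th x k)| + |Zk r n (th x k)| ≤
      (if k ∈ bad then 560 / p else 0) + 2200 * p := by
    intro k
    split_ifs with hk
    · have hy := Yk_bound sb hp hp' hn1 (η := th x k) (B := 2) (by norm_num)
        (fun θ => Fk_le hr0 hr1 (sin_th_nonneg x k) θ)
      have hz := Zk_le hr0 hr1 n (sin_th_nonneg x k)
      have e1 : (560:ℝ) / p = 512 / p + 48 / p := by ring
      have e2 : 48 ≤ 48 / p := by
        rw [le_div_iff₀ hp]; linarith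
      have e3 : 8 * 2 * (32 / p) = 512 / p := by ring
      rw [e3] at hy
      rw [e1]
      have : 0 < 2200 * p := by positivity
      nlinarith
    · have hk' : p ^ 2 ≤ Real.sin (th x k) := by
        rw [hbad, Finset.mem_filter] at hk
        simp only [mem_univ, true_and, not_lt] at hk
        exact hk
      have hy := Yk_bound sb hp hp' hn1 (η := th x k) (B := 8 * p ^ 4) (by positivity)
        (fun θ => by
          have := Fk_le' hr0 hr1 hq hk' θ
          rw [h8] at this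
          exact this)
      have hz := Zk_le' hr0 hr1 hq n hk'
      rw [h8] at hz
      have e3 : 8 * (8 * p ^ 4) * (32 / p) = 2048 * p ^ 3 := by
        field_simp
        ring
      rw [e3] at hy
      have p3 : p ^ 3 ≤ p := by
        calc p ^ 3 = p * p ^ 2 := by ring
          _ ≤ p * 1 := by
            apply mul_le_mul_of_nonneg_left _ hp.le
            linarith
          _ = p := mul_one p
      have p4 : p ^ 4 ≤ p := by
        calc p ^ 4 = p ^ 3 * p := by ring
          _ ≤ p * 1 := mul_le_mul p3 (by linarith) hp.le hp.le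
          _ = p := mul_one p
      have p8 : p ^ 8 ≤ p := by
        calc p ^ 8 = p ^ 4 * p ^ 4 := by ring
          _ ≤ p ^ 4 * 1 := by
            apply mul_le_mul_of_nonneg_left _ (by positivity)
            linarith
          _ ≤ p := by linarith
      have e4 : π * (8 * p ^ 4) ≤ 32 * p := by nlinarith [mul_nonneg (sub_nonneg.2 hpi4.le) (by positivity : 0 ≤ p ^ 4)]
      linarith
  have hQ : ∀ k, Qk r (th x k) ≤ (if k ∈ bad then 16 else 0) + 256 * p ^ 2 := by
    intro k
    split_ifs with hk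
    · have := Qk_le hr0 hr1 (th_nonneg x k) (th_le_pi x k)
      have : 0 < 256 * p ^ 2 := by positivity
      linarith
    · have hk' : p ^ 2 ≤ Real.sin (th x k) := by
        rw [hbad, Finset.mem_filter] at hk
        simp only [mem_univ, true_and, not_lt] at hk
        exact hk
      have := Qk_le' hr0 hr1 hq hk'
      rw [h8] at this
      have e5 : (8 * p ^ 4) ^ 2 = 64 * p ^ 8 := by ring
      rw [e5] at this
      have p8 : p ^ 8 ≤ p ^ 2 := by
        calc p ^ 8 = p ^ 2 * p ^ 6 := by ring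
          _ ≤ p ^ 2 * 1 := by
            apply mul_le_mul_of_nonneg_left _ hq.le
            exact pow_le_one₀ hp.le (by linarith)
          _ = p ^ 2 := mul_one _
      nlinarith
  have hYZs : ∑ k, (|Yk r n (th x k)| + |Zk r n (th x k)|) ≤ 5000 * p * n := by
    refine (Finset.sum_le_sum fun k _ => hYZ k).trans ?_
    rw [Finset.sum_add_distrib, Finset.sum_ite_mem, Finset.univ_inter, Finset.sum_const,
      Finset.sum_const, nsmul_eq_mul, nsmul_eq_mul, Finset.card_univ, Fintype.card_fin]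
    have e6 : (bad.card : ℝ) * (560 / p) ≤ 5 * p ^ 2 * n * (560 / p) :=
      mul_le_mul_of_nonneg_right hcard (by positivity)
    have e7 : 5 * p ^ 2 * n * (560 / p) = 2800 * p * n := by
      field_simp
      ring
    rw [e7] at e6
    linarith
  have hQs : ∑ k, Qk r (th x k) ≤ 400 * p ^ 2 * n := by
    refine (Finset.sum_le_sum fun k _ => hQ k).trans ?_
    rw [Finset.sum_add_distrib, Finset.sum_ite_mem, Finset.univ_inter, Finset.sum_const,
      Finset.sum_const, nsmul_eq_mul, nsmul_eq_mul, Finset.card_univ, Fintype.card_fin]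
    have : 0 ≤ p ^ 2 * n := by positivity
    nlinarith
  have hXs : ∑ k, |Xk r x k| ≤ (|C| / 2 + 200) * p := by
    have hα : 0 < p * n := by positivity
    refine (Finset.sum_le_sum fun k _ => Xk_le hr0' hr1 x k hα).trans ?_
    rw [Finset.sum_add_distrib, ← Finset.mul_sum, ← Finset.mul_sum]
    have e8 : p * n / 2 * ∑ k, Ek x k ≤ p * n / 2 * (C / n) :=
      mul_le_mul_of_nonneg_left hE (by positivity)
    have e9 : p * n / 2 * (C / n) = C / 2 * p := by
      field_simp
    have e10 : 1 / (2 * (p * n)) * ∑ k, Qk r (th x k) ≤ 1 / (2 * (p * n)) * (400 * p ^ 2 * n) :=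
      mul_le_mul_of_nonneg_left hQs (by positivity)
    have e11 : 1 / (2 * (p * n)) * (400 * p ^ 2 * n) = 200 * p := by
      field_simp
      ring
    have e12 : C / 2 * p ≤ |C| / 2 * p := by
      apply mul_le_mul_of_nonneg_right _ hp.le
      linarith [le_abs_self C]
    linarith
  -- assemble
  have hs : n * |∑ k, ∫ θ in (0:ℝ)..π, L x k (Real.cos θ) * rho r n θ (th x k) * Real.sin θ| ≤
      (∑ k, |Xk r x k|) / 2 + (∑ k, (|Yk r n (th x k)| + |Zk r n (th x k)|)) / (4 * n)
        + r ^ n / 4 * ∑ k, |Wk r x k| := by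
    have e13 : n * |∑ k, ∫ θ in (0:ℝ)..π, L x k (Real.cos θ) * rho r n θ (th x k) * Real.sin θ| ≤
        n * ∑ k, (|Xk r x k| / (2 * n) + (|Yk r n (th x k)| + |Zk r n (th x k)|) / (4 * n ^ 2)
          + r ^ n / (4 * n) * |Wk r x k|) := by
      apply mul_le_mul_of_nonneg_left _ hn0.le
      refine (Finset.abs_sum_le_sum_abs _ _).trans (Finset.sum_le_sum fun k _ => ?_)
      rw [split_k hr0' hr1 hn1]
      refine (abs_sub _ _).trans ?_
      have a1 : |r ^ n / (4 * n) * Wk r x k| = r ^ n / (4 * n) * |Wk r x k| := by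
        rw [abs_mul, abs_of_nonneg (by positivity)]
      have a2 : |Xk r x k / (2 * n) + (Yk r n (th x k) - Zk r n (th x k)) / (4 * n ^ 2)| ≤
          |Xk r x k| / (2 * n) + (|Yk r n (th x k)| + |Zk r n (th x k)|) / (4 * n ^ 2) := by
        refine (abs_add_le _ _).trans ?_
        rw [abs_div, abs_div, abs_of_pos (by positivity : (0:ℝ) < 2 * n),
          abs_of_pos (by positivity : (0:ℝ) < 4 * n ^ 2)]
        have a3 : |Yk r n (th x k) - Zk r n (th x k)| ≤ |Yk r n (th x k)| + |Zk r n (th x k)| :=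
          abs_sub _ _
        gcongr
      rw [a1]
      linarith
    refine e13.trans (le_of_eq ?_)
    rw [Finset.sum_add_distrib, Finset.sum_add_distrib, ← Finset.sum_div, ← Finset.sum_div,
      ← Finset.mul_sum]
    field_simp
  refine hs.trans ?_
  have f1 : (∑ k, (|Yk r n (th x k)| + |Zk r n (th x k)|)) / (4 * n) ≤ 1250 * p := by
    rw [div_le_iff₀ (by positivity)]
    linarith
  have f2 : r ^ n / 4 * ∑ k, |Wk r x k| ≤ p := by
    have f3 : r ^ n / 4 * ∑ k, |Wk r x k| ≤ r ^ n / 4 * (4 * (n + 1) / (1 - r)) :=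
      mul_le_mul_of_nonneg_left hW (by positivity)
    refine f3.trans ?_
    rw [hκ]
    have f4 : r ^ n / 4 * (4 * (n + 1) / p ^ 8) = ((n:ℝ) * r ^ n + r ^ n) / p ^ 8 := by
      field_simp
    rw [f4, div_le_iff₀ hp8']
    exact hgeo.le
  have hCp : 0 ≤ p := hp.le
  nlinarith

theorem leftover_of_singBound (sb : SingBound) (h1 : Equidist) (C : ℝ) (h2 : Rigid C) :
    Leftover := by
  intro ε hε
  set K := |C| / 4 + 2000 with hK
  have hK0 : 0 < K := by rw [hK]; positivity
  set p₀ := min (1 / 2) (ε / K) with hp0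
  have hp0' : 0 < p₀ := lt_min (by norm_num) (by positivity)
  refine ⟨1 - p₀ ^ 8, by linarith [show 0 < p₀ ^ 8 by positivity], fun r hr hr0 hr1 => ?_⟩
  set p := (1 - r) ^ ((8:ℕ)⁻¹ : ℝ) with hp
  have h1r : 0 < 1 - r := by linarith
  have hp8 : p ^ 8 = 1 - r := by
    rw [hp]
    have := Real.rpow_inv_natCast_pow h1r.le (by norm_num : (8:ℕ) ≠ 0)
    exact this
  have hpp : 0 < p := Real.rpow_pos_of_pos h1r _
  have hlt : p < p₀ := by
    apply lt_of_pow_lt_pow_left₀ 8 hp0'.le
    rw [hp8]; linarith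
  obtain ⟨N, hN⟩ := leftover_core sb h1 h2 hpp (hlt.le.trans (min_le_left _ _))
  refine ⟨N, fun n hn x hx hI => ?_⟩
  have h5 := hN n hn x hx hI
  have h6 : 1 - p ^ 8 = r := by rw [hp8]; ring
  rw [h6] at h5
  refine h5.trans ?_
  have h7 : p ≤ ε / K := hlt.le.trans (min_le_right _ _)
  calc K * p ≤ K * (ε / K) := mul_le_mul_of_nonneg_left h7 hK0.le
    _ = ε := by field_simp

end ErdosLag.LO
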