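import Pool.Agent.W_MP_93ab53_an.KDefs

/-!
Sine expansions of polynomials in `cos θ` (MP_93ab53_an).
-/

namespace ErdosLag

open Real MeasureTheory intervalIntegral Finset Polynomial

/-- expansion of `p (cos θ) sin θ` in sines -/
theorem sine_expansion (n : ℕ) (p : ℝ[X]) (hp : p.degree < n) :
    ∃ c : ℕ → ℝ, (∀ θ : ℝ, p.eval (Real.cos θ) * Real.sin θ
        = ∑ m ∈ Finset.range n, c m * Real.sin (((m + 1 : ℕ) : ℝ) * θ)) ∧
      (∀ k, n = k + 1 → p.coeff k = 2 ^ k * c k) := by
  induction n generalizing p with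
  | zero =>
    refine ⟨fun _ => 0, fun θ => ?_, fun k hk => by omega⟩
    have : p = 0 := by
      rw [← Polynomial.degree_eq_bot]
      rw [← Nat.WithBot.lt_zero_iff]
      simpa using hp
    simp [this]
  | succ n ih =>
    set a : ℝ := p.coeff n / 2 ^ n with ha
    set q : ℝ[X] := p - C a * Polynomial.Chebyshev.U ℝ n with hq
    have hU : (Polynomial.Chebyshev.U ℝ (n : ℤ)).coeff n = 2 ^ n := by
      have h1 := Polynomial.Chebyshev.leadingCoeff_U_natCast (R := ℝ) n
      rw [Polynomial.leadingCoeff, Polynomial.Chebyshev.natDegree_U_natCast] at h1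
      exact h1
    have hqd : q.degree < n := by
      rw [Polynomial.degree_lt_iff_coeff_zero]
      intro m hm
      rw [hq, Polynomial.coeff_sub, Polynomial.coeff_C_mul]
      rcases hm.eq_or_lt with h | h
      · rw [← h, hU, ha]
        field_simp
        ring
      · have h1 : p.coeff m = 0 := by
          rw [Polynomial.degree_lt_iff_coeff_zero] at hp
          exact hp m (by omega)
        have h2 : (Polynomial.Chebyshev.U ℝ (n : ℤ)).coeff m = 0 := by
          apply Polynomial.coeff_eq_zero_of_degree_lt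
          rw [Polynomial.Chebyshev.degree_U_natCast]
          exact_mod_cast h
        rw [h1, h2]; ring
    obtain ⟨c, hc, -⟩ := ih q hqd
    refine ⟨fun m => if m < n then c m else a, fun θ => ?_, fun k hk => ?_⟩
    · have h1 : p = q + C a * Polynomial.Chebyshev.U ℝ n := by rw [hq]; ring
      have h2 : p.eval (Real.cos θ) = q.eval (Real.cos θ) +
          a * (Polynomial.Chebyshev.U ℝ n).eval (Real.cos θ) := by
        conv_lhs => rw [h1]
        simp only [Polynomial.eval_add, Polynomial.eval_mul, Polynomial.eval_C]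
      have h3 := Polynomial.Chebyshev.U_real_cos θ (n : ℤ)
      rw [h2, add_mul, hc, Finset.sum_range_succ, mul_assoc, h3]
      congr 1
      · apply Finset.sum_congr rfl
        intro m hm
        simp only [Finset.mem_range.mp hm, if_true]
      · simp only [lt_irrefl, if_false]
        push_cast; ring_nf
    · have : k = n := by omega
      subst this
      simp only [lt_irrefl, if_false]
      rw [ha]
      field_simp

lemma integral_cos_nat (j : ℤ) (hj : j ≠ 0) : ∫ θ in (0:ℝ)..π, Real.cos (j * θ) = 0 := by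
  have hj' : (j : ℝ) ≠ 0 := by exact_mod_cast hj
  rw [intervalIntegral.integral_comp_mul_left (fun x => Real.cos x) hj']
  simp [Real.sin_int_mul_pi]

/-- orthogonality -/
lemma ortho (m k : ℕ) (hm : 1 ≤ m) (_hk : 1 ≤ k) :
    ∫ θ in (0:ℝ)..π, Real.sin (m * θ) * Real.sin (k * θ) = if m = k then π / 2 else 0 := by
  have h1 : ∀ θ : ℝ, Real.sin (m * θ) * Real.sin (k * θ) =
      (1 / 2) * Real.cos (((m - k : ℤ) : ℝ) * θ) - (1 / 2) * Real.cos (((m + k : ℤ) : ℝ) * θ) := by
    intro θ
    push_cast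
    rw [sub_mul, add_mul, Real.cos_sub, Real.cos_add]; ring
  simp_rw [h1]
  rw [intervalIntegral.integral_sub, intervalIntegral.integral_const_mul,
    intervalIntegral.integral_const_mul, integral_cos_nat (m + k) (by omega)]
  · by_cases h : m = k
    · subst h
      simp
      ring
    · rw [integral_cos_nat (m - k) (by omega), if_neg h]; ring
  · exact Continuous.intervalIntegrable (by fun_prop) _ _
  · exact Continuous.intervalIntegrable (by fun_prop) _ _

lemma integral_expansion (n : ℕ) (c : ℕ → ℝ) (k : ℕ) (hk : 1 ≤ k) :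
    ∫ θ in (0:ℝ)..π, (∑ m ∈ Finset.range n, c m * Real.sin (((m + 1 : ℕ) : ℝ) * θ)) *
      Real.sin (k * θ) = if k ≤ n then (π / 2) * c (k - 1) else 0 := by
  simp_rw [Finset.sum_mul]
  rw [intervalIntegral.integral_finsetSum]
  · have h1 : ∀ m ∈ Finset.range n, ∫ θ in (0:ℝ)..π, c m * Real.sin (((m + 1 : ℕ) : ℝ) * θ) *
        Real.sin (k * θ) = if m + 1 = k then (π / 2) * c m else 0 := by
      intro m _
      simp_rw [mul_assoc]
      rw [intervalIntegral.integral_const_mul, ortho (m + 1) k (by omega) hk]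
      split_ifs <;> ring
    rw [Finset.sum_congr rfl h1]
    by_cases h : k ≤ n
    · rw [if_pos h, Finset.sum_eq_single (k - 1)]
      · rw [if_pos (by omega)]
      · intro m _ hm
        rw [if_neg (by omega)]
      · intro hm
        exact absurd (Finset.mem_range.mpr (by omega)) hm
    · rw [if_neg h]
      apply Finset.sum_eq_zero
      intro m hm
      rw [Finset.mem_range] at hm
      rw [if_neg (by omega)]
  · intro m _
    exact Continuous.intervalIntegrable (by fun_prop) _ _

theorem integral_repro (n : ℕ) (p : ℝ[X]) (hp : p.degree < n) (η : ℝ) :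
    ∫ θ in (0:ℝ)..π, p.eval (Real.cos θ) * Real.sin θ *
        (∑ m ∈ Finset.Ico 1 (n + 1), Real.sin (m * θ) * Real.sin (m * η))
      = (π / 2) * (p.eval (Real.cos η) * Real.sin η) := by
  obtain ⟨c, hc, -⟩ := sine_expansion n p hp
  simp_rw [hc, Finset.mul_sum]
  rw [intervalIntegral.integral_finsetSum]
  · have h1 : ∀ k ∈ Finset.Ico 1 (n + 1), ∫ θ in (0:ℝ)..π,
        (∑ m ∈ Finset.range n, c m * Real.sin (((m + 1 : ℕ) : ℝ) * θ)) *
          (Real.sin (k * θ) * Real.sin (k * η)) = (π / 2) * (c (k - 1) * Real.sin (k * η)) := by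
      intro k hk
      rw [Finset.mem_Ico] at hk
      simp_rw [← mul_assoc]
      rw [intervalIntegral.integral_mul_const, integral_expansion n c k hk.1,
        if_pos (by omega)]
    rw [Finset.sum_congr rfl h1, ← Finset.mul_sum, ← Finset.mul_sum, Finset.sum_Ico_eq_sum_range]
    congr 1
    apply Finset.sum_congr
    · congr 1
    · intro m _
      have : 1 + m - 1 = m := by omega
      rw [this, add_comm 1 m]
  · intro m _
    exact Continuous.intervalIntegrable (by fun_prop) _ _

theorem integral_high (n N : ℕ) (p : ℝ[X]) (hp : p.degree < n) (hN : n < N) :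
    ∫ θ in (0:ℝ)..π, p.eval (Real.cos θ) * Real.sin θ * Real.sin (N * θ) = 0 := by
  obtain ⟨c, hc, -⟩ := sine_expansion n p hp
  simp_rw [hc]
  rw [integral_expansion n c N (by omega), if_neg (by omega)]

/-- weighted Cauchy-Schwarz -/
lemma cs_weight {f g w : ℝ → ℝ} {a b : ℝ} (hab : a ≤ b) (hf : Continuous f) (hg : Continuous g)
    (hw : Continuous w) (hw0 : ∀ x ∈ Set.Icc a b, 0 ≤ w x) :
    (∫ x in a..b, f x * g x * w x) ^ 2 ≤
      (∫ x in a..b, f x ^ 2 * w x) * (∫ x in a..b, g x ^ 2 * w x) := by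
  have h1 : ∀ t : ℝ, 0 ≤ (∫ x in a..b, g x ^ 2 * w x) * (t * t) +
      (-2 * ∫ x in a..b, f x * g x * w x) * t + ∫ x in a..b, f x ^ 2 * w x := by
    intro t
    have h2 : (∫ x in a..b, g x ^ 2 * w x) * (t * t) +
      (-2 * ∫ x in a..b, f x * g x * w x) * t + ∫ x in a..b, f x ^ 2 * w x =
      ∫ x in a..b, (f x - t * g x) ^ 2 * w x := by
      have h3 : ∀ x, (f x - t * g x) ^ 2 * w x = (t * t) * (g x ^ 2 * w x) +
          (-2 * t) * (f x * g x * w x) + f x ^ 2 * w x := by intro x; ring
      simp_rw [h3]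
      rw [intervalIntegral.integral_add, intervalIntegral.integral_add,
        intervalIntegral.integral_const_mul, intervalIntegral.integral_const_mul]
      · ring
      all_goals exact Continuous.intervalIntegrable (by fun_prop) _ _
    rw [h2]
    apply intervalIntegral.integral_nonneg hab
    intro x hx
    exact mul_nonneg (sq_nonneg _) (hw0 x hx)
  have h4 := discrim_le_zero h1
  rw [discrim] at h4
  nlinarith

theorem coeff_bound (n : ℕ) (hn : 1 ≤ n) (p : ℝ[X]) (hp : p.degree < n) :
    |p.coeff (n - 1)| ≤ 2 ^ (n - 1) * (2 * √2 / π) * √(∫ t in (-1:ℝ)..1, p.eval t ^ 2) := by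
  obtain ⟨c, hc, hck⟩ := sine_expansion n p hp
  rw [hck (n - 1) (by omega), abs_mul, abs_of_pos (by positivity : (0:ℝ) < 2 ^ (n - 1)), mul_assoc]
  apply mul_le_mul_of_nonneg_left _ (by positivity)
  have h1 : ∫ θ in (0:ℝ)..π, p.eval (Real.cos θ) * Real.sin (n * θ) * Real.sin θ =
      (π / 2) * c (n - 1) := by
    have h2 := integral_expansion n c n hn
    rw [if_pos le_rfl] at h2
    rw [← h2]
    apply intervalIntegral.integral_congr
    intro θ _
    simp only
    rw [← hc]; ring
  have h3 := cs_weight (f := fun θ => p.eval (Real.cos θ)) (g := fun θ => Real.sin (n * θ))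
    (w := Real.sin) (a := 0) (b := π) Real.pi_pos.le
    (p.continuous.comp Real.continuous_cos) (by fun_prop) Real.continuous_sin
    (fun x hx => Real.sin_nonneg_of_nonneg_of_le_pi hx.1 hx.2)
  have h4 : ∫ θ in (0:ℝ)..π, p.eval (Real.cos θ) ^ 2 * Real.sin θ =
      ∫ t in (-1:ℝ)..1, p.eval t ^ 2 :=
    (integral_cos_sub (f := fun t => p.eval t ^ 2) (p.continuous.pow 2)).symm
  have h5 : ∫ θ in (0:ℝ)..π, Real.sin (n * θ) ^ 2 * Real.sin θ ≤ 2 := by
    have h6 : ∫ θ in (0:ℝ)..π, Real.sin θ = 2 := by simp; norm_num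
    rw [← h6]
    apply intervalIntegral.integral_mono_on Real.pi_pos.le
    · exact Continuous.intervalIntegrable (by fun_prop) _ _
    · exact Continuous.intervalIntegrable (by fun_prop) _ _
    · intro θ hθ
      have h7 := Real.sin_nonneg_of_nonneg_of_le_pi hθ.1 hθ.2
      have h8 := Real.sin_sq_le_one (n * θ)
      nlinarith
  have h9 : 0 ≤ ∫ t in (-1:ℝ)..1, p.eval t ^ 2 :=
    intervalIntegral.integral_nonneg (by norm_num) fun x _ => sq_nonneg _
  rw [h1, h4] at h3
  have h10 : ((π / 2) * c (n - 1)) ^ 2 ≤ 2 * ∫ t in (-1:ℝ)..1, p.eval t ^ 2 :=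
    h3.trans (by nlinarith)
  have h11 : |(π / 2) * c (n - 1)| ≤ √2 * √(∫ t in (-1:ℝ)..1, p.eval t ^ 2) := by
    rw [← Real.sqrt_mul (by norm_num)]
    exact Real.abs_le_sqrt h10
  rw [abs_mul, abs_of_pos (by positivity : (0:ℝ) < π / 2)] at h11
  have hpi := Real.pi_pos
  rw [show 2 * √2 / π * √(∫ t in (-1:ℝ)..1, p.eval t ^ 2) =
    (2 / π) * (√2 * √(∫ t in (-1:ℝ)..1, p.eval t ^ 2)) by ring]
  calc |c (n - 1)| = (2 / π) * (π / 2 * |c (n - 1)|) := by field_simp
    _ ≤ _ := by gcongr

end ErdosLag
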