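import Pool.Agent.W_MP_93ab53_an.Ker
import Pool.Agent.W_MP_93ab53_an.Sine

/-!
The linear part of the certificate: `∑ ∫ l_k T_k` is explicit.
-/

namespace ErdosLag

open Real MeasureTheory intervalIntegral Finset Polynomial

variable {n : ℕ} {x : Fin n → ℝ}

lemma cos_poly (m : ℕ) (θ : ℝ) :
    (Polynomial.Chebyshev.T ℝ m).eval (Real.cos θ) = Real.cos (m * θ) := by
  simp

/-- Interpolation reproduces `cos (m θ)` for `m < n`. -/
lemma Nodes.sum_L_cos (h : Nodes x) {m : ℕ} (hm : m < n) (θ : ℝ) :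
    ∑ k, L x k (Real.cos θ) * Real.cos (m * th x k) = Real.cos (m * θ) := by
  have hdeg : (Polynomial.Chebyshev.T ℝ m).degree < n := by
    rw [Polynomial.Chebyshev.degree_T]
    simpa using hm
  have := h.sum_L_mul (Polynomial.Chebyshev.T ℝ m) hdeg (Real.cos θ)
  rw [cos_poly] at this
  rw [← this]
  refine Finset.sum_congr rfl fun k _ => ?_
  rw [← cos_poly, h.cos_th]

/-- Interpolation reproduces `G(θ, ·)`. -/
lemma Nodes.sum_L_G (h : Nodes x) (hn : 1 ≤ n) (r : ℝ) (θ : ℝ) :
    ∑ k, L x k (Real.cos θ) * G r n θ (th x k) = G r n θ θ := by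
  have h0 : ∑ k, L x k (Real.cos θ) = 1 := by
    have := h.sum_L_cos (m := 0) (by omega) θ
    simpa using this
  have h1 : ∀ k, L x k (Real.cos θ) * G r n θ (th x k)
      = ((1 - r ^ n) / 2 * L x k (Real.cos θ)
        + ∑ m ∈ Finset.Ico 1 n, (1 - r ^ (n - m)) * Real.cos (m * θ)
          * (L x k (Real.cos θ) * Real.cos (m * th x k))) / n := by
    intro k
    unfold G
    rw [← mul_div_assoc, mul_add, Finset.mul_sum]
    congr 2
    · ring
    · exact Finset.sum_congr rfl fun m _ => by ring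
  simp_rw [h1]
  rw [← Finset.sum_div, Finset.sum_add_distrib, ← Finset.mul_sum, h0, Finset.sum_comm]
  unfold G
  congr 1
  rw [mul_one]
  congr 1
  refine Finset.sum_congr rfl fun m hm => ?_
  rw [← Finset.mul_sum, h.sum_L_cos (Finset.mem_Ico.1 hm).2]

lemma continuous_G (r : ℝ) (n : ℕ) (η : ℝ) : Continuous fun θ => G r n θ η := by
  unfold G; fun_prop

lemma continuous_G_diag (r : ℝ) (n : ℕ) : Continuous fun θ => G r n θ θ := by
  unfold G; fun_prop

/-- The linear part: exact formula. -/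
theorem Nodes.sum_integral_L_T (h : Nodes x) (hn : 1 ≤ n) {r : ℝ} (hr0 : 0 ≤ r) (hr1 : r < 1) :
    ∑ k, ∫ θ in (0:ℝ)..π, L x k (Real.cos θ) * T r n θ (th x k) * Real.sin θ
      = (∫ θ in (0:ℝ)..π, G r n θ θ * Real.sin θ)
        + π / (2 * n) * ∑ k, Real.sin (th x k) := by
  have hn0 : (n : ℝ) ≠ 0 := by positivity
  -- the tail
  have htail : ∀ k, ∫ θ in (0:ℝ)..π, L x k (Real.cos θ) * Real.sin θ *
      (∑' i : ℕ, r ^ (i + 1) * (Real.sin (((n : ℝ) + 1 + i) * θ)
        * Real.sin (((n : ℝ) + 1 + i) * th x k))) = 0 := by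
    intro k
    have hs := intervalIntegral.hasSum_integral_of_dominated_convergence (μ := volume)
      (a := 0) (b := π)
      (F := fun (i : ℕ) θ => L x k (Real.cos θ) * Real.sin θ * (r ^ (i + 1) *
        (Real.sin (((n : ℝ) + 1 + i) * θ) * Real.sin (((n : ℝ) + 1 + i) * th x k))))
      (f := fun θ => L x k (Real.cos θ) * Real.sin θ *
      (∑' i : ℕ, r ^ (i + 1) * (Real.sin (((n : ℝ) + 1 + i) * θ)
        * Real.sin (((n : ℝ) + 1 + i) * th x k))))
      (fun (i : ℕ) θ => |L x k (Real.cos θ)| * r ^ (i + 1))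
      (by
        intro i
        apply Continuous.aestronglyMeasurable
        have := (continuous_L x k).comp Real.continuous_cos
        fun_prop)
      (by
        intro i
        refine Filter.Eventually.of_forall fun θ _ => ?_
        rw [Real.norm_eq_abs, abs_mul, abs_mul, abs_mul, abs_mul, abs_of_nonneg (pow_nonneg hr0 _)]
        have h1 := Real.abs_sin_le_one θ
        have h2 := Real.abs_sin_le_one (((n : ℝ) + 1 + i) * θ)
        have h3 := Real.abs_sin_le_one (((n : ℝ) + 1 + i) * th x k)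
        have h4 : |Real.sin (((n : ℝ) + 1 + i) * θ)| * |Real.sin (((n : ℝ) + 1 + i) * th x k)| ≤ 1 :=
          mul_le_one₀ h2 (abs_nonneg _) h3
        have h5 := abs_nonneg (L x k (Real.cos θ))
        have h6 : 0 ≤ r ^ (i + 1) := pow_nonneg hr0 _
        calc |L x k (Real.cos θ)| * |Real.sin θ| * (r ^ (i + 1) *
              (|Real.sin (((n : ℝ) + 1 + i) * θ)| * |Real.sin (((n : ℝ) + 1 + i) * th x k)|))
            ≤ |L x k (Real.cos θ)| * 1 * (r ^ (i + 1) * 1) := by gcongr
          _ = _ := by ring)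
      (by
        refine Filter.Eventually.of_forall fun θ _ => ?_
        exact (((summable_geometric_of_lt_one hr0 hr1).mul_right r).congr
          (fun i => by rw [pow_succ])).mul_left _)
      (by
        apply Continuous.intervalIntegrable
        simp_rw [tsum_mul_left]
        have := (continuous_L x k).comp Real.continuous_cos
        fun_prop)
      (by
        refine Filter.Eventually.of_forall fun θ _ => ?_
        exact (tail_sin hr0 hr1 n θ (th x k)).summable.hasSum.mul_left _)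
    have hzero : ∀ i : ℕ, ∫ θ in (0:ℝ)..π, L x k (Real.cos θ) * Real.sin θ * (r ^ (i + 1) *
        (Real.sin (((n : ℝ) + 1 + i) * θ) * Real.sin (((n : ℝ) + 1 + i) * th x k))) = 0 := by
      intro i
      have h1 := integral_high n (n + 1 + i) (Lp x k) (h.degree_Lp k) (by omega)
      have h2 : (fun θ => L x k (Real.cos θ) * Real.sin θ * (r ^ (i + 1) *
        (Real.sin (((n : ℝ) + 1 + i) * θ) * Real.sin (((n : ℝ) + 1 + i) * th x k))))
        = fun θ => (r ^ (i + 1) * Real.sin (((n : ℝ) + 1 + i) * th x k)) *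
          ((Lp x k).eval (Real.cos θ) * Real.sin θ * Real.sin (((n + 1 + i : ℕ) : ℝ) * θ)) := by
        funext θ
        rw [eval_Lp]
        push_cast
        ring
      rw [h2, intervalIntegral.integral_const_mul, h1, mul_zero]
    simp_rw [hzero] at hs
    exact hs.unique hasSum_zero
  have hk : ∀ k, ∫ θ in (0:ℝ)..π, L x k (Real.cos θ) * T r n θ (th x k) * Real.sin θ
      = (∫ θ in (0:ℝ)..π, L x k (Real.cos θ) * G r n θ (th x k) * Real.sin θ)
        + π / (2 * n) * Real.sin (th x k) := by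
    intro k
    have hLc := (continuous_L x k).comp Real.continuous_cos
    have hrep := integral_repro n (Lp x k) (h.degree_Lp k) (th x k)
    rw [eval_Lp, h.cos_th, h.L_self, one_mul] at hrep
    have htc : Continuous fun θ => ∑' i : ℕ, r ^ (i + 1) * (Real.sin (((n : ℝ) + 1 + i) * θ)
        * Real.sin (((n : ℝ) + 1 + i) * th x k)) := by
      simp_rw [(tail_sin hr0 hr1 n _ _).tsum_eq]
      have h1 : Continuous fun θ => Den r (θ - th x k) := (continuous_Den r).comp (by fun_prop)
      have h2 : Continuous fun θ => Den r (θ + th x k) := (continuous_Den r).comp (by fun_prop)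
      refine Continuous.div_const (Continuous.sub ?_ ?_) _
      · exact Continuous.div (by fun_prop) h1 fun θ => (Den_pos hr0 hr1 _).ne'
      · exact Continuous.div (by fun_prop) h2 fun θ => (Den_pos hr0 hr1 _).ne'
    have e1 : (fun θ => L x k (Real.cos θ) * T r n θ (th x k) * Real.sin θ)
        = fun θ => L x k (Real.cos θ) * G r n θ (th x k) * Real.sin θ
          + ((1 / (n:ℝ)) * ((Lp x k).eval (Real.cos θ) * Real.sin θ *
            (∑ m ∈ Finset.Ico 1 (n + 1), Real.sin (m * θ) * Real.sin (m * th x k)))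
          + (1 / (n:ℝ)) * (L x k (Real.cos θ) * Real.sin θ *
      (∑' i : ℕ, r ^ (i + 1) * (Real.sin (((n : ℝ) + 1 + i) * θ)
        * Real.sin (((n : ℝ) + 1 + i) * th x k))))) := by
      funext θ
      rw [T_expansion hr0 hr1 hn, eval_Lp]
      ring
    rw [e1, intervalIntegral.integral_add, intervalIntegral.integral_add,
      intervalIntegral.integral_const_mul, intervalIntegral.integral_const_mul, hrep, htail k]
    · field_simp
      ring
    · apply Continuous.intervalIntegrable
      have := (Lp x k).continuous.comp Real.continuous_cos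
      simp only [Function.comp_def] at this
      fun_prop
    · apply Continuous.intervalIntegrable
      exact continuous_const.mul ((hLc.mul Real.continuous_sin).mul htc)
    · apply Continuous.intervalIntegrable
      exact (hLc.mul (continuous_G r n _)).mul Real.continuous_sin
    · apply Continuous.intervalIntegrable
      have := (Lp x k).continuous.comp Real.continuous_cos
      simp only [Function.comp_def] at this
      refine Continuous.add (by fun_prop) ?_
      exact continuous_const.mul ((hLc.mul Real.continuous_sin).mul htc)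
  simp_rw [hk]
  rw [Finset.sum_add_distrib, ← Finset.mul_sum]
  congr 1
  rw [← intervalIntegral.integral_finsetSum]
  · refine intervalIntegral.integral_congr fun θ _ => ?_
    rw [← h.sum_L_G hn r θ, Finset.sum_mul]
  · intro k _
    apply Continuous.intervalIntegrable
    have hLc := (continuous_L x k).comp Real.continuous_cos
    exact (hLc.mul (continuous_G r n _)).mul Real.continuous_sin


lemma integral_sin_nat_mul (k : ℝ) (hk : k ≠ 0) :
    ∫ θ in (0:ℝ)..π, Real.sin (k * θ) = (1 - Real.cos (k * π)) / k := by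
  rw [intervalIntegral.integral_comp_mul_left (fun θ => Real.sin θ) hk, integral_sin]
  simp
  field_simp

lemma integral_cos_sq_mul_sin {m : ℕ} (hm : 1 ≤ m) :
    ∫ θ in (0:ℝ)..π, Real.cos (m * θ) * Real.cos (m * θ) * Real.sin θ
      = 1 - 1 / (4 * (m:ℝ) ^ 2 - 1) := by
  have hm' : (1:ℝ) ≤ m := by exact_mod_cast hm
  have e1 : (fun θ => Real.cos (m * θ) * Real.cos (m * θ) * Real.sin θ)
      = fun θ => (1/2) * Real.sin θ + ((1/4) * Real.sin ((2 * m + 1) * θ)
        - (1/4) * Real.sin ((2 * m - 1) * θ)) := by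
    funext θ
    have h1 : Real.sin ((2 * m + 1) * θ) - Real.sin ((2 * m - 1) * θ)
        = 2 * Real.sin θ * Real.cos (2 * (m * θ)) := by
      rw [Real.sin_sub_sin]
      congr 2
      · congr 1; ring
      · ring
    rw [Real.cos_two_mul] at h1
    linear_combination (-1/4) * h1
  have h1 : ∫ θ in (0:ℝ)..π, Real.sin ((2 * (m:ℝ) + 1) * θ) = 2 / (2 * m + 1) := by
    rw [integral_sin_nat_mul _ (by positivity)]
    have : Real.cos ((2 * (m:ℝ) + 1) * π) = -1 := by
      have := Real.cos_add_pi ((m:ℝ) * (2 * π))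
      rw [Real.cos_nat_mul_two_pi] at this
      rw [← this]
      congr 1
      ring
    rw [this]
    norm_num
  have h2 : ∫ θ in (0:ℝ)..π, Real.sin ((2 * (m:ℝ) - 1) * θ) = 2 / (2 * m - 1) := by
    rw [integral_sin_nat_mul _ (by linarith)]
    have : Real.cos ((2 * (m:ℝ) - 1) * π) = -1 := by
      have := Real.cos_sub_pi ((m:ℝ) * (2 * π))
      rw [Real.cos_nat_mul_two_pi] at this
      rw [← this]
      congr 1
      ring
    rw [this]
    norm_num
  rw [e1, intervalIntegral.integral_add, intervalIntegral.integral_sub,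
    intervalIntegral.integral_const_mul, intervalIntegral.integral_const_mul,
    intervalIntegral.integral_const_mul, h1, h2, integral_sin, Real.cos_zero, Real.cos_pi]
  · have h3 : (2 * (m:ℝ) - 1) ≠ 0 := by linarith
    have h4 : (2 * (m:ℝ) + 1) ≠ 0 := by positivity
    have h5 : (4 * (m:ℝ) ^ 2 - 1) ≠ 0 := by nlinarith
    have h6 : (4 * (m:ℝ) ^ 2 - 1) = (2 * (m:ℝ) - 1) * (2 * (m:ℝ) + 1) := by ring
    rw [h6]
    field_simp
    ring
  all_goals exact Continuous.intervalIntegrable (by fun_prop) _ _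

lemma sum_inv_bound (n : ℕ) (hn : 1 ≤ n) :
    ∑ m ∈ Finset.Ico 1 n, (1:ℝ) / (4 * (m:ℝ) ^ 2 - 1) = (1:ℝ) / 2 * (1 - 1 / (2 * (n:ℝ) - 1)) := by
  induction n, hn using Nat.le_induction with
  | base => norm_num
  | succ n hn ih =>
    have hn' : (1:ℝ) ≤ n := by exact_mod_cast hn
    rw [Finset.sum_Ico_succ_top hn, ih]
    push_cast
    have h3 : (2 * (n:ℝ) - 1) ≠ 0 := by linarith
    have h4 : (2 * ((n:ℝ) + 1) - 1) ≠ 0 := by linarith
    have h6 : (4 * (n:ℝ) ^ 2 - 1) = (2 * (n:ℝ) - 1) * (2 * ((n:ℝ) + 1) - 1) := by ring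
    rw [h6]
    field_simp
    ring

lemma sum_pow_bound {r : ℝ} (hr0 : 0 ≤ r) (hr1 : r < 1) {n : ℕ} (hn : 1 ≤ n) :
    r ^ n + ∑ m ∈ Finset.Ico 1 n, r ^ (n - m) ≤ r / (1 - r) := by
  have h1r : 0 < 1 - r := by linarith
  have key : ∀ n : ℕ, 1 ≤ n → (r ^ n + ∑ m ∈ Finset.Ico 1 n, r ^ (n - m)) * (1 - r) = r - r ^ (n + 1) := by
    intro n hn
    induction n, hn using Nat.le_induction with
    | base => simp; ring
    | succ n hn ih =>
      have e : ∑ m ∈ Finset.Ico 1 (n + 1), r ^ (n + 1 - m)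
          = r * ∑ m ∈ Finset.Ico 1 n, r ^ (n - m) + r := by
        rw [Finset.sum_Ico_succ_top hn, Finset.mul_sum]
        congr 1
        · refine Finset.sum_congr rfl fun m hm => ?_
          rw [Finset.mem_Ico] at hm
          rw [Nat.sub_add_comm (by omega), pow_succ]
          ring
        · simp
      rw [e]
      have : (r ^ (n + 1) + (r * ∑ m ∈ Finset.Ico 1 n, r ^ (n - m) + r)) * (1 - r)
          = r * ((r ^ n + ∑ m ∈ Finset.Ico 1 n, r ^ (n - m)) * (1 - r)) + r * (1 - r) := by ring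
      rw [this, ih]
      ring
  rw [le_div_iff₀ h1r, key n hn]
  have : 0 ≤ r ^ (n + 1) := pow_nonneg hr0 _
  linarith

/-- Lower bound for the trace. -/
theorem trace_bound {r : ℝ} (hr0 : 0 ≤ r) (hr1 : r < 1) {n : ℕ} (hn : 1 ≤ n) :
    2 - ((1 + r) / (1 - r)) / n ≤ 2 * ∫ θ in (0:ℝ)..π, G r n θ θ * Real.sin θ := by
  have hn0 : (0:ℝ) < n := by exact_mod_cast hn
  have h1r : 0 < 1 - r := by linarith
  have e1 : (fun θ => G r n θ θ * Real.sin θ) = fun θ => (1 / (n:ℝ)) * (((1 - r ^ n) / 2) * Real.sin θ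
      + ∑ m ∈ Finset.Ico 1 n, (1 - r ^ (n - m)) *
        (Real.cos (m * θ) * Real.cos (m * θ) * Real.sin θ)) := by
    funext θ
    unfold G
    rw [div_mul_eq_mul_div, one_div, div_eq_inv_mul, add_mul, Finset.sum_mul]
    congr 2
    exact Finset.sum_congr rfl fun m _ => by ring
  have e2 : ∫ θ in (0:ℝ)..π, G r n θ θ * Real.sin θ
      = (1 / (n:ℝ)) * ((1 - r ^ n) + ∑ m ∈ Finset.Ico 1 n, (1 - r ^ (n - m)) *
        (1 - 1 / (4 * (m:ℝ) ^ 2 - 1))) := by
    rw [e1, intervalIntegral.integral_const_mul, intervalIntegral.integral_add,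
      intervalIntegral.integral_const_mul, integral_sin, Real.cos_zero, Real.cos_pi,
      intervalIntegral.integral_finsetSum]
    · congr 1
      congr 1
      · ring
      · refine Finset.sum_congr rfl fun m hm => ?_
        rw [intervalIntegral.integral_const_mul, integral_cos_sq_mul_sin (Finset.mem_Ico.1 hm).1]
    all_goals first
      | exact Continuous.intervalIntegrable (by fun_prop) _ _
      | (intro m _; exact Continuous.intervalIntegrable (by fun_prop) _ _)
  rw [e2]
  have hterm : ∀ m ∈ Finset.Ico 1 n, 1 - r ^ (n - m) - 1 / (4 * (m:ℝ) ^ 2 - 1)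
      ≤ (1 - r ^ (n - m)) * (1 - 1 / (4 * (m:ℝ) ^ 2 - 1)) := by
    intro m hm
    have hm1 : (1:ℝ) ≤ m := by exact_mod_cast (Finset.mem_Ico.1 hm).1
    have h1 : 0 < 1 / (4 * (m:ℝ) ^ 2 - 1) := by
      apply div_pos one_pos
      nlinarith
    have h2 : 0 ≤ r ^ (n - m) := pow_nonneg hr0 _
    nlinarith [mul_nonneg h1.le h2]
  have hsum := Finset.sum_le_sum hterm
  have hs2 : ∑ m ∈ Finset.Ico 1 n, (1 - r ^ (n - m) - 1 / (4 * (m:ℝ) ^ 2 - 1))
      = ((n:ℝ) - 1) - ∑ m ∈ Finset.Ico 1 n, r ^ (n - m)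
        - ∑ m ∈ Finset.Ico 1 n, (1:ℝ) / (4 * (m:ℝ) ^ 2 - 1) := by
    rw [Finset.sum_sub_distrib, Finset.sum_sub_distrib]
    simp [Nat.cast_sub hn]
  rw [hs2, sum_inv_bound n hn] at hsum
  have hpow := sum_pow_bound hr0 hr1 hn
  have hpos : 0 ≤ 1 / (2 * (n:ℝ) - 1) := by
    apply div_nonneg zero_le_one
    have : (1:ℝ) ≤ n := by exact_mod_cast hn
    linarith
  have hfin : (n:ℝ) - r / (1 - r) - 1 / 2 ≤ (1 - r ^ n) + ∑ m ∈ Finset.Ico 1 n, (1 - r ^ (n - m)) *
        (1 - 1 / (4 * (m:ℝ) ^ 2 - 1)) := by linarith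
  have h3 : 2 - ((1 + r) / (1 - r)) / n = 2 * (1 / (n:ℝ) * ((n:ℝ) - r / (1 - r) - 1 / 2)) := by
    field_simp
    ring
  rw [h3]
  gcongr

/-- The linear part of the certificate. -/
theorem Nodes.linear_part (h : Nodes x) (hn : 1 ≤ n) {r : ℝ} (hr0 : 0 ≤ r) (hr1 : r < 1) :
    2 - ((1 + r) / (1 - r)) / n + (π / n) * ∑ k, Real.sin (th x k)
      ≤ 2 * ∑ k, ∫ θ in (0:ℝ)..π, L x k (Real.cos θ) * T r n θ (th x k) * Real.sin θ := by
  rw [h.sum_integral_L_T hn hr0 hr1]
  have := trace_bound hr0 hr1 hn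
  have e : (π / n) * ∑ k, Real.sin (th x k) = 2 * (π / (2 * n) * ∑ k, Real.sin (th x k)) := by
    field_simp
  rw [e]
  linarith

end ErdosLag
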