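import Pool.Agent.W_MP_93ab53_an.Ker
import Pool.Agent.W_MP_93ab53_an.Parseval
import Pool.Agent.W_MP_93ab53_an.Const

/-!
The constant of the lower bound.
-/

namespace ErdosLag

open Real MeasureTheory intervalIntegral Finset Polynomial

lemma P_eq' {r : ℝ} (hr0 : 0 ≤ r) (hr1 : r < 1) (t : ℝ) :
    P r t = 1 + 2 * (r * (Real.cos t - r) / Den r t) := by
  have := Den_pos hr0 hr1 t
  rw [P_eq]
  field_simp
  unfold Den
  ring

/-- Poisson kernel difference as a series of products of sines. -/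
lemma hasSum_poisson {r : ℝ} (hr0 : 0 ≤ r) (hr1 : r < 1) (θ η : ℝ) :
    HasSum (fun m : ℕ => r ^ m * (Real.sin (m * θ) * Real.sin (m * η)))
      ((P r (θ - η) - P r (θ + η)) / 4) := by
  have h := tail_sin hr0 hr1 0 θ η
  have hval : ((P r (θ - η) - P r (θ + η)) / 4)
      = ((r * (Real.cos ((((0:ℕ) : ℝ) + 1) * (θ - η)) - r * Real.cos (((0:ℕ) : ℝ) * (θ - η))) / Den r (θ - η)
        - r * (Real.cos ((((0:ℕ) : ℝ) + 1) * (θ + η)) - r * Real.cos (((0:ℕ) : ℝ) * (θ + η))) / Den r (θ + η)) / 2) := by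
    rw [P_eq' hr0 hr1, P_eq' hr0 hr1]
    simp only [Nat.cast_zero, zero_add, one_mul, zero_mul, Real.cos_zero, mul_one]
    ring
  rw [← hval] at h
  rw [← hasSum_nat_add_iff' 1]
  simp only [Finset.range_one, Finset.sum_singleton, Nat.cast_zero, zero_mul, Real.sin_zero,
    mul_zero, sub_zero]
  have hfun : (fun i : ℕ => r ^ (i + 1) * (Real.sin (((i + 1 : ℕ) : ℝ) * θ)
        * Real.sin (((i + 1 : ℕ) : ℝ) * η)))
      = fun i : ℕ => r ^ (i + 1) * (Real.sin ((((0:ℕ) : ℝ) + 1 + i) * θ)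
        * Real.sin ((((0:ℕ) : ℝ) + 1 + i) * η)) := by
    funext i
    have : ((i + 1 : ℕ) : ℝ) = ((0:ℕ) : ℝ) + 1 + i := by push_cast; ring
    rw [this]
  rw [hfun]
  exact h

lemma continuous_sqrt_sin : Continuous fun θ => √(Real.sin θ) := by fun_prop

lemma sqrt_sin_le_one (θ : ℝ) : √(Real.sin θ) ≤ 1 := by
  rw [Real.sqrt_le_one]
  exact Real.sin_le_one θ

lemma abs_b_le (m : ℕ) : |b m| ≤ π := by
  unfold b
  have := intervalIntegral.norm_integral_le_of_norm_le_const (a := 0) (b := π) (C := 1)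
    (f := fun θ => √(Real.sin θ) * Real.sin (m * θ)) (by
      intro θ _
      rw [Real.norm_eq_abs, abs_mul, abs_of_nonneg (Real.sqrt_nonneg _)]
      exact mul_le_one₀ (sqrt_sin_le_one θ) (abs_nonneg _) (Real.abs_sin_le_one _))
  rw [Real.norm_eq_abs, sub_zero, abs_of_pos Real.pi_pos, one_mul] at this
  exact this

lemma inner_hasSum {r : ℝ} (hr0 : 0 ≤ r) (hr1 : r < 1) (θ : ℝ) :
    HasSum (fun m : ℕ => r ^ m * (Real.sin (m * θ) * b m))
      (∫ η in (0:ℝ)..π, (P r (θ - η) - P r (θ + η)) / 4 * √(Real.sin η)) := by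
  have h := intervalIntegral.hasSum_integral_of_dominated_convergence (μ := volume)
      (a := 0) (b := π)
      (F := fun (m : ℕ) η => r ^ m * (Real.sin (m * θ) * Real.sin (m * η)) * √(Real.sin η))
      (f := fun η => (P r (θ - η) - P r (θ + η)) / 4 * √(Real.sin η))
      (fun (m : ℕ) η => r ^ m)
      (by
        intro m
        apply Continuous.aestronglyMeasurable
        fun_prop)
      (by
        intro m
        refine Filter.Eventually.of_forall fun η _ => ?_
        rw [Real.norm_eq_abs, abs_mul, abs_mul, abs_mul, abs_of_nonneg (pow_nonneg hr0 _),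
          abs_of_nonneg (Real.sqrt_nonneg _)]
        have h1 := Real.abs_sin_le_one (m * θ)
        have h2 := Real.abs_sin_le_one (m * η)
        have h4 : |Real.sin (m * θ)| * |Real.sin (m * η)| ≤ 1 := mul_le_one₀ h1 (abs_nonneg _) h2
        have h6 : 0 ≤ r ^ m := pow_nonneg hr0 _
        calc r ^ m * (|Real.sin (m * θ)| * |Real.sin (m * η)|) * √(Real.sin η)
            ≤ r ^ m * 1 * 1 := by
              have := sqrt_sin_le_one η
              gcongr
          _ = r ^ m := by ring)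
      (by
        refine Filter.Eventually.of_forall fun η _ => ?_
        exact summable_geometric_of_lt_one hr0 hr1)
      (by
        apply Continuous.intervalIntegrable
        fun_prop)
      (by
        refine Filter.Eventually.of_forall fun η _ => ?_
        exact (hasSum_poisson hr0 hr1 θ η).mul_right _)
  have hfun : (fun m : ℕ => r ^ m * (Real.sin (m * θ) * b m))
      = fun m : ℕ => ∫ η in (0:ℝ)..π, r ^ m * (Real.sin (m * θ) * Real.sin (m * η)) * √(Real.sin η) := by
    funext m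
    unfold b
    rw [← mul_assoc, ← intervalIntegral.integral_const_mul]
    refine intervalIntegral.integral_congr fun η _ => ?_
    ring
  rw [hfun]
  exact h

/-- The double integral of the Poisson difference against `√sin √sin`. -/
lemma double_hasSum {r : ℝ} (hr0 : 0 ≤ r) (hr1 : r < 1) :
    HasSum (fun m : ℕ => r ^ m * b m ^ 2)
      (∫ θ in (0:ℝ)..π, ∫ η in (0:ℝ)..π,
        (P r (θ - η) - P r (θ + η)) / 4 * √(Real.sin η) * √(Real.sin θ)) := by
  have h := intervalIntegral.hasSum_integral_of_dominated_convergence (μ := volume)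
      (a := 0) (b := π)
      (F := fun (m : ℕ) θ => r ^ m * (Real.sin (m * θ) * b m) * √(Real.sin θ))
      (f := fun θ => (∫ η in (0:ℝ)..π, (P r (θ - η) - P r (θ + η)) / 4 * √(Real.sin η))
        * √(Real.sin θ))
      (fun (m : ℕ) η => r ^ m * π)
      (by
        intro m
        apply Continuous.aestronglyMeasurable
        fun_prop)
      (by
        intro m
        refine Filter.Eventually.of_forall fun θ _ => ?_
        rw [Real.norm_eq_abs, abs_mul, abs_mul, abs_mul, abs_of_nonneg (pow_nonneg hr0 _),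
          abs_of_nonneg (Real.sqrt_nonneg _)]
        have h1 := Real.abs_sin_le_one (m * θ)
        have h2 := abs_b_le m
        have h6 : 0 ≤ r ^ m := pow_nonneg hr0 _
        calc r ^ m * (|Real.sin (m * θ)| * |b m|) * √(Real.sin θ)
            ≤ r ^ m * (1 * π) * 1 := by
              have := sqrt_sin_le_one θ
              gcongr
          _ = r ^ m * π := by ring)
      (by
        refine Filter.Eventually.of_forall fun η _ => ?_
        exact (summable_geometric_of_lt_one hr0 hr1).mul_right _)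
      (by
        apply Continuous.intervalIntegrable
        fun_prop)
      (by
        refine Filter.Eventually.of_forall fun θ _ => ?_
        exact (inner_hasSum hr0 hr1 θ).mul_right _)
  have hfun : (fun m : ℕ => r ^ m * b m ^ 2)
      = fun m : ℕ => ∫ θ in (0:ℝ)..π, r ^ m * (Real.sin (m * θ) * b m) * √(Real.sin θ) := by
    funext m
    have : (fun θ => r ^ m * (Real.sin (m * θ) * b m) * √(Real.sin θ))
        = fun θ => (r ^ m * b m) * (√(Real.sin θ) * Real.sin (m * θ)) := by
      funext θ; ring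
    rw [this, intervalIntegral.integral_const_mul]
    change _ = r ^ m * b m * b m
    ring
  have hval : (∫ θ in (0:ℝ)..π, ∫ η in (0:ℝ)..π,
        (P r (θ - η) - P r (θ + η)) / 4 * √(Real.sin η) * √(Real.sin θ))
      = ∫ θ in (0:ℝ)..π, (∫ η in (0:ℝ)..π, (P r (θ - η) - P r (θ + η)) / 4 * √(Real.sin η))
        * √(Real.sin θ) := by
    refine intervalIntegral.integral_congr fun θ _ => ?_
    exact intervalIntegral.integral_mul_const _ _
  rw [hfun, hval]
  exact h

/-- The far kernel. -/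
noncomputable def KF (r θ η : ℝ) : ℝ := 4 * r ^ 2 / (Den r (θ - η) * Den r (θ + η))

lemma KF_continuous {r : ℝ} (hr0 : 0 ≤ r) (hr1 : r < 1) :
    Continuous (fun p : ℝ × ℝ => KF r p.1 p.2) := by
  unfold KF
  refine Continuous.div continuous_const ?_ ?_
  · exact ((continuous_Den r).comp (by fun_prop)).mul ((continuous_Den r).comp (by fun_prop))
  · intro p
    exact (mul_pos (Den_pos hr0 hr1 _) (Den_pos hr0 hr1 _)).ne'

lemma Den_neg (r t : ℝ) : Den r (-t) = Den r t := by
  unfold Den; rw [Real.cos_neg]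

lemma KF_symm (r a b : ℝ) : KF r a b = KF r b a := by
  unfold KF
  rw [show a - b = -(b - a) by ring, Den_neg, add_comm a b]

lemma KF_nonneg {r : ℝ} (hr0 : 0 ≤ r) (hr1 : r < 1) (a b : ℝ) : 0 ≤ KF r a b := by
  unfold KF
  have := Den_pos hr0 hr1 (a - b)
  have := Den_pos hr0 hr1 (a + b)
  positivity

lemma cos_diff_sq (θ η : ℝ) :
    (1 - Real.cos (θ - η)) * (1 - Real.cos (θ + η)) = (Real.cos θ - Real.cos η) ^ 2 := by
  rw [Real.cos_sub, Real.cos_add]
  have h1 := Real.sin_sq_add_cos_sq θ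
  have h2 := Real.sin_sq_add_cos_sq η
  have h3 : Real.sin θ ^ 2 = 1 - Real.cos θ ^ 2 := by linarith
  have h4 : Real.sin η ^ 2 = 1 - Real.cos η ^ 2 := by linarith
  linear_combination (-Real.sin η ^ 2) * h3 - (1 - Real.cos θ ^ 2) * h4

/-- `(1 - V(θ-η)) (1 - V(θ+η)) = KF (cos θ - cos η)²`. -/
lemma one_sub_V_mul {r : ℝ} (hr0 : 0 ≤ r) (hr1 : r < 1) (θ η : ℝ) :
    (1 - V r (θ - η)) * (1 - V r (θ + η)) = KF r θ η * (Real.cos θ - Real.cos η) ^ 2 := by
  have h1 := Den_pos hr0 hr1 (θ - η)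
  have h2 := Den_pos hr0 hr1 (θ + η)
  have e : ∀ t, 0 < Den r t → 1 - V r t = 2 * r * (1 - Real.cos t) / Den r t := by
    intro t ht
    rw [V_eq]
    field_simp
    unfold Den
    ring
  rw [e _ h1, e _ h2, ← cos_diff_sq]
  unfold KF
  field_simp
  ring

lemma KF_mul_le {r : ℝ} (hr0 : 0 ≤ r) (hr1 : r < 1) (θ η : ℝ) :
    KF r θ η * (Real.cos θ - Real.cos η) ^ 2 ≤ 1 - V r (θ - η) := by
  rw [← one_sub_V_mul hr0 hr1]
  have h1 := V_le_one_K hr0 hr1 (θ - η)
  have h2 := V_nonneg_K hr0 hr1 (θ + η)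
  nlinarith

/-- `KF sin θ sin η` is a Poisson kernel difference. -/
lemma KF_mul_sin {r : ℝ} (hr0 : 0 < r) (hr1 : r < 1) (θ η : ℝ) :
    KF r θ η * (Real.sin θ * Real.sin η)
      = (4 * r / (1 - r ^ 2)) * ((P r (θ - η) - P r (θ + η)) / 4) := by
  have h1 := Den_pos hr0.le hr1 (θ - η)
  have h2 := Den_pos hr0.le hr1 (θ + η)
  have h3 : 0 < 1 - r ^ 2 := by nlinarith
  rw [P_eq, P_eq]
  unfold KF
  field_simp
  unfold Den
  rw [Real.cos_sub, Real.cos_add]
  ring

/-- The far constant. -/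
lemma far_const {r : ℝ} (hr0 : 0 < r) (hr1 : r < 1) :
    2 * r / (1 - r ^ 2) - (1 / (2 * π)) * (∫ θ in (0:ℝ)..π, ∫ η in (0:ℝ)..π,
        KF r θ η * (√(Real.sin θ) ^ 3 * √(Real.sin η) ^ 3)) ≤ cstar := by
  have h3 : 0 < 1 - r ^ 2 := by nlinarith
  have h1r : 0 < 1 - r := by linarith
  have hpi := Real.pi_pos
  have e1 : (∫ θ in (0:ℝ)..π, ∫ η in (0:ℝ)..π,
        KF r θ η * (√(Real.sin θ) ^ 3 * √(Real.sin η) ^ 3))
      = (4 * r / (1 - r ^ 2)) * ∫ θ in (0:ℝ)..π, ∫ η in (0:ℝ)..π,
        (P r (θ - η) - P r (θ + η)) / 4 * √(Real.sin η) * √(Real.sin θ) := by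
    rw [← intervalIntegral.integral_const_mul]
    refine intervalIntegral.integral_congr fun θ hθ => ?_
    rw [← intervalIntegral.integral_const_mul]
    refine intervalIntegral.integral_congr fun η hη => ?_
    rw [Set.uIcc_of_le hpi.le] at hθ hη
    have s1 := Real.sin_nonneg_of_nonneg_of_le_pi hθ.1 hθ.2
    have s2 := Real.sin_nonneg_of_nonneg_of_le_pi hη.1 hη.2
    have q1 : √(Real.sin θ) ^ 3 = Real.sin θ * √(Real.sin θ) := by
      rw [pow_succ, Real.sq_sqrt s1]
    have q2 : √(Real.sin η) ^ 3 = Real.sin η * √(Real.sin η) := by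
      rw [pow_succ, Real.sq_sqrt s2]
    rw [q1, q2]
    have := KF_mul_sin hr0 hr1 θ η
    linear_combination (√(Real.sin θ) * √(Real.sin η)) * this
  rw [e1, ← (double_hasSum hr0.le hr1).tsum_eq]
  have hb2 : HasSum (fun m : ℕ => b m ^ 2) π := by
    have := parseval_sine (fun θ => √(Real.sin θ)) continuous_sqrt_sin.continuousOn
    have e : ∫ θ in (0:ℝ)..π, √(Real.sin θ) ^ 2 = 2 := by
      have : ∫ θ in (0:ℝ)..π, √(Real.sin θ) ^ 2 = ∫ θ in (0:ℝ)..π, Real.sin θ := by
        refine intervalIntegral.integral_congr fun θ hθ => ?_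
        rw [Set.uIcc_of_le hpi.le] at hθ
        exact Real.sq_sqrt (Real.sin_nonneg_of_nonneg_of_le_pi hθ.1 hθ.2)
      rw [this, integral_sin, Real.cos_zero, Real.cos_pi]
      norm_num
    rw [e] at this
    have e2 : π / 2 * 2 = π := by ring
    rw [e2] at this
    exact this
  have hmb := hasSum_b
  have hd := double_hasSum hr0.le hr1
  have hdiff : HasSum (fun m : ℕ => (1 - r ^ m) * b m ^ 2)
      (π - ∑' m : ℕ, r ^ m * b m ^ 2) := by
    have := hb2.sub hd.summable.hasSum
    have hfun : (fun m : ℕ => (1 - r ^ m) * b m ^ 2) = fun m : ℕ => b m ^ 2 - r ^ m * b m ^ 2 := by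
      funext m
      ring
    rw [hfun]
    exact this
  have hle : π - ∑' m : ℕ, r ^ m * b m ^ 2 ≤ (1 - r) * (π * cstar) := by
    refine hasSum_le (fun m => ?_) hdiff (hmb.mul_left (1 - r))
    have hber : 1 - r ^ m ≤ (1 - r) * m := by
      have := one_add_mul_le_pow (a := r - 1) (by linarith) m
      rw [show 1 + (r - 1) = r by ring] at this
      linarith
    have := sq_nonneg (b m)
    nlinarith
  have hc : 0 ≤ cstar := by
    unfold cstar
    positivity
  have hkey : 2 * r / (1 - r ^ 2) - (1 / (2 * π)) * (4 * r / (1 - r ^ 2) * ∑' m : ℕ, r ^ m * b m ^ 2)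
      = (2 * r / (π * (1 - r ^ 2))) * (π - ∑' m : ℕ, r ^ m * b m ^ 2) := by
    field_simp
    ring
  rw [hkey]
  calc (2 * r / (π * (1 - r ^ 2))) * (π - ∑' m : ℕ, r ^ m * b m ^ 2)
      ≤ (2 * r / (π * (1 - r ^ 2))) * ((1 - r) * (π * cstar)) := by
        apply mul_le_mul_of_nonneg_left hle
        positivity
    _ = (2 * r / (1 + r)) * cstar := by
        have : 1 - r ^ 2 = (1 - r) * (1 + r) := by ring
        rw [this]
        field_simp
    _ ≤ 1 * cstar := by
        apply mul_le_mul_of_nonneg_right _ hc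
        rw [div_le_one (by linarith)]
        linarith
    _ = cstar := one_mul _

end ErdosLag
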