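import Pool.Agent.W_MP_93ab53_an.Rigid
import Pool.Agent.W_MP_93ab53_an.QConst

/-!
The sharp lower bound for `I`.
-/

namespace ErdosLag

open Real MeasureTheory intervalIntegral Finset Polynomial

variable {n : ℕ} {x : Fin n → ℝ}

lemma T_add_rho (r : ℝ) (n : ℕ) (θ η : ℝ) :
    T r n θ η + rho r n θ η = V r (θ - η) * (D n (θ - η) / (2 * n)) := by
  unfold T rho
  ring

lemma continuous_V_sub {r : ℝ} (hr0 : 0 ≤ r) (hr1 : r < 1) (η : ℝ) :
    Continuous fun θ => V r (θ - η) := (cont_V hr0 hr1).comp (by fun_prop)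

lemma continuous_P_sub {r : ℝ} (hr0 : 0 ≤ r) (hr1 : r < 1) (η : ℝ) :
    Continuous fun θ => P r (θ - η) := (continuous_P hr0 hr1).comp (by fun_prop)

lemma continuous_P_add {r : ℝ} (hr0 : 0 ≤ r) (hr1 : r < 1) (η : ℝ) :
    Continuous fun θ => P r (θ + η) := (continuous_P hr0 hr1).comp (by fun_prop)

lemma continuous_D_sub (n : ℕ) (η : ℝ) : Continuous fun θ => D n (θ - η) :=
  (cont_D n).comp (by fun_prop)

lemma continuous_T {r : ℝ} (hr0 : 0 ≤ r) (hr1 : r < 1) (n : ℕ) (η : ℝ) :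
    Continuous fun θ => T r n θ η := by
  unfold T
  have h1 := continuous_V_sub hr0 hr1 η
  have h2 := continuous_P_sub hr0 hr1 η
  have h3 := continuous_P_add hr0 hr1 η
  have h4 := continuous_D_sub n η
  fun_prop

lemma continuous_rho {r : ℝ} (hr0 : 0 ≤ r) (hr1 : r < 1) (n : ℕ) (η : ℝ) :
    Continuous fun θ => rho r n θ η := by
  unfold rho
  have h2 := continuous_P_sub hr0 hr1 η
  have h3 := continuous_P_add hr0 hr1 η
  fun_prop

lemma continuous_KF_left {r : ℝ} (hr0 : 0 ≤ r) (hr1 : r < 1) (η : ℝ) :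
    Continuous fun θ => KF r θ η := by
  unfold KF
  have h1 : Continuous fun θ : ℝ => Den r (θ - η) := (continuous_Den r).comp (by fun_prop)
  have h2 : Continuous fun θ : ℝ => Den r (θ + η) := (continuous_Den r).comp (by fun_prop)
  exact Continuous.div continuous_const (h1.mul h2)
    fun θ => (mul_pos (Den_pos hr0 hr1 _) (Den_pos hr0 hr1 _)).ne'

/-- The decomposition of `I` into near part, leftover and far part. -/
lemma Nodes.near_far (h : Nodes x) {r : ℝ} (hr0 : 0 ≤ r) (hr1 : r < 1) :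
    2 * (∑ k, ∫ θ in (0:ℝ)..π, L x k (Real.cos θ) * T r n θ (th x k) * Real.sin θ)
      + 2 * (∑ k, ∫ θ in (0:ℝ)..π, L x k (Real.cos θ) * rho r n θ (th x k) * Real.sin θ)
      - (1 / (4 * (n:ℝ) ^ 2)) * (∑ k, ∫ θ in (0:ℝ)..π,
          V r (θ - th x k) * D n (θ - th x k) ^ 2 * Real.sin θ)
      + (∑ k, ∫ θ in (0:ℝ)..π,
          KF r θ (th x k) * (Real.cos θ - x k) ^ 2 * L x k (Real.cos θ) ^ 2 * Real.sin θ)
      ≤ I x := by
  rw [I_eq, Finset.mul_sum, Finset.mul_sum, Finset.mul_sum, ← Finset.sum_add_distrib,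
    ← Finset.sum_sub_distrib, ← Finset.sum_add_distrib]
  refine Finset.sum_le_sum fun k _ => ?_
  have hL := (continuous_L x k).comp Real.continuous_cos
  simp only [Function.comp_def] at hL
  have h1 := continuous_V_sub hr0 hr1 (th x k)
  have h2 := continuous_T hr0 hr1 n (th x k)
  have h3 := continuous_rho hr0 hr1 n (th x k)
  have h4 := continuous_D_sub n (th x k)
  have h5 := continuous_KF_left hr0 hr1 (th x k)
  rw [← intervalIntegral.integral_const_mul, ← intervalIntegral.integral_const_mul,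
    ← intervalIntegral.integral_const_mul, ← intervalIntegral.integral_add,
    ← intervalIntegral.integral_sub, ← intervalIntegral.integral_add]
  · apply intervalIntegral.integral_mono_on Real.pi_pos.le
    · exact Continuous.intervalIntegrable (by fun_prop) _ _
    · exact Continuous.intervalIntegrable (by fun_prop) _ _
    · intro θ hθ
      have hs := Real.sin_nonneg_of_nonneg_of_le_pi hθ.1 hθ.2
      have hTr := T_add_rho r n θ (th x k)
      have hKK := KF_mul_le hr0 hr1 θ (th x k)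
      rw [h.cos_th] at hKK
      have hV := V_nonneg_K hr0 hr1 (θ - th x k)
      set l := L x k (Real.cos θ)
      set v := V r (θ - th x k)
      set d := D n (θ - th x k) / (2 * n) with hd
      have hd2 : (1 / (4 * (n:ℝ) ^ 2)) * (v * D n (θ - th x k) ^ 2 * Real.sin θ)
          = v * d ^ 2 * Real.sin θ := by
        rw [hd]
        ring
      rw [hd2]
      have e : 2 * (l * T r n θ (th x k) * Real.sin θ) + 2 * (l * rho r n θ (th x k) * Real.sin θ)
          = 2 * l * (v * d) * Real.sin θ := by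
        rw [← hTr]; ring
      rw [e]
      have k1 : 0 ≤ v * (l - d) ^ 2 * Real.sin θ := by positivity
      have k2 : KF r θ (th x k) * (Real.cos θ - x k) ^ 2 * l ^ 2 * Real.sin θ
          ≤ (1 - v) * l ^ 2 * Real.sin θ := by gcongr
      nlinarith [k1, k2]
  all_goals exact Continuous.intervalIntegrable (by fun_prop) _ _

/-- The quadratic term. -/
lemma quad_term_le {r : ℝ} (hr0 : 1 / 2 ≤ r) (hr1 : r < 1) (hn : 1 ≤ n) {Cq : ℝ}
    (hCq0 : 0 ≤ Cq)
    (hCq : ∀ η ∈ Set.Icc 0 π,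
      ∫ θ in (0:ℝ)..π, V r (θ + η) * D n (θ + η) ^ 2 * Real.sin θ ≤ Cq * lam n η)
    {κ ε₁ : ℝ} (hκ : 0 < κ) (hlam : ∑ k with Real.sin (th x k) < κ, lam n (th x k) ≤ ε₁ * n)
    {Mn : ℝ} (hM : ∫ t in (-π)..π, V r t * D n t ^ 2 * Real.cos t ≤ Mn) :
    ∑ k, ∫ θ in (0:ℝ)..π, V r (θ - th x k) * D n (θ - th x k) ^ 2 * Real.sin θ
      ≤ Mn * (∑ k, Real.sin (th x k)) + Cq * (ε₁ * n) + 8 * π * (1 - r) ^ 2 / κ ^ 3 * n := by
  have hr0' : 0 ≤ r := by linarith
  have h1 : ∀ k, ∫ θ in (0:ℝ)..π, V r (θ - th x k) * D n (θ - th x k) ^ 2 * Real.sin θ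
      ≤ Mn * Real.sin (th x k)
        + ((if Real.sin (th x k) < κ then Cq * lam n (th x k) else 0)
          + 8 * π * (1 - r) ^ 2 / κ ^ 3) := by
    intro k
    rw [quad_split r hr0' hr1 n (th x k)]
    have hs := sin_th_nonneg x k
    have h2 : Real.sin (th x k) * (∫ t in (-π)..π, V r t * D n t ^ 2 * Real.cos t)
        ≤ Mn * Real.sin (th x k) := by
      rw [mul_comm]
      exact mul_le_mul_of_nonneg_right hM hs
    have h3 : ∫ θ in (0:ℝ)..π, V r (θ + th x k) * D n (θ + th x k) ^ 2 * Real.sin θ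
        ≤ (if Real.sin (th x k) < κ then Cq * lam n (th x k) else 0)
          + 8 * π * (1 - r) ^ 2 / κ ^ 3 := by
      split_ifs with hk
      · have := hCq (th x k) (th_mem x k)
        have h4 : 0 ≤ 8 * π * (1 - r) ^ 2 / κ ^ 3 := by positivity
        linarith
      · rw [zero_add]
        push Not at hk
        have hpos : 0 < Real.sin (th x k) := lt_of_lt_of_le hκ hk
        have hth0 : 0 < th x k := by
          rcases (th_nonneg x k).eq_or_lt with h0 | h0
          · rw [← h0, Real.sin_zero] at hpos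
            exact absurd hpos (lt_irrefl _)
          · exact h0
        have hth1 : th x k < π := by
          rcases (th_le_pi x k).eq_or_lt with h0 | h0
          · rw [h0, Real.sin_pi] at hpos
            exact absurd hpos (lt_irrefl _)
          · exact h0
        refine (quad_bound2 r hr0 hr1 n hn (th x k) hth0 hth1).trans ?_
        gcongr
    linarith
  calc ∑ k, ∫ θ in (0:ℝ)..π, V r (θ - th x k) * D n (θ - th x k) ^ 2 * Real.sin θ
      ≤ ∑ k, (Mn * Real.sin (th x k)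
        + ((if Real.sin (th x k) < κ then Cq * lam n (th x k) else 0)
          + 8 * π * (1 - r) ^ 2 / κ ^ 3)) := Finset.sum_le_sum fun k _ => h1 k
    _ = Mn * (∑ k, Real.sin (th x k))
        + Cq * (∑ k with Real.sin (th x k) < κ, lam n (th x k))
        + 8 * π * (1 - r) ^ 2 / κ ^ 3 * n := by
        rw [Finset.sum_add_distrib, Finset.sum_add_distrib, ← Finset.mul_sum, Finset.sum_const,
          Finset.card_univ, Fintype.card_fin, nsmul_eq_mul, ← Finset.sum_filter,
          ← Finset.mul_sum]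
        ring
    _ ≤ _ := by
        gcongr

/-- **Sharp lower bound.** -/
theorem lower (hE : Equidist) (hUI : UnifInt) (hL : Leftover) (hF : FarBound) (ε : ℝ)
    (hε : 0 < ε) : ∃ N : ℕ, ∀ n ≥ N, ∀ x : Fin n → ℝ, Nodes x →
      n * (2 - I x) ≤ cstar + ε := by
  have hpi := Real.pi_pos
  have hc : 0 ≤ cstar := by
    unfold cstar
    positivity
  obtain ⟨Cq0, hCq0⟩ := quad_bound1
  set Cq := |Cq0| + 1 with hCqdef
  have hCqpos : 0 < Cq := by positivity
  obtain ⟨κ, hκ, hUI1⟩ := hUI (ε / (2 * Cq)) (by positivity)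
  obtain ⟨r₀, hr₀, hL1⟩ := hL (ε / 16) (by positivity)
  -- choose r
  obtain ⟨r, hr_half, hr_r0, hr1, hr_small⟩ : ∃ r : ℝ, 1 / 2 ≤ r ∧ r₀ < r ∧ r < 1 ∧
      2 * π * (1 - r) ^ 2 / κ ^ 3 ≤ ε / 8 := by
    set δ := min (1 / 2) (min ((1 - r₀) / 2) (min 1 (ε * κ ^ 3 / (16 * π)))) with hδ
    have hδpos : 0 < δ := by
      rw [hδ]
      refine lt_min (by norm_num) (lt_min (by linarith) (lt_min one_pos (by positivity)))
    have hδ1 : δ ≤ 1 / 2 := min_le_left _ _
    have hδ2 : δ ≤ (1 - r₀) / 2 := (min_le_right _ _).trans (min_le_left _ _)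
    have hδ3 : δ ≤ 1 := (min_le_right _ _).trans ((min_le_right _ _).trans (min_le_left _ _))
    have hδ4 : δ ≤ ε * κ ^ 3 / (16 * π) :=
      (min_le_right _ _).trans ((min_le_right _ _).trans (min_le_right _ _))
    refine ⟨1 - δ, by linarith, by linarith, by linarith, ?_⟩
    rw [show 1 - (1 - δ) = δ by ring, div_le_iff₀ (by positivity)]
    have h1 : δ ^ 2 ≤ δ := by nlinarith
    calc 2 * π * δ ^ 2 ≤ 2 * π * δ := by gcongr
      _ ≤ 2 * π * (ε * κ ^ 3 / (16 * π)) := by gcongr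
      _ = ε / 8 * κ ^ 3 := by field_simp; ring
  have hr0 : 0 < r := by linarith
  obtain ⟨N1, hN1⟩ := hUI1 κ hκ le_rfl
  obtain ⟨N2, hN2⟩ := hL1 r hr_r0 hr0 hr1
  obtain ⟨N3, hN3⟩ := hF (KF r) (KF_continuous hr0.le hr1) (KF_symm r)
    (KF_nonneg hr0.le hr1) (ε / 8) (by positivity)
  obtain ⟨N4, hN4⟩ := quad_main r hr0.le hr1 (ε / 4) (by positivity)
  set κ' := (1 + r ^ 2) / (1 - r ^ 2) with hκ'
  have h3 : 0 < 1 - r ^ 2 := by nlinarith
  have hκ'pos : 0 < κ' := by positivity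
  obtain ⟨N5, hN5⟩ := hE Real.sin Real.continuous_sin.continuousOn (ε / (4 * π * κ'))
    (by positivity)
  refine ⟨max (max (max N1 N2) (max N3 N4)) (max N5 1), fun n hn x hx => ?_⟩
  have hn1 : 1 ≤ n := by omega
  have hn0 : (0:ℝ) < n := by exact_mod_cast hn1
  rcases le_or_gt (I x) 2 with hI | hI
  swap
  · have : (n:ℝ) * (2 - I x) ≤ 0 := mul_nonpos_of_nonneg_of_nonpos hn0.le (by linarith)
    linarith
  have a1 := hN1 n (by omega) x hx hI
  have a2 := hN2 n (by omega) x hx hI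
  have a3 := hN3 n (by omega) x hx hI
  have a4 := hN4 n (by omega)
  have a5 := hN5 n (by omega) x hx hI
  have hnf := hx.near_far hr0.le hr1
  have hlin := hx.linear_part hn1 hr0.le hr1
  have hquad := quad_term_le (x := x) (n := n) hr_half hr1 hn1 hCqpos.le
    (fun η hη => (hCq0 r hr0.le hr1 n hn1 η hη).trans
      (mul_le_mul_of_nonneg_right (by rw [hCqdef]; linarith [le_abs_self Cq0])
        (lam_nonneg hn1 η))) hκ a1 a4
  have hfar := far_const hr0 hr1
  set S := (∑ k, Real.sin (th x k)) / n with hS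
  have hSsum : ∑ k, Real.sin (th x k) = S * n := by
    rw [hS]; field_simp
  rw [integral_sin, Real.cos_zero, Real.cos_pi] at a5
  have hSlow : 2 / π - ε / (4 * π * κ') ≤ S := by
    have := (abs_le.1 a5).1
    have e : 1 / π * (1 - -1) = 2 / π := by ring
    rw [e] at this
    linarith
  have hS1 : S ≤ 1 := by
    rw [hS, div_le_one hn0]
    calc ∑ k, Real.sin (th x k) ≤ ∑ _k : Fin n, (1:ℝ) :=
          Finset.sum_le_sum fun k _ => Real.sin_le_one _
      _ = n := by simp
  have hS0 : 0 ≤ S := div_nonneg (Finset.sum_nonneg fun k _ => sin_th_nonneg x k) hn0.le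
  rw [hSsum] at hlin hquad
  -- abbreviations
  set A := ∑ k, ∫ θ in (0:ℝ)..π, L x k (Real.cos θ) * T r n θ (th x k) * Real.sin θ
  set R := ∑ k, ∫ θ in (0:ℝ)..π, L x k (Real.cos θ) * rho r n θ (th x k) * Real.sin θ
  set W := ∑ k, ∫ θ in (0:ℝ)..π, V r (θ - th x k) * D n (θ - th x k) ^ 2 * Real.sin θ
  set F := ∑ k, ∫ θ in (0:ℝ)..π,
          KF r θ (th x k) * (Real.cos θ - x k) ^ 2 * L x k (Real.cos θ) ^ 2 * Real.sin θ
  set Q := (1 / (2 * π)) * (∫ θ in (0:ℝ)..π, ∫ η in (0:ℝ)..π,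
        KF r θ η * (√(Real.sin θ) ^ 3 * √(Real.sin η) ^ 3))
  have hR : -(n * |R|) ≤ n * R := by
    have := neg_abs_le R
    nlinarith
  have hlin' : 2 * n - (1 + r) / (1 - r) + π * (S * n) ≤ n * (2 * A) := by
    have e : n * (2 - ((1 + r) / (1 - r)) / n + (π / n) * (S * n))
        = 2 * n - (1 + r) / (1 - r) + π * (S * n) := by
      field_simp
    rw [← e]
    exact mul_le_mul_of_nonneg_left hlin hn0.le
  have hW : n * ((1 / (4 * (n:ℝ) ^ 2)) * W) ≤ π * (S * n) - (π / 2) * κ' * S + (ε / 16) * S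
      + Cq * (ε / (2 * Cq)) / 4 + 2 * π * (1 - r) ^ 2 / κ ^ 3 := by
    have e : n * ((1 / (4 * (n:ℝ) ^ 2)) * W) = (1 / (4 * n)) * W := by
      field_simp
    rw [e]
    calc (1 / (4 * (n:ℝ))) * W ≤ (1 / (4 * n)) * ((4 * π * n - 2 * π * κ' + ε / 4) * (S * n)
          + Cq * (ε / (2 * Cq) * n) + 8 * π * (1 - r) ^ 2 / κ ^ 3 * n) := by
          apply mul_le_mul_of_nonneg_left hquad
          positivity
      _ = _ := by
          field_simp
          ring
  have hCqe : Cq * (ε / (2 * Cq)) / 4 = ε / 8 := by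
    field_simp
    ring
  rw [hCqe] at hW
  have hfin := mul_le_mul_of_nonneg_left hnf hn0.le
  have hκS : -(π / 2) * κ' * S ≤ -κ' + ε / 8 := by
    have h1 : (π / 2) * κ' * (2 / π - ε / (4 * π * κ')) ≤ (π / 2) * κ' * S :=
      mul_le_mul_of_nonneg_left hSlow (by positivity)
    have h2 : (π / 2) * κ' * (2 / π - ε / (4 * π * κ')) = κ' - ε / 8 := by
      field_simp
      ring
    linarith
  have hεS : ε / 16 * S ≤ ε / 16 := mul_le_of_le_one_right (by positivity) hS1
  have hconst : (1 + r) / (1 - r) - κ' = 2 * r / (1 - r ^ 2) := by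
    have h1r : 0 < 1 - r := by linarith
    have : 1 - r ^ 2 = (1 - r) * (1 + r) := by ring
    rw [hκ', this]
    field_simp
    ring
  have hexp : n * (2 * A + 2 * R - (1 / (4 * (n:ℝ) ^ 2)) * W + F)
      = n * (2 * A) + 2 * (n * R) - n * ((1 / (4 * (n:ℝ) ^ 2)) * W) + n * F := by ring
  rw [hexp] at hfin
  clear_value A R W F Q κ' S Cq
  clear hexp hnf hlin hquad hSlow a4 hUI1 hL1 hCq0 hN1 hN2 hN3 hN4 hN5 a1 hE hUI hL hF hSsum
  linarith only [hfin, hR, hlin', hW, hκS, hεS, hconst, hfar, a2, a3, hr_small, hc, hε]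

end ErdosLag
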