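import Pool.Agent.W_MP_93ab53_an.KDefs

/-!
Dirichlet/Poisson kernel integrals and a singular integral bound for MP_93ab53_an.
-/

namespace ErdosLag

open Real MeasureTheory intervalIntegral Finset Polynomial

/-- `sin (n t) / sin (t/2)` as a trigonometric sum. -/
noncomputable def EE (n : ℕ) (t : ℝ) : ℝ := ∑ k ∈ Finset.range n, 2 * Real.cos ((k + 1 / 2) * t)

lemma EE_mul_sin (n : ℕ) (t : ℝ) : EE n t * Real.sin (t / 2) = Real.sin (n * t) := by
  induction n with
  | zero => simp [EE]
  | succ n ih =>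
    unfold EE at ih ⊢
    rw [Finset.sum_range_succ, add_mul, ih]
    have h1 : Real.sin (((n + 1 : ℕ) : ℝ) * t) =
        Real.sin ((n + 1 / 2) * t) * Real.cos (t / 2) + Real.cos ((n + 1 / 2) * t) * Real.sin (t / 2) := by
      rw [← Real.sin_add]; congr 1; push_cast; ring
    have h2 : Real.sin ((n : ℝ) * t) =
        Real.sin ((n + 1 / 2) * t) * Real.cos (t / 2) - Real.cos ((n + 1 / 2) * t) * Real.sin (t / 2) := by
      rw [← Real.sin_sub]; congr 1; ring
    rw [h1, h2]; ring

lemma D_succ (n : ℕ) (hn : 1 ≤ n) (t : ℝ) :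
    D (n + 1) t = D n t + Real.cos (n * t) + Real.cos ((n + 1 : ℕ) * t) := by
  unfold D
  rw [Finset.sum_Ico_succ_top hn]
  ring

lemma D_eq_EE (n : ℕ) (hn : 1 ≤ n) (t : ℝ) : D n t = EE n t * Real.cos (t / 2) := by
  induction n, hn using Nat.le_induction with
  | base =>
    simp only [D, EE, Finset.Ico_self, Finset.sum_empty, Finset.sum_range_one]
    have : Real.cos t = 2 * Real.cos (t / 2) ^ 2 - 1 := by
      rw [← Real.cos_two_mul]; congr 1; ring
    simp only [Nat.cast_one, one_mul, Nat.cast_zero, zero_add, mul_zero, add_zero]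
    rw [this]
    rw [show (1 / 2 * t : ℝ) = t / 2 by ring]
    ring
  | succ n hn ih =>
    rw [D_succ n hn, ih]
    unfold EE
    rw [Finset.sum_range_succ, add_mul]
    have h1 : Real.cos (((n + 1 : ℕ) : ℝ) * t) =
        Real.cos ((n + 1 / 2) * t) * Real.cos (t / 2) - Real.sin ((n + 1 / 2) * t) * Real.sin (t / 2) := by
      rw [← Real.cos_add]; congr 1; push_cast; ring
    have h2 : Real.cos ((n : ℝ) * t) =
        Real.cos ((n + 1 / 2) * t) * Real.cos (t / 2) + Real.sin ((n + 1 / 2) * t) * Real.sin (t / 2) := by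
      rw [← Real.cos_sub]; congr 1; ring
    rw [h1, h2]; ring

theorem D_mul_sin (n : ℕ) (hn : 1 ≤ n) (t : ℝ) :
    D n t * Real.sin (t / 2) = Real.sin (n * t) * Real.cos (t / 2) := by
  rw [D_eq_EE n hn, mul_right_comm, EE_mul_sin]

lemma continuous_D (n : ℕ) : Continuous (D n) := by
  unfold D; fun_prop

lemma continuous_EE (n : ℕ) : Continuous (EE n) := by
  unfold EE; fun_prop

lemma den_pos {r : ℝ} (hr0 : 0 ≤ r) (hr1 : r < 1) (t : ℝ) :
    0 < 1 - 2 * r * Real.cos t + r ^ 2 := by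
  have := Real.cos_le_one t
  nlinarith [mul_nonneg hr0 (sub_nonneg.mpr this), sq_pos_of_pos (sub_pos.mpr hr1)]

lemma continuous_V {r : ℝ} (hr0 : 0 ≤ r) (hr1 : r < 1) : Continuous (V r) := by
  unfold V
  exact Continuous.div (by fun_prop) (by fun_prop) fun t => (den_pos hr0 hr1 t).ne'

lemma V_nonneg {r : ℝ} (hr0 : 0 ≤ r) (hr1 : r < 1) (t : ℝ) : 0 ≤ V r t :=
  div_nonneg (sq_nonneg _) (den_pos hr0 hr1 t).le

lemma V_le_one {r : ℝ} (hr0 : 0 ≤ r) (hr1 : r < 1) (t : ℝ) : V r t ≤ 1 := by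
  unfold V
  rw [div_le_one (den_pos hr0 hr1 t)]
  have := Real.cos_le_one t
  nlinarith [mul_nonneg hr0 (sub_nonneg.mpr this)]

lemma integral_cos_mul {a : ℝ} (ha : a ≠ 0) (x y : ℝ) :
    ∫ t in x..y, Real.cos (a * t) = (Real.sin (a * y) - Real.sin (a * x)) / a := by
  rw [intervalIntegral.integral_comp_mul_left (fun t => Real.cos t) ha, integral_cos]
  simp [div_eq_inv_mul]

lemma integral_cos_int {k : ℤ} (hk : k ≠ 0) :
    ∫ t in (-π)..π, Real.cos (k * t) = 0 := by
  rw [integral_cos_mul (by exact_mod_cast hk)]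
  have h1 : Real.sin ((k : ℝ) * π) = 0 := Real.sin_int_mul_pi k
  have h2 : Real.sin ((k : ℝ) * -π) = 0 := by rw [mul_neg, Real.sin_neg, h1, neg_zero]
  rw [h1, h2]; simp

/-- `∫ E_n² = 4 π n`. -/
lemma integral_EE_sq (n : ℕ) : ∫ t in (-π)..π, EE n t ^ 2 = 4 * π * n := by
  have h : ∀ t, EE n t ^ 2 = ∑ k ∈ Finset.range n, ∑ l ∈ Finset.range n,
      (2 * Real.cos (((k : ℤ) - (l : ℤ) : ℤ) * t) + 2 * Real.cos (((k : ℤ) + (l : ℤ) + 1 : ℤ) * t)) := by
    intro t
    unfold EE
    rw [sq, Finset.sum_mul_sum]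
    refine Finset.sum_congr rfl fun k _ => Finset.sum_congr rfl fun l _ => ?_
    have h1 : Real.cos (((k : ℤ) - (l : ℤ) : ℤ) * t) =
        Real.cos ((k + 1 / 2) * t) * Real.cos ((l + 1 / 2) * t)
          + Real.sin ((k + 1 / 2) * t) * Real.sin ((l + 1 / 2) * t) := by
      rw [← Real.cos_sub]; congr 1; push_cast; ring
    have h2 : Real.cos (((k : ℤ) + (l : ℤ) + 1 : ℤ) * t) =
        Real.cos ((k + 1 / 2) * t) * Real.cos ((l + 1 / 2) * t)
          - Real.sin ((k + 1 / 2) * t) * Real.sin ((l + 1 / 2) * t) := by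
      rw [← Real.cos_add]; congr 1; push_cast; ring
    rw [h1, h2]; ring
  simp_rw [h]
  rw [intervalIntegral.integral_finsetSum]
  swap
  · intro k _
    exact Continuous.intervalIntegrable (by fun_prop) _ _
  have : ∀ k ∈ Finset.range n, (∫ t in (-π)..π, ∑ l ∈ Finset.range n,
      (2 * Real.cos (((k : ℤ) - (l : ℤ) : ℤ) * t)
        + 2 * Real.cos (((k : ℤ) + (l : ℤ) + 1 : ℤ) * t))) = 4 * π := by
    intro k hk
    rw [intervalIntegral.integral_finsetSum]
    swap
    · intro l _
      exact Continuous.intervalIntegrable (by fun_prop) _ _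
    have h3 : ∀ l ∈ Finset.range n, (∫ t in (-π)..π,
        (2 * Real.cos (((k : ℤ) - (l : ℤ) : ℤ) * t)
          + 2 * Real.cos (((k : ℤ) + (l : ℤ) + 1 : ℤ) * t))) = if k = l then 4 * π else 0 := by
      intro l _
      rw [intervalIntegral.integral_add (Continuous.intervalIntegrable (by fun_prop) _ _)
        (Continuous.intervalIntegrable (by fun_prop) _ _),
        intervalIntegral.integral_const_mul, intervalIntegral.integral_const_mul,
        integral_cos_int (k := (k : ℤ) + l + 1) (by omega)]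
      split_ifs with hkl
      · subst hkl
        simp; ring
      · rw [integral_cos_int (k := (k : ℤ) - l) (by omega)]
        simp
    rw [Finset.sum_congr rfl h3]
    simp [Finset.mem_range.mp hk]
  rw [Finset.sum_congr rfl this]
  simp; ring

lemma V_periodic (r : ℝ) : Function.Periodic (V r) (2 * π) := by
  intro t; unfold V; rw [Real.cos_add_two_pi]

lemma D_periodic (n : ℕ) : Function.Periodic (D n) (2 * π) := by
  intro t; unfold D
  have h : ∀ m : ℕ, Real.cos (m * (t + 2 * π)) = Real.cos (m * t) := by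
    intro m
    rw [mul_add, Real.cos_add_nat_mul_two_pi]
  simp only [h]

lemma V_even (r t : ℝ) : V r (-t) = V r t := by unfold V; rw [Real.cos_neg]

lemma D_even (n : ℕ) (t : ℝ) : D n (-t) = D n t := by
  unfold D; simp only [mul_neg, Real.cos_neg]

/-- The Poisson kernel has integral `2π`. -/
lemma integral_inv_den {r : ℝ} (hr0 : 0 ≤ r) (hr1 : r < 1) :
    ∫ t in (-π)..π, (1 - 2 * r * Real.cos t + r ^ 2)⁻¹ = 2 * π / (1 - r ^ 2) := by
  have hper : Function.Periodic (fun t => (1 - 2 * r * Real.cos t + r ^ 2)⁻¹) (2 * π) := by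
    intro t; simp only [Real.cos_add_two_pi]
  have h1 := hper.intervalIntegral_add_eq (-π) 0
  have e1 : (-π + 2 * π) = π := by ring
  rw [e1, zero_add] at h1
  rw [h1]
  have hr2 : (0:ℝ) < 1 - r ^ 2 := by nlinarith
  have h2 := DiffContOnCl.circleAverage_poissonKernel_smul' (c := (0:ℂ)) (R := 1) (w := (r : ℂ))
    (f := fun _ => (1 : ℂ)) diffContOnCl_const (by simp [abs_of_nonneg hr0, hr1])
  rw [Real.circleAverage] at h2
  have h3 : ∀ θ : ℝ, ((‖circleMap 0 1 θ - 0‖ ^ 2 - ‖(r:ℂ) - 0‖ ^ 2) /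
      ‖(circleMap 0 1 θ - 0) - ((r:ℂ) - 0)‖ ^ 2) • (1:ℂ) =
      (((1 - r ^ 2) * (1 - 2 * r * Real.cos θ + r ^ 2)⁻¹ : ℝ) : ℂ) := by
    intro θ
    have h4 : ‖circleMap 0 1 θ‖ = 1 := by simp
    have h5 : ‖circleMap 0 1 θ - (r:ℂ)‖ ^ 2 = 1 - 2 * r * Real.cos θ + r ^ 2 := by
      rw [← Complex.normSq_eq_norm_sq, Complex.normSq_apply]
      simp only [circleMap, Complex.ofReal_one, one_mul, zero_add, Complex.sub_re,
        Complex.exp_ofReal_mul_I_re, Complex.ofReal_re, Complex.sub_im,
        Complex.exp_ofReal_mul_I_im, Complex.ofReal_im, sub_zero]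
      nlinarith [Real.sin_sq_add_cos_sq θ]
    simp only [sub_zero]
    rw [h4, h5, Complex.norm_real, Real.norm_eq_abs, sq_abs, Complex.real_smul, mul_one]
    congr 1
    rw [one_pow, div_eq_mul_inv]
  simp_rw [h3] at h2
  rw [intervalIntegral.integral_ofReal, Complex.real_smul, ← Complex.ofReal_mul] at h2
  have h6 : (2 * π)⁻¹ * ∫ θ in (0:ℝ)..2 * π, (1 - r ^ 2) * (1 - 2 * r * Real.cos θ + r ^ 2)⁻¹ = 1 := by
    exact_mod_cast h2
  rw [intervalIntegral.integral_const_mul] at h6
  have hpi : (2 * π) ≠ 0 := by positivity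
  field_simp at h6 ⊢
  linarith

/-- The smooth correction function. -/
noncomputable def gg (r t : ℝ) : ℝ :=
  -(((1 - r) ^ 2 * Real.cos t + (2 + 2 * r ^ 2)) / 2) * (1 - 2 * r * Real.cos t + r ^ 2)⁻¹

lemma continuous_gg {r : ℝ} (hr0 : 0 ≤ r) (hr1 : r < 1) : Continuous (gg r) := by
  unfold gg
  exact (by fun_prop : Continuous fun t => -(((1 - r) ^ 2 * Real.cos t + (2 + 2 * r ^ 2)) / 2)).mul
    (Continuous.inv₀ (by fun_prop) fun t => (den_pos hr0 hr1 t).ne')

lemma quad_pointwise {r : ℝ} (hr0 : 0 ≤ r) (hr1 : r < 1) {n : ℕ} (hn : 1 ≤ n) (t : ℝ) :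
    V r t * D n t ^ 2 * Real.cos t = EE n t ^ 2 + (1 - Real.cos (2 * n * t)) * gg r t := by
  have hd := (den_pos hr0 hr1 t).ne'
  have hc : Real.cos (t / 2) ^ 2 = (1 + Real.cos t) / 2 := by
    have : Real.cos t = 2 * Real.cos (t / 2) ^ 2 - 1 := by
      rw [← Real.cos_two_mul]; congr 1; ring
    linarith
  have hs : Real.sin (t / 2) ^ 2 = (1 - Real.cos t) / 2 := by
    have := Real.sin_sq_add_cos_sq (t / 2); linarith
  have h1 : 1 - Real.cos (2 * n * t) = EE n t ^ 2 * (1 - Real.cos t) := by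
    have h2 : Real.cos (2 * n * t) = 1 - 2 * Real.sin (n * t) ^ 2 := by
      have : Real.cos (2 * n * t) = 2 * Real.cos (n * t) ^ 2 - 1 := by
        rw [← Real.cos_two_mul]; congr 1; ring
      have := Real.sin_sq_add_cos_sq (n * t); linarith
    rw [h2, ← EE_mul_sin, mul_pow, hs]; ring
  rw [h1, D_eq_EE n hn, mul_pow, hc]
  have hi : (1 - 2 * r * Real.cos t + r ^ 2) * (1 - 2 * r * Real.cos t + r ^ 2)⁻¹ = 1 :=
    mul_inv_cancel₀ hd
  unfold V gg
  rw [div_eq_mul_inv]
  linear_combination (EE n t ^ 2) * hi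

lemma integral_gg_le {r : ℝ} (hr0 : 0 ≤ r) (hr1 : r < 1) :
    ∫ t in (-π)..π, gg r t ≤ - 2 * π * ((1 + r ^ 2) / (1 - r ^ 2)) := by
  have hcont : Continuous fun t => (1 - 2 * r * Real.cos t + r ^ 2)⁻¹ :=
    Continuous.inv₀ (by fun_prop) fun t => (den_pos hr0 hr1 t).ne'
  have h1 : ∀ t, gg r t ≤ - (1 + r ^ 2) * (1 - 2 * r * Real.cos t + r ^ 2)⁻¹
      - ((1 - r) ^ 2 / 2 / (1 + r ^ 2)) * Real.cos t := by
    intro t
    have hd := den_pos hr0 hr1 t
    have hr2 : 0 < 1 + r ^ 2 := by positivity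
    have h2 : Real.cos t / (1 + r ^ 2) ≤ Real.cos t * (1 - 2 * r * Real.cos t + r ^ 2)⁻¹ := by
      rw [← div_eq_mul_inv, div_le_div_iff₀ hr2 hd]
      nlinarith [mul_nonneg hr0 (sq_nonneg (Real.cos t))]
    have h3 : (1 - r) ^ 2 / 2 * (Real.cos t / (1 + r ^ 2)) ≤
        (1 - r) ^ 2 / 2 * (Real.cos t * (1 - 2 * r * Real.cos t + r ^ 2)⁻¹) :=
      mul_le_mul_of_nonneg_left h2 (by positivity)
    unfold gg
    have e1 : (1 - r) ^ 2 / 2 / (1 + r ^ 2) * Real.cos t = (1 - r) ^ 2 / 2 * (Real.cos t / (1 + r ^ 2)) := by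
      ring
    rw [e1]
    nlinarith [h3]
  have h2 : ∫ t in (-π)..π, gg r t ≤ ∫ t in (-π)..π, (- (1 + r ^ 2) * (1 - 2 * r * Real.cos t + r ^ 2)⁻¹
      - ((1 - r) ^ 2 / 2 / (1 + r ^ 2)) * Real.cos t) := by
    apply intervalIntegral.integral_mono_on (by linarith [Real.pi_pos])
      ((continuous_gg hr0 hr1).intervalIntegrable _ _)
    · exact Continuous.intervalIntegrable (by fun_prop) _ _
    · intro t _; exact h1 t
  refine h2.trans (le_of_eq ?_)
  rw [intervalIntegral.integral_sub (Continuous.intervalIntegrable (by fun_prop) _ _)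
    (Continuous.intervalIntegrable (by fun_prop) _ _), intervalIntegral.integral_const_mul,
    intervalIntegral.integral_const_mul, integral_inv_den hr0 hr1, integral_cos]
  simp
  ring

/-- Riemann-Lebesgue for the correction function. -/
lemma integral_cos_gg {r : ℝ} (hr0 : 0 ≤ r) (hr1 : r < 1) : ∃ C : ℝ, ∀ n : ℕ, 1 ≤ n →
    |∫ t in (-π)..π, Real.cos (2 * n * t) * gg r t| ≤ C / n := by
  have hder : ∀ t, HasDerivAt (gg r) (
      ((1 - r) ^ 2 * Real.sin t / 2) * (1 - 2 * r * Real.cos t + r ^ 2)⁻¹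
      + -(((1 - r) ^ 2 * Real.cos t + (2 + 2 * r ^ 2)) / 2) *
        (-(2 * r * Real.sin t) / (1 - 2 * r * Real.cos t + r ^ 2) ^ 2)) t := by
    intro t
    unfold gg
    refine HasDerivAt.fun_mul ?_ ?_
    · have h := ((((Real.hasDerivAt_cos t).const_mul ((1 - r) ^ 2)).add_const
        (2 + 2 * r ^ 2)).div_const 2).fun_neg
      exact h.congr_deriv (by ring)
    · have h := (((Real.hasDerivAt_cos t).const_mul (2 * r)).const_sub 1).add_const (r ^ 2)
      exact (h.fun_inv (den_pos hr0 hr1 t).ne').congr_deriv (by ring)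
  set g' : ℝ → ℝ := fun t => ((1 - r) ^ 2 * Real.sin t / 2) * (1 - 2 * r * Real.cos t + r ^ 2)⁻¹
      + -(((1 - r) ^ 2 * Real.cos t + (2 + 2 * r ^ 2)) / 2) *
        (-(2 * r * Real.sin t) / (1 - 2 * r * Real.cos t + r ^ 2) ^ 2) with hg'
  have hcont : Continuous g' := by
    rw [hg']
    have hcont1 : Continuous fun t => (1 - 2 * r * Real.cos t + r ^ 2)⁻¹ :=
      Continuous.inv₀ (by fun_prop) fun t => (den_pos hr0 hr1 t).ne'
    have hcont2 : Continuous fun t => (-(2 * r * Real.sin t) / (1 - 2 * r * Real.cos t + r ^ 2) ^ 2) :=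
      Continuous.div (by fun_prop) (by fun_prop) fun t => (pow_pos (den_pos hr0 hr1 t) 2).ne'
    fun_prop
  refine ⟨(∫ t in (-π)..π, |g' t|) / 2, fun n hn => ?_⟩
  have hn0 : (0:ℝ) < n := by exact_mod_cast hn
  have hsin : ∀ t, HasDerivAt (fun t => Real.sin (2 * n * t) / (2 * n)) (Real.cos (2 * n * t)) t := by
    intro t
    have h := ((((hasDerivAt_id t).const_mul (2 * (n:ℝ)))).sin).div_const (2 * (n:ℝ))
    refine h.congr_deriv ?_
    field_simp
    simp
  have hparts := intervalIntegral.integral_mul_deriv_eq_deriv_mul (a := -π) (b := π)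
    (u := gg r) (v := fun t => Real.sin (2 * n * t) / (2 * n)) (u' := g')
    (v' := fun t => Real.cos (2 * n * t)) (fun t _ => hder t) (fun t _ => hsin t)
    (hcont.intervalIntegrable _ _) (Continuous.intervalIntegrable (by fun_prop) _ _)
  have hz1 : Real.sin (2 * n * π) = 0 := by
    have := Real.sin_nat_mul_pi (2 * n); push_cast at this; exact this
  have hz2 : Real.sin (2 * n * -π) = 0 := by rw [mul_neg, Real.sin_neg, hz1, neg_zero]
  simp only [hz1, hz2, zero_div, mul_zero, sub_self, zero_sub] at hparts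
  have hcomm : ∫ t in (-π)..π, Real.cos (2 * n * t) * gg r t
      = ∫ t in (-π)..π, gg r t * Real.cos (2 * n * t) := by
    congr 1; ext t; ring
  rw [hcomm, hparts, abs_neg]
  calc |∫ t in (-π)..π, g' t * (Real.sin (2 * n * t) / (2 * n))|
      ≤ ∫ t in (-π)..π, |g' t * (Real.sin (2 * n * t) / (2 * n))| :=
        intervalIntegral.abs_integral_le_integral_abs (by linarith [Real.pi_pos])
    _ ≤ ∫ t in (-π)..π, |g' t| * (1 / (2 * n)) := by
        apply intervalIntegral.integral_mono_on (by linarith [Real.pi_pos])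
        · apply Continuous.intervalIntegrable
          exact (hcont.mul ((Real.continuous_sin.comp (by fun_prop)).div_const _)).abs
        · exact Continuous.intervalIntegrable (hcont.abs.mul_const _) _ _
        · intro t _
          rw [abs_mul, abs_div, abs_of_pos (by positivity : (0:ℝ) < 2 * n)]
          apply mul_le_mul_of_nonneg_left _ (abs_nonneg _)
          apply div_le_div_of_nonneg_right (Real.abs_sin_le_one _) (by positivity)
    _ = _ := by
        rw [intervalIntegral.integral_mul_const]; field_simp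

theorem quad_main (r : ℝ) (hr0 : 0 ≤ r) (hr1 : r < 1) (ε : ℝ) (hε : 0 < ε) : ∃ N : ℕ, ∀ n ≥ N,
    ∫ t in (-π)..π, V r t * D n t ^ 2 * Real.cos t
      ≤ 4 * π * n - 2 * π * ((1 + r ^ 2) / (1 - r ^ 2)) + ε := by
  obtain ⟨C, hC⟩ := integral_cos_gg hr0 hr1
  obtain ⟨N, hN⟩ := exists_nat_gt (C / ε)
  refine ⟨max N 1, fun n hn => ?_⟩
  have hn1 : 1 ≤ n := le_trans (le_max_right _ _) hn
  have hn0 : (0:ℝ) < n := by exact_mod_cast hn1
  have hnN : (N:ℝ) ≤ n := by exact_mod_cast le_trans (le_max_left _ _) hn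
  have hCn : C / n ≤ ε := by
    rw [div_le_iff₀ hn0]
    rw [div_lt_iff₀ hε] at hN
    nlinarith
  have hcg := continuous_gg hr0 hr1
  have hcE := continuous_EE n
  have h1 : ∫ t in (-π)..π, V r t * D n t ^ 2 * Real.cos t =
      (∫ t in (-π)..π, EE n t ^ 2) + ((∫ t in (-π)..π, gg r t)
        - ∫ t in (-π)..π, Real.cos (2 * n * t) * gg r t) := by
    have e1 : ∫ t in (-π)..π, V r t * D n t ^ 2 * Real.cos t =
        ∫ t in (-π)..π, (EE n t ^ 2 + (gg r t - Real.cos (2 * n * t) * gg r t)) := by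
      refine intervalIntegral.integral_congr fun t _ => ?_
      rw [quad_pointwise hr0 hr1 hn1]; ring
    rw [e1, intervalIntegral.integral_add (Continuous.intervalIntegrable (by fun_prop) _ _)
      (Continuous.intervalIntegrable (by fun_prop) _ _), intervalIntegral.integral_sub
      (Continuous.intervalIntegrable (by fun_prop) _ _)
      (Continuous.intervalIntegrable (by fun_prop) _ _)]
  rw [h1, integral_EE_sq]
  have h2 := integral_gg_le hr0 hr1
  have h3 := (abs_le.mp (hC n hn1)).1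
  linarith

theorem quad_split (r : ℝ) (hr0 : 0 ≤ r) (hr1 : r < 1) (n : ℕ) (η : ℝ) :
    ∫ θ in (0:ℝ)..π, V r (θ - η) * D n (θ - η) ^ 2 * Real.sin θ
      = Real.sin η * (∫ t in (-π)..π, V r t * D n t ^ 2 * Real.cos t)
        + ∫ θ in (0:ℝ)..π, V r (θ + η) * D n (θ + η) ^ 2 * Real.sin θ := by
  have hV := continuous_V hr0 hr1
  have hD := continuous_D n
  have hsub : ∀ x y : ℝ, IntervalIntegrable (fun θ => V r (θ - η) * D n (θ - η) ^ 2 * Real.sin θ)
      volume x y := fun x y => Continuous.intervalIntegrable (by fun_prop) _ _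
  -- the integral over the negative half
  have h1 : ∫ θ in (-π)..0, V r (θ - η) * D n (θ - η) ^ 2 * Real.sin θ
      = - ∫ θ in (0:ℝ)..π, V r (θ + η) * D n (θ + η) ^ 2 * Real.sin θ := by
    rw [← intervalIntegral.integral_neg]
    have h := intervalIntegral.integral_comp_neg (a := (0:ℝ)) (b := π)
      (fun θ => V r (θ - η) * D n (θ - η) ^ 2 * Real.sin θ)
    rw [neg_zero] at h
    rw [← h]
    refine intervalIntegral.integral_congr fun θ _ => ?_
    have e1 : -θ - η = -(θ + η) := by ring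
    simp only [e1, V_even, D_even, Real.sin_neg]
    ring
  -- the full period
  have h2 : ∫ θ in (-π)..π, V r (θ - η) * D n (θ - η) ^ 2 * Real.sin θ
      = Real.sin η * (∫ t in (-π)..π, V r t * D n t ^ 2 * Real.cos t) := by
    have hper : Function.Periodic (fun t => V r t * D n t ^ 2 * Real.sin (t + η)) (2 * π) := by
      intro t
      simp only [V_periodic r t, D_periodic n t]
      rw [show t + 2 * π + η = t + η + 2 * π by ring, Real.sin_add_two_pi]
    have h3 : ∫ θ in (-π)..π, V r (θ - η) * D n (θ - η) ^ 2 * Real.sin θ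
        = ∫ t in (-π - η)..(π - η), V r t * D n t ^ 2 * Real.sin (t + η) := by
      rw [← intervalIntegral.integral_comp_sub_right
        (fun t => V r t * D n t ^ 2 * Real.sin (t + η)) η]
      refine intervalIntegral.integral_congr fun θ _ => ?_
      simp
    rw [h3]
    have h4 := hper.intervalIntegral_add_eq (-π - η) (-π)
    rw [show -π - η + 2 * π = π - η by ring, show -π + 2 * π = π by ring] at h4
    rw [h4]
    have h5 : ∫ t in (-π)..π, V r t * D n t ^ 2 * Real.sin (t + η)
        = (∫ t in (-π)..π, Real.cos η * (V r t * D n t ^ 2 * Real.sin t))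
          + ∫ t in (-π)..π, Real.sin η * (V r t * D n t ^ 2 * Real.cos t) := by
      rw [← intervalIntegral.integral_add (Continuous.intervalIntegrable (by fun_prop) _ _)
        (Continuous.intervalIntegrable (by fun_prop) _ _)]
      refine intervalIntegral.integral_congr fun t _ => ?_
      simp only [Real.sin_add]
      ring
    have h6 : ∫ t in (-π)..π, (V r t * D n t ^ 2 * Real.sin t) = 0 := by
      have h := intervalIntegral.integral_comp_neg (a := -π) (b := π)
        (fun t => V r t * D n t ^ 2 * Real.sin t)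
      rw [neg_neg] at h
      have e : ∫ x in -π..π, V r (-x) * D n (-x) ^ 2 * Real.sin (-x)
          = - ∫ t in (-π)..π, (V r t * D n t ^ 2 * Real.sin t) := by
        rw [← intervalIntegral.integral_neg]
        refine intervalIntegral.integral_congr fun t _ => ?_
        simp only [V_even, D_even, Real.sin_neg]
        ring
      rw [e] at h
      linarith
    rw [h5, intervalIntegral.integral_const_mul, intervalIntegral.integral_const_mul, h6]
    ring
  have h3 := intervalIntegral.integral_add_adjacent_intervals (hsub (-π) 0) (hsub 0 π)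
  rw [h2, h1] at h3
  linarith

lemma abs_D_mul_sin_le (n : ℕ) (hn : 1 ≤ n) (t : ℝ) : |D n t| * |Real.sin (t / 2)| ≤ |Real.cos (t / 2)| := by
  rw [← abs_mul, D_mul_sin n hn, abs_mul]
  exact mul_le_of_le_one_left (abs_nonneg _) (Real.abs_sin_le_one _)

lemma abs_D_le (n : ℕ) (hn : 1 ≤ n) (t : ℝ) : |D n t| ≤ 2 * n := by
  have h1 : |EE n t| ≤ 2 * n := by
    unfold EE
    refine (Finset.abs_sum_le_sum_abs _ _).trans ?_
    calc ∑ k ∈ Finset.range n, |2 * Real.cos ((k + 1 / 2) * t)|
        ≤ ∑ k ∈ Finset.range n, (2:ℝ) := by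
          refine Finset.sum_le_sum fun k _ => ?_
          rw [abs_mul, abs_two]
          linarith [Real.abs_cos_le_one (((k:ℝ) + 1 / 2) * t)]
      _ = 2 * n := by simp; ring
  rw [D_eq_EE n hn, abs_mul]
  calc |EE n t| * |Real.cos (t / 2)| ≤ |EE n t| * 1 :=
        mul_le_mul_of_nonneg_left (Real.abs_cos_le_one _) (abs_nonneg _)
    _ ≤ 2 * n := by rw [mul_one]; exact h1

lemma sin_half_add {θ η : ℝ} (h0 : θ ∈ Set.Icc 0 π) (h1 : η ∈ Set.Icc 0 π) :
    (Real.sin θ + Real.sin η) / 2 ≤ Real.sin ((θ + η) / 2) := by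
  have h2 : Real.sin θ + Real.sin η = 2 * Real.sin ((θ + η) / 2) * Real.cos ((θ - η) / 2) := by
    have e1 : θ = (θ + η) / 2 + (θ - η) / 2 := by ring
    have e2 : η = (θ + η) / 2 - (θ - η) / 2 := by ring
    have e3 : Real.sin θ = Real.sin ((θ + η) / 2 + (θ - η) / 2) := by rw [← e1]
    have e4 : Real.sin η = Real.sin ((θ + η) / 2 - (θ - η) / 2) := by rw [← e2]
    rw [e3, e4, Real.sin_add, Real.sin_sub]; ring
  rw [h2]
  have h3 : 0 ≤ Real.sin ((θ + η) / 2) :=
    Real.sin_nonneg_of_nonneg_of_le_pi (by linarith [h0.1, h1.1]) (by linarith [h0.2, h1.2])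
  nlinarith [Real.cos_le_one ((θ - η) / 2)]

lemma aux_min {n : ℕ} (hn : 1 ≤ n) {s y : ℝ} (hs : 0 ≤ s) (hy0 : 0 ≤ y)
    (h1 : y ≤ (2 * n) ^ 2) (h2 : y * s ^ 2 ≤ 1) : y * s * (s + 1 / n) ≤ 3 := by
  have hn0 : (0:ℝ) < n := by exact_mod_cast hn
  have hs' : 0 ≤ (1:ℝ) / n := by positivity
  by_cases h : s * (2 * n) ≤ 1
  · -- y s² ≤ 1/... 
    have e1 : s ≤ 1 / (2 * n) := by rw [le_div_iff₀ (by positivity)]; exact h
    calc y * s * (s + 1 / n) ≤ (2 * n) ^ 2 * (1 / (2 * n)) * (1 / (2 * n) + 1 / n) := by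
          gcongr
      _ = 3 := by field_simp; norm_num
  · push Not at h
    have e1 : 1 / (n:ℝ) ≤ 2 * s := by rw [div_le_iff₀ hn0]; linarith
    calc y * s * (s + 1 / n) ≤ y * s * (s + 2 * s) := by gcongr
      _ = 3 * (y * s ^ 2) := by ring
      _ ≤ 3 := by linarith

lemma D_sq_mul_le (n : ℕ) (hn : 1 ≤ n) (w : ℝ) : D n (2 * w) ^ 2 * Real.sin w ^ 2 ≤ 1 := by
  have h := abs_D_mul_sin_le n hn (2 * w)
  rw [show 2 * w / 2 = w by ring] at h
  have h2 : |D n (2 * w)| * |Real.sin w| ≤ 1 := h.trans (Real.abs_cos_le_one _)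
  have h3 : 0 ≤ |D n (2 * w)| * |Real.sin w| := by positivity
  calc D n (2 * w) ^ 2 * Real.sin w ^ 2 = (|D n (2 * w)| * |Real.sin w|) ^ 2 := by
        rw [mul_pow, sq_abs, sq_abs]
    _ ≤ 1 := by nlinarith

lemma D_sq_le (n : ℕ) (hn : 1 ≤ n) (t : ℝ) : D n t ^ 2 ≤ (2 * n) ^ 2 := by
  rw [← sq_abs]
  exact pow_le_pow_left₀ (abs_nonneg _) (abs_D_le n hn t) 2

lemma jordan {θ : ℝ} (h : θ ∈ Set.Icc 0 π) {a : ℝ} (ha : 0 < a) :
    (Real.sin θ + a)⁻¹ ≤ (2 / π * θ + a)⁻¹ + (2 / π * (π - θ) + a)⁻¹ := by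
  have hp : 0 ≤ 2 / π := by positivity
  have h1 : 0 < 2 / π * θ + a := by have := mul_nonneg hp h.1; linarith
  have h2 : 0 < 2 / π * (π - θ) + a := by
    have := mul_nonneg hp (sub_nonneg.mpr h.2); linarith
  have hs : 0 < Real.sin θ + a := by
    have := Real.sin_nonneg_of_nonneg_of_le_pi h.1 h.2; linarith
  by_cases hh : θ ≤ π / 2
  · have := Real.mul_le_sin h.1 hh
    calc (Real.sin θ + a)⁻¹ ≤ (2 / π * θ + a)⁻¹ := by
          apply inv_anti₀ h1; linarith
      _ ≤ _ := by have := inv_pos.mpr h2; linarith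
  · push Not at hh
    have := Real.mul_le_sin (sub_nonneg.mpr h.2) (by linarith : π - θ ≤ π / 2)
    rw [Real.sin_pi_sub] at this
    calc (Real.sin θ + a)⁻¹ ≤ (2 / π * (π - θ) + a)⁻¹ := by
          apply inv_anti₀ h2; linarith
      _ ≤ _ := by have := inv_pos.mpr h1; linarith

lemma integral_jordan {a : ℝ} (ha : 0 < a) :
    ∫ θ in (0:ℝ)..π, (2 / π * θ + a)⁻¹ = π / 2 * Real.log ((2 + a) / a) := by
  have hp : (2 / π) ≠ 0 := by positivity
  have h := intervalIntegral.integral_comp_mul_add (a := 0) (b := π) (fun x : ℝ => x⁻¹) hp a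
  rw [h]
  have e1 : 2 / π * π + a = 2 + a := by field_simp
  rw [e1, mul_zero, zero_add, integral_inv_of_pos ha (by linarith)]
  simp

theorem quad_bound1 : ∃ C : ℝ, ∀ r, 0 ≤ r → r < 1 → ∀ n : ℕ, 1 ≤ n → ∀ η ∈ Set.Icc 0 π,
    ∫ θ in (0:ℝ)..π, V r (θ + η) * D n (θ + η) ^ 2 * Real.sin θ ≤ C * lam n η := by
  refine ⟨36 * π, fun r hr0 hr1 n hn η hη => ?_⟩
  have hn0 : (0:ℝ) < n := by exact_mod_cast hn
  have hV := continuous_V hr0 hr1
  have hD := continuous_D n
  set a : ℝ := Real.sin η + 1 / n with ha_def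
  have hsη : 0 ≤ Real.sin η := Real.sin_nonneg_of_nonneg_of_le_pi hη.1 hη.2
  have hn' : 0 < 1 / (n:ℝ) := by positivity
  have ha : 0 < a := by positivity
  have ha2 : a ≤ 2 := by
    have h1 := Real.sin_le_one η
    have h2 : 1 / (n:ℝ) ≤ 1 := by
      rw [div_le_one hn0]; exact_mod_cast hn
    linarith
  have hp : 0 ≤ 2 / π := by positivity
  have key : ∀ θ ∈ Set.Icc 0 π, V r (θ + η) * D n (θ + η) ^ 2 * Real.sin θ
      ≤ 12 * (2 / π * θ + a)⁻¹ + 12 * (2 / π * (π - θ) + a)⁻¹ := by
    intro θ hθ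
    set s := Real.sin ((θ + η) / 2) with hs_def
    have hsθ : 0 ≤ Real.sin θ := Real.sin_nonneg_of_nonneg_of_le_pi hθ.1 hθ.2
    have h1 := sin_half_add hθ hη
    rw [← hs_def] at h1
    have hs0 : 0 ≤ s := by linarith
    have h2 : D n (θ + η) ^ 2 * s ^ 2 ≤ 1 := by
      have := D_sq_mul_le n hn ((θ + η) / 2)
      rwa [show 2 * ((θ + η) / 2) = θ + η by ring] at this
    have h3 := aux_min hn hs0 (sq_nonneg (D n (θ + η))) (D_sq_le n hn _) h2
    have h4 : D n (θ + η) ^ 2 * s ≤ 6 * (Real.sin θ + a)⁻¹ := by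
      have h5 : D n (θ + η) ^ 2 * s ≤ 3 / (s + 1 / n) := by
        rw [le_div_iff₀ (by positivity)]; exact h3
      refine h5.trans ?_
      rw [← div_eq_mul_inv, div_le_div_iff₀ (by positivity) (by positivity)]
      rw [ha_def]; nlinarith
    have h6 : V r (θ + η) * D n (θ + η) ^ 2 * Real.sin θ ≤ D n (θ + η) ^ 2 * (2 * s) := by
      have h7 : V r (θ + η) * D n (θ + η) ^ 2 ≤ D n (θ + η) ^ 2 :=
        mul_le_of_le_one_left (sq_nonneg _) (V_le_one hr0 hr1 _)
      exact mul_le_mul h7 (by linarith) hsθ (sq_nonneg _)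
    have h8 := jordan hθ ha
    nlinarith
  have h1 : ∫ θ in (0:ℝ)..π, V r (θ + η) * D n (θ + η) ^ 2 * Real.sin θ ≤
      ∫ θ in (0:ℝ)..π, (12 * (2 / π * θ + a)⁻¹ + 12 * (2 / π * (π - θ) + a)⁻¹) := by
    have hc1 : ContinuousOn (fun θ : ℝ => (2 / π * θ + a)⁻¹) (Set.uIcc 0 π) := by
      apply ContinuousOn.inv₀ (by fun_prop)
      intro θ hθ
      rw [Set.uIcc_of_le Real.pi_pos.le] at hθ
      have := mul_nonneg hp hθ.1
      exact (by linarith : 0 < 2 / π * θ + a).ne'
    have hc2 : ContinuousOn (fun θ : ℝ => (2 / π * (π - θ) + a)⁻¹) (Set.uIcc 0 π) := by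
      apply ContinuousOn.inv₀ (by fun_prop)
      intro θ hθ
      rw [Set.uIcc_of_le Real.pi_pos.le] at hθ
      have := mul_nonneg hp (sub_nonneg.mpr hθ.2)
      exact (by linarith : 0 < 2 / π * (π - θ) + a).ne'
    apply intervalIntegral.integral_mono_on Real.pi_pos.le
    · exact Continuous.intervalIntegrable (by fun_prop) _ _
    · exact ((hc1.const_mul 12).add (hc2.const_mul 12)).intervalIntegrable
    · exact key
  have h2 : ∫ θ in (0:ℝ)..π, (12 * (2 / π * θ + a)⁻¹ + 12 * (2 / π * (π - θ) + a)⁻¹)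
      = 12 * π * Real.log ((2 + a) / a) := by
    have hc1 : ContinuousOn (fun θ : ℝ => (2 / π * θ + a)⁻¹) (Set.uIcc 0 π) := by
      apply ContinuousOn.inv₀ (by fun_prop)
      intro θ hθ
      rw [Set.uIcc_of_le Real.pi_pos.le] at hθ
      have := mul_nonneg hp hθ.1
      exact (by linarith : 0 < 2 / π * θ + a).ne'
    have hc2 : ContinuousOn (fun θ : ℝ => (2 / π * (π - θ) + a)⁻¹) (Set.uIcc 0 π) := by
      apply ContinuousOn.inv₀ (by fun_prop)
      intro θ hθ
      rw [Set.uIcc_of_le Real.pi_pos.le] at hθ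
      have := mul_nonneg hp (sub_nonneg.mpr hθ.2)
      exact (by linarith : 0 < 2 / π * (π - θ) + a).ne'
    rw [intervalIntegral.integral_add (hc1.const_mul 12).intervalIntegrable
      (hc2.const_mul 12).intervalIntegrable, intervalIntegral.integral_const_mul,
      intervalIntegral.integral_const_mul,
      intervalIntegral.integral_comp_sub_left (fun θ => (2 / π * θ + a)⁻¹) π]
    rw [sub_self, sub_zero, integral_jordan ha]
    ring
  refine h1.trans ?_
  rw [h2]
  have h3 : Real.log ((2 + a) / a) ≤ 3 * lam n η := by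
    have e : lam n η = 1 - Real.log a := rfl
    rw [e, Real.log_div (by positivity) ha.ne']
    have h4 : Real.log ((2 + a) * a ^ 2) ≤ 3 := by
      rw [Real.log_le_iff_le_exp (by positivity)]
      have h5 : (2 + a) * a ^ 2 ≤ 16 := by nlinarith [mul_nonneg ha.le (sub_nonneg.mpr ha2), sq_nonneg a, mul_nonneg (sq_nonneg a) (sub_nonneg.mpr ha2)]
      have h6 : (16:ℝ) ≤ Real.exp 3 := by
        have h7 : (2.7182818283 : ℝ) < Real.exp 1 := Real.exp_one_gt_d9
        have h8 : Real.exp 3 = Real.exp 1 ^ 3 := by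
          rw [← Real.exp_nat_mul]; norm_num
        rw [h8]
        calc (16:ℝ) ≤ 2.7182818283 ^ 3 := by norm_num
          _ ≤ _ := pow_le_pow_left₀ (by norm_num) h7.le 3
      linarith
    rw [Real.log_mul (by positivity) (by positivity), Real.log_pow] at h4
    push_cast at h4
    linarith
  nlinarith [Real.pi_pos]

theorem quad_bound2 (r : ℝ) (hr0 : 1 / 2 ≤ r) (hr1 : r < 1) (n : ℕ) (hn : 1 ≤ n) (η : ℝ)
    (h0 : 0 < η) (h1 : η < π) :
    ∫ θ in (0:ℝ)..π, V r (θ + η) * D n (θ + η) ^ 2 * Real.sin θ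
      ≤ 8 * π * (1 - r) ^ 2 / Real.sin η ^ 3 := by
  have hr0' : 0 ≤ r := by linarith
  have hV := continuous_V hr0' hr1
  have hD := continuous_D n
  have hsη : 0 < Real.sin η := Real.sin_pos_of_pos_of_lt_pi h0 h1
  have key : ∀ θ ∈ Set.Icc 0 π, V r (θ + η) * D n (θ + η) ^ 2 * Real.sin θ
      ≤ 8 * (1 - r) ^ 2 / Real.sin η ^ 3 := by
    intro θ hθ
    set s := Real.sin ((θ + η) / 2) with hs_def
    have hsθ : 0 ≤ Real.sin θ := Real.sin_nonneg_of_nonneg_of_le_pi hθ.1 hθ.2
    have h2 := sin_half_add hθ ⟨h0.le, h1.le⟩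
    rw [← hs_def] at h2
    have hs0 : 0 < s := by linarith
    have h3 : D n (θ + η) ^ 2 * s ^ 2 ≤ 1 := by
      have := D_sq_mul_le n hn ((θ + η) / 2)
      rwa [show 2 * ((θ + η) / 2) = θ + η by ring] at this
    have hc : Real.cos (θ + η) = 1 - 2 * s ^ 2 := by
      have h4 : Real.cos (θ + η) = 2 * Real.cos ((θ + η) / 2) ^ 2 - 1 := by
        rw [← Real.cos_two_mul]; congr 1; ring
      have := Real.sin_sq_add_cos_sq ((θ + η) / 2)
      rw [← hs_def] at this
      linarith
    have h5 : V r (θ + η) ≤ (1 - r) ^ 2 / (2 * s ^ 2) := by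
      unfold V
      apply div_le_div_of_nonneg_left (sq_nonneg _) (by positivity)
      rw [hc]
      nlinarith [sq_nonneg s, sq_nonneg (1 - r), mul_nonneg (sub_nonneg.mpr hr0) (sq_nonneg s)]
    have h6 : D n (θ + η) ^ 2 ≤ 1 / s ^ 2 := by
      rw [le_div_iff₀ (by positivity)]; exact h3
    calc V r (θ + η) * D n (θ + η) ^ 2 * Real.sin θ
        ≤ (1 - r) ^ 2 / (2 * s ^ 2) * (1 / s ^ 2) * (2 * s) := by
          apply mul_le_mul _ (by linarith) hsθ (by positivity)
          exact mul_le_mul h5 h6 (sq_nonneg _) (by positivity)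
      _ = (1 - r) ^ 2 / s ^ 3 := by field_simp
      _ ≤ (1 - r) ^ 2 / (Real.sin η / 2) ^ 3 := by
          apply div_le_div_of_nonneg_left (sq_nonneg _) (by positivity)
          exact pow_le_pow_left₀ (by positivity) (by linarith) 3
      _ = 8 * (1 - r) ^ 2 / Real.sin η ^ 3 := by field_simp; ring
  have h2 : ∫ θ in (0:ℝ)..π, V r (θ + η) * D n (θ + η) ^ 2 * Real.sin θ ≤
      ∫ θ in (0:ℝ)..π, 8 * (1 - r) ^ 2 / Real.sin η ^ 3 := by
    apply intervalIntegral.integral_mono_on Real.pi_pos.le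
    · exact Continuous.intervalIntegrable (by fun_prop) _ _
    · exact intervalIntegrable_const
    · exact key
  refine h2.trans (le_of_eq ?_)
  rw [intervalIntegral.integral_const, smul_eq_mul]; ring

lemma abs_D_mul_abs_le (n : ℕ) (hn : 1 ≤ n) {t : ℝ} (ht : |t| ≤ π) : |D n t| * |t| ≤ 2 := by
  rcases eq_or_ne t 0 with rfl | ht0
  · simp
  have h1 := abs_D_mul_sin_le n hn t
  have hpos : 0 < |t| := abs_pos.mpr ht0
  -- |t|/2 cos(t/2) ≤ |sin (t/2)|
  have hs : |Real.sin (t / 2)| = Real.sin (|t| / 2) := by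
    rcases abs_cases t with ⟨e, _⟩ | ⟨e, _⟩
    · rw [e, abs_of_nonneg]
      apply Real.sin_nonneg_of_nonneg_of_le_pi (by linarith [abs_nonneg t]) (by linarith [Real.pi_pos])
    · rw [e, neg_div, Real.sin_neg, abs_of_nonpos]
      apply Real.sin_nonpos_of_nonpos_of_neg_pi_le (by linarith [abs_nonneg t]) (by linarith [Real.pi_pos])
  have hc : |Real.cos (t / 2)| = Real.cos (|t| / 2) := by
    have e : Real.cos (t / 2) = Real.cos (|t| / 2) := by
      rw [← Real.cos_abs (t / 2), abs_div, abs_two]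
    rw [e, abs_of_nonneg]
    exact Real.cos_nonneg_of_neg_pi_div_two_le_of_le (by linarith [Real.pi_pos]) (by linarith)
  have hspos : 0 < Real.sin (|t| / 2) :=
    Real.sin_pos_of_pos_of_lt_pi (by linarith) (by linarith [Real.pi_pos])
  have htan : |t| / 2 * Real.cos (|t| / 2) ≤ Real.sin (|t| / 2) := by
    rcases ht.eq_or_lt with h | h
    · rw [h, Real.cos_pi_div_two, Real.sin_pi_div_two]; simp
    · have h2 := Real.le_tan (x := |t| / 2) (by linarith) (by linarith)
      have hcpos : 0 < Real.cos (|t| / 2) :=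
        Real.cos_pos_of_mem_Ioo ⟨by linarith [Real.pi_pos], by linarith⟩
      rw [Real.tan_eq_sin_div_cos, le_div_iff₀ hcpos] at h2
      exact h2
  rw [hs, hc] at h1
  have h3 : |D n t| * |t| / 2 * Real.sin (|t| / 2) ≤ Real.sin (|t| / 2) := by
    calc |D n t| * |t| / 2 * Real.sin (|t| / 2) = |t| / 2 * (|D n t| * Real.sin (|t| / 2)) := by ring
      _ ≤ |t| / 2 * Real.cos (|t| / 2) := by gcongr
      _ ≤ _ := htan
  have h4 : |D n t| * |t| / 2 ≤ 1 := by
    by_contra h; push Not at h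
    have : Real.sin (|t| / 2) < |D n t| * |t| / 2 * Real.sin (|t| / 2) := by nlinarith
    linarith
  linarith

lemma integral_D_cos (n : ℕ) (hn : 1 ≤ n) : ∫ t in (-π)..π, D n t * Real.cos (n * t) = π := by
  have h : ∀ t, D n t * Real.cos (n * t) = Real.cos ((n : ℤ) * t)
      + (∑ m ∈ Finset.Ico 1 n, (Real.cos (((n : ℤ) + m : ℤ) * t) + Real.cos (((n : ℤ) - m : ℤ) * t)))
      + (1 / 2 + 1 / 2 * Real.cos ((2 * n : ℤ) * t)) := by
    intro t
    unfold D
    rw [add_mul, add_mul, one_mul, mul_assoc, Finset.sum_mul, Finset.mul_sum]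
    congr 1
    · congr 1
      refine Finset.sum_congr rfl fun m _ => ?_
      have e1 : Real.cos (((n : ℤ) + m : ℤ) * t) =
          Real.cos (n * t) * Real.cos (m * t) - Real.sin (n * t) * Real.sin (m * t) := by
        rw [← Real.cos_add]; congr 1; push_cast; ring
      have e2 : Real.cos (((n : ℤ) - m : ℤ) * t) =
          Real.cos (n * t) * Real.cos (m * t) + Real.sin (n * t) * Real.sin (m * t) := by
        rw [← Real.cos_sub]; congr 1; push_cast; ring
      rw [e1, e2]; ring
    · have e3 : Real.cos ((2 * n : ℤ) * t) = 2 * Real.cos (n * t) ^ 2 - 1 := by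
        rw [← Real.cos_two_mul]; congr 1; push_cast; ring
      rw [e3]; ring
  simp_rw [h]
  rw [intervalIntegral.integral_add (Continuous.intervalIntegrable (by fun_prop) _ _)
      (Continuous.intervalIntegrable (by fun_prop) _ _),
    intervalIntegral.integral_add (Continuous.intervalIntegrable (by fun_prop) _ _)
      (Continuous.intervalIntegrable (by fun_prop) _ _),
    intervalIntegral.integral_add (Continuous.intervalIntegrable (by fun_prop) _ _)
      (Continuous.intervalIntegrable (by fun_prop) _ _),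
    integral_cos_int (k := (n : ℤ)) (by omega), intervalIntegral.integral_const_mul,
    integral_cos_int (k := (2 * n : ℤ)) (by omega), intervalIntegral.integral_finsetSum]
  · have : ∀ m ∈ Finset.Ico 1 n, (∫ t in (-π)..π,
        (Real.cos (((n : ℤ) + m : ℤ) * t) + Real.cos (((n : ℤ) - m : ℤ) * t))) = 0 := by
      intro m hm
      rw [Finset.mem_Ico] at hm
      rw [intervalIntegral.integral_add (Continuous.intervalIntegrable (by fun_prop) _ _)
        (Continuous.intervalIntegrable (by fun_prop) _ _),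
        integral_cos_int (k := (n : ℤ) + m) (by omega), integral_cos_int (k := (n : ℤ) - m) (by omega),
        add_zero]
    rw [Finset.sum_eq_zero this, intervalIntegral.integral_const, smul_eq_mul]
    ring
  · intro m _
    exact Continuous.intervalIntegrable (by fun_prop) _ _

lemma integral_D_sin (n : ℕ) : ∫ t in (-π)..π, D n t * Real.sin (n * t) = 0 := by
  have h := intervalIntegral.integral_comp_neg (a := -π) (b := π)
    (fun t => D n t * Real.sin (n * t))
  rw [neg_neg] at h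
  have e : ∫ x in -π..π, D n (-x) * Real.sin (n * -x)
      = - ∫ t in (-π)..π, D n t * Real.sin (n * t) := by
    rw [← intervalIntegral.integral_neg]
    refine intervalIntegral.integral_congr fun t _ => ?_
    simp only [D_even, mul_neg, Real.sin_neg]
  rw [e] at h
  linarith

theorem sing_bound {F : ℝ → ℝ} {B A : ℝ} (hF : ∀ s t, |F s - F t| ≤ A * |s - t|)
    (hB : ∀ s, |F s| ≤ B) (n : ℕ) (hn : 1 ≤ n) (η d : ℝ) (hd : 0 < d) (hd' : d ≤ π) :
    |∫ t in (-π)..π, D n t * Real.cos (n * t + 2 * n * η) * F (η + t)|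
      ≤ π * B + 4 * A * d + 8 * B * Real.log (π / d) := by
  have hA : 0 ≤ A := by
    have := (abs_nonneg _).trans (hF 1 0); simpa using this
  have hB0 : 0 ≤ B := (abs_nonneg _).trans (hB 0)
  have hFc : Continuous F := by
    have : LipschitzWith (Real.toNNReal A) F := by
      apply LipschitzWith.of_dist_le_mul
      intro x y
      rw [Real.dist_eq, Real.dist_eq, Real.coe_toNNReal A hA]
      exact hF x y
    exact this.continuous
  have hD := continuous_D n
  set f : ℝ → ℝ := fun t => D n t * Real.cos (n * t + 2 * n * η) * (F (η + t) - F η) with hf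
  have hfc : Continuous f := by rw [hf]; fun_prop
  have h1 : ∫ t in (-π)..π, D n t * Real.cos (n * t + 2 * n * η) * F (η + t)
      = (∫ t in (-π)..π, f t) + F η * (Real.cos (2 * n * η) * π) := by
    have e1 : ∫ t in (-π)..π, D n t * Real.cos (n * t + 2 * n * η) * F (η + t)
        = ∫ t in (-π)..π, (f t + (F η * Real.cos (2 * n * η) * (D n t * Real.cos (n * t))
          - F η * Real.sin (2 * n * η) * (D n t * Real.sin (n * t)))) := by
      refine intervalIntegral.integral_congr fun t _ => ?_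
      simp only [hf, Real.cos_add]
      ring
    rw [e1, intervalIntegral.integral_add (Continuous.intervalIntegrable (by fun_prop) _ _)
      (Continuous.intervalIntegrable (by fun_prop) _ _),
      intervalIntegral.integral_sub (Continuous.intervalIntegrable (by fun_prop) _ _)
      (Continuous.intervalIntegrable (by fun_prop) _ _), intervalIntegral.integral_const_mul,
      intervalIntegral.integral_const_mul, integral_D_cos n hn, integral_D_sin]
    ring
  have hfb : ∀ t, |f t| ≤ |D n t| * |F (η + t) - F η| := by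
    intro t
    rw [hf]
    simp only
    rw [abs_mul, abs_mul]
    gcongr
    exact mul_le_of_le_one_right (abs_nonneg _) (Real.abs_cos_le_one _)
  have hmid : ∀ t, |t| ≤ π → |f t| ≤ 2 * A := by
    intro t ht
    refine (hfb t).trans ?_
    have h2 := hF (η + t) η
    rw [add_sub_cancel_left] at h2
    calc |D n t| * |F (η + t) - F η| ≤ |D n t| * (A * |t|) := by gcongr
      _ = A * (|D n t| * |t|) := by ring
      _ ≤ A * 2 := by gcongr; exact abs_D_mul_abs_le n hn ht
      _ = 2 * A := by ring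
  have hout : ∀ t, 0 < |t| → |t| ≤ π → |f t| ≤ 4 * B * |t|⁻¹ := by
    intro t ht0 ht
    refine (hfb t).trans ?_
    have h2 : |F (η + t) - F η| ≤ 2 * B := by
      calc |F (η + t) - F η| ≤ |F (η + t)| + |F η| := abs_sub _ _
        _ ≤ 2 * B := by linarith [hB (η + t), hB η]
    have h3 : |D n t| ≤ 2 * |t|⁻¹ := by
      rw [← div_eq_mul_inv, le_div_iff₀ ht0]; exact abs_D_mul_abs_le n hn ht
    calc |D n t| * |F (η + t) - F η| ≤ (2 * |t|⁻¹) * (2 * B) := by gcongr
      _ = 4 * B * |t|⁻¹ := by ring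
  -- split the integral
  have hint : ∀ a b, IntervalIntegrable f volume a b := fun a b => hfc.intervalIntegrable a b
  have hsplit : ∫ t in (-π)..π, f t = (∫ t in (-π)..(-d), f t) + (∫ t in (-d)..d, f t)
      + ∫ t in d..π, f t := by
    rw [intervalIntegral.integral_add_adjacent_intervals (hint _ _) (hint _ _),
      intervalIntegral.integral_add_adjacent_intervals (hint _ _) (hint _ _)]
  have hI2 : |∫ t in (-d)..d, f t| ≤ 4 * A * d := by
    have h := intervalIntegral.norm_integral_le_of_norm_le_const (a := -d) (b := d) (f := f)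
      (C := 2 * A) (by
        intro t ht
        rw [Set.uIoc_of_le (by linarith)] at ht
        rw [Real.norm_eq_abs]
        exact hmid t (abs_le.mpr ⟨by linarith [ht.1], by linarith [ht.2]⟩))
    rw [Real.norm_eq_abs] at h
    refine h.trans (le_of_eq ?_)
    rw [show d - -d = 2 * d by ring, abs_of_pos (by positivity)]; ring
  have hI3 : |∫ t in d..π, f t| ≤ 4 * B * Real.log (π / d) := by
    have hc : ContinuousOn (fun t : ℝ => 4 * B * t⁻¹) (Set.uIcc d π) := by
      apply ContinuousOn.mul continuousOn_const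
      apply ContinuousOn.inv₀ continuousOn_id
      intro t ht
      rw [Set.uIcc_of_le hd'] at ht
      have : 0 < t := lt_of_lt_of_le hd ht.1
      exact this.ne'
    have h := intervalIntegral.norm_integral_le_of_norm_le (μ := volume) (f := f)
      (g := fun t => 4 * B * t⁻¹) hd' (by
        refine Filter.Eventually.of_forall fun t ht => ?_
        have ht0 : 0 < t := lt_trans hd ht.1
        have := hout t (abs_pos.mpr ht0.ne') (by rw [abs_of_pos ht0]; exact ht.2)
        rw [abs_of_pos ht0] at this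
        exact this) hc.intervalIntegrable
    rw [Real.norm_eq_abs] at h
    refine h.trans (le_of_eq ?_)
    rw [intervalIntegral.integral_const_mul, integral_inv_of_pos hd Real.pi_pos]
  have hI1 : |∫ t in (-π)..(-d), f t| ≤ 4 * B * Real.log (π / d) := by
    have e : ∫ t in (-π)..(-d), f t = ∫ t in d..π, f (-t) := by
      rw [intervalIntegral.integral_comp_neg]
    rw [e]
    have hc : ContinuousOn (fun t : ℝ => 4 * B * t⁻¹) (Set.uIcc d π) := by
      apply ContinuousOn.mul continuousOn_const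
      apply ContinuousOn.inv₀ continuousOn_id
      intro t ht
      rw [Set.uIcc_of_le hd'] at ht
      have : 0 < t := lt_of_lt_of_le hd ht.1
      exact this.ne'
    have h := intervalIntegral.norm_integral_le_of_norm_le (μ := volume) (f := fun t => f (-t))
      (g := fun t => 4 * B * t⁻¹) hd' (by
        refine Filter.Eventually.of_forall fun t ht => ?_
        have ht0 : 0 < t := lt_trans hd ht.1
        have := hout (-t) (by rw [abs_neg]; exact abs_pos.mpr ht0.ne')
          (by rw [abs_neg, abs_of_pos ht0]; exact ht.2)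
        rw [abs_neg, abs_of_pos ht0] at this
        exact this) hc.intervalIntegrable
    rw [Real.norm_eq_abs] at h
    refine h.trans (le_of_eq ?_)
    rw [intervalIntegral.integral_const_mul, integral_inv_of_pos hd Real.pi_pos]
  have hfin : |F η * (Real.cos (2 * n * η) * π)| ≤ π * B := by
    rw [abs_mul, abs_mul, abs_of_pos Real.pi_pos]
    calc |F η| * (|Real.cos (2 * n * η)| * π) ≤ B * (1 * π) := by
          gcongr
          · exact hB η
          · exact Real.abs_cos_le_one _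
      _ = π * B := by ring
  rw [h1, hsplit]
  calc |(∫ t in (-π)..(-d), f t) + (∫ t in (-d)..d, f t) + (∫ t in d..π, f t)
        + F η * (Real.cos (2 * n * η) * π)|
      ≤ |∫ t in (-π)..(-d), f t| + |∫ t in (-d)..d, f t| + |∫ t in d..π, f t|
        + |F η * (Real.cos (2 * n * η) * π)| := by
        refine (abs_add_le _ _).trans ?_
        gcongr
        refine (abs_add_le _ _).trans ?_
        gcongr
        exact abs_add_le _ _
    _ ≤ _ := by linarith

end ErdosLag
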