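import Pool.Agent.W_MP_93ab53_an.Leftover4

/-!
The singular integral bound.
-/

namespace ErdosLag.LO

open Real MeasureTheory intervalIntegral Finset Polynomial

lemma D_mul_sin_aux (n : ℕ) (t : ℝ) :
    (1 + 2 * ∑ m ∈ Finset.Ico 1 (n + 1), Real.cos (m * t)) * Real.sin (t / 2) =
      Real.sin (n * t + t / 2) := by
  induction n with
  | zero => simp
  | succ n ih =>
    rw [Finset.sum_Ico_succ_top (by omega)]
    have e1 : (1 + 2 * (∑ m ∈ Finset.Ico 1 (n + 1), Real.cos (m * t) + Real.cos ((n + 1 : ℕ) * t))) *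
        Real.sin (t / 2) = (1 + 2 * ∑ m ∈ Finset.Ico 1 (n + 1), Real.cos (m * t)) *
        Real.sin (t / 2) + 2 * Real.cos ((n + 1 : ℕ) * t) * Real.sin (t / 2) := by ring
    rw [e1, ih]
    have e2 : (n:ℝ) * t + t / 2 = ((n + 1 : ℕ) : ℝ) * t - t / 2 := by push_cast; ring
    rw [e2, Real.sin_sub, Real.sin_add]
    ring

lemma D_mul_sin' (n : ℕ) (hn : 1 ≤ n) (t : ℝ) :
    D n t * Real.sin (t / 2) = Real.sin (n * t) * Real.cos (t / 2) := by
  obtain ⟨m, rfl⟩ : ∃ m, n = m + 1 := ⟨n - 1, by omega⟩
  unfold D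
  rw [add_mul, D_mul_sin_aux]
  have e2 : (m:ℝ) * t + t / 2 = ((m + 1 : ℕ) : ℝ) * t - t / 2 := by push_cast; ring
  rw [e2, Real.sin_sub]
  ring

lemma D_even (n : ℕ) (t : ℝ) : D n (-t) = D n t := by
  unfold D
  simp only [mul_neg, Real.cos_neg]

lemma D_mul_le {n : ℕ} (hn : 1 ≤ n) {t : ℝ} (h0 : 0 ≤ t) (h1 : t ≤ π) : |D n t| * t ≤ 2 := by
  rcases h0.eq_or_lt with rfl | h0
  · simp
  have hu0 : 0 < t / 2 := by linarith
  have hu1 : t / 2 ≤ π / 2 := by linarith
  have hs : 0 < Real.sin (t / 2) := Real.sin_pos_of_pos_of_lt_pi hu0 (by linarith [Real.pi_pos])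
  have hc : 0 ≤ Real.cos (t / 2) := Real.cos_nonneg_of_mem_Icc ⟨by linarith [Real.pi_pos], hu1⟩
  have h2 : |D n t| * Real.sin (t / 2) ≤ Real.cos (t / 2) := by
    rw [← abs_of_pos hs, ← abs_mul, D_mul_sin' n hn, abs_mul, abs_of_nonneg hc]
    exact mul_le_of_le_one_left hc (Real.abs_sin_le_one _)
  rcases hc.eq_or_lt with hc | hc
  · rw [← hc] at h2
    have : |D n t| ≤ 0 := by
      by_contra h
      push Not at h
      nlinarith
    have h3 := abs_nonneg (D n t)
    nlinarith
  · have h3 : t / 2 * Real.cos (t / 2) ≤ Real.sin (t / 2) := by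
      have hlt : t / 2 < π / 2 := by
        rcases hu1.eq_or_lt with h | h
        · rw [h, Real.cos_pi_div_two] at hc
          exact absurd hc (lt_irrefl _)
        · exact h
      have := Real.le_tan hu0.le hlt
      rw [Real.tan_eq_sin_div_cos, le_div_iff₀ hc] at this
      exact this
    have h4 : |D n t| * (t / 2 * Real.cos (t / 2)) ≤ Real.cos (t / 2) :=
      (mul_le_mul_of_nonneg_left h3 (abs_nonneg _)).trans h2
    have h5 : (|D n t| * (t / 2)) * Real.cos (t / 2) ≤ 1 * Real.cos (t / 2) := by linarith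
    have h6 := le_of_mul_le_mul_right h5 hc
    linarith

lemma integral_cos_int_mul {k : ℤ} (hk : k ≠ 0) :
    ∫ t in (-π)..π, Real.cos (k * t) = 0 := by
  have hk' : (k:ℝ) ≠ 0 := by exact_mod_cast hk
  rw [intervalIntegral.integral_comp_mul_left (fun x => Real.cos x) hk', integral_cos,
    mul_neg, Real.sin_neg, Real.sin_int_mul_pi]
  simp

lemma integral_cos_mul_cos_ne {a b : ℕ} (hab : a ≠ b) :
    ∫ t in (-π)..π, Real.cos (a * t) * Real.cos (b * t) = 0 := by
  have e : ∀ t : ℝ, Real.cos (a * t) * Real.cos (b * t) =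
      Real.cos (((a:ℤ) - (b:ℤ) : ℤ) * t) / 2 + Real.cos (((a:ℤ) + (b:ℤ) : ℤ) * t) / 2 := by
    intro t
    push_cast
    rw [sub_mul, add_mul, Real.cos_sub, Real.cos_add]
    ring
  simp_rw [e]
  rw [intervalIntegral.integral_add (Continuous.intervalIntegrable (by fun_prop) _ _)
    (Continuous.intervalIntegrable (by fun_prop) _ _), intervalIntegral.integral_div,
    intervalIntegral.integral_div, integral_cos_int_mul (by omega), integral_cos_int_mul (by omega)]
  simp

lemma integral_cos_sq_nat {n : ℕ} (hn : 1 ≤ n) :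
    ∫ t in (-π)..π, Real.cos (n * t) * Real.cos (n * t) = π := by
  have e : ∀ t : ℝ, Real.cos (n * t) * Real.cos (n * t) =
      1 / 2 + Real.cos ((2 * (n:ℤ) : ℤ) * t) / 2 := by
    intro t
    push_cast
    rw [mul_assoc, Real.cos_two_mul]
    ring
  simp_rw [e]
  rw [intervalIntegral.integral_add (Continuous.intervalIntegrable (by fun_prop) _ _)
    (Continuous.intervalIntegrable (by fun_prop) _ _), intervalIntegral.integral_div (2:ℝ)
      (fun t => Real.cos ((2 * (n:ℤ) : ℤ) * t)),
    integral_cos_int_mul (by omega)]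
  simp
  ring

lemma integral_D_mul_cos {n : ℕ} (hn : 1 ≤ n) :
    ∫ t in (-π)..π, D n t * Real.cos (n * t) = π := by
  have e : ∀ t : ℝ, D n t * Real.cos (n * t) = Real.cos ((n:ℤ) * t) +
      (∑ m ∈ Finset.Ico 1 n, 2 * (Real.cos (m * t) * Real.cos (n * t)) +
        Real.cos (n * t) * Real.cos (n * t)) := by
    intro t
    unfold D
    rw [← Finset.mul_sum, ← Finset.sum_mul]
    push_cast
    ring
  simp_rw [e]
  rw [intervalIntegral.integral_add (Continuous.intervalIntegrable (by fun_prop) _ _)
      (Continuous.intervalIntegrable (by fun_prop) _ _),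
    intervalIntegral.integral_add (Continuous.intervalIntegrable (by fun_prop) _ _)
      (Continuous.intervalIntegrable (by fun_prop) _ _),
    intervalIntegral.integral_finsetSum (fun i _ =>
      Continuous.intervalIntegrable (by fun_prop) _ _),
    integral_cos_int_mul (by omega), integral_cos_sq_nat hn, Finset.sum_eq_zero]
  · ring
  · intro m hm
    rw [Finset.mem_Ico] at hm
    rw [intervalIntegral.integral_const_mul, integral_cos_mul_cos_ne (by omega), mul_zero]

lemma integral_D_mul_sin (n : ℕ) : ∫ t in (-π)..π, D n t * Real.sin (n * t) = 0 := by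
  have h := intervalIntegral.integral_comp_neg (a := -π) (b := π)
    (fun t => D n t * Real.sin (n * t))
  simp only [D_even, mul_neg, Real.sin_neg, neg_neg] at h
  rw [intervalIntegral.integral_neg] at h
  linarith

lemma integral_D_mul_cos_shift {n : ℕ} (hn : 1 ≤ n) (η : ℝ) :
    ∫ t in (-π)..π, D n t * Real.cos (n * t + 2 * n * η) = π * Real.cos (2 * n * η) := by
  have hD := D_continuous n
  have e : ∀ t : ℝ, D n t * Real.cos (n * t + 2 * n * η) =
      Real.cos (2 * n * η) * (D n t * Real.cos (n * t)) -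
      Real.sin (2 * n * η) * (D n t * Real.sin (n * t)) := by
    intro t
    rw [Real.cos_add]
    ring
  simp_rw [e]
  rw [intervalIntegral.integral_sub (Continuous.intervalIntegrable (by fun_prop) _ _)
      (Continuous.intervalIntegrable (by fun_prop) _ _), intervalIntegral.integral_const_mul,
    intervalIntegral.integral_const_mul, integral_D_mul_cos hn, integral_D_mul_sin]
  ring

theorem singBound : SingBound := by
  intro F B A hF hB n hn η d hd hd'
  have hpi := Real.pi_pos
  have hB0 : 0 ≤ B := (abs_nonneg _).trans (hB 0)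
  have hA0 : 0 ≤ A := by
    have := (abs_nonneg _).trans (hF 0 1)
    norm_num at this
    exact this
  have hFc : Continuous F := by
    refine Metric.continuous_iff.2 fun t ε hε => ⟨ε / (A + 1), by positivity, fun s hs => ?_⟩
    rw [Real.dist_eq] at hs ⊢
    rw [lt_div_iff₀ (by positivity)] at hs
    have := hF s t
    nlinarith [abs_nonneg (s - t)]
  have hD := D_continuous n
  set h : ℝ → ℝ := fun t => D n t * Real.cos (n * t + 2 * n * η) * (F (η + t) - F η) with hh
  have hhc : Continuous h := by rw [hh]; fun_prop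
  have hi : ∀ a b, IntervalIntegrable h volume a b := fun a b => hhc.intervalIntegrable a b
  have e : ∫ t in (-π)..π, D n t * Real.cos (n * t + 2 * n * η) * F (η + t) =
      π * Real.cos (2 * n * η) * F η + ∫ t in (-π)..π, h t := by
    rw [← integral_D_mul_cos_shift hn, ← intervalIntegral.integral_mul_const,
      ← intervalIntegral.integral_add (Continuous.intervalIntegrable (by fun_prop) _ _) (hi _ _)]
    refine intervalIntegral.integral_congr fun t _ => ?_
    simp only [hh]
    ring
  have habs : ∀ t, |h t| ≤ |D n t| * |F (η + t) - F η| := by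
    intro t
    simp only [hh]
    rw [abs_mul, abs_mul]
    apply mul_le_mul_of_nonneg_right _ (abs_nonneg _)
    exact mul_le_of_le_one_right (abs_nonneg _) (Real.abs_cos_le_one _)
  have hDt : ∀ t, |t| ≤ π → |D n t| * |t| ≤ 2 := by
    intro t ht
    rcases le_total 0 t with h0 | h0
    · rw [abs_of_nonneg h0] at ht ⊢
      exact D_mul_le hn h0 ht
    · rw [abs_of_nonpos h0] at ht ⊢
      rw [← D_even]
      exact D_mul_le hn (by linarith) ht
  have b1 : ∀ t, |t| ≤ π → |h t| ≤ 2 * A := by
    intro t ht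
    have h1 := hF (η + t) η
    rw [show η + t - η = t by ring] at h1
    calc |h t| ≤ |D n t| * |F (η + t) - F η| := habs t
      _ ≤ |D n t| * (A * |t|) := mul_le_mul_of_nonneg_left h1 (abs_nonneg _)
      _ = A * (|D n t| * |t|) := by ring
      _ ≤ A * 2 := mul_le_mul_of_nonneg_left (hDt t ht) hA0
      _ = _ := by ring
  have b2 : ∀ t, t ≠ 0 → |t| ≤ π → |h t| ≤ 4 * B * (1 / |t|) := by
    intro t ht0 ht
    have htp : 0 < |t| := abs_pos.2 ht0
    have h1 : |F (η + t) - F η| ≤ 2 * B := by
      refine (abs_sub _ _).trans ?_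
      linarith [hB (η + t), hB η]
    have h2 : |D n t| ≤ 2 * (1 / |t|) := by
      rw [mul_one_div, le_div_iff₀ htp]
      exact hDt t ht
    calc |h t| ≤ |D n t| * |F (η + t) - F η| := habs t
      _ ≤ (2 * (1 / |t|)) * (2 * B) := mul_le_mul h2 h1 (abs_nonneg _) (by positivity)
      _ = _ := by ring
  -- the three pieces
  have i1 : |∫ t in (-d)..d, h t| ≤ 4 * A * d := by
    have := intervalIntegral.norm_integral_le_of_norm_le_const (a := -d) (b := d) (f := h)
      (C := 2 * A) (fun t ht => by
        rw [Set.uIoc_of_le (by linarith)] at ht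
        exact b1 t (abs_le.2 ⟨by linarith [ht.1], by linarith [ht.2]⟩))
    rw [Real.norm_eq_abs, show d - -d = 2 * d by ring, abs_of_pos (by linarith : 0 < 2 * d)] at this
    linarith
  have hlog : ∫ t in d..π, 1 / t = Real.log (π / d) := integral_one_div_of_pos hd hpi
  have hint : IntervalIntegrable (fun t : ℝ => 4 * B * (1 / t)) volume d π := by
    refine ContinuousOn.intervalIntegrable ?_
    rw [Set.uIcc_of_le hd']
    refine continuousOn_const.mul ?_
    refine continuousOn_const.div continuousOn_id fun t ht => ?_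
    exact (lt_of_lt_of_le hd ht.1).ne'
  have i2 : |∫ t in d..π, h t| ≤ 4 * B * Real.log (π / d) := by
    refine (intervalIntegral.abs_integral_le_integral_abs hd').trans ?_
    rw [← hlog, ← intervalIntegral.integral_const_mul]
    refine intervalIntegral.integral_mono_on hd' (hhc.abs.intervalIntegrable _ _) hint
      fun t ht => ?_
    have ht0 : 0 < t := lt_of_lt_of_le hd ht.1
    have := b2 t ht0.ne' (by rw [abs_of_pos ht0]; exact ht.2)
    rwa [abs_of_pos ht0] at this
  have i3 : |∫ t in (-π)..(-d), h t| ≤ 4 * B * Real.log (π / d) := by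
    have e3 : ∫ t in (-π)..(-d), h t = ∫ t in d..π, h (-t) := by
      rw [intervalIntegral.integral_comp_neg]
    rw [e3]
    refine (intervalIntegral.abs_integral_le_integral_abs hd').trans ?_
    rw [← hlog, ← intervalIntegral.integral_const_mul]
    refine intervalIntegral.integral_mono_on hd'
      ((hhc.comp continuous_neg).abs.intervalIntegrable _ _) hint fun t ht => ?_
    have ht0 : 0 < t := lt_of_lt_of_le hd ht.1
    have := b2 (-t) (neg_ne_zero.2 ht0.ne')
      (by rw [abs_neg, abs_of_pos ht0]; exact ht.2)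
    rwa [abs_neg, abs_of_pos ht0] at this
  have e4 : ∫ t in (-π)..π, h t = (∫ t in (-π)..(-d), h t) + (∫ t in (-d)..d, h t) +
      ∫ t in d..π, h t := by
    rw [intervalIntegral.integral_add_adjacent_intervals (hi _ _) (hi _ _),
      intervalIntegral.integral_add_adjacent_intervals (hi _ _) (hi _ _)]
  have i0 : |π * Real.cos (2 * n * η) * F η| ≤ π * B := by
    rw [abs_mul, abs_mul, abs_of_pos hpi]
    have h1 := Real.abs_cos_le_one (2 * n * η)
    have h2 := hB η
    calc π * |Real.cos (2 * n * η)| * |F η| ≤ π * 1 * B := by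
          apply mul_le_mul _ h2 (abs_nonneg _) (by positivity)
          exact mul_le_mul_of_nonneg_left h1 hpi.le
      _ = _ := by ring
  rw [e, e4]
  calc _ ≤ |π * Real.cos (2 * n * η) * F η| + |(∫ t in (-π)..(-d), h t) + (∫ t in (-d)..d, h t) +
      ∫ t in d..π, h t| := abs_add_le _ _
    _ ≤ |π * Real.cos (2 * n * η) * F η| + (|∫ t in (-π)..(-d), h t| + |∫ t in (-d)..d, h t| +
      |∫ t in d..π, h t|) := by
        have a1 := abs_add_le ((∫ t in (-π)..(-d), h t) + (∫ t in (-d)..d, h t)) (∫ t in d..π, h t)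
        have a2 := abs_add_le (∫ t in (-π)..(-d), h t) (∫ t in (-d)..d, h t)
        linarith
    _ ≤ _ := by linarith

end ErdosLag.LO
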