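import Pool.Agent.W_MP_93ab53_an.Linear
import Pool.Agent.W_MP_93ab53_an.Quad

/-!
Rigidity: `∑ ∫ (l_k - tau_k)^2 ≤ C / n` when `I ≤ 2`.
-/

namespace ErdosLag

open Real MeasureTheory intervalIntegral Finset Polynomial

variable {n : ℕ} {x : Fin n → ℝ}

lemma V_zero (t : ℝ) : V 0 t = 1 := by simp [V]

lemma P_zero (t : ℝ) : P 0 t = 1 := by simp [P]

lemma T_zero (hn : 1 ≤ n) (θ η : ℝ) : T 0 n θ η = tau n θ η := by
  unfold T tau
  rw [V_zero, P_zero, P_zero, zero_pow (by omega)]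
  simp

lemma continuous_tau (n : ℕ) (η : ℝ) : Continuous fun θ => tau n θ η := by
  unfold tau
  have := (cont_D n).comp (continuous_id.sub (continuous_const (y := η)))
  simp only [Function.comp_def] at this
  fun_prop

/-- Passing from `[0,π]` to a full period for kernels at `θ - η`. -/
lemma integral_shift {g F : ℝ → ℝ} (hg : Continuous g) (hF : Continuous F) {η : ℝ}
    (hη : η ∈ Set.Icc 0 π) (h0 : ∀ s ∈ Set.Icc (-π) 0, F s = 0)
    (h1 : ∀ s ∈ Set.Icc π (2 * π), F s = 0) :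
    ∫ t in (-π)..π, g t * F (η + t) = ∫ θ in (0:ℝ)..π, g (θ - η) * F θ := by
  have e1 : ∫ t in (-π)..π, g t * F (η + t) = ∫ θ in (η - π)..(η + π), g (θ - η) * F θ := by
    have := intervalIntegral.integral_comp_add_left (a := -π) (b := π)
      (fun θ => g (θ - η) * F θ) η
    simp only [add_sub_cancel_left] at this
    rw [this]
    congr 1
  rw [e1]
  have hc : Continuous fun θ => g (θ - η) * F θ := by fun_prop
  have hi : ∀ a b : ℝ, IntervalIntegrable (fun θ => g (θ - η) * F θ) volume a b :=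
    fun a b => hc.intervalIntegrable a b
  rw [← intervalIntegral.integral_add_adjacent_intervals (hi (η - π) 0) (hi 0 (η + π)),
    ← intervalIntegral.integral_add_adjacent_intervals (hi 0 π) (hi π (η + π))]
  have z1 : ∫ θ in (η - π)..0, g (θ - η) * F θ = 0 := by
    rw [intervalIntegral.integral_congr (g := fun _ => (0:ℝ)), intervalIntegral.integral_zero]
    intro θ hθ
    rw [Set.uIcc_of_le (by linarith [hη.2])] at hθ
    simp only
    rw [h0 θ ⟨by linarith [hθ.1, hη.1], hθ.2⟩, mul_zero]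
  have z2 : ∫ θ in π..(η + π), g (θ - η) * F θ = 0 := by
    rw [intervalIntegral.integral_congr (g := fun _ => (0:ℝ)), intervalIntegral.integral_zero]
    intro θ hθ
    rw [Set.uIcc_of_le (by linarith [hη.1])] at hθ
    simp only
    rw [h1 θ ⟨hθ.1, by linarith [hθ.2, hη.2]⟩, mul_zero]
  rw [z1, z2]
  ring

lemma lam_nonneg (hn : 1 ≤ n) (θ : ℝ) : 0 ≤ lam n θ := by
  have hn0 : (1:ℝ) ≤ n := by exact_mod_cast hn
  unfold lam
  have h1 : Real.sin θ + 1 / n ≤ 2 := by
    have : 1 / (n:ℝ) ≤ 1 := by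
      rw [div_le_one (by positivity)]; exact hn0
    linarith [Real.sin_le_one θ]
  have h2 : Real.log (Real.sin θ + 1 / n) ≤ 1 := by
    rcases le_or_gt (Real.sin θ + 1 / n) 0 with h | h
    · rcases eq_or_lt_of_le h with h0 | h0
      · rw [h0, Real.log_zero]; norm_num
      · have habs : |Real.sin θ + 1 / n| ≤ 2 := by
          rw [abs_le]
          refine ⟨?_, h1⟩
          have : (0:ℝ) ≤ 1 / n := by positivity
          linarith [Real.neg_one_le_sin θ]
        rw [← Real.log_abs]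
        have hpos : 0 < |Real.sin θ + 1 / n| := abs_pos.2 h0.ne
        calc Real.log |Real.sin θ + 1 / n| ≤ Real.log 2 := Real.log_le_log hpos habs
          _ ≤ 1 := by linarith [Real.log_two_lt_d9]
    · calc Real.log (Real.sin θ + 1 / n) ≤ Real.log 2 := Real.log_le_log h h1
        _ ≤ 1 := by linarith [Real.log_two_lt_d9]
  linarith

/-- The total logarithmic weight is `O(n)`. -/
lemma sum_lam_le (hUI : UnifInt) : ∃ C : ℝ, 0 ≤ C ∧ ∃ N : ℕ, ∀ n ≥ N, ∀ x : Fin n → ℝ, Nodes x →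
    I x ≤ 2 → ∑ k, lam n (th x k) ≤ C * n := by
  obtain ⟨κ₀, hκ₀, h⟩ := hUI 1 one_pos
  obtain ⟨N, hN⟩ := h κ₀ hκ₀ le_rfl
  refine ⟨2 + |Real.log κ₀|, by positivity, max N 1, fun n hn x hx hI => ?_⟩
  have hn1 : 1 ≤ n := le_trans (le_max_right _ _) hn
  have h1 := hN n (le_trans (le_max_left _ _) hn) x hx hI
  rw [← Finset.sum_filter_add_sum_filter_not Finset.univ (fun k => Real.sin (th x k) < κ₀)]
  have h2 : ∑ k with ¬ Real.sin (th x k) < κ₀, lam n (th x k) ≤ (1 + |Real.log κ₀|) * n := by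
    calc ∑ k with ¬ Real.sin (th x k) < κ₀, lam n (th x k)
        ≤ ∑ k : Fin n with ¬ Real.sin (th x k) < κ₀, (1 + |Real.log κ₀|) := by
          refine Finset.sum_le_sum fun k hk => ?_
          rw [Finset.mem_filter] at hk
          have hk2 := not_lt.1 hk.2
          unfold lam
          have hp : (0:ℝ) ≤ 1 / n := by positivity
          have : Real.log κ₀ ≤ Real.log (Real.sin (th x k) + 1 / n) :=
            Real.log_le_log hκ₀ (by linarith)
          have := neg_abs_le (Real.log κ₀)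
          linarith
      _ ≤ ∑ k : Fin n, (1 + |Real.log κ₀|) := by
          refine Finset.sum_le_sum_of_subset_of_nonneg (Finset.filter_subset _ _)
            fun _ _ _ => by positivity
      _ = (1 + |Real.log κ₀|) * n := by
          rw [Finset.sum_const, Finset.card_univ, Fintype.card_fin, nsmul_eq_mul]; ring
  linarith

/-- `max (sin θ) 0` -/
noncomputable def sp (θ : ℝ) : ℝ := max (Real.sin θ) 0

lemma sp_lip (s t : ℝ) : |sp s - sp t| ≤ 1 * |s - t| := by
  unfold sp
  rw [one_mul]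
  have h1 : |max (Real.sin s) 0 - max (Real.sin t) 0| ≤ |Real.sin s - Real.sin t| := by
    simpa using abs_max_sub_max_le_abs (Real.sin s) (Real.sin t) (0:ℝ)
  refine h1.trans ?_
  have := Real.abs_sin_sub_sin_le s t
  exact this


lemma sp_bound (s : ℝ) : |sp s| ≤ 1 := by
  unfold sp
  rw [abs_le]
  constructor
  · have : (0:ℝ) ≤ max (Real.sin s) 0 := le_max_right _ _
    linarith
  · exact max_le (Real.sin_le_one s) zero_le_one

lemma continuous_sp : Continuous sp := by
  unfold sp; fun_prop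

lemma sp_eq {θ : ℝ} (hθ : θ ∈ Set.Icc 0 π) : sp θ = Real.sin θ := by
  unfold sp
  exact max_eq_left (Real.sin_nonneg_of_nonneg_of_le_pi hθ.1 hθ.2)

lemma sp_zero_left {θ : ℝ} (hθ : θ ∈ Set.Icc (-π) 0) : sp θ = 0 := by
  unfold sp
  apply max_eq_right
  exact Real.sin_nonpos_of_nonpos_of_neg_pi_le hθ.2 hθ.1

lemma sp_zero_right {θ : ℝ} (hθ : θ ∈ Set.Icc π (2 * π)) : sp θ = 0 := by
  unfold sp
  apply max_eq_right
  have := Real.sin_nonneg_of_nonneg_of_le_pi (x := θ - π) (by linarith [hθ.1]) (by linarith [hθ.2])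
  rw [Real.sin_sub_pi] at this
  linarith

lemma th_mem (x : Fin n → ℝ) (k : Fin n) : th x k ∈ Set.Icc 0 π := ⟨th_nonneg x k, th_le_pi x k⟩

/-- The integral of `tau²`. -/
lemma integral_tau_sq_le {Cq : ℝ} (hCq : ∀ n : ℕ, 1 ≤ n → ∀ η ∈ Set.Icc 0 π,
      ∫ θ in (0:ℝ)..π, V 0 (θ + η) * D n (θ + η) ^ 2 * Real.sin θ ≤ Cq * lam n η)
    (hn : 1 ≤ n) (hM : ∫ t in (-π)..π, V 0 t * D n t ^ 2 * Real.cos t ≤ 4 * π * n)
    {η : ℝ} (hη : η ∈ Set.Icc 0 π) :
    ∫ θ in (0:ℝ)..π, tau n θ η ^ 2 * Real.sin θ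
      ≤ (π / n) * Real.sin η + (1 / (4 * (n:ℝ) ^ 2)) * (Cq * lam n η + 10 * π + 2) := by
  have hn0 : (0:ℝ) < n := by exact_mod_cast hn
  have hDc : Continuous fun θ => D n (θ - η) := (cont_D n).comp (by fun_prop)
  have hs : 0 ≤ Real.sin η := Real.sin_nonneg_of_nonneg_of_le_pi hη.1 hη.2
  have e1 : ∫ θ in (0:ℝ)..π, tau n θ η ^ 2 * Real.sin θ
      = (1 / (4 * (n:ℝ) ^ 2)) * ((∫ θ in (0:ℝ)..π, V 0 (θ - η) * D n (θ - η) ^ 2 * Real.sin θ)
        - 2 * (∫ θ in (0:ℝ)..π, D n (θ - η) * Real.cos (n * (θ + η)) * Real.sin θ)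
        + ∫ θ in (0:ℝ)..π, Real.cos (n * (θ + η)) ^ 2 * Real.sin θ) := by
    rw [← intervalIntegral.integral_const_mul, ← intervalIntegral.integral_sub,
      ← intervalIntegral.integral_add, ← intervalIntegral.integral_const_mul]
    · refine intervalIntegral.integral_congr fun θ _ => ?_
      simp only [V_zero]
      unfold tau
      field_simp
      ring
    · apply Continuous.intervalIntegrable
      simp only [V_zero]
      fun_prop
    · apply Continuous.intervalIntegrable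
      fun_prop
    · apply Continuous.intervalIntegrable
      simp only [V_zero]
      fun_prop
    · apply Continuous.intervalIntegrable
      fun_prop
  have h1 := quad_split 0 le_rfl one_pos n η
  have h2 := hCq n hn η hη
  have h3 : |∫ θ in (0:ℝ)..π, D n (θ - η) * Real.cos (n * (θ + η)) * Real.sin θ| ≤ 5 * π := by
    have h4 := sing_bound (F := sp) (B := 1) (A := 1) sp_lip sp_bound n hn η π Real.pi_pos le_rfl
    have h5 := integral_shift (g := fun t => D n t * Real.cos (n * t + 2 * n * η)) (F := sp)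
      (by have := cont_D n; fun_prop) continuous_sp hη (fun s hs => sp_zero_left hs)
      (fun s hs => sp_zero_right hs)
    rw [h5] at h4
    have h6 : ∫ θ in (0:ℝ)..π, D n (θ - η) * Real.cos (n * (θ - η) + 2 * n * η) * sp θ
        = ∫ θ in (0:ℝ)..π, D n (θ - η) * Real.cos (n * (θ + η)) * Real.sin θ := by
      refine intervalIntegral.integral_congr fun θ hθ => ?_
      rw [Set.uIcc_of_le Real.pi_pos.le] at hθ
      rw [sp_eq hθ]
      congr 3
      ring
    rw [h6, div_self Real.pi_ne_zero, Real.log_one] at h4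
    linarith
  have h7 : ∫ θ in (0:ℝ)..π, Real.cos (n * (θ + η)) ^ 2 * Real.sin θ ≤ 2 := by
    have : ∫ θ in (0:ℝ)..π, Real.cos (n * (θ + η)) ^ 2 * Real.sin θ
        ≤ ∫ θ in (0:ℝ)..π, Real.sin θ := by
      apply intervalIntegral.integral_mono_on Real.pi_pos.le
      · exact Continuous.intervalIntegrable (by fun_prop) _ _
      · exact Continuous.intervalIntegrable (by fun_prop) _ _
      · intro θ hθ
        have h8 := Real.sin_nonneg_of_nonneg_of_le_pi hθ.1 hθ.2
        have h9 := Real.cos_sq_le_one (n * (θ + η))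
        nlinarith
    rw [integral_sin, Real.cos_zero, Real.cos_pi] at this
    linarith
  rw [e1, h1]
  have h8 := neg_abs_le (∫ θ in (0:ℝ)..π, D n (θ - η) * Real.cos (n * (θ + η)) * Real.sin θ)
  have h9 : Real.sin η * (∫ t in (-π)..π, V 0 t * D n t ^ 2 * Real.cos t)
      ≤ Real.sin η * (4 * π * n) := mul_le_mul_of_nonneg_left hM hs
  have hpos : (0:ℝ) < 1 / (4 * (n:ℝ) ^ 2) := by positivity
  have h10 : (π / n) * Real.sin η = (1 / (4 * (n:ℝ) ^ 2)) * (Real.sin η * (4 * π * n)) := by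
    field_simp
  rw [h10, ← mul_add]
  apply mul_le_mul_of_nonneg_left _ hpos.le
  linarith

/-- Expansion of the square. -/
lemma sum_integral_sub_sq (x : Fin n → ℝ) (f : Fin n → ℝ → ℝ) (hf : ∀ k, Continuous (f k)) :
    ∑ k, ∫ θ in (0:ℝ)..π, (L x k (Real.cos θ) - f k θ) ^ 2 * Real.sin θ
      = I x - 2 * (∑ k, ∫ θ in (0:ℝ)..π, L x k (Real.cos θ) * f k θ * Real.sin θ)
        + ∑ k, ∫ θ in (0:ℝ)..π, f k θ ^ 2 * Real.sin θ := by
  rw [I_eq, Finset.mul_sum, ← Finset.sum_sub_distrib, ← Finset.sum_add_distrib]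
  refine Finset.sum_congr rfl fun k _ => ?_
  have hL := (continuous_L x k).comp Real.continuous_cos
  simp only [Function.comp_def] at hL
  have hfk := hf k
  rw [← intervalIntegral.integral_const_mul, ← intervalIntegral.integral_sub,
    ← intervalIntegral.integral_add]
  · refine intervalIntegral.integral_congr fun θ _ => ?_
    ring
  all_goals exact Continuous.intervalIntegrable (by fun_prop) _ _

/-- Rigidity. -/
theorem rigid (hUI : UnifInt) : ∃ C : ℝ, 0 ≤ C ∧ Rigid C := by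
  obtain ⟨C1, hC1, N1, h1⟩ := sum_lam_le hUI
  obtain ⟨Cq, hCq⟩ := quad_bound1
  obtain ⟨N2, h2⟩ := quad_main 0 le_rfl one_pos (2 * π) (by positivity)
  refine ⟨1 + (|Cq| * C1 + 10 * π + 2) / 4, by positivity, max (max N1 N2) 1,
    fun n hn x hx hI => ?_⟩
  have hn1 : 1 ≤ n := le_trans (le_max_right _ _) hn
  have hnN1 : N1 ≤ n := le_trans (le_trans (le_max_left _ _) (le_max_left _ _)) hn
  have hnN2 : N2 ≤ n := le_trans (le_trans (le_max_right _ _) (le_max_left _ _)) hn
  have hn0 : (0:ℝ) < n := by exact_mod_cast hn1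
  have hM : ∫ t in (-π)..π, V 0 t * D n t ^ 2 * Real.cos t ≤ 4 * π * n := by
    have := h2 n hnN2
    simp only [ne_eq, OfNat.ofNat_ne_zero, not_false_eq_true, zero_pow, add_zero, sub_zero,
      div_one, mul_one] at this
    linarith
  rw [sum_integral_sub_sq x (fun k θ => tau n θ (th x k)) (fun k => continuous_tau n _)]
  have hlin := hx.linear_part hn1 le_rfl one_pos
  simp only [T_zero hn1] at hlin
  have hq : ∑ k, ∫ θ in (0:ℝ)..π, tau n θ (th x k) ^ 2 * Real.sin θ
      ≤ ∑ k, ((π / n) * Real.sin (th x k)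
        + (1 / (4 * (n:ℝ) ^ 2)) * (Cq * lam n (th x k) + 10 * π + 2)) :=
    Finset.sum_le_sum fun k _ =>
      integral_tau_sq_le (fun n hn η hη => hCq 0 le_rfl one_pos n hn η hη) hn1 hM (th_mem x k)
  have hsum : ∑ k, ((π / n) * Real.sin (th x k)
        + (1 / (4 * (n:ℝ) ^ 2)) * (Cq * lam n (th x k) + 10 * π + 2))
      = (π / n) * ∑ k, Real.sin (th x k)
        + (1 / (4 * (n:ℝ) ^ 2)) * (Cq * ∑ k, lam n (th x k) + (10 * π + 2) * n) := by
    rw [Finset.sum_add_distrib, ← Finset.mul_sum, ← Finset.mul_sum]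
    congr 2
    have : ∀ k, Cq * lam n (th x k) + 10 * π + 2 = Cq * lam n (th x k) + (10 * π + 2) := by
      intro k; ring
    simp_rw [this]
    rw [Finset.sum_add_distrib, ← Finset.mul_sum, Finset.sum_const, Finset.card_univ,
      Fintype.card_fin, nsmul_eq_mul]
    ring
  have hlam : Cq * ∑ k, lam n (th x k) ≤ |Cq| * (C1 * n) := by
    have h0 : 0 ≤ ∑ k, lam n (th x k) := Finset.sum_nonneg fun k _ => lam_nonneg hn1 _
    calc Cq * ∑ k, lam n (th x k) ≤ |Cq| * ∑ k, lam n (th x k) :=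
          mul_le_mul_of_nonneg_right (le_abs_self _) h0
      _ ≤ |Cq| * (C1 * n) := mul_le_mul_of_nonneg_left (h1 n hnN1 x hx hI) (abs_nonneg _)
  have hfin : (1 / (4 * (n:ℝ) ^ 2)) * (Cq * ∑ k, lam n (th x k) + (10 * π + 2) * n)
      ≤ (|Cq| * C1 + 10 * π + 2) / 4 / n := by
    calc (1 / (4 * (n:ℝ) ^ 2)) * (Cq * ∑ k, lam n (th x k) + (10 * π + 2) * n)
        ≤ (1 / (4 * (n:ℝ) ^ 2)) * (|Cq| * (C1 * n) + (10 * π + 2) * n) := by gcongr
      _ = (|Cq| * C1 + 10 * π + 2) / 4 / n := by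
        field_simp
        ring
  have e3 : (1 + (|Cq| * C1 + 10 * π + 2) / 4) / (n:ℝ) = 1 / n + (|Cq| * C1 + 10 * π + 2) / 4 / n := by
    ring
  rw [e3]
  have e4 : ((1 + (0:ℝ)) / (1 - 0)) / n = 1 / n := by norm_num
  rw [e4] at hlin
  linarith [hq, hsum, hfin, hlin, hI]

end ErdosLag
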