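import Pool.Agent.W_MP_93ab53_an.UCoeff

/-!
Algebra of the double trigonometric sums used for the upper bound in MP_93ab53_an.
-/

namespace ErdosLag

open Finset

/-- Truncated power series at `exp (2 i θ)`. -/
noncomputable def S (g : ℕ → ℝ) (N : ℕ) (θ : ℝ) : ℂ :=
  ∑ i ∈ range (N + 1), (g i : ℂ) * Complex.exp (2 * θ * Complex.I) ^ i

/-- The double sum. -/
noncomputable def aq (n N : ℕ) (h : ℕ → ℝ) (θ : ℝ) : ℝ :=
  ∑ i ∈ Finset.range (N + 1), ∑ l ∈ Finset.range (N + 1),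
    h i * h l * (1 - (i + l : ℝ) / n) * Real.cos (2 * ((i : ℝ) - l) * θ)

/-- The double sum without weight. -/
noncomputable def a0 (N : ℕ) (h : ℕ → ℝ) (θ : ℝ) : ℝ :=
  ∑ i ∈ Finset.range (N + 1), ∑ l ∈ Finset.range (N + 1),
    h i * h l * Real.cos (2 * ((i : ℝ) - l) * θ)

lemma re_exp_mul_conj (θ : ℝ) (i l : ℕ) :
    (Complex.exp (2 * θ * Complex.I) ^ i *
      (starRingEnd ℂ) (Complex.exp (2 * θ * Complex.I) ^ l)).re
      = Real.cos (2 * ((i : ℝ) - l) * θ) := by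
  rw [← Complex.exp_nat_mul, ← Complex.exp_nat_mul, ← Complex.exp_conj, ← Complex.exp_add]
  have : (i : ℂ) * (2 * θ * Complex.I) + (starRingEnd ℂ) ((l : ℂ) * (2 * θ * Complex.I))
      = ((2 * ((i : ℝ) - l) * θ : ℝ) : ℂ) * Complex.I := by
    simp only [map_mul, Complex.conj_I, Complex.conj_ofReal, map_natCast, map_ofNat]
    push_cast
    ring
  rw [this, Complex.exp_ofReal_mul_I_re]

lemma re_S_mul_conj (p q : ℕ → ℝ) (N : ℕ) (θ : ℝ) :
    (S p N θ * (starRingEnd ℂ) (S q N θ)).re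
      = ∑ i ∈ range (N + 1), ∑ l ∈ range (N + 1),
        p i * q l * Real.cos (2 * ((i : ℝ) - l) * θ) := by
  unfold S
  rw [map_sum, Finset.sum_mul_sum, Complex.re_sum]
  refine Finset.sum_congr rfl fun i _ => ?_
  rw [Complex.re_sum]
  refine Finset.sum_congr rfl fun l _ => ?_
  rw [← re_exp_mul_conj]
  simp only [map_mul, Complex.conj_ofReal]
  have : (p i : ℂ) * Complex.exp (2 * θ * Complex.I) ^ i *
      ((q l : ℂ) * (starRingEnd ℂ) (Complex.exp (2 * θ * Complex.I) ^ l))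
      = ((p i * q l : ℝ) : ℂ) * (Complex.exp (2 * θ * Complex.I) ^ i *
      (starRingEnd ℂ) (Complex.exp (2 * θ * Complex.I) ^ l)) := by
    push_cast; ring
  rw [this, Complex.re_ofReal_mul]

lemma a0_eq (N : ℕ) (h : ℕ → ℝ) (θ : ℝ) : a0 N h θ = Complex.normSq (S h N θ) := by
  unfold a0
  rw [← re_S_mul_conj, Complex.mul_conj, Complex.ofReal_re]

lemma aq_eq (n N : ℕ) (h : ℕ → ℝ) (θ : ℝ) :
    aq n N h θ = Complex.normSq (S h N θ)
      - 2 / n * (S (fun i => i * h i) N θ * (starRingEnd ℂ) (S h N θ)).re := by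
  have e1 : aq n N h θ = a0 N h θ
      - (1 / n) * ((∑ i ∈ range (N + 1), ∑ l ∈ range (N + 1),
        (i * h i) * h l * Real.cos (2 * ((i : ℝ) - l) * θ))
      + (∑ i ∈ range (N + 1), ∑ l ∈ range (N + 1),
        h i * (l * h l) * Real.cos (2 * ((i : ℝ) - l) * θ))) := by
    unfold aq a0
    rw [← Finset.sum_add_distrib, Finset.mul_sum, ← Finset.sum_sub_distrib]
    refine Finset.sum_congr rfl fun i _ => ?_
    rw [← Finset.sum_add_distrib, Finset.mul_sum, ← Finset.sum_sub_distrib]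
    refine Finset.sum_congr rfl fun l _ => ?_
    ring
  rw [e1, ← re_S_mul_conj (fun i => i * h i) h, ← re_S_mul_conj h (fun i => i * h i), a0_eq]
  have e2 : (S h N θ * (starRingEnd ℂ) (S (fun i => i * h i) N θ)).re
      = (S (fun i => i * h i) N θ * (starRingEnd ℂ) (S h N θ)).re := by
    rw [← Complex.conj_re]
    simp [mul_comm]
  rw [e2]
  ring

lemma alg_prod (H H' G G' : ℂ) (x : ℝ) :
    (Complex.normSq H - 2 * x * (H' * (starRingEnd ℂ) H).re) *
      (Complex.normSq G - 2 * x * (G' * (starRingEnd ℂ) G).re)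
    = Complex.normSq (H * G) - 2 * x * ((H' * G + H * G') * (starRingEnd ℂ) (H * G)).re
      + 4 * x ^ 2 * ((H' * (starRingEnd ℂ) H).re * (G' * (starRingEnd ℂ) G).re) := by
  simp only [Complex.normSq_apply, Complex.mul_re, Complex.mul_im, Complex.conj_re,
    Complex.conj_im, Complex.add_re, Complex.add_im]
  ring

/-- The truncation identity. -/
lemma trunc_identity (N : ℕ) (f : ℕ → ℂ) (v : ℂ) :
    ∑ i ∈ range (N + 1), ∑ l ∈ range (N + 1),
      f (i + l) * ((tc (1 / 4) i * tc (-(1 / 4)) l : ℝ) * v ^ (i + l))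
    = f 0 + ∑ p ∈ (range (N + 1) ×ˢ range (N + 1)).filter (fun p => N < p.1 + p.2),
      f (p.1 + p.2) * ((tc (1 / 4) p.1 * tc (-(1 / 4)) p.2 : ℝ) * v ^ (p.1 + p.2)) := by
  rw [← Finset.sum_product', ← Finset.sum_filter_add_sum_filter_not _ (fun p => N < p.1 + p.2),
    add_comm]
  congr 1
  rw [← Finset.sum_fiberwise_of_maps_to (t := range (N + 1)) (g := fun p => p.1 + p.2)]
  · have : ∀ m ∈ range (N + 1),
        ∑ p ∈ ((range (N + 1) ×ˢ range (N + 1)).filter (fun p => ¬ N < p.1 + p.2)).filter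
          (fun p => p.1 + p.2 = m),
          f (p.1 + p.2) * ((tc (1 / 4) p.1 * tc (-(1 / 4)) p.2 : ℝ) * v ^ (p.1 + p.2))
        = f m * ((if m = 0 then 1 else 0 : ℝ) * v ^ m) := by
      intro m hm
      have hm' := Finset.mem_range.mp hm
      rw [← tc_conv m]
      push_cast
      rw [Finset.sum_mul, Finset.mul_sum]
      have hs : ((range (N + 1) ×ˢ range (N + 1)).filter (fun p => ¬ N < p.1 + p.2)).filter
          (fun p => p.1 + p.2 = m) = HasAntidiagonal.antidiagonal m := by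
        ext p
        simp only [Finset.mem_filter, Finset.mem_product, Finset.mem_range,
          Finset.HasAntidiagonal.mem_antidiagonal]
        omega
      rw [hs]
      refine Finset.sum_congr rfl fun p hp => ?_
      rw [Finset.HasAntidiagonal.mem_antidiagonal.mp hp]
    rw [Finset.sum_congr rfl this, Finset.sum_eq_single 0]
    · simp
    · intro m _ hm; simp [hm]
    · intro h; simp at h
  · intro p hp
    simp only [Finset.mem_filter, Finset.mem_product, Finset.mem_range] at hp ⊢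
    omega

lemma norm_tail_le (N : ℕ) (f : ℕ → ℂ) (F : ℝ) (hF : ∀ m ≤ 2 * N, ‖f m‖ ≤ F) (v : ℂ)
    (hv : ‖v‖ ≤ 1) :
    ‖∑ p ∈ (range (N + 1) ×ˢ range (N + 1)).filter (fun p => N < p.1 + p.2),
      f (p.1 + p.2) * ((tc (1 / 4) p.1 * tc (-(1 / 4)) p.2 : ℝ) * v ^ (p.1 + p.2))‖
      ≤ (N + 1) ^ 2 * (F * ‖v‖ ^ (N + 1)) := by
  have hF0 : 0 ≤ F := (norm_nonneg _).trans (hF 0 (by omega))
  refine (norm_sum_le _ _).trans ?_
  refine (Finset.sum_le_card_nsmul _ _ (F * ‖v‖ ^ (N + 1)) ?_).trans ?_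
  · intro p hp
    simp only [Finset.mem_filter, Finset.mem_product, Finset.mem_range] at hp
    rw [norm_mul, norm_mul, norm_pow, Complex.norm_real, Real.norm_eq_abs, abs_mul]
    have h1 := abs_tc_quarter_le p.1
    have h2 := abs_tc_negquarter_le p.2
    have h3 : ‖v‖ ^ (p.1 + p.2) ≤ ‖v‖ ^ (N + 1) :=
      pow_le_pow_of_le_one (norm_nonneg _) hv (by omega)
    have h4 := hF (p.1 + p.2) (by omega)
    have h5 : |tc (1 / 4) p.1| * |tc (-(1 / 4)) p.2| ≤ 1 := by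
      calc _ ≤ 1 * (1:ℝ) := mul_le_mul h1 h2 (abs_nonneg _) (by norm_num)
        _ = 1 := by norm_num
    have h6 : |tc (1 / 4) p.1| * |tc (-(1 / 4)) p.2| * ‖v‖ ^ (p.1 + p.2) ≤ 1 * ‖v‖ ^ (N + 1) :=
      mul_le_mul h5 h3 (by positivity) (by norm_num)
    rw [one_mul] at h6
    exact mul_le_mul h4 h6 (by positivity) hF0
  · rw [nsmul_eq_mul]
    have hc : (((range (N + 1) ×ˢ range (N + 1)).filter (fun p => N < p.1 + p.2)).card : ℝ)
        ≤ (N + 1) ^ 2 := by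
      have := Finset.card_filter_le (range (N + 1) ×ˢ range (N + 1)) (fun p => N < p.1 + p.2)
      rw [Finset.card_product, Finset.card_range] at this
      calc _ ≤ (((N + 1) * (N + 1) : ℕ) : ℝ) := by exact_mod_cast this
        _ = _ := by push_cast; ring
    exact mul_le_mul_of_nonneg_right hc (by positivity)

lemma S_mul_S (N : ℕ) (ρ θ : ℝ) :
    S (fun i => tc (1 / 4) i * ρ ^ i) N θ * S (fun i => tc (-(1 / 4)) i * ρ ^ i) N θ
      = ∑ i ∈ range (N + 1), ∑ l ∈ range (N + 1),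
      (1 : ℂ) * ((tc (1 / 4) i * tc (-(1 / 4)) l : ℝ) *
        (ρ * Complex.exp (2 * θ * Complex.I)) ^ (i + l)) := by
  unfold S
  rw [Finset.sum_mul_sum]
  refine Finset.sum_congr rfl fun i _ => Finset.sum_congr rfl fun l _ => ?_
  push_cast
  ring

lemma S'_mul_S (N : ℕ) (ρ θ : ℝ) :
    S (fun i => i * (tc (1 / 4) i * ρ ^ i)) N θ * S (fun i => tc (-(1 / 4)) i * ρ ^ i) N θ
      + S (fun i => tc (1 / 4) i * ρ ^ i) N θ * S (fun i => i * (tc (-(1 / 4)) i * ρ ^ i)) N θ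
      = ∑ i ∈ range (N + 1), ∑ l ∈ range (N + 1),
      ((i + l : ℕ) : ℂ) * ((tc (1 / 4) i * tc (-(1 / 4)) l : ℝ) *
        (ρ * Complex.exp (2 * θ * Complex.I)) ^ (i + l)) := by
  unfold S
  rw [Finset.sum_mul_sum, Finset.sum_mul_sum, ← Finset.sum_add_distrib]
  refine Finset.sum_congr rfl fun i _ => ?_
  rw [← Finset.sum_add_distrib]
  refine Finset.sum_congr rfl fun l _ => ?_
  push_cast
  ring

lemma norm_v (ρ θ : ℝ) (h0 : 0 ≤ ρ) : ‖(ρ : ℂ) * Complex.exp (2 * θ * Complex.I)‖ = ρ := by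
  rw [norm_mul, Complex.norm_real, Real.norm_eq_abs, abs_of_nonneg h0]
  have : Complex.exp (2 * θ * Complex.I) = Complex.exp (((2 * θ : ℝ) : ℂ) * Complex.I) := by
    push_cast; rfl
  rw [this, Complex.norm_exp_ofReal_mul_I, mul_one]

lemma norm_R_le (N : ℕ) (ρ θ : ℝ) (h0 : 0 ≤ ρ) (h1 : ρ ≤ 1) :
    ‖S (fun i => tc (1 / 4) i * ρ ^ i) N θ * S (fun i => tc (-(1 / 4)) i * ρ ^ i) N θ - 1‖
      ≤ (N + 1) ^ 2 * ρ ^ (N + 1) := by
  rw [S_mul_S, trunc_identity N (fun _ => 1), add_sub_cancel_left]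
  refine (norm_tail_le N (fun _ => 1) 1 (by simp) _ ?_).trans ?_
  · rw [norm_v _ _ h0]; exact h1
  · rw [norm_v _ _ h0, one_mul]

lemma norm_R'_le (N : ℕ) (ρ θ : ℝ) (h0 : 0 ≤ ρ) (h1 : ρ ≤ 1) :
    ‖S (fun i => i * (tc (1 / 4) i * ρ ^ i)) N θ * S (fun i => tc (-(1 / 4)) i * ρ ^ i) N θ
      + S (fun i => tc (1 / 4) i * ρ ^ i) N θ * S (fun i => i * (tc (-(1 / 4)) i * ρ ^ i)) N θ‖
      ≤ (N + 1) ^ 2 * (2 * N * ρ ^ (N + 1)) := by
  rw [S'_mul_S, trunc_identity N (fun m => (m : ℂ))]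
  simp only [Nat.cast_zero, zero_add]
  refine (norm_tail_le N (fun m => (m : ℂ)) (2 * N) ?_ _ ?_).trans ?_
  · intro m hm
    simp only [Complex.norm_natCast]
    exact_mod_cast hm
  · rw [norm_v _ _ h0]; exact h1
  · rw [norm_v _ _ h0]

end ErdosLag
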