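import Pool.Agent.W_MP_93ab53_an.UTay

/-!
Asymptotic upper bound for `M n` at fixed `ρ`, conditional on the finite-`n` bound `UpperMain`
(proved in `UMain.lean`).
-/

namespace ErdosLag

open Finset Filter Topology MeasureTheory

/-- The finite-`n` upper bound (proved in `UMain.lean`). -/
def UpperMain : Prop := ∀ (n N J : ℕ) (_ : 1 ≤ n) (_ : 4 * N + J ≤ n) (h t : ℕ → ℝ)
    (_ : ∑ i ∈ Finset.Icc 1 N, |h i| < h 0) (δ : ℝ) (_ : δ < 1)
    (_ : ∀ θ ∈ Set.Ioo 0 Real.pi, (1 - δ) * Real.sin θ ≤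
      (∑ i ∈ Finset.range (N + 1), ∑ l ∈ Finset.range (N + 1),
        h i * h l * (1 - (i + l : ℝ) / n) * Real.cos (2 * ((i : ℝ) - l) * θ)) *
      (∑ j ∈ Finset.Icc 1 J, t j * Real.sin (j * θ))),
    (1 - δ) * M n ≤ (∫ θ in (0:ℝ)..Real.pi,
      (∑ i ∈ Finset.range (N + 1), ∑ l ∈ Finset.range (N + 1),
        h i * h l * (1 - (i + l : ℝ) / n) * Real.cos (2 * ((i : ℝ) - l) * θ)) *
      (∑ j ∈ Finset.Icc 1 J, t j * Real.sin (j * θ)))
      - (1 / (2 * n)) * (∑ j ∈ Finset.Icc 1 J, (j : ℝ) * t j * (∫ θ in (0:ℝ)..Real.pi,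
        (∑ i ∈ Finset.range (N + 1), ∑ l ∈ Finset.range (N + 1),
          h i * h l * Real.cos (2 * ((i : ℝ) - l) * θ)) * Real.sin (j * θ)))
      + (1 / (n:ℝ) ^ 2) * (∑ i ∈ Finset.range (N + 1), |h i|) ^ 2
          * ∑ j ∈ Finset.Icc 1 J, (j : ℝ) * |t j|

/-- `alpha` at finite `n`. -/
noncomputable def alphan (ρ : ℝ) (n j : ℕ) : ℝ :=
  ∫ θ in (0:ℝ)..Real.pi, a0 (n / 8) (hc ρ) θ * Real.sin (j * θ)

lemma abs_alphan_le {ρ : ℝ} (h0 : 0 ≤ ρ) (h1 : ρ < 1) (n j : ℕ) :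
    |alphan ρ n j| ≤ Real.pi * KK ρ ^ 2 := by
  have h := intervalIntegral.norm_integral_le_of_norm_le_const (a := 0) (b := Real.pi)
    (f := fun θ => a0 (n / 8) (hc ρ) θ * Real.sin (j * θ)) (C := KK ρ ^ 2) ?_
  · unfold alphan
    rw [Real.norm_eq_abs] at h
    rw [sub_zero, abs_of_pos Real.pi_pos] at h
    linarith
  · intro θ _
    rw [Real.norm_eq_abs, abs_mul]
    calc _ ≤ KK ρ ^ 2 * 1 := by
          gcongr
          · exact abs_a0_le h0 h1 _ θ
          · exact Real.abs_sin_le_one _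
      _ = _ := mul_one _

lemma sum_abs_hc_le {ρ : ℝ} (h0 : 0 ≤ ρ) (h1 : ρ < 1) (N : ℕ) :
    ∑ i ∈ range (N + 1), |hc ρ i| ≤ KK ρ := by
  refine (Finset.sum_le_sum fun i _ => bd1 h0 (abs_hc_le h0) i).trans ?_
  exact (summable_K h0 h1).sum_le_tsum _ (fun i _ => by positivity)

lemma hc_cond {ρ : ℝ} (h0 : 0 ≤ ρ) (h1 : ρ < 1) (N : ℕ) :
    ∑ i ∈ Icc 1 N, |hc ρ i| < hc ρ 0 := by
  have : hc ρ 0 = 1 := by simp [hc, tc_zero]
  rw [this]
  refine lt_of_le_of_lt (Finset.sum_le_sum fun i _ => ?_) (sum_abs_tc_quarter N)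
  unfold hc
  rw [abs_mul, abs_of_nonneg (pow_nonneg h0 i)]
  exact mul_le_of_le_one_right (abs_nonneg _) (pow_le_one₀ h0 h1.le)

/-- Summability data: a bound for `|tt|`. -/
lemma exists_tt_bound {ρ : ℝ} (h0 : 0 < ρ) (h1 : ρ < 1) :
    ∃ w : ℕ → ℝ, (∀ j, 0 ≤ w j) ∧ Summable w ∧
      ∀ n j : ℕ, 1 ≤ j → (j : ℝ) * |tt n (n / 8) (gc ρ) j| ≤ w j := by
  set σ := √ρ with hσ
  set τ := √σ with hτ
  have hσ0 : 0 < σ := Real.sqrt_pos.mpr h0
  have hτ0 : 0 < τ := Real.sqrt_pos.mpr hσ0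
  have hσ2 : σ ^ 2 = ρ := Real.sq_sqrt h0.le
  have hτ2 : τ ^ 2 = σ := Real.sq_sqrt hσ0.le
  have hσ1 : σ < 1 := by
    rw [hσ, Real.sqrt_lt' one_pos]; simpa using h1
  have hτ1 : τ < 1 := by
    rw [hτ, Real.sqrt_lt' one_pos]; simpa using hσ1
  refine ⟨fun j => (1 - σ)⁻¹ ^ 2 * τ⁻¹ * ((j : ℝ) ^ 1 * τ ^ j), fun j => by positivity, ?_, ?_⟩
  · refine Summable.mul_left _ (summable_pow_mul_geometric_of_norm_lt_one 1 ?_)
    rw [Real.norm_eq_abs, abs_of_pos hτ0]; exact hτ1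
  · intro n j hj
    have h := tt_bound hτ0.le hτ1 hτ2.symm n (n / 8) (by omega) (gc ρ)
      (fun i => by rw [hσ2]; exact abs_gc_le h0.le i) j hj
    have e : τ ^ (j - 1) = τ⁻¹ * τ ^ j := by
      obtain ⟨k, rfl⟩ : ∃ k, j = k + 1 := ⟨j - 1, by omega⟩
      rw [Nat.add_sub_cancel, pow_succ]
      field_simp
    calc (j : ℝ) * |tt n (n / 8) (gc ρ) j| ≤ j * ((1 - σ)⁻¹ ^ 2 * τ ^ (j - 1)) := by gcongr
      _ = _ := by rw [e]; ring

/-- The main sum at finite `n`. -/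
noncomputable def Bn (ρ : ℝ) (n : ℕ) : ℝ :=
  ∑ j ∈ Icc 1 (2 * (n / 8) + 1), (j : ℝ) * tt n (n / 8) (gc ρ) j * alphan ρ n j

lemma tendsto_Bn {ρ : ℝ} (h0 : 0 < ρ) (h1 : ρ < 1) :
    Tendsto (Bn ρ) atTop (𝓝 ((2 / Real.pi) * ∑' j : ℕ, (j : ℝ) * alpha ρ j * beta ρ j)) := by
  obtain ⟨w, hw0, hws, hw⟩ := exists_tt_bound h0 h1
  set F : ℕ → ℕ → ℝ := fun n j => if j ∈ Icc 1 (2 * (n / 8) + 1) then
    (j : ℝ) * tt n (n / 8) (gc ρ) j * alphan ρ n j else 0 with hF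
  have h : Tendsto (fun n => ∑' j, F n j) atTop
      (𝓝 (∑' j : ℕ, (2 / Real.pi) * ((j : ℝ) * alpha ρ j * beta ρ j))) := by
    refine tendsto_tsum_of_dominated_convergence (bound := fun j => w j * (Real.pi * KK ρ ^ 2))
      (hws.mul_right _) ?_ ?_
    · intro j
      rcases Nat.eq_zero_or_pos j with rfl | hj
      · simp [hF]
      · have t := ((tendsto_tt h0.le h1 j hj).const_mul (j : ℝ)).mul (tendsto_alpha h0.le h1 j)
        have e : (j : ℝ) * (2 / Real.pi * beta ρ j) * alpha ρ j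
            = 2 / Real.pi * ((j : ℝ) * alpha ρ j * beta ρ j) := by ring
        rw [e] at t
        refine t.congr' ?_
        filter_upwards [tendsto_div8.eventually_ge_atTop j] with n hn
        rw [hF]
        simp only []
        rw [if_pos (Finset.mem_Icc.mpr ⟨hj, by omega⟩)]
        rfl
    · refine Eventually.of_forall fun n j => ?_
      have hwj := hw0 j
      rw [hF]
      simp only []
      split_ifs with hj
      · have hj1 := (Finset.mem_Icc.mp hj).1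
        rw [Real.norm_eq_abs, abs_mul, abs_mul, Nat.abs_cast]
        exact mul_le_mul (hw n j hj1) (abs_alphan_le h0.le h1 n j) (abs_nonneg _) hwj
      · simp only [norm_zero]
        positivity
  rw [tsum_mul_left] at h
  refine h.congr fun n => ?_
  rw [tsum_eq_sum (s := Icc 1 (2 * (n / 8) + 1)) (fun j hj => by
    simp only [hF]; rw [if_neg hj])]
  unfold Bn
  exact Finset.sum_congr rfl fun j hj => by simp only [hF]; rw [if_pos hj]

lemma integral_prod_le {ρ C : ℝ} {n : ℕ}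
    (hC : ∀ θ : ℝ, |aq n (n / 8) (hc ρ) θ * aq n (n / 8) (gc ρ) θ - 1| ≤ C) :
    ∫ θ in (0:ℝ)..Real.pi, aq n (n / 8) (hc ρ) θ * (aq n (n / 8) (gc ρ) θ * Real.sin θ)
      ≤ 2 * (1 + C) := by
  have h : ∫ θ in (0:ℝ)..Real.pi, aq n (n / 8) (hc ρ) θ * (aq n (n / 8) (gc ρ) θ * Real.sin θ)
      ≤ ∫ θ in (0:ℝ)..Real.pi, (1 + C) * Real.sin θ := by
    refine intervalIntegral.integral_mono_on Real.pi_pos.le ?_ ?_ ?_
    · exact ((continuous_aq _ _ _).mul ((continuous_aq _ _ _).mul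
        Real.continuous_sin)).intervalIntegrable _ _
    · exact Continuous.intervalIntegrable (by fun_prop) _ _
    · intro θ hθ
      have hs := Real.sin_nonneg_of_nonneg_of_le_pi hθ.1 hθ.2
      have := (abs_le.mp (hC θ)).2
      rw [← mul_assoc]
      gcongr
      linarith
  refine h.trans (le_of_eq ?_)
  rw [intervalIntegral.integral_const_mul, integral_sin]
  simp
  ring

theorem upper_asym_of (H : UpperMain) (ρ : ℝ) (h0 : 0 < ρ) (h1 : ρ < 1) (ε : ℝ) (hε : 0 < ε) :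
    ∃ N : ℕ, ∀ n ≥ N,
      (1 / Real.pi) * (∑' j : ℕ, (j : ℝ) * alpha ρ j * beta ρ j) - ε ≤ n * (2 - M n) := by
  obtain ⟨C, hC0, hC⟩ := prod_est h0.le h1
  obtain ⟨w, hw0, hws, hw⟩ := exists_tt_bound h0 h1
  set W := ∑' j, w j with hW
  have hW0 : 0 ≤ W := tsum_nonneg hw0
  set K := KK ρ with hK
  have hK0 : 0 ≤ K := KK_nonneg h0.le
  set L := ∑' j : ℕ, (j : ℝ) * alpha ρ j * beta ρ j with hL
  have hB := tendsto_Bn h0 h1
  -- bound on Bn
  have hBb : ∀ n, |Bn ρ n| ≤ W * (Real.pi * K ^ 2) := by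
    intro n
    unfold Bn
    calc |∑ j ∈ Icc 1 (2 * (n / 8) + 1), (j : ℝ) * tt n (n / 8) (gc ρ) j * alphan ρ n j|
        ≤ ∑ j ∈ Icc 1 (2 * (n / 8) + 1), w j * (Real.pi * K ^ 2) := by
          refine (Finset.abs_sum_le_sum_abs _ _).trans (Finset.sum_le_sum fun j hj => ?_)
          have hj1 := (Finset.mem_Icc.mp hj).1
          rw [abs_mul, abs_mul, Nat.abs_cast]
          exact mul_le_mul (hw n j hj1) (abs_alphan_le h0.le h1 n j) (abs_nonneg _) (hw0 j)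
      _ = (∑ j ∈ Icc 1 (2 * (n / 8) + 1), w j) * (Real.pi * K ^ 2) := by rw [Finset.sum_mul]
      _ ≤ W * (Real.pi * K ^ 2) := by
          have := Real.pi_pos
          gcongr
          exact hws.sum_le_tsum _ (fun i _ => hw0 i)
  set Z := W * (Real.pi * K ^ 2) with hZ
  have hZ0 : 0 ≤ Z := by have := Real.pi_pos; positivity
  set E := K ^ 2 * W with hE
  have hE0 : 0 ≤ E := by positivity
  set Y := 4 + Z + E with hY
  -- the total error constant
  set T₀ := 2 * C + E + 2 * Y * C with hT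
  have hT0 : 0 ≤ T₀ := by positivity
  have ev1 : ∀ᶠ n : ℕ in atTop, L / Real.pi * 2 - ε ≤ Bn ρ n := by
    have : L / Real.pi * 2 - ε < 2 / Real.pi * L := by
      have : L / Real.pi * 2 = 2 / Real.pi * L := by ring
      linarith
    exact (hB.eventually (lt_mem_nhds this)).mono fun n hn => hn.le
  have ev2 : ∀ᶠ n : ℕ in atTop, T₀ / n ≤ ε / 2 := by
    have := tendsto_const_div_atTop_nhds_zero_nat T₀
    exact (this.eventually (gt_mem_nhds (half_pos hε))).mono fun n hn => hn.le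
  have ev3 : ∀ᶠ n : ℕ in atTop, C / (n : ℝ) ≤ 1 / 2 := by
    have := tendsto_const_div_atTop_nhds_zero_nat C
    exact (this.eventually (gt_mem_nhds one_half_pos)).mono fun n hn => hn.le
  obtain ⟨N, hN⟩ := Filter.eventually_atTop.mp (ev1.and (ev2.and (ev3.and (eventually_ge_atTop 1))))
  refine ⟨N, fun n hn => ?_⟩
  obtain ⟨e1, e2, e3, e4⟩ := hN n hn
  have hn' : (1 : ℝ) ≤ n := by exact_mod_cast e4
  have hnp : (0 : ℝ) < n := by linarith
  set δ := C / (n : ℝ) ^ 2 with hδ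
  have hδ0 : 0 ≤ δ := by positivity
  have hδn : δ ≤ C / n := by
    rw [hδ]
    apply div_le_div_of_nonneg_left hC0 hnp
    nlinarith
  have hδ1 : δ ≤ 1 / 2 := hδn.trans e3
  have key := H n (n / 8) (2 * (n / 8) + 1) e4 (by omega) (hc ρ) (tt n (n / 8) (gc ρ))
    (hc_cond h0.le h1 _) δ (by linarith) ?_
  · simp_rw [sum_tt] at key
    change (1 - δ) * M n ≤ (∫ θ in (0:ℝ)..Real.pi, aq n (n / 8) (hc ρ) θ *
      (aq n (n / 8) (gc ρ) θ * Real.sin θ)) - (1 / (2 * n)) * Bn ρ n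
      + (1 / (n:ℝ) ^ 2) * (∑ i ∈ Finset.range (n / 8 + 1), |hc ρ i|) ^ 2
          * ∑ j ∈ Finset.Icc 1 (2 * (n / 8) + 1), (j : ℝ) * |tt n (n / 8) (gc ρ) j| at key
    have k1 := integral_prod_le (hC n e4)
    have k2 : (1 / (n:ℝ) ^ 2) * (∑ i ∈ Finset.range (n / 8 + 1), |hc ρ i|) ^ 2
          * ∑ j ∈ Finset.Icc 1 (2 * (n / 8) + 1), (j : ℝ) * |tt n (n / 8) (gc ρ) j|
          ≤ E / (n : ℝ) ^ 2 := by
      have s1 : ∑ j ∈ Finset.Icc 1 (2 * (n / 8) + 1), (j : ℝ) * |tt n (n / 8) (gc ρ) j| ≤ W := by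
        refine (Finset.sum_le_sum fun j hj => hw n j (Finset.mem_Icc.mp hj).1).trans ?_
        exact hws.sum_le_tsum _ (fun i _ => hw0 i)
      have s2 := sum_abs_hc_le h0.le h1 (n / 8)
      have s3 : 0 ≤ ∑ i ∈ Finset.range (n / 8 + 1), |hc ρ i| :=
        Finset.sum_nonneg fun i _ => abs_nonneg _
      calc _ ≤ (1 / (n:ℝ) ^ 2) * K ^ 2 * W := by gcongr
        _ = _ := by rw [hE]; ring
    have k3 : (1 - δ) * M n ≤ 2 * (1 + δ) - Bn ρ n / (2 * n) + E / (n : ℝ) ^ 2 := by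
      have : (1 / (2 * (n:ℝ))) * Bn ρ n = Bn ρ n / (2 * n) := by ring
      linarith
    -- upper bound for M n
    have k4 : M n ≤ 2 * Y := by
      have hb := (abs_le.mp (hBb n)).1
      have hbn : - Z ≤ Bn ρ n / (2 * n) := by
        rw [le_div_iff₀ (by positivity)]
        nlinarith
      have hen : E / (n : ℝ) ^ 2 ≤ E := by
        apply div_le_self hE0
        nlinarith
      have hy : (1 - δ) * M n ≤ Y := by rw [hY]; linarith
      have hY0 : 0 ≤ Y := by positivity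
      by_contra hcon
      push Not at hcon
      have : (1 - δ) * M n ≥ (1 / 2) * M n := by
        apply mul_le_mul_of_nonneg_right (by linarith) (by linarith)
      linarith
    -- conclusion
    have k5 : M n ≤ 2 * (1 + δ) - Bn ρ n / (2 * n) + E / (n : ℝ) ^ 2 + δ * (2 * Y) := by
      have := mul_le_mul_of_nonneg_left k4 hδ0
      linarith
    have k6 : Bn ρ n / 2 - T₀ / n ≤ n * (2 - M n) := by
      have : n * (2 - M n) ≥ n * (2 - (2 * (1 + δ) - Bn ρ n / (2 * n) + E / (n : ℝ) ^ 2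
          + δ * (2 * Y))) := by gcongr
      refine le_trans (le_of_eq ?_) this
      rw [hδ, hT]
      field_simp
      ring
    have : 1 / Real.pi * L = L / Real.pi := by ring
    rw [this]
    linarith
  · intro θ hθ
    have hs := Real.sin_pos_of_pos_of_lt_pi hθ.1 hθ.2
    rw [sum_tt]
    change (1 - δ) * Real.sin θ ≤ aq n (n / 8) (hc ρ) θ * (aq n (n / 8) (gc ρ) θ * Real.sin θ)
    rw [← mul_assoc]
    have := (abs_le.mp (hC n e4 θ)).1
    gcongr
    linarith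

end ErdosLag
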