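import Mathlib

/-!
Taylor coefficients of `(1-w)^r` (used with `r = ±1/4`) for MP_93ab53_an.
-/

namespace ErdosLag

open Finset

/-- Taylor coefficients of `(1-w)^r`. -/
noncomputable def tc (r : ℝ) (i : ℕ) : ℝ := (-1) ^ i * Ring.choose r i

lemma tc_zero (r : ℝ) : tc r 0 = 1 := by simp [tc]

lemma choose_succ_real (r : ℝ) (i : ℕ) :
    Ring.choose r (i + 1) = Ring.choose r i * ((r - i) / (i + 1)) := by
  rw [Ring.choose_eq_smul, Ring.choose_eq_smul, descPochhammer_succ_right,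
    Polynomial.smeval_mul, Nat.factorial_succ]
  simp only [smul_eq_mul, Polynomial.smeval_sub, Polynomial.smeval_X, pow_one,
    Polynomial.smeval_natCast, pow_zero, nsmul_eq_mul, mul_one]
  push_cast
  have h1 : (i.factorial : ℝ) ≠ 0 := by positivity
  have h2 : (i : ℝ) + 1 ≠ 0 := by positivity
  field_simp

lemma tc_succ (r : ℝ) (i : ℕ) : tc r (i + 1) = tc r i * ((i - r) / (i + 1)) := by
  unfold tc
  rw [choose_succ_real, pow_succ]
  ring

lemma tc_quarter_sum (N : ℕ) :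
    0 < ∑ i ∈ range (N + 1), tc (1 / 4) i ∧
      tc (1 / 4) (N + 1) = - (∑ i ∈ range (N + 1), tc (1 / 4) i) / (4 * (N + 1)) := by
  induction N with
  | zero => simp [tc_zero, tc_succ]; norm_num
  | succ N ih =>
    obtain ⟨h1, h2⟩ := ih
    have h3 : ∑ i ∈ range (N + 1 + 1), tc (1 / 4) i
        = (∑ i ∈ range (N + 1), tc (1 / 4) i) * ((N + 3 / 4) / (N + 1)) := by
      rw [Finset.sum_range_succ, h2]
      have : (N : ℝ) + 1 ≠ 0 := by positivity
      field_simp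
      ring
    refine ⟨?_, ?_⟩
    · rw [h3]; positivity
    · rw [tc_succ, h3, h2]
      have : (N : ℝ) + 1 ≠ 0 := by positivity
      have : (N : ℝ) + 1 + 1 ≠ 0 := by positivity
      push_cast
      field_simp
      ring

lemma tc_quarter_neg (i : ℕ) : tc (1 / 4) (i + 1) < 0 := by
  obtain ⟨h1, h2⟩ := tc_quarter_sum i
  rw [h2]
  apply div_neg_of_neg_of_pos (by linarith) (by positivity)

lemma sum_abs_tc_quarter (N : ℕ) : ∑ i ∈ Icc 1 N, |tc (1 / 4) i| < 1 := by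
  have h := (tc_quarter_sum N).1
  have h2 : ∑ i ∈ range (N + 1), tc (1 / 4) i = 1 + ∑ i ∈ Icc 1 N, tc (1 / 4) i := by
    rw [Finset.range_eq_Ico, Finset.sum_eq_sum_Ico_succ_bot (by omega), tc_zero]
    congr 1
  have h3 : ∑ i ∈ Icc 1 N, |tc (1 / 4) i| = - ∑ i ∈ Icc 1 N, tc (1 / 4) i := by
    rw [← Finset.sum_neg_distrib]
    refine Finset.sum_congr rfl fun i hi => ?_
    obtain ⟨j, rfl⟩ : ∃ j, i = j + 1 := ⟨i - 1, by have := (Finset.mem_Icc.mp hi).1; omega⟩
    exact abs_of_neg (tc_quarter_neg j)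
  linarith

lemma abs_tc_quarter_le (i : ℕ) : |tc (1 / 4) i| ≤ 1 := by
  rcases Nat.eq_zero_or_pos i with rfl | hi
  · simp [tc_zero]
  · have h := sum_abs_tc_quarter i
    have h2 : |tc (1 / 4) i| ≤ ∑ i ∈ Icc 1 i, |tc (1 / 4) i| :=
      Finset.single_le_sum (f := fun i => |tc (1 / 4) i|) (fun _ _ => abs_nonneg _)
        (Finset.mem_Icc.mpr ⟨hi, le_rfl⟩)
    linarith

lemma tc_negquarter (i : ℕ) : 0 < tc (-(1 / 4)) i ∧ tc (-(1 / 4)) i ≤ 1 := by
  induction i with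
  | zero => simp [tc_zero]
  | succ i ih =>
    obtain ⟨h1, h2⟩ := ih
    have h3 : 0 < ((i : ℝ) - -(1 / 4)) / (i + 1) := by
      apply div_pos <;> [(have : (0:ℝ) ≤ i := by positivity); skip]
      · linarith
      · positivity
    have h4 : ((i : ℝ) - -(1 / 4)) / (i + 1) ≤ 1 := by
      rw [div_le_one (by positivity)]; linarith
    rw [tc_succ]
    refine ⟨mul_pos h1 h3, ?_⟩
    calc _ ≤ 1 * (1:ℝ) := mul_le_mul h2 h4 h3.le (by norm_num)
      _ = 1 := by norm_num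

lemma abs_tc_negquarter_le (i : ℕ) : |tc (-(1 / 4)) i| ≤ 1 := by
  rw [abs_of_pos (tc_negquarter i).1]; exact (tc_negquarter i).2

lemma tc_conv (m : ℕ) :
    ∑ p ∈ antidiagonal m, tc (1 / 4) p.1 * tc (-(1 / 4)) p.2 = if m = 0 then 1 else 0 := by
  have h := Ring.add_choose_eq (r := (1 / 4 : ℝ)) (s := -(1 / 4)) m (Commute.all _ _)
  rw [add_neg_cancel, Ring.choose_zero_ite] at h
  have h2 : ∑ p ∈ antidiagonal m, tc (1 / 4) p.1 * tc (-(1 / 4)) p.2
      = (-1) ^ m * ∑ p ∈ antidiagonal m,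
        Ring.choose (1 / 4 : ℝ) p.1 * Ring.choose (-(1 / 4) : ℝ) p.2 := by
    rw [Finset.mul_sum]
    refine Finset.sum_congr rfl fun p hp => ?_
    rw [← Finset.HasAntidiagonal.mem_antidiagonal.mp hp, pow_add]
    unfold tc
    ring
  rw [h2, ← h]
  split_ifs with hm <;> simp [hm]

lemma hasSum_tc (r : ℝ) {w : ℂ} (hw : ‖w‖ < 1) :
    HasSum (fun i => (tc r i : ℂ) * w ^ i) ((1 - w) ^ (r : ℂ)) := by
  have h := (Complex.one_add_cpow_hasFPowerSeriesOnBall_zero (a := (r : ℂ))).hasSum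
    (y := -w) (by simpa [Metric.mem_eball, enorm_eq_nnnorm, ← NNReal.coe_lt_one] using hw)
  simp only [binomialSeries_apply, List.ofFn_const, List.prod_replicate, smul_eq_mul,
    zero_add] at h
  rw [show (1 : ℂ) + -w = 1 - w by ring] at h
  have h2 : (fun i => (tc r i : ℂ) * w ^ i) = fun n => Ring.choose (r : ℂ) n * (-w) ^ n := by
    funext i
    rw [neg_pow, tc]
    push_cast [Complex.ofReal_choose]
    ring
  rw [h2]
  exact h

end ErdosLag
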