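import Pool.Agent.W_MP_93ab53_an.UAlg
import Pool.Agent.W_MP_93ab53_an.KDefs

/-!
Estimates for the truncated series: the product `a_n Q` is `1 + O(1/n²)`.
-/

namespace ErdosLag

open Finset Filter Topology

/-- Coefficients of the amplitude. -/
noncomputable def hc (ρ : ℝ) (i : ℕ) : ℝ := tc (1 / 4) i * ρ ^ i

/-- Coefficients of the inverse amplitude. -/
noncomputable def gc (ρ : ℝ) (i : ℕ) : ℝ := tc (-(1 / 4)) i * ρ ^ i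

lemma summable_K {ρ : ℝ} (h0 : 0 ≤ ρ) (h1 : ρ < 1) :
    Summable (fun i : ℕ => ((i : ℝ) + 1) * ρ ^ i) := by
  have h : ‖ρ‖ < 1 := by rw [Real.norm_eq_abs, abs_of_nonneg h0]; exact h1
  have e1 := summable_pow_mul_geometric_of_norm_lt_one 1 h
  have e2 := summable_geometric_of_lt_one h0 h1
  refine (e1.add e2).congr fun i => ?_
  simp; ring

/-- The universal bound. -/
noncomputable def KK (ρ : ℝ) : ℝ := ∑' i : ℕ, ((i : ℝ) + 1) * ρ ^ i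

lemma norm_S_le {ρ : ℝ} (h0 : 0 ≤ ρ) (h1 : ρ < 1) (p : ℕ → ℝ)
    (hp : ∀ i, |p i| ≤ ((i : ℝ) + 1) * ρ ^ i) (N : ℕ) (θ : ℝ) : ‖S p N θ‖ ≤ KK ρ := by
  unfold S
  refine (norm_sum_le _ _).trans ?_
  have : ∀ i ∈ range (N + 1), ‖(p i : ℂ) * Complex.exp (2 * θ * Complex.I) ^ i‖
      ≤ ((i : ℝ) + 1) * ρ ^ i := by
    intro i _
    have e : Complex.exp (2 * θ * Complex.I) = Complex.exp (((2 * θ : ℝ) : ℂ) * Complex.I) := by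
      push_cast; rfl
    rw [norm_mul, norm_pow, e, Complex.norm_exp_ofReal_mul_I, one_pow, mul_one, Complex.norm_real]
    exact hp i
  refine (Finset.sum_le_sum this).trans ?_
  exact (summable_K h0 h1).sum_le_tsum _ (fun i _ => by positivity)

lemma KK_nonneg {ρ : ℝ} (h0 : 0 ≤ ρ) : 0 ≤ KK ρ := tsum_nonneg fun i => by positivity

lemma abs_hc_le {ρ : ℝ} (h0 : 0 ≤ ρ) (i : ℕ) : |hc ρ i| ≤ ρ ^ i := by
  unfold hc
  rw [abs_mul, abs_of_nonneg (pow_nonneg h0 i)]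
  exact mul_le_of_le_one_left (by positivity) (abs_tc_quarter_le i)

lemma abs_gc_le {ρ : ℝ} (h0 : 0 ≤ ρ) (i : ℕ) : |gc ρ i| ≤ ρ ^ i := by
  unfold gc
  rw [abs_mul, abs_of_nonneg (pow_nonneg h0 i)]
  exact mul_le_of_le_one_left (by positivity) (abs_tc_negquarter_le i)

lemma bd1 {ρ : ℝ} (h0 : 0 ≤ ρ) {p : ℕ → ℝ} (hp : ∀ i, |p i| ≤ ρ ^ i) (i : ℕ) :
    |p i| ≤ ((i : ℝ) + 1) * ρ ^ i := by
  refine (hp i).trans ?_
  have : 0 ≤ (i : ℝ) * ρ ^ i := by positivity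
  linarith [this, add_mul (i : ℝ) 1 (ρ ^ i), one_mul (ρ ^ i)]

lemma bd2 {ρ : ℝ} (h0 : 0 ≤ ρ) {p : ℕ → ℝ} (hp : ∀ i, |p i| ≤ ρ ^ i) (i : ℕ) :
    |(i : ℝ) * p i| ≤ ((i : ℝ) + 1) * ρ ^ i := by
  rw [abs_mul, Nat.abs_cast]
  have h2 : (i : ℝ) * |p i| ≤ i * ρ ^ i := mul_le_mul_of_nonneg_left (hp i) (by positivity)
  have : 0 ≤ ρ ^ i := by positivity
  linarith [this, add_mul (i : ℝ) 1 (ρ ^ i), one_mul (ρ ^ i)]

lemma abs_re_mul_conj_le (z w : ℂ) {A B : ℝ} (hz : ‖z‖ ≤ A) (hw : ‖w‖ ≤ B) :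
    |(z * (starRingEnd ℂ) w).re| ≤ A * B := by
  refine (Complex.abs_re_le_norm _).trans ?_
  rw [norm_mul, RCLike.norm_conj]
  exact mul_le_mul hz hw (norm_nonneg _) ((norm_nonneg _).trans hz)

lemma normSq_sub_one_le (z : ℂ) {r : ℝ} (hz : ‖z - 1‖ ≤ r) :
    |Complex.normSq z - 1| ≤ r * (2 + r) := by
  have hr : 0 ≤ r := (norm_nonneg _).trans hz
  have e : Complex.normSq z - 1 = ‖z - 1‖ ^ 2 + 2 * (z - 1).re := by
    rw [← Complex.normSq_eq_norm_sq, Complex.normSq_apply, Complex.normSq_apply]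
    simp
    ring
  rw [e]
  have h2 := Complex.abs_re_le_norm (z - 1)
  have h3 : ‖z - 1‖ ^ 2 ≤ r ^ 2 := by gcongr
  have h4 : (0:ℝ) ≤ ‖z - 1‖ ^ 2 := by positivity
  rw [abs_le] at h2 ⊢
  constructor <;> nlinarith [h2.1, h2.2]

lemma exists_B {ρ : ℝ} (h0 : 0 ≤ ρ) (h1 : ρ < 1) :
    ∃ B : ℝ, 0 ≤ B ∧ ∀ N : ℕ, ((N : ℝ) + 1) ^ 4 * ρ ^ (N + 1) ≤ B := by
  have h := tendsto_pow_const_mul_const_pow_of_abs_lt_one 4
    (show |ρ| < 1 by rw [abs_of_nonneg h0]; exact h1)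
  obtain ⟨B, hB⟩ := h.bddAbove_range
  refine ⟨B, ?_, fun N => ?_⟩
  · have := hB ⟨0, rfl⟩
    simpa using this
  · have := hB ⟨N + 1, rfl⟩
    simpa using this

/-- The key uniform estimate. -/
lemma prod_est {ρ : ℝ} (h0 : 0 ≤ ρ) (h1 : ρ < 1) :
    ∃ C : ℝ, 0 ≤ C ∧ ∀ n : ℕ, 1 ≤ n → ∀ θ : ℝ,
      |aq n (n / 8) (hc ρ) θ * aq n (n / 8) (gc ρ) θ - 1| ≤ C / (n : ℝ) ^ 2 := by
  obtain ⟨B, hB0, hB⟩ := exists_B h0 h1
  set K := KK ρ with hK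
  have hK0 : 0 ≤ K := KK_nonneg h0
  refine ⟨64 * B * (2 + B) + 32 * B * (1 + B) + 4 * K ^ 4, by positivity, fun n hn θ => ?_⟩
  have hn' : (0:ℝ) < n := by exact_mod_cast hn
  set N := n / 8 with hN
  have hnN : (n : ℝ) ≤ 8 * (N + 1) := by
    have : n ≤ 8 * (N + 1) := by omega
    exact_mod_cast this
  have hN1 : (0 : ℝ) < (N : ℝ) + 1 := by positivity
  have hN1' : (1 : ℝ) ≤ (N : ℝ) + 1 := by
    have : (0:ℝ) ≤ N := by positivity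
    linarith
  -- the four sums
  set H := S (hc ρ) N θ with hH
  set H' := S (fun i => i * hc ρ i) N θ with hH'
  set G' := S (fun i => i * gc ρ i) N θ with hG'
  set G₁ := S (gc ρ) N θ with hG₁
  have bH : ‖H‖ ≤ K := norm_S_le h0 h1 _ (bd1 h0 (abs_hc_le h0)) N θ
  have bH' : ‖H'‖ ≤ K := norm_S_le h0 h1 _ (bd2 h0 (abs_hc_le h0)) N θ
  have bG : ‖G₁‖ ≤ K := norm_S_le h0 h1 _ (bd1 h0 (abs_gc_le h0)) N θ
  have bG' : ‖G'‖ ≤ K := norm_S_le h0 h1 _ (bd2 h0 (abs_gc_le h0)) N θ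
  have hR : ‖H * G₁ - 1‖ ≤ (N + 1) ^ 2 * ρ ^ (N + 1) := norm_R_le N ρ θ h0 h1.le
  have hR' : ‖H' * G₁ + H * G'‖ ≤ (N + 1) ^ 2 * (2 * N * ρ ^ (N + 1)) := norm_R'_le N ρ θ h0 h1.le
  have hBN := hB N
  have hρN : 0 ≤ ρ ^ (N + 1) := by positivity
  have hR1 : ‖H * G₁ - 1‖ ≤ 64 * B / (n : ℝ) ^ 2 := by
    refine hR.trans ?_
    rw [le_div_iff₀ (by positivity)]
    calc ((N : ℝ) + 1) ^ 2 * ρ ^ (N + 1) * (n : ℝ) ^ 2
        ≤ ((N : ℝ) + 1) ^ 2 * ρ ^ (N + 1) * (8 * (N + 1)) ^ 2 := by gcongr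
      _ = 64 * (((N : ℝ) + 1) ^ 4 * ρ ^ (N + 1)) := by ring
      _ ≤ 64 * B := by linarith
  have hR2 : ‖H * G₁ - 1‖ ≤ B := by
    refine hR.trans (le_trans ?_ hBN)
    have : ((N : ℝ) + 1) ^ 2 ≤ (N + 1) ^ 4 := pow_le_pow_right₀ hN1' (by norm_num)
    exact mul_le_mul_of_nonneg_right this hρN
  have hR3 : ‖H' * G₁ + H * G'‖ ≤ 16 * B / n := by
    refine hR'.trans ?_
    rw [le_div_iff₀ hn']
    calc ((N : ℝ) + 1) ^ 2 * (2 * N * ρ ^ (N + 1)) * n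
        ≤ ((N : ℝ) + 1) ^ 2 * (2 * (N + 1) * ρ ^ (N + 1)) * (8 * (N + 1)) := by
          gcongr; linarith
      _ = 16 * (((N : ℝ) + 1) ^ 4 * ρ ^ (N + 1)) := by ring
      _ ≤ 16 * B := by linarith
  have hHG : ‖H * G₁‖ ≤ 1 + B := by
    calc ‖H * G₁‖ = ‖(H * G₁ - 1) + 1‖ := by ring_nf
      _ ≤ ‖H * G₁ - 1‖ + ‖(1:ℂ)‖ := norm_add_le _ _
      _ ≤ 1 + B := by rw [norm_one]; linarith
  -- the decomposition
  have hprod : aq n N (hc ρ) θ * aq n N (gc ρ) θ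
      = Complex.normSq (H * G₁)
        - 2 * (1 / n) * ((H' * G₁ + H * G') * (starRingEnd ℂ) (H * G₁)).re
        + 4 * (1 / (n:ℝ)) ^ 2 * ((H' * (starRingEnd ℂ) H).re * (G' * (starRingEnd ℂ) G₁).re) := by
    rw [aq_eq, aq_eq, ← alg_prod]
    ring
  rw [hprod]
  have t1 := normSq_sub_one_le (H * G₁) (le_refl ‖H * G₁ - 1‖)
  have t1' : |Complex.normSq (H * G₁) - 1| ≤ 64 * B * (2 + B) / (n : ℝ) ^ 2 := by
    refine t1.trans ?_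
    calc ‖H * G₁ - 1‖ * (2 + ‖H * G₁ - 1‖) ≤ (64 * B / (n : ℝ) ^ 2) * (2 + B) := by gcongr
      _ = _ := by ring
  have t2 := abs_re_mul_conj_le (H' * G₁ + H * G') (H * G₁) hR3 hHG
  have t2' : |2 * (1 / n) * ((H' * G₁ + H * G') * (starRingEnd ℂ) (H * G₁)).re|
      ≤ 32 * B * (1 + B) / (n : ℝ) ^ 2 := by
    rw [abs_mul, abs_of_nonneg (by positivity : (0:ℝ) ≤ 2 * (1 / n))]
    calc 2 * (1 / n) * |((H' * G₁ + H * G') * (starRingEnd ℂ) (H * G₁)).re|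
        ≤ 2 * (1 / n) * (16 * B / n * (1 + B)) := by gcongr
      _ = _ := by field_simp; ring
  have t3a := abs_re_mul_conj_le H' H bH' bH
  have t3b := abs_re_mul_conj_le G' G₁ bG' bG
  have t3' : |4 * (1 / (n:ℝ)) ^ 2 *
      ((H' * (starRingEnd ℂ) H).re * (G' * (starRingEnd ℂ) G₁).re)|
      ≤ 4 * K ^ 4 / (n : ℝ) ^ 2 := by
    rw [abs_mul (4 * (1 / (n:ℝ)) ^ 2), abs_of_nonneg (by positivity : (0:ℝ) ≤ 4 * (1 / (n:ℝ)) ^ 2),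
      abs_mul]
    calc 4 * (1 / (n:ℝ)) ^ 2 *
        (|(H' * (starRingEnd ℂ) H).re| * |(G' * (starRingEnd ℂ) G₁).re|)
        ≤ 4 * (1 / (n:ℝ)) ^ 2 * ((K * K) * (K * K)) := by gcongr
      _ = _ := by ring
  have hsum : (64 * B * (2 + B) + 32 * B * (1 + B) + 4 * K ^ 4) / (n : ℝ) ^ 2
      = 64 * B * (2 + B) / (n : ℝ) ^ 2 + 32 * B * (1 + B) / (n : ℝ) ^ 2
        + 4 * K ^ 4 / (n : ℝ) ^ 2 := by ring
  rw [hsum]
  rw [abs_le] at t1' t2' t3' ⊢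
  constructor <;> linarith [t1'.1, t1'.2, t2'.1, t2'.2, t3'.1, t3'.2]

end ErdosLag
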