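import Pool.Agent.W_MP_93ab53_an.UEst

/-!
Sine coefficients of `sin θ * Q` and limits of the truncated quantities.
-/

namespace ErdosLag

open Finset Filter Topology MeasureTheory

/-- Sine coefficients of `sin θ * aq n N g θ`. -/
noncomputable def tt (n N : ℕ) (g : ℕ → ℝ) (j : ℕ) : ℝ :=
  ∑ i ∈ range (N + 1), ∑ l ∈ range (N + 1),
    g i * g l * (1 - (i + l : ℝ) / n) *
      ((if 2 * i + 1 = 2 * l + j then 1 else 0) - (if 2 * i + 1 + j = 2 * l then 1 else 0))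

lemma inner_sum (N i l : ℕ) (hi : i ≤ N) (hl : l ≤ N) (θ : ℝ) :
    ∑ j ∈ Icc 1 (2 * N + 1),
      ((if 2 * i + 1 = 2 * l + j then (1:ℝ) else 0) - (if 2 * i + 1 + j = 2 * l then 1 else 0))
        * Real.sin (j * θ) = Real.sin ((2 * ((i : ℝ) - l) + 1) * θ) := by
  rcases le_or_gt l i with h | h
  · obtain ⟨d, rfl⟩ := Nat.exists_eq_add_of_le h
    rw [Finset.sum_eq_single (2 * d + 1)]
    · rw [if_pos (by omega), if_neg (by omega)]
      push_cast
      ring_nf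
    · intro j _ hj
      rw [if_neg (by omega), if_neg (by omega)]
      simp
    · intro hd
      exact absurd (Finset.mem_Icc.mpr ⟨by omega, by omega⟩) hd
  · obtain ⟨d, rfl⟩ := Nat.exists_eq_add_of_le (Nat.succ_le_of_lt h)
    rw [Finset.sum_eq_single (2 * d + 1)]
    · rw [if_neg (by omega), if_pos (by omega)]
      rw [show (2 * ((i : ℝ) - ((i.succ + d : ℕ) : ℝ)) + 1) * θ = -(((2 * d + 1 : ℕ) : ℝ) * θ) by
        push_cast; ring, Real.sin_neg]
      ring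
    · intro j _ hj
      rw [if_neg (by omega), if_neg (by omega)]
      simp
    · intro hd
      exact absurd (Finset.mem_Icc.mpr ⟨by omega, by omega⟩) hd

lemma sum_tt (n N : ℕ) (g : ℕ → ℝ) (θ : ℝ) :
    ∑ j ∈ Icc 1 (2 * N + 1), tt n N g j * Real.sin (j * θ) = aq n N g θ * Real.sin θ := by
  have e1 : ∑ j ∈ Icc 1 (2 * N + 1), tt n N g j * Real.sin (j * θ)
      = ∑ i ∈ range (N + 1), ∑ l ∈ range (N + 1), g i * g l * (1 - (i + l : ℝ) / n) *
        Real.sin ((2 * ((i : ℝ) - l) + 1) * θ) := by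
    unfold tt
    simp only [Finset.sum_mul]
    rw [Finset.sum_comm]
    refine Finset.sum_congr rfl fun i hi => ?_
    rw [Finset.sum_comm]
    refine Finset.sum_congr rfl fun l hl => ?_
    rw [← inner_sum N i l (Nat.lt_succ_iff.mp (Finset.mem_range.mp hi))
      (Nat.lt_succ_iff.mp (Finset.mem_range.mp hl)) θ, Finset.mul_sum]
    refine Finset.sum_congr rfl fun j _ => ?_
    ring
  have e2 : ∑ i ∈ range (N + 1), ∑ l ∈ range (N + 1), g i * g l * (1 - (i + l : ℝ) / n) *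
        Real.sin (2 * ((i : ℝ) - l) * θ) = 0 := by
    have h : ∑ i ∈ range (N + 1), ∑ l ∈ range (N + 1), g i * g l * (1 - (i + l : ℝ) / n) *
        Real.sin (2 * ((i : ℝ) - l) * θ)
        = - ∑ i ∈ range (N + 1), ∑ l ∈ range (N + 1), g i * g l * (1 - (i + l : ℝ) / n) *
        Real.sin (2 * ((i : ℝ) - l) * θ) := by
      conv_lhs => rw [Finset.sum_comm]
      rw [← Finset.sum_neg_distrib]
      refine Finset.sum_congr rfl fun i _ => ?_
      rw [← Finset.sum_neg_distrib]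
      refine Finset.sum_congr rfl fun l _ => ?_
      rw [show 2 * ((l : ℝ) - i) * θ = -(2 * ((i : ℝ) - l) * θ) by ring, Real.sin_neg]
      ring
    linarith
  rw [e1]
  have e3 : ∑ i ∈ range (N + 1), ∑ l ∈ range (N + 1), g i * g l * (1 - (i + l : ℝ) / n) *
        Real.sin ((2 * ((i : ℝ) - l) + 1) * θ)
      = Real.cos θ * (∑ i ∈ range (N + 1), ∑ l ∈ range (N + 1),
        g i * g l * (1 - (i + l : ℝ) / n) * Real.sin (2 * ((i : ℝ) - l) * θ))
        + aq n N g θ * Real.sin θ := by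
    unfold aq
    rw [Finset.mul_sum, Finset.sum_mul, ← Finset.sum_add_distrib]
    refine Finset.sum_congr rfl fun i _ => ?_
    rw [Finset.mul_sum, Finset.sum_mul, ← Finset.sum_add_distrib]
    refine Finset.sum_congr rfl fun l _ => ?_
    rw [show (2 * ((i : ℝ) - l) + 1) * θ = 2 * ((i : ℝ) - l) * θ + θ by ring, Real.sin_add]
    ring
  rw [e3, e2]
  ring

/-- Geometric decay of the sine coefficients. -/
lemma tt_bound {σ τ : ℝ} (hτ0 : 0 ≤ τ) (hτ1 : τ < 1) (hσ : σ = τ ^ 2) (n N : ℕ)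
    (hnN : 2 * N ≤ n) (g : ℕ → ℝ) (hg : ∀ i, |g i| ≤ (σ ^ 2) ^ i) (j : ℕ) (hj : 1 ≤ j) :
    |tt n N g j| ≤ (1 - σ)⁻¹ ^ 2 * τ ^ (j - 1) := by
  have hσ0 : 0 ≤ σ := by rw [hσ]; positivity
  have hσ1 : σ < 1 := by rw [hσ]; nlinarith
  have hterm : ∀ i ∈ range (N + 1), ∀ l ∈ range (N + 1),
      |g i * g l * (1 - (i + l : ℝ) / n) *
      ((if 2 * i + 1 = 2 * l + j then 1 else 0) - (if 2 * i + 1 + j = 2 * l then 1 else 0))|
      ≤ τ ^ (j - 1) * (σ ^ i * σ ^ l) := by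
    intro i hi l hl
    have hi' := Nat.lt_succ_iff.mp (Finset.mem_range.mp hi)
    have hl' := Nat.lt_succ_iff.mp (Finset.mem_range.mp hl)
    have hw : |1 - (i + l : ℝ) / n| ≤ 1 := by
      have h1 : 0 ≤ (i + l : ℝ) / n := by positivity
      have h2 : (i + l : ℝ) / n ≤ 1 := by
        rcases Nat.eq_zero_or_pos n with hn | hn
        · subst hn; simp
        · rw [div_le_one (by exact_mod_cast hn)]
          have : i + l ≤ n := by omega
          exact_mod_cast this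
      rw [abs_le]; constructor <;> linarith
    by_cases hc : 2 * i + 1 = 2 * l + j ∨ 2 * i + 1 + j = 2 * l
    · have hind : |((if 2 * i + 1 = 2 * l + j then (1:ℝ) else 0)
          - (if 2 * i + 1 + j = 2 * l then 1 else 0))| ≤ 1 := by
        split_ifs <;> simp
      have hji : j - 1 ≤ 2 * (i + l) := by omega
      rw [abs_mul, abs_mul, abs_mul]
      calc |g i| * |g l| * |1 - (i + l : ℝ) / n| * _
          ≤ ((σ ^ 2) ^ i) * ((σ ^ 2) ^ l) * 1 * 1 := by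
            gcongr
            · exact hg i
            · exact hg l
        _ = τ ^ (2 * (i + l)) * (σ ^ i * σ ^ l) := by
            rw [pow_mul τ, ← hσ]; ring
        _ ≤ τ ^ (j - 1) * (σ ^ i * σ ^ l) := by
            gcongr ?_ * _
            exact pow_le_pow_of_le_one hτ0 hτ1.le hji
    · push Not at hc
      rw [if_neg hc.1, if_neg hc.2]
      simp only [sub_self, mul_zero, abs_zero]
      positivity
  have hgeo : ∑ i ∈ range (N + 1), σ ^ i ≤ (1 - σ)⁻¹ := by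
    rw [← tsum_geometric_of_lt_one hσ0 hσ1]
    exact (summable_geometric_of_lt_one hσ0 hσ1).sum_le_tsum _ (fun i _ => by positivity)
  calc |tt n N g j| ≤ ∑ i ∈ range (N + 1), ∑ l ∈ range (N + 1), τ ^ (j - 1) * (σ ^ i * σ ^ l) := by
        unfold tt
        refine (Finset.abs_sum_le_sum_abs _ _).trans (Finset.sum_le_sum fun i hi => ?_)
        exact (Finset.abs_sum_le_sum_abs _ _).trans (Finset.sum_le_sum fun l hl => hterm i hi l hl)
    _ = τ ^ (j - 1) * ((∑ i ∈ range (N + 1), σ ^ i) * (∑ l ∈ range (N + 1), σ ^ l)) := by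
        rw [Finset.sum_mul_sum, Finset.mul_sum]
        refine Finset.sum_congr rfl fun i _ => ?_
        rw [Finset.mul_sum]
    _ ≤ τ ^ (j - 1) * ((1 - σ)⁻¹ * (1 - σ)⁻¹) := by
        have : 0 ≤ ∑ i ∈ range (N + 1), σ ^ i := Finset.sum_nonneg fun i _ => by positivity
        gcongr
    _ = (1 - σ)⁻¹ ^ 2 * τ ^ (j - 1) := by ring

/-! ### Orthogonality -/

lemma int_cos_mul (k : ℤ) : ∫ θ in (0:ℝ)..Real.pi, Real.cos (k * θ) = if k = 0 then Real.pi else 0 := by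
  split_ifs with h
  · simp [h]
  · have hk : (k : ℝ) ≠ 0 := by exact_mod_cast h
    rw [intervalIntegral.integral_comp_mul_left (fun x => Real.cos x) hk, integral_cos]
    simp [Real.sin_int_mul_pi]

lemma int_sin_mul_sin (m j : ℕ) (hj : 1 ≤ j) :
    ∫ θ in (0:ℝ)..Real.pi, Real.sin (m * θ) * Real.sin (j * θ)
      = if m = j then Real.pi / 2 else 0 := by
  have e : ∀ θ : ℝ, Real.sin (m * θ) * Real.sin (j * θ)
      = (1 / 2) * Real.cos (((m - j : ℤ) : ℝ) * θ) - (1 / 2) * Real.cos (((m + j : ℤ) : ℝ) * θ) := by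
    intro θ
    push_cast
    rw [sub_mul, add_mul, Real.cos_sub, Real.cos_add]
    ring
  simp_rw [e]
  rw [intervalIntegral.integral_sub (Continuous.intervalIntegrable (by fun_prop) _ _)
    (Continuous.intervalIntegrable (by fun_prop) _ _), intervalIntegral.integral_const_mul,
    intervalIntegral.integral_const_mul, int_cos_mul, int_cos_mul]
  have h1 : ¬ ((m : ℤ) + j = 0) := by omega
  rw [if_neg h1]
  by_cases h : m = j
  · subst h; simp; ring
  · rw [if_neg (by omega), if_neg h]; simp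

lemma continuous_S (g : ℕ → ℝ) (N : ℕ) : Continuous (S g N) := by
  unfold S
  fun_prop

lemma continuous_aq (n N : ℕ) (g : ℕ → ℝ) : Continuous (aq n N g) := by
  unfold aq
  fun_prop

lemma continuous_a0 (N : ℕ) (g : ℕ → ℝ) : Continuous (a0 N g) := by
  unfold a0
  fun_prop

lemma tt_eq (n N : ℕ) (g : ℕ → ℝ) (j : ℕ) (hj : 1 ≤ j) (hj2 : j ≤ 2 * N + 1) :
    tt n N g j = (2 / Real.pi) *
      ∫ θ in (0:ℝ)..Real.pi, aq n N g θ * Real.sin θ * Real.sin (j * θ) := by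
  have e : ∫ θ in (0:ℝ)..Real.pi, aq n N g θ * Real.sin θ * Real.sin (j * θ)
      = ∑ m ∈ Icc 1 (2 * N + 1), tt n N g m *
        ∫ θ in (0:ℝ)..Real.pi, Real.sin (m * θ) * Real.sin (j * θ) := by
    simp_rw [← sum_tt, Finset.sum_mul]
    rw [intervalIntegral.integral_finsetSum
      (fun m _ => Continuous.intervalIntegrable (by fun_prop) _ _)]
    refine Finset.sum_congr rfl fun m _ => ?_
    rw [← intervalIntegral.integral_const_mul]
    refine intervalIntegral.integral_congr fun θ _ => ?_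
    ring
  rw [e, Finset.sum_eq_single j]
  · rw [int_sin_mul_sin _ _ hj, if_pos rfl]
    field_simp
  · intro m _ hm
    rw [int_sin_mul_sin _ _ hj, if_neg hm, mul_zero]
  · intro h; exact absurd (Finset.mem_Icc.mpr ⟨hj, hj2⟩) h

/-! ### Limits -/

lemma X_pos {ρ : ℝ} (h0 : 0 ≤ ρ) (h1 : ρ < 1) (θ : ℝ) :
    0 < 1 - 2 * ρ * Real.cos (2 * θ) + ρ ^ 2 := by
  have hc := Real.cos_le_one (2 * θ)
  have : 2 * ρ * Real.cos (2 * θ) ≤ 2 * ρ := by nlinarith
  nlinarith [sq_nonneg (1 - ρ), sq_pos_of_pos (show 0 < 1 - ρ by linarith)]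

lemma amp_pos {ρ : ℝ} (h0 : 0 ≤ ρ) (h1 : ρ < 1) (θ : ℝ) : 0 < amp ρ θ :=
  Real.sqrt_pos.mpr (Real.sqrt_pos.mpr (X_pos h0 h1 θ))

lemma norm_one_sub (ρ θ : ℝ) :
    ‖1 - (ρ : ℂ) * Complex.exp (2 * θ * Complex.I)‖
      = √(1 - 2 * ρ * Real.cos (2 * θ) + ρ ^ 2) := by
  rw [← Real.sqrt_sq (norm_nonneg _), ← Complex.normSq_eq_norm_sq]
  congr 1
  have : Complex.exp (2 * θ * Complex.I) = Complex.exp (((2 * θ : ℝ) : ℂ) * Complex.I) := by
    push_cast; rfl
  rw [this, Complex.normSq_apply]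
  simp only [Complex.sub_re, Complex.sub_im, Complex.one_re, Complex.one_im,
    Complex.re_ofReal_mul, Complex.im_ofReal_mul, Complex.exp_ofReal_mul_I_re,
    Complex.exp_ofReal_mul_I_im]
  nlinarith [Real.sin_sq_add_cos_sq (2 * θ)]

lemma tendsto_S {ρ : ℝ} (h0 : 0 ≤ ρ) (h1 : ρ < 1) (r θ : ℝ) :
    Tendsto (fun N => Complex.normSq (S (fun i => tc r i * ρ ^ i) N θ)) atTop
      (𝓝 ((‖1 - (ρ : ℂ) * Complex.exp (2 * θ * Complex.I)‖ ^ r) ^ 2)) := by
  have hv : ‖(ρ : ℂ) * Complex.exp (2 * θ * Complex.I)‖ < 1 := by rw [norm_v _ _ h0]; exact h1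
  have h := (hasSum_tc r hv).tendsto_sum_nat
  have h2 := h.comp (tendsto_add_atTop_nat 1)
  have h3 := (Complex.continuous_normSq.tendsto _).comp h2
  have e : Complex.normSq ((1 - (ρ : ℂ) * Complex.exp (2 * θ * Complex.I)) ^ (r : ℂ))
      = (‖1 - (ρ : ℂ) * Complex.exp (2 * θ * Complex.I)‖ ^ r) ^ 2 := by
    rw [Complex.normSq_eq_norm_sq, Complex.norm_cpow_real]
  rw [e] at h3
  refine h3.congr fun N => ?_
  simp only [Function.comp, S]
  congr 1
  refine Finset.sum_congr rfl fun i _ => ?_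
  push_cast
  ring

lemma tendsto_hc {ρ : ℝ} (h0 : 0 ≤ ρ) (h1 : ρ < 1) (θ : ℝ) :
    Tendsto (fun N => a0 N (hc ρ) θ) atTop (𝓝 (amp ρ θ)) := by
  have h := tendsto_S h0 h1 (1 / 4) θ
  have e : (‖1 - (ρ : ℂ) * Complex.exp (2 * θ * Complex.I)‖ ^ (1 / 4 : ℝ)) ^ 2 = amp ρ θ := by
    rw [← Real.rpow_natCast, ← Real.rpow_mul (norm_nonneg _), norm_one_sub]
    unfold amp
    rw [Real.sqrt_eq_rpow (√(1 - 2 * ρ * Real.cos (2 * θ) + ρ ^ 2))]
    norm_num
  rw [e] at h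
  refine h.congr fun N => ?_
  rw [a0_eq]; rfl

lemma tendsto_gc {ρ : ℝ} (h0 : 0 ≤ ρ) (h1 : ρ < 1) (θ : ℝ) :
    Tendsto (fun N => Complex.normSq (S (gc ρ) N θ)) atTop (𝓝 (1 / amp ρ θ)) := by
  have h := tendsto_S h0 h1 (-(1 / 4)) θ
  have e : (‖1 - (ρ : ℂ) * Complex.exp (2 * θ * Complex.I)‖ ^ (-(1 / 4) : ℝ)) ^ 2
      = 1 / amp ρ θ := by
    rw [← Real.rpow_natCast, ← Real.rpow_mul (norm_nonneg _), norm_one_sub]
    unfold amp
    rw [Real.sqrt_eq_rpow (√(1 - 2 * ρ * Real.cos (2 * θ) + ρ ^ 2)),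
      show (-(1 / 4) * ((2 : ℕ) : ℝ)) = -(1 / 2) by norm_num, Real.rpow_neg (Real.sqrt_nonneg _),
      one_div (√(1 - 2 * ρ * Real.cos (2 * θ) + ρ ^ 2) ^ (1 / 2 : ℝ))]
  rw [e] at h
  exact h

lemma abs_a0_le {ρ : ℝ} (h0 : 0 ≤ ρ) (h1 : ρ < 1) (N : ℕ) (θ : ℝ) :
    |a0 N (hc ρ) θ| ≤ KK ρ ^ 2 := by
  rw [a0_eq, abs_of_nonneg (Complex.normSq_nonneg _), Complex.normSq_eq_norm_sq]
  have := norm_S_le h0 h1 _ (bd1 h0 (abs_hc_le h0)) N θ
  gcongr

lemma abs_cross_le {ρ : ℝ} (h0 : 0 ≤ ρ) (h1 : ρ < 1) (N : ℕ) (θ : ℝ) :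
    |(S (fun i => i * gc ρ i) N θ * (starRingEnd ℂ) (S (gc ρ) N θ)).re| ≤ KK ρ * KK ρ :=
  abs_re_mul_conj_le _ _ (norm_S_le h0 h1 _ (bd2 h0 (abs_gc_le h0)) N θ)
    (norm_S_le h0 h1 _ (bd1 h0 (abs_gc_le h0)) N θ)

lemma abs_aq_le {ρ : ℝ} (h0 : 0 ≤ ρ) (h1 : ρ < 1) (n : ℕ) (hn : 1 ≤ n) (N : ℕ) (θ : ℝ) :
    |aq n N (gc ρ) θ| ≤ 3 * KK ρ ^ 2 := by
  have hb := norm_S_le h0 h1 _ (bd1 h0 (abs_gc_le h0)) N θ
  have hc := abs_cross_le h0 h1 N θ
  have hn' : (1:ℝ) ≤ n := by exact_mod_cast hn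
  rw [aq_eq]
  have e1 : |Complex.normSq (S (gc ρ) N θ)| ≤ KK ρ ^ 2 := by
    rw [abs_of_nonneg (Complex.normSq_nonneg _), Complex.normSq_eq_norm_sq]
    gcongr
  have e2 : |2 / (n:ℝ) * (S (fun i => i * gc ρ i) N θ * (starRingEnd ℂ) (S (gc ρ) N θ)).re|
      ≤ 2 * KK ρ ^ 2 := by
    rw [abs_mul, abs_of_nonneg (by positivity : (0:ℝ) ≤ 2 / n)]
    calc 2 / (n:ℝ) * _ ≤ 2 * (KK ρ * KK ρ) := by
          gcongr
          rw [div_le_iff₀ (by linarith)]
          nlinarith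
      _ = _ := by ring
  calc _ ≤ |Complex.normSq (S (gc ρ) N θ)| + _ := abs_sub _ _
    _ ≤ _ := by linarith

lemma tendsto_div8 : Tendsto (fun n : ℕ => n / 8) atTop atTop :=
  Nat.tendsto_div_const_atTop (by norm_num)

lemma tendsto_aq {ρ : ℝ} (h0 : 0 ≤ ρ) (h1 : ρ < 1) (θ : ℝ) :
    Tendsto (fun n : ℕ => aq n (n / 8) (gc ρ) θ) atTop (𝓝 (1 / amp ρ θ)) := by
  have h := (tendsto_gc h0 h1 θ).comp tendsto_div8
  have h2 : Tendsto (fun n : ℕ => 2 / (n:ℝ) *
      (S (fun i => i * gc ρ i) (n / 8) θ * (starRingEnd ℂ) (S (gc ρ) (n / 8) θ)).re)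
      atTop (𝓝 0) := by
    have hb : Tendsto (fun n : ℕ => 2 / (n:ℝ) * (KK ρ * KK ρ)) atTop (𝓝 0) := by
      have := (tendsto_const_div_atTop_nhds_zero_nat (2:ℝ)).mul_const (KK ρ * KK ρ)
      simpa using this
    refine squeeze_zero_norm (fun n => ?_) hb
    rw [Real.norm_eq_abs, abs_mul, abs_of_nonneg (by positivity : (0:ℝ) ≤ 2 / n)]
    gcongr
    exact abs_cross_le h0 h1 _ θ
  have h3 := h.sub h2
  rw [sub_zero] at h3
  refine h3.congr fun n => ?_
  rw [aq_eq]; rfl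

lemma tendsto_alpha {ρ : ℝ} (h0 : 0 ≤ ρ) (h1 : ρ < 1) (j : ℕ) :
    Tendsto (fun n : ℕ => ∫ θ in (0:ℝ)..Real.pi, a0 (n / 8) (hc ρ) θ * Real.sin (j * θ)) atTop
      (𝓝 (alpha ρ j)) := by
  unfold alpha
  refine intervalIntegral.tendsto_integral_filter_of_dominated_convergence
    (fun _ => KK ρ ^ 2) ?_ ?_ ?_ ?_
  · refine Eventually.of_forall fun n => ?_
    exact ((continuous_a0 _ _).mul (by fun_prop)).aestronglyMeasurable
  · refine Eventually.of_forall fun n => Eventually.of_forall fun θ _ => ?_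
    rw [Real.norm_eq_abs, abs_mul]
    calc _ ≤ KK ρ ^ 2 * 1 := by
          gcongr
          · exact abs_a0_le h0 h1 _ θ
          · exact Real.abs_sin_le_one _
      _ = _ := mul_one _
  · exact intervalIntegrable_const
  · refine Eventually.of_forall fun θ _ => ?_
    exact ((tendsto_hc h0 h1 θ).comp tendsto_div8).mul_const _

lemma tendsto_beta {ρ : ℝ} (h0 : 0 ≤ ρ) (h1 : ρ < 1) (j : ℕ) :
    Tendsto (fun n : ℕ => ∫ θ in (0:ℝ)..Real.pi,
      aq n (n / 8) (gc ρ) θ * Real.sin θ * Real.sin (j * θ)) atTop (𝓝 (beta ρ j)) := by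
  unfold beta
  refine intervalIntegral.tendsto_integral_filter_of_dominated_convergence
    (fun _ => 3 * KK ρ ^ 2) ?_ ?_ ?_ ?_
  · refine Eventually.of_forall fun n => ?_
    exact (((continuous_aq _ _ _).mul (by fun_prop)).mul (by fun_prop)).aestronglyMeasurable
  · filter_upwards [eventually_ge_atTop 1] with n hn
    refine Eventually.of_forall fun θ _ => ?_
    rw [Real.norm_eq_abs, abs_mul, abs_mul]
    calc _ ≤ 3 * KK ρ ^ 2 * 1 * 1 := by
          gcongr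
          · exact abs_aq_le h0 h1 n hn _ θ
          · exact Real.abs_sin_le_one _
          · exact Real.abs_sin_le_one _
      _ = _ := by ring
  · exact intervalIntegrable_const
  · refine Eventually.of_forall fun θ _ => ?_
    have h := ((tendsto_aq h0 h1 θ).mul_const (Real.sin θ)).mul_const (Real.sin (j * θ))
    rw [one_div_mul_eq_div] at h
    exact h

lemma tendsto_tt {ρ : ℝ} (h0 : 0 ≤ ρ) (h1 : ρ < 1) (j : ℕ) (hj : 1 ≤ j) :
    Tendsto (fun n : ℕ => tt n (n / 8) (gc ρ) j) atTop (𝓝 ((2 / Real.pi) * beta ρ j)) := by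
  refine ((tendsto_beta h0 h1 j).const_mul (2 / Real.pi)).congr' ?_
  filter_upwards [tendsto_div8.eventually_ge_atTop j] with n hn
  rw [tt_eq n (n / 8) (gc ρ) j hj (by omega)]

end ErdosLag
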